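import Pool.Agent.H309.DG.Traj

/-!
# Project DP: initial velocities `(∑ zⁱ Pᵢ(y), 0, Q(y))` between two plates

Statements (leaves) with paper proofs. Every leaf is a `Prop`; earlier leaves may be taken as
hypotheses where the docstring says so.
-/

set_option autoImplicit false

open Set Filter Topology MeasureTheory
open scoped ENNReal

namespace Pool.Agent.H309.DP

open Pool.Agent.Q61.NC Pool.Agent.H309.DF Pool.Agent.H309.DG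

/-- `q` is classical for `t > 0`, `|y| ≤ a`, with `q = 0` at `y = ± a` and
`∂ₜ q = ∂_y² q + F`. -/
structure CFlow (a : ℝ) (F q qt qy qyy : ℝ → ℝ → ℝ) : Prop where
  c : ContinuousOn (fun z : ℝ × ℝ => q z.1 z.2) (Ioi 0 ×ˢ Icc (-a) a)
  ct : ContinuousOn (fun z : ℝ × ℝ => qt z.1 z.2) (Ioi 0 ×ˢ Icc (-a) a)
  cy : ContinuousOn (fun z : ℝ × ℝ => qy z.1 z.2) (Ioi 0 ×ˢ Icc (-a) a)
  cyy : ContinuousOn (fun z : ℝ × ℝ => qyy z.1 z.2) (Ioi 0 ×ˢ Icc (-a) a)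
  dt : ∀ t, 0 < t → ∀ y ∈ Icc (-a) a, HasDerivAt (fun s => q s y) (qt t y) t
  dy : ∀ t, 0 < t → ∀ y ∈ Ioo (-a) a, HasDerivAt (q t) (qy t y) y
  dyy : ∀ t, 0 < t → ∀ y ∈ Ioo (-a) a, HasDerivAt (qy t) (qyy t y) y
  wall : ∀ t, 0 < t → q t a = 0 ∧ q t (-a) = 0
  eq : ∀ t, 0 < t → ∀ y ∈ Icc (-a) a, qt t y = qyy t y + F t y

/-- `CFlow` with the initial value `f` (in `L²`) and locally finite energy. -/
structure SFlow (a : ℝ) (f : ℝ → ℝ) (F q qt qy qyy : ℝ → ℝ → ℝ) : Prop where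
  cl : CFlow a F q qt qy qyy
  lim : Tendsto (fun t => ∫⁻ y in Icc (-a) a, ‖q t y - f y‖ₑ ^ 2) (𝓝[>] 0) (𝓝 0)
  en : ∀ T : ℝ, ∫⁻ t in Ioc 0 T, ∫⁻ y in Icc (-a) a, ‖qy t y‖ₑ ^ 2 < ⊤

/-- The drift is dominated by a function which is integrable near `t = 0`. -/
def Drf (a : ℝ) (w : ℝ → ℝ → ℝ) : Prop :=
  ∃ om : ℝ → ℝ, ContinuousOn om (Ioi 0) ∧ (∀ t, 0 < t → ∀ y ∈ Icc (-a) a, |w t y| ≤ om t) ∧
    ∀ T, 0 < T → IntegrableOn om (Ioc 0 T)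

/-- The switches `R j = ∂_z^j R 0`, `∂ₜ R 0 = ∂_z² R 0`, `R 0` near `z ^ n` for small `t`,
a heat polynomial for `t ≤ T / 2` (so `R j = 0` for `j > n`), and `0` for `t ≥ T`. -/
structure RFamP (n : ℕ) (b T ε : ℝ) (R : ℕ → ℝ → ℝ → ℝ) : Prop where
  c : ∀ j, ContinuousOn (fun z : ℝ × ℝ => R j z.1 z.2) (Ioi 0 ×ˢ Icc (-b) b)
  dt : ∀ j t, 0 < t → ∀ z ∈ Icc (-b) b, HasDerivAt (fun s => R j s z) (R (j + 2) t z) t
  dz : ∀ j t, 0 < t → ∀ z ∈ Icc (-b) b, HasDerivAt (R j t) (R (j + 1) t z) z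
  van : ∀ j t z, n < j → 0 < t → t ≤ T / 2 → R j t z = 0
  top : ∀ t z, 0 < t → t ≤ T / 2 → R n t z = (n.factorial : ℝ)
  low : ∃ C : ℝ, 0 ≤ C ∧ ∀ j t, 0 < t → t ≤ T / 2 → ∀ z ∈ Icc (-b) b,
    |R j t z| ≤ C ∧ |R 0 t z - z ^ n| ≤ C * t
  zero : ∀ j t z, T ≤ t → R j t z = 0
  bd : ∀ t₁ : ℝ, 0 < t₁ → ∃ C : ℝ, 0 ≤ C ∧ ∀ (j : ℕ) (t : ℝ), t₁ ≤ t → ∀ z ∈ Icc (-b) b,
    |R j t z| ≤ C * (j.factorial : ℝ) * ε ^ j

/-- The chain `q 0` (heat flow from `f`), `∂ₜ q (j + 1) = ∂_y² q (j + 1) - w q j`,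
`q (j + 1) = 0` at `t = 0`, for `j < n`. -/
structure Chain (a : ℝ) (n : ℕ) (f : ℝ → ℝ) (w : ℝ → ℝ → ℝ) (q qt qy qyy : ℕ → ℝ → ℝ → ℝ) :
    Prop where
  zero : SFlow a f (fun _ _ => 0) (q 0) (qt 0) (qy 0) (qyy 0)
  succ : ∀ j, j < n → SFlow a (fun _ => 0) (fun t y => -(w t y * q j t y))
    (q (j + 1)) (qt (j + 1)) (qy (j + 1)) (qyy (j + 1))

/-- The solution `A` of `∂ₜ A + w ∂_z A = ∂_y² A + ∂_z² A` on `|y| ≤ a`, `|z| ≤ b`, equal to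
`∑_{j ≤ n} q j R j` for `t ≤ T / 2` and to `0` for `t ≥ T`, vanishing at `y = ± a`. -/
structure PDrift (a b T : ℝ) (n : ℕ) (w : ℝ → ℝ → ℝ) (q qy : ℕ → ℝ → ℝ → ℝ)
    (R : ℕ → ℝ → ℝ → ℝ) (A At Ay Ayy Az Azz : ℝ → ℝ → ℝ → ℝ) : Prop where
  c : ContinuousOn (fun x : ℝ × ℝ × ℝ => A x.1 x.2.1 x.2.2)
    (Ioi 0 ×ˢ (Icc (-a) a ×ˢ Icc (-b) b))
  ct : ContinuousOn (fun x : ℝ × ℝ × ℝ => At x.1 x.2.1 x.2.2)
    (Ioi 0 ×ˢ (Icc (-a) a ×ˢ Icc (-b) b))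
  cy : ContinuousOn (fun x : ℝ × ℝ × ℝ => Ay x.1 x.2.1 x.2.2)
    (Ioi 0 ×ˢ (Icc (-a) a ×ˢ Icc (-b) b))
  cyy : ContinuousOn (fun x : ℝ × ℝ × ℝ => Ayy x.1 x.2.1 x.2.2)
    (Ioi 0 ×ˢ (Icc (-a) a ×ˢ Icc (-b) b))
  cz : ContinuousOn (fun x : ℝ × ℝ × ℝ => Az x.1 x.2.1 x.2.2)
    (Ioi 0 ×ˢ (Icc (-a) a ×ˢ Icc (-b) b))
  czz : ContinuousOn (fun x : ℝ × ℝ × ℝ => Azz x.1 x.2.1 x.2.2)
    (Ioi 0 ×ˢ (Icc (-a) a ×ˢ Icc (-b) b))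
  dt : ∀ t, 0 < t → ∀ y ∈ Icc (-a) a, ∀ z ∈ Icc (-b) b,
    HasDerivAt (fun s => A s y z) (At t y z) t
  dy : ∀ t, 0 < t → ∀ y ∈ Ioo (-a) a, ∀ z ∈ Icc (-b) b,
    HasDerivAt (fun s => A t s z) (Ay t y z) y
  dyy : ∀ t, 0 < t → ∀ y ∈ Ioo (-a) a, ∀ z ∈ Icc (-b) b,
    HasDerivAt (fun s => Ay t s z) (Ayy t y z) y
  dz : ∀ t, 0 < t → ∀ y ∈ Icc (-a) a, ∀ z ∈ Ioo (-b) b,
    HasDerivAt (fun s => A t y s) (Az t y z) z
  dzz : ∀ t, 0 < t → ∀ y ∈ Icc (-a) a, ∀ z ∈ Ioo (-b) b,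
    HasDerivAt (fun s => Az t y s) (Azz t y z) z
  pde : ∀ t, 0 < t → ∀ y ∈ Icc (-a) a, ∀ z ∈ Icc (-b) b,
    At t y z + w t y * Az t y z = Ayy t y z + Azz t y z
  wall : ∀ t, 0 < t → ∀ z ∈ Icc (-b) b, A t a z = 0 ∧ A t (-a) z = 0
  early : ∀ t, 0 < t → t ≤ T / 2 → ∀ y ∈ Icc (-a) a, ∀ z ∈ Icc (-b) b,
    A t y z = ∑ j ∈ Finset.range (n + 1), q j t y * R j t z ∧
    Ay t y z = ∑ j ∈ Finset.range (n + 1), qy j t y * R j t z ∧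
    Az t y z = ∑ j ∈ Finset.range (n + 1), q j t y * R (j + 1) t z
  late : ∀ t, T ≤ t → ∀ y ∈ Icc (-a) a, ∀ z ∈ Icc (-b) b,
    A t y z = 0 ∧ Ay t y z = 0 ∧ Az t y z = 0

/-! ### leaves -/

/-- DP1 HEAT. Proof: `flowO` of the library (`Q61.NC.Plate`) with `2 * a` in place of `a` and the data
`g s = 2 f (s - a)` for `s ∈ (0, 2 a]`, `g s = 0` otherwise; it gives `O` on `|s| < 4 a` with initial
value `(g s - g (-s)) / 2`. Put `q t y = (O t (y + a) - O t (-(y + a))) / 2`; it vanishes at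
`y = -a` (trivially) and at `y = a` (`wall`), solves the heat equation, and its initial value is `f y`
for almost every `y ∈ [-a, a]`. Continuity of `qt`: `tcont` in `DF/MainA.lean` (imported). -/
def HeatL2 : Prop := ∀ a : ℝ, 0 < a → ∀ f : ℝ → ℝ, MemLp f 2 (volume.restrict (Icc (-a) a)) →
  ∃ q qt qy : ℝ → ℝ → ℝ, SFlow a f (fun _ _ => 0) q qt qy qt

/-- DP2 SUP. Proof: `om t = c (1 + ∫ (w t y)² dy + ∫ (wy t y)² dy)`: for fixed `t` the mean value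
`m` of `w t` is attained, `|w t y| ≤ |m| + ∫ |wy|` and `|x| ≤ 1 + x²` (Cauchy-Schwarz not needed:
`∫ |wy| ≤ ∫ (1 + wy²)`). Continuous in `t > 0` (parametric integrals). Integrable on `(0, T]`: the
second integral by `en` (convert the `lintegral` of `‖·‖ₑ ^ 2`), the first is bounded on `(0, T]`:
near `0` by `lim` and `MemLp u 2`, on compact subsets of `t > 0` by continuity. -/
def SupW : Prop := ∀ a : ℝ, 0 < a → ∀ (w wy wyy : ℝ → ℝ → ℝ) (u : ℝ → ℝ),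
  WF a (Ioi 0) w wy wyy → MemLp u 2 (volume.restrict (Icc (-a) a)) →
  Tendsto (fun t => ∫⁻ y in Icc (-a) a, ‖w t y - u y‖ₑ ^ 2) (𝓝[>] 0) (𝓝 0) →
  (∀ T : ℝ, ∫⁻ t in Ioc 0 T, ∫⁻ y in Icc (-a) a, ‖wy t y‖ₑ ^ 2 < ⊤) → Drf a w

/-- DP3 SCAL. `du l F t = ∫_0^t exp (-(l (t - s))) F s ds` for `F` continuous on `t > 0` only and
dominated by an integrable function. Proof: the integrand is integrable on `(0, t]` (dominated,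
continuous on `(0, t]`); for `0 < s ≤ t` split the integral at `s`: `du l F t =
exp (-(l (t - s))) du l F s + ∫_s^t …`, which gives (3) and (by the fundamental theorem of calculus
on `[s, ∞)`) (1), (2). -/
def Scal : Prop := ∀ l : ℝ, 0 < l → ∀ F ψ : ℝ → ℝ, ContinuousOn F (Ioi 0) →
  (∀ t, 0 < t → |F t| ≤ ψ t) → (∀ T, 0 < T → IntegrableOn ψ (Ioc 0 T)) →
  ContinuousOn (du l F) (Ioi 0) ∧
  (∀ t, 0 < t → HasDerivAt (du l F) (-(l * du l F t) + F t) t) ∧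
  (∀ s t, 0 < s → s ≤ t → du l F t = Real.exp (-(l * (t - s))) * du l F s +
    du l (fun r => F (s + r)) (t - s)) ∧
  ∀ t, 0 < t → |du l F t| ≤ ∫ s in (0 : ℝ)..t, |F s|

/-- DP4 MINK. As `Mink` (see `DF/Mink.lean`, a finished model) with a general weight: let
`G m = ∫_0^t |F m|` and `N = (∑_{m ∈ s} G m ^ 2)^{1/2}`; `N² = ∫_0^t ∑ G m |F m r| dr ≤
N ∫_0^t ψ`. -/
def Mink1 : Prop := ∀ (F : ℕ → ℝ → ℝ) (ψ : ℝ → ℝ), (∀ m, ContinuousOn (F m) (Ioi 0)) →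
  ContinuousOn ψ (Ioi 0) → (∀ t, 0 < t → 0 ≤ ψ t) → (∀ T, 0 < T → IntegrableOn ψ (Ioc 0 T)) →
  (∀ t, 0 < t → ∀ s : Finset ℕ, ∑ m ∈ s, F m t ^ 2 ≤ ψ t ^ 2) →
  ∀ t, 0 < t → ∀ s : Finset ℕ,
    ∑ m ∈ s, (∫ r in (0 : ℝ)..t, |F m r|) ^ 2 ≤ (∫ r in (0 : ℝ)..t, ψ r) ^ 2

/-- DP5 HEATC (heat flow of bounded sine coefficients). Proof: on `[δ, τ]` use the finished leaf
`DF/SeriesCl.lean` (`LSeriesCl.tSeriesCl`), shifted in time by `δ`, with `p m t = c m exp (-(mu² t))`,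
`β m = B (1 + mu²) (1 + 1 / mu²) exp (-(mu² δ))`, summable because `mu a m ^ 2 ≥ κ (m + 1)` and
`x exp (-x δ) ≤ C exp (-x δ / 2)`; or directly with `continuousOn_tsum` and
`hasDerivAt_tsum_of_isPreconnected`. The boundary values: `sn a m (± a) = 0`. -/
def HeatC : Prop := ∀ a : ℝ, 0 < a → ∀ (c : ℕ → ℝ) (B : ℝ), (∀ m, |c m| ≤ B) →
  CFlow a (fun _ _ => 0) (fun t y => ∑' m, c m * Real.exp (-(mu a m ^ 2 * t)) * sn a m y)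
    (fun t y => ∑' m, -(mu a m ^ 2 * (c m * Real.exp (-(mu a m ^ 2 * t)))) * sn a m y)
    (fun t y => ∑' m, c m * Real.exp (-(mu a m ^ 2 * t)) * (mu a m * Real.cos (mu a m * (y + a))))
    (fun t y => ∑' m, -(mu a m ^ 2 * (c m * Real.exp (-(mu a m ^ 2 * t)))) * sn a m y) ∧
  ∀ t, 0 < t → Summable fun m => |mu a m ^ 2 * (c m * Real.exp (-(mu a m ^ 2 * t)))|

/-- DP6 STEPC (one step, with the formula). As the finished leaf `DF/Step.lean` (`LStep.tStep`), but the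
solution is stated by its formula. Same proof (`SeriesCl` with `p m t = du (mu²) (co f) t`,
`p' m t = -(mu² p m t) + co (f t) m`; majorant from `StepCoef`/`CoCont`). -/
def StepC : Prop := ∀ a τ : ℝ, 0 < a → 0 < τ → ∀ f fy fyy : ℝ → ℝ → ℝ, Src a τ f fy fyy →
  Cl a 0 τ
    (fun t y => ∑' m, du (mu a m ^ 2) (fun s => co a (f s) m) t * sn a m y)
    (fun t y => ∑' m, (-(mu a m ^ 2 * du (mu a m ^ 2) (fun s => co a (f s) m) t) +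
      co a (f t) m) * sn a m y)
    (fun t y => ∑' m, du (mu a m ^ 2) (fun s => co a (f s) m) t *
      (mu a m * Real.cos (mu a m * (y + a))))
    (fun t y => ∑' m, -(mu a m ^ 2 * du (mu a m ^ 2) (fun s => co a (f s) m) t) * sn a m y) ∧
  (∀ t ∈ Icc 0 τ, ∀ y ∈ Icc (-a) a,
    ∑' m, (-(mu a m ^ 2 * du (mu a m ^ 2) (fun s => co a (f s) m) t) + co a (f t) m) * sn a m y =
      ∑' m, -(mu a m ^ 2 * du (mu a m ^ 2) (fun s => co a (f s) m) t) * sn a m y + f t y) ∧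
  ∃ β : ℕ → ℝ, Summable β ∧ ∀ m, ∀ t ∈ Icc 0 τ,
    |mu a m ^ 2 * du (mu a m ^ 2) (fun s => co a (f s) m) t| ≤ β m ∧ |co a (f t) m| ≤ β m

/-- DP7 SRCDUH (Duhamel with a source that is only integrable at `t = 0`). Take `Scal`, `Mink1`,
`HeatC`, `StepC` as hypotheses (in this order: `theorem t (h1 : Scal) (h2 : Mink1) (h3 : HeatC)
(h4 : StepC) : SrcDuh`); the finished leaves `CoCont`, `CoBessel`, `SqSeries` of `DF` are theorems.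
Proof: `F_m s = co a (F s) m` is continuous on `s > 0`, `∑_{m ∈ s} F_m ^ 2 ≤ (1 / a) ψ²` (Bessel);
`p m t = du (mu²) F_m t`, `q t y = ∑' p m t sn`, `qy`, `qyy` the differentiated series and
`qt = qyy + F`. On `(δ, ∞)`: by `Scal` (3) `p m t = exp (-(mu² (t - δ))) p m δ +
du (mu²) (F_m (δ + ·)) (t - δ)`, so `q` is the sum of the solutions of `HeatC` (`c m = p m δ`, bounded)
and `StepC` (source `F (δ + ·)` on `[0, τ]`) at the time `t - δ`; all series are absolutely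
summable. Every `t > 0` has such a `δ`. `∫ q² ≤ a ∑ p_m² ≤ a ∑ (∫_0^t |F_m|)² ≤ (∫_0^t ψ)²`
(`SqSeries`, `Scal` (4), `Mink1` with `ψ / √a`). -/
def SrcDuh : Prop := ∀ a : ℝ, 0 < a → ∀ F Fy Fyy : ℝ → ℝ → ℝ,
  ContinuousOn (fun z : ℝ × ℝ => F z.1 z.2) (Ioi 0 ×ˢ Icc (-a) a) →
  ContinuousOn (fun z : ℝ × ℝ => Fy z.1 z.2) (Ioi 0 ×ˢ Icc (-a) a) →
  ContinuousOn (fun z : ℝ × ℝ => Fyy z.1 z.2) (Ioi 0 ×ˢ Icc (-a) a) →
  (∀ t, 0 < t → ∀ y ∈ Ioo (-a) a, HasDerivAt (F t) (Fy t y) y) →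
  (∀ t, 0 < t → ∀ y ∈ Ioo (-a) a, HasDerivAt (Fy t) (Fyy t y) y) →
  (∀ t, 0 < t → F t a = 0 ∧ F t (-a) = 0) →
  ∀ ψ : ℝ → ℝ, ContinuousOn ψ (Ioi 0) → (∀ t, 0 < t → 0 ≤ ψ t) →
  (∀ T, 0 < T → IntegrableOn ψ (Ioc 0 T)) →
  (∀ t, 0 < t → ∫ y in (-a)..a, F t y ^ 2 ≤ ψ t ^ 2) →
  ∃ q qt qy qyy : ℝ → ℝ → ℝ, CFlow a F q qt qy qyy ∧
    ∀ t, 0 < t → ∫ y in (-a)..a, q t y ^ 2 ≤ (∫ s in (0 : ℝ)..t, ψ s) ^ 2

/-- DP8 ENI (energy inequality). Proof: `E t = ∫ q²`. For `t > 0`: `E' = 2 ∫ q qt =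
2 ∫ q (qyy + F) = -2 ∫ qy² + 2 ∫ q F` (differentiation under the integral; integration by parts,
`q = 0` at `± a`, `integral_mul_deriv_eq_deriv_mul_of_hasDeriv_right` with continuity on `Icc` and
derivatives in `Ioo`). So `2 ∫_δ^T ∫ qy² = E δ - E T + 2 ∫_δ^T ∫ q F ≤ Φ² + 2 Φ ∫_0^T ψ`
(Cauchy-Schwarz); let `δ → 0` (monotone convergence). -/
def EnI : Prop := ∀ a : ℝ, 0 < a → ∀ F q qt qy qyy : ℝ → ℝ → ℝ, CFlow a F q qt qy qyy →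
  ContinuousOn (fun z : ℝ × ℝ => F z.1 z.2) (Ioi 0 ×ˢ Icc (-a) a) →
  ∀ ψ : ℝ → ℝ, ContinuousOn ψ (Ioi 0) → (∀ t, 0 < t → 0 ≤ ψ t) →
  (∀ T, 0 < T → IntegrableOn ψ (Ioc 0 T)) →
  (∀ t, 0 < t → ∫ y in (-a)..a, F t y ^ 2 ≤ ψ t ^ 2) →
  ∀ T Φ : ℝ, 0 < T → 0 ≤ Φ → (∀ t ∈ Ioc 0 T, ∫ y in (-a)..a, q t y ^ 2 ≤ Φ ^ 2) →
  ∫⁻ t in Ioc 0 T, ∫⁻ y in Icc (-a) a, ‖qy t y‖ₑ ^ 2 < ⊤

/-- DP9 DUH. Take `SrcDuh`, `EnI` as hypotheses (`theorem t (h1 : SrcDuh) (h2 : EnI) : Duh`).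
Proof: source `G = -(w q)`, `Gy = -(wy q + w qy)`, `Gyy = -(wyy q + 2 wy qy + w qyy)` (see the
finished `DG/ProdW.lean`), `ψ t = om t * √(∫ q(t)²)`, where `om` is from `Drf`; `∫ G² ≤ ψ²`. The
function `t ↦ ∫ q(t)²` is continuous on `t > 0` and bounded on `(0, T]` (near `0` by `lim` and
`MemLp f 2`: `∫ q² ≤ 2 ∫ (q - f)² + 2 ∫ f²`; convert `lintegral`s), so `ψ` is continuous on `t > 0`
and integrable on `(0, T]`. `SrcDuh` gives `q'`; `∫ q'² ≤ (∫_0^t ψ)² → 0`, which is `lim` for the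
initial value `0`; `en` by `EnI` with `Φ = ∫_0^T ψ`. -/
def Duh : Prop := ∀ a : ℝ, 0 < a → ∀ w wy wyy : ℝ → ℝ → ℝ, WF a (Ioi 0) w wy wyy → Drf a w →
  ∀ (f : ℝ → ℝ) (F q qt qy qyy : ℝ → ℝ → ℝ), MemLp f 2 (volume.restrict (Icc (-a) a)) →
  SFlow a f F q qt qy qyy →
  ∃ q' qt' qy' qyy' : ℝ → ℝ → ℝ,
    SFlow a (fun _ => 0) (fun t y => -(w t y * q t y)) q' qt' qy' qyy'

/-- DP10 RPOLY. Take `SwitchFam` as hypothesis (or use the finished `DF/SwitchFam.lean`).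
Proof: induction on `n` (for all `ε`). `n = 0`: `RFam` gives `RFamP 0`. Step: from `RFamP n b T (ε / 4) R`
(call it `R`) define `S j t z = z * R j t z + j * R (j - 1) t z + 2 * t * R (j + 1) t z` (the
`z`-derivatives of `(z + 2 t ∂_z) R 0`; this operator commutes with the heat equation). Then
`∂_z S j = S (j + 1)`, `∂ₜ S j = S (j + 2)`, `S = 0` for `t ≥ T`, `S j = 0` for `j > n + 1`,
`S (n + 1) = (n + 1) n!` for `t ≤ T / 2`; `|S 0 - z^(n+1)| ≤ b |R 0 - z^n| + 2 t C`; for `t ≥ t₁`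
(only `t ≤ T` matters) `|S j| ≤ (b + 1 + 2 T) C (j + 1)! δ^(j-1)`-type bounds `≤ C' j! ε^j` because
`j + 1 ≤ 2^j * 2` and `δ = ε / 4`. -/
def RPoly : Prop := ∀ (n : ℕ) (b T ε : ℝ), 0 < b → 0 < T → 0 < ε →
  ∃ R : ℕ → ℝ → ℝ → ℝ, RFamP n b T ε R

/-- DP11 ITERG (iteration from an arbitrary start). Model: the finished `DG/IterW.lean` (copy; only
the start is more general: the first profile is the given function with its derivatives, bounds of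
`q, qt, qy, qyy` on the compact rectangle). Take `Step`, `ProdW`, `SupB` as hypotheses as there. -/
def IterG : Prop := ∀ a τ : ℝ, 0 < a → 0 < τ → ∀ q qt qy qyy w wy wyy : ℝ → ℝ → ℝ,
  Cl a 0 τ q qt qy qyy → WF a (Icc 0 τ) w wy wyy →
  ∃ (Q Qt Qy Qyy : ℕ → ℝ → ℝ → ℝ) (D K : ℝ), 0 ≤ D ∧ 0 < K ∧
    Q 0 = q ∧ Qt 0 = qt ∧ Qy 0 = qy ∧ Qyy 0 = qyy ∧
    (∀ j, Cl a 0 τ (Q j) (Qt j) (Qy j) (Qyy j)) ∧
    (∀ j, ∀ t ∈ Icc 0 τ, ∀ y ∈ Icc (-a) a, Qt (j + 1) t y = Qyy (j + 1) t y - w t y * Q j t y) ∧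
    ∀ j, ∀ t ∈ Icc 0 τ, ∀ y ∈ Icc (-a) a,
      |Q j t y| ≤ D * K ^ j / (j.factorial : ℝ) ∧ |Qt j t y| ≤ D * K ^ j / (j.factorial : ℝ) ∧
      |Qy j t y| ≤ D * K ^ j / (j.factorial : ℝ) ∧ |Qyy j t y| ≤ D * K ^ j / (j.factorial : ℝ)

/-- DP12 FAMP. Take `IterG` as hypothesis. Proof: on `[α, β]` apply `IterG` (shifted in time by `α`,
see the finished `DG/FamW.lean`) to `q n, qt n, …`: profiles `P l`, `P 0 = q n`. Put `Q j = q j` for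
`j ≤ n` and `Q (n + l) = P l` (the same for the derivatives), i.e.
`Q j t y = if j ≤ n then q j t y else P (j - n) (t - α) y`. `start`: `Chain.zero.cl.eq`; `next` for
`j + 1 ≤ n`: `Chain.succ`, for `j ≥ n`: `IterG`. Bounds: the finitely many `q j`, `j ≤ n`, and
derivatives are bounded on the compact rectangle by `B`; with `K' = 2 (K + 1)`,
`D' = (B + D) n! 2^n` (and `K' ≥ 1`): `B ≤ D' K'^j / j!` for `j ≤ n`, `D K^l / l! ≤ D' K'^(n+l) / (n+l)!`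
since `(n + l)! ≤ 2^(n+l) n! l!`. -/
def FamP : Prop := ∀ (a α β : ℝ) (n : ℕ), 0 < a → 0 < α → α < β → ∀ w wy wyy : ℝ → ℝ → ℝ,
  WF a (Ioi 0) w wy wyy → ∀ (f : ℝ → ℝ) (q qt qy qyy : ℕ → ℝ → ℝ → ℝ),
  Chain a n f w q qt qy qyy →
  ∃ (Q Qt Qy Qyy : ℕ → ℝ → ℝ → ℝ) (D K : ℝ), QFam a α β (q 0) w Q Qt Qy Qyy D K ∧
    ∀ j, j ≤ n → ∀ t ∈ Icc α β, ∀ y ∈ Icc (-a) a,
      Q j t y = q j t y ∧ Qt j t y = qt j t y ∧ Qy j t y = qy j t y ∧ Qyy j t y = qyy j t y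

/-- DP13 DRIFTP. Model: the finished `DG/DriftW.lean` (the case `n = 0`; reuse its lemmas `pc`, `Ov`,
`S`, …). Take `FamP`, `RPoly`, `SumCont`, `SumDer` as hypotheses (in this order). Proof: `FamP` on
`[T / 4, 2 T]` gives `Q, D, K`; `RPoly` with `ε = 1 / (2 K)` gives `R`. `A = ∑_{j ≤ n} q j R j` for
`t ≤ T / 2`, `A = 0` for `t ≥ T`, `A = ∑' Q j R j` in between; the derivatives in the same way
(`At`: `qt j R j + q j R (j + 2)`; `Ay`, `Ayy`; `Az`: `q j R (j + 1)`; `Azz`: `q j R (j + 2)`). For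
`T / 4 ≤ t ≤ T / 2` the series are the finite sums (`R j = 0` for `j > n`, `Q j = q j` for `j ≤ n`).
The equation for `t ≤ T / 2`: `∑_{j ≤ n} (qyy j - [j ≥ 1] w q (j - 1)) R j + w ∑_{j ≤ n} q j R (j + 1)`
telescopes to `∑ qyy j R j + w q n R (n + 1)` and `R (n + 1) = 0`. -/
def DriftP : Prop := ∀ (a b T : ℝ) (n : ℕ), 0 < a → 0 < b → 0 < T → ∀ w wy wyy : ℝ → ℝ → ℝ,
  WF a (Ioi 0) w wy wyy → ∀ (f : ℝ → ℝ) (q qt qy qyy : ℕ → ℝ → ℝ → ℝ),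
  Chain a n f w q qt qy qyy →
  ∃ (ε : ℝ) (R : ℕ → ℝ → ℝ → ℝ) (A At Ay Ayy Az Azz : ℝ → ℝ → ℝ → ℝ), 0 < ε ∧
    RFamP n b T ε R ∧ PDrift a b T n w q qy R A At Ay Ayy Az Azz

/-- DP14 LIMP. Proof: `C` from `low`. `|∑ q j R j - z^n f| ≤ C |q 0 - f| + C t |f| +
C ∑_{1 ≤ j ≤ n} |q j|`; square (`≤ (n + 2)` times the sum of the squares), integrate in `z` (factor
`2 b`) and `y`; every term tends to `0` by `lim` (the initial value of `q j`, `j ≥ 1`, is `0`) and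
`MemLp f 2`. Second part: `≤ C² (n + 1) ∑_j (‖qy j‖² + ‖q j‖²)`; `en`, and `∫ ‖q j t‖²` is bounded
for `0 < t ≤ T / 2` (near `0` by `lim` and `MemLp f 2`, otherwise by continuity). -/
def LimP : Prop := ∀ (a b T ε : ℝ) (n : ℕ), 0 < a → 0 < b → 0 < T → ∀ (w : ℝ → ℝ → ℝ) (f : ℝ → ℝ)
  (q qt qy qyy : ℕ → ℝ → ℝ → ℝ) (R : ℕ → ℝ → ℝ → ℝ),
  MemLp f 2 (volume.restrict (Icc (-a) a)) → Chain a n f w q qt qy qyy → RFamP n b T ε R →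
  Tendsto (fun t : ℝ => ∫⁻ y in Icc (-a) a, ∫⁻ z in Icc (-b) b,
    ‖(∑ j ∈ Finset.range (n + 1), q j t y * R j t z) - z ^ n * f y‖ₑ ^ 2) (𝓝[>] 0) (𝓝 0) ∧
  ∫⁻ t in Ioc 0 (T / 2), ∫⁻ y in Icc (-a) a, ∫⁻ z in Icc (-b) b,
    (‖∑ j ∈ Finset.range (n + 1), qy j t y * R j t z‖ₑ ^ 2 +
      ‖∑ j ∈ Finset.range (n + 1), q j t y * R (j + 1) t z‖ₑ ^ 2) < ⊤

/-- DP15 BOX2. Proof: as the library's `box_lintegral` / the finished `DF/BoxInt.lean`: Fubini for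
`Sp 3` (`EuclideanSpace.volume_preserving_measurableEquiv`, `volume_preserving_piFinSuccAbove` or
`MeasureTheory.volume_preserving_finTwoArrow` etc.); the box is contained in the product, the
remaining coordinate `x 0` (resp. `x 2`) gives the factor `2 b`. -/
def Box2 : Prop := ∀ a b : ℝ, 0 < a → 0 < b → ∃ c : ℝ≥0∞, c ≠ ⊤ ∧
  ∀ H : ℝ → ℝ → ℝ≥0∞,
    AEMeasurable (fun z : ℝ × ℝ => H z.1 z.2) (volume.restrict (Icc (-a) a ×ˢ Icc (-b) b)) →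
    ∫⁻ x in box a b, H (x 1) (x 2) ≤ c * ∫⁻ y in Icc (-a) a, ∫⁻ z in Icc (-b) b, H y z

end Pool.Agent.H309.DP
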