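import Mathlib
import Pool.Agent.H309.DP.Stm

/-! Project DP, DP15: the integral over a box of a function of two coordinates. -/

set_option autoImplicit false

open Set Filter Topology MeasureTheory
open scoped ENNReal

namespace Pool.Agent.H309.DP.LBox2

open Pool.Agent.Q61.NC Pool.Agent.H309.DF

/-- the coordinates -/
noncomputable def cor : Sp 3 ≃ᵐ ℝ × (ℝ × ℝ) :=
  (MeasurableEquiv.toLp 2 (Fin 3 → ℝ)).symm.trans
    ((MeasurableEquiv.piFinSuccAbove (fun _ : Fin 3 => ℝ) 0).trans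
      ((MeasurableEquiv.refl ℝ).prodCongr MeasurableEquiv.finTwoArrow))

theorem cor_apply (x : Sp 3) : cor x = (x 0, (x 1, x 2)) := rfl

theorem cor_mp : MeasurePreserving (cor : Sp 3 → ℝ × (ℝ × ℝ)) volume volume := by
  have m1 := EuclideanSpace.volume_preserving_symm_measurableEquiv_toLp (Fin 3)
  have m2 := volume_preserving_piFinSuccAbove (fun _ : Fin 3 => ℝ) 0
  have m3 : MeasurePreserving ((MeasurableEquiv.refl ℝ).prodCongr
      (MeasurableEquiv.finTwoArrow (α := ℝ))) (volume : Measure (ℝ × (Fin 2 → ℝ))) volume :=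
    (MeasurePreserving.id volume).prod (volume_preserving_finTwoArrow ℝ)
  exact (m3.comp m2).comp m1

theorem tBox2 : Pool.Agent.H309.DP.Box2 := by
  intro a b _ _
  refine ⟨volume (Icc (-b) b), measure_Icc_lt_top.ne, fun H hH => ?_⟩
  have hbox : box a b = cor ⁻¹' (Icc (-b) b ×ˢ (Icc (-a) a ×ˢ Icc (-b) b)) := by
    ext x
    simp only [mem_preimage, cor_apply, mem_prod, mem_Icc]
    constructor
    · rintro ⟨h1, h0, h2⟩
      exact ⟨abs_le.1 h0, abs_le.1 h1, abs_le.1 h2⟩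
    · rintro ⟨h0, h1, h2⟩
      exact ⟨abs_le.2 h1, abs_le.2 h0, abs_le.2 h2⟩
  have h1 : ∫⁻ x in box a b, H (x 1) (x 2) =
      ∫⁻ p in Icc (-b) b ×ˢ (Icc (-a) a ×ˢ Icc (-b) b), H p.2.1 p.2.2 := by
    rw [hbox]
    exact cor_mp.setLIntegral_comp_preimage_emb cor.measurableEmbedding
      (fun p : ℝ × (ℝ × ℝ) => H p.2.1 p.2.2) _
  have h2 : (volume : Measure (ℝ × (ℝ × ℝ))).restrict (Icc (-b) b ×ˢ (Icc (-a) a ×ˢ Icc (-b) b)) =
      (volume.restrict (Icc (-b) b)).prod (volume.restrict (Icc (-a) a ×ˢ Icc (-b) b)) := by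
    rw [Measure.volume_eq_prod, Measure.prod_restrict]
  have h3 : (volume : Measure (ℝ × ℝ)).restrict (Icc (-a) a ×ˢ Icc (-b) b) =
      (volume.restrict (Icc (-a) a)).prod (volume.restrict (Icc (-b) b)) := by
    rw [Measure.volume_eq_prod, Measure.prod_restrict]
  rw [h1, h2, lintegral_prod (fun p : ℝ × (ℝ × ℝ) => H p.2.1 p.2.2) hH.comp_snd]
  simp only []
  rw [lintegral_const, Measure.restrict_apply_univ, mul_comm]
  rw [h3] at hH ⊢
  rw [lintegral_prod (fun z : ℝ × ℝ => H z.1 z.2) hH]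

end Pool.Agent.H309.DP.LBox2
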