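import Pool.Agent.H309.DP.Stm2

/-!
# Project DP (helper309), DP18: the chain of flows (helper887)
-/

set_option autoImplicit false

open Set Filter Topology MeasureTheory
open scoped ENNReal

namespace Pool.Agent.H309.DP.LChainEx

open Pool.Agent.H309.DP Pool.Agent.H309.DG

/-- a function with its derivatives -/
abbrev Quad : Type := (ℝ → ℝ → ℝ) × (ℝ → ℝ → ℝ) × (ℝ → ℝ → ℝ) × (ℝ → ℝ → ℝ)

/-- a flow with some initial value in `L²` and some source -/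
def Ok (a : ℝ) (x : Quad) : Prop := ∃ (f : ℝ → ℝ) (F : ℝ → ℝ → ℝ),
  MemLp f 2 (volume.restrict (Icc (-a) a)) ∧ SFlow a f F x.1 x.2.1 x.2.2.1 x.2.2.2

/-- the next flow -/
def Nxt (a : ℝ) (w : ℝ → ℝ → ℝ) (x y : Quad) : Prop :=
  SFlow a (fun _ => 0) (fun t s => -(w t s * x.1 t s)) y.1 y.2.1 y.2.2.1 y.2.2.2

theorem tChainEx (h1 : HeatL2) (h2 : Duh) : Pool.Agent.H309.DP.ChainEx := by
  intro a ha w wy wyy hw hd f hf n
  obtain ⟨q0, qt0, qy0, h0⟩ := h1 a ha f hf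
  have step : ∀ x : {x : Quad // Ok a x}, ∃ y : {x : Quad // Ok a x}, Nxt a w x.1 y.1 := by
    rintro ⟨x, g, F, hg, hx⟩
    obtain ⟨q, qt, qy, qyy, h⟩ := h2 a ha w wy wyy hw hd g F _ _ _ _ hg hx
    exact ⟨⟨(q, qt, qy, qyy), (fun _ => 0), _, MemLp.zero', h⟩, h⟩
  choose nx hnx using step
  let sq : ℕ → {x : Quad // Ok a x} := fun j =>
    Nat.rec ⟨(q0, qt0, qy0, qt0), f, _, hf, h0⟩ (fun _ x => nx x) j
  refine ⟨fun j => (sq j).1.1, fun j => (sq j).1.2.1, fun j => (sq j).1.2.2.1,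
    fun j => (sq j).1.2.2.2, h0, fun j _ => hnx (sq j)⟩

end Pool.Agent.H309.DP.LChainEx
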