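import Pool.Agent.H309.DP.Stm2
import Pool.Agent.H309.DF.LimAdd

set_option autoImplicit false

/-! Task SumEn of helper309 (DP19). -/

open Set Filter Topology MeasureTheory
open scoped ENNReal

namespace Pool.Agent.H309.DP.LSumEn

open Pool.Agent.Q61.NC Pool.Agent.H309.DF Pool.Agent.H309.DG Pool.Agent.H309.DP

theorem slice {a : ℝ} {f : ℝ → ℝ → ℝ}
    (hf : ContinuousOn (fun z : ℝ × ℝ => f z.1 z.2) (Ioi 0 ×ˢ Icc (-a) a)) (t : ℝ) (ht : 0 < t) :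
    AEMeasurable (fun y => ‖f t y‖ₑ ^ 2) (volume.restrict (Icc (-a) a)) := by
  have h1 : ContinuousOn (fun y => f t y) (Icc (-a) a) :=
    hf.comp (f := fun y : ℝ => ((t, y) : ℝ × ℝ)) (by fun_prop) fun y hy => ⟨ht, hy⟩
  exact ((h1.aemeasurable measurableSet_Icc).enorm).pow_const 2

theorem par {a : ℝ} {f : ℝ → ℝ → ℝ}
    (hf : ContinuousOn (fun z : ℝ × ℝ => f z.1 z.2) (Ioi 0 ×ˢ Icc (-a) a)) (T : ℝ) :
    AEMeasurable (fun t => ∫⁻ y in Icc (-a) a, ‖f t y‖ₑ ^ 2) (volume.restrict (Ioc 0 T)) := by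
  have h1 : AEMeasurable (fun z : ℝ × ℝ => ‖f z.1 z.2‖ₑ ^ 2)
      (((volume : Measure ℝ).restrict (Ioc 0 T)).prod
        ((volume : Measure ℝ).restrict (Icc (-a) a))) := by
    rw [Measure.prod_restrict]
    have h2 : ContinuousOn (fun z : ℝ × ℝ => f z.1 z.2) (Ioc 0 T ×ˢ Icc (-a) a) :=
      hf.mono (prod_mono (fun t ht => ht.1) le_rfl)
    exact ((h2.aemeasurable (measurableSet_Ioc.prod measurableSet_Icc)).enorm).pow_const 2
  exact h1.lintegral_prod_right'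

theorem tSumEn : Pool.Agent.H309.DP.SumEn := by
  intro a ha f g hf hg hF hG T
  have hb : ∀ t ∈ Ioc 0 T, ∫⁻ y in Icc (-a) a, ‖f t y + g t y‖ₑ ^ 2 ≤
      2 * (∫⁻ y in Icc (-a) a, ‖f t y‖ₑ ^ 2) + 2 * ∫⁻ y in Icc (-a) a, ‖g t y‖ₑ ^ 2 := by
    intro t ht
    calc ∫⁻ y in Icc (-a) a, ‖f t y + g t y‖ₑ ^ 2
        ≤ ∫⁻ y in Icc (-a) a, (2 * ‖f t y‖ₑ ^ 2 + 2 * ‖g t y‖ₑ ^ 2) :=
          lintegral_mono fun y => LLimAdd.two _ _
      _ = (∫⁻ y in Icc (-a) a, 2 * ‖f t y‖ₑ ^ 2) + ∫⁻ y in Icc (-a) a, 2 * ‖g t y‖ₑ ^ 2 :=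
          lintegral_add_left' ((slice hf t ht.1).const_mul 2) _
      _ = _ := by
          rw [lintegral_const_mul' _ _ (by norm_num), lintegral_const_mul' _ _ (by norm_num)]
  refine lt_of_le_of_lt (setLIntegral_mono' measurableSet_Ioc hb) ?_
  rw [lintegral_add_left' ((par hf T).const_mul 2), lintegral_const_mul' _ _ (by norm_num),
    lintegral_const_mul' _ _ (by norm_num), ENNReal.add_lt_top]
  exact ⟨ENNReal.mul_lt_top (by norm_num) (hF T), ENNReal.mul_lt_top (by norm_num) (hG T)⟩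

end Pool.Agent.H309.DP.LSumEn
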