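import Pool.Agent.H309.DP.Stm3
import Pool.Agent.H309.DP.SumEn

set_option autoImplicit false

/-! DT6 COEF for helper309, by helper914. -/

open Set Filter Topology MeasureTheory
open scoped ENNReal

namespace Pool.Agent.H309.DP.LCoef

open Pool.Agent.Q61.NC Pool.Agent.H309.DF Pool.Agent.H309.DG Pool.Agent.H309.DP

/-- initial values of the chain -/
def GG (f : ℝ → ℝ) : ℕ → ℝ → ℝ
  | 0 => f
  | _ + 1 => fun _ => 0

/-- sources of the chain -/
def FF (w : ℝ → ℝ → ℝ) (q : ℕ → ℝ → ℝ → ℝ) : ℕ → ℝ → ℝ → ℝ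
  | 0 => fun _ _ => 0
  | j + 1 => fun t y => -(w t y * q j t y)

theorem chain_flow {a : ℝ} {n : ℕ} {f : ℝ → ℝ} {w : ℝ → ℝ → ℝ} {q qt qy qyy : ℕ → ℝ → ℝ → ℝ}
    (hc : Chain a n f w q qt qy qyy) (j : ℕ) (hj : j < n + 1) :
    SFlow a (GG f j) (FF w q j) (q j) (qt j) (qy j) (qyy j) := by
  cases j with
  | zero => exact hc.zero
  | succ j => exact hc.succ j (by omega)

theorem gg_mem {a : ℝ} {f : ℝ → ℝ} (hf : MemLp f 2 (volume.restrict (Icc (-a) a))) (j : ℕ) :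
    MemLp (GG f j) 2 (volume.restrict (Icc (-a) a)) := by
  cases j with
  | zero => exact hf
  | succ j => exact MemLp.zero

theorem cont_hp (h1 : HpF) (n m : ℕ) : Continuous (hp n m) :=
  continuous_iff_continuousAt.2 fun t => (h1.1 n m t).continuousAt

theorem en_mul {a : ℝ} {f : ℝ → ℝ → ℝ} {s : ℝ → ℝ} (hs : Continuous s)
    (hf : ∀ T : ℝ, ∫⁻ t in Ioc 0 T, ∫⁻ y in Icc (-a) a, ‖f t y‖ₑ ^ 2 < ⊤) (T : ℝ) :
    ∫⁻ t in Ioc 0 T, ∫⁻ y in Icc (-a) a, ‖f t y * s t‖ₑ ^ 2 < ⊤ := by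
  obtain ⟨C, hC⟩ := (isCompact_Icc (a := (0 : ℝ)) (b := T)).exists_bound_of_continuousOn
    hs.continuousOn
  have hb : ∀ t ∈ Ioc 0 T, ∫⁻ y in Icc (-a) a, ‖f t y * s t‖ₑ ^ 2 ≤
      (ENNReal.ofReal C) ^ 2 * ∫⁻ y in Icc (-a) a, ‖f t y‖ₑ ^ 2 := by
    intro t ht
    rw [← lintegral_const_mul' _ _ (ENNReal.pow_ne_top ENNReal.ofReal_ne_top)]
    refine lintegral_mono fun y => ?_
    show ‖f t y * s t‖ₑ ^ 2 ≤ (ENNReal.ofReal C) ^ 2 * ‖f t y‖ₑ ^ 2
    have h2 : ‖s t‖ₑ ≤ ENNReal.ofReal C := by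
      rw [Real.enorm_eq_ofReal_abs]
      exact ENNReal.ofReal_le_ofReal (hC t ⟨ht.1.le, ht.2⟩)
    rw [enorm_mul, mul_pow, mul_comm]
    exact mul_le_mul' (pow_le_pow_left' h2 2) le_rfl
  refine lt_of_le_of_lt (setLIntegral_mono' measurableSet_Ioc hb) ?_
  rw [lintegral_const_mul' _ _ (ENNReal.pow_ne_top ENNReal.ofReal_ne_top)]
  exact ENNReal.mul_lt_top (ENNReal.pow_lt_top ENNReal.ofReal_lt_top) (hf T)

theorem cont_mul {a : ℝ} {f : ℝ → ℝ → ℝ} {s : ℝ → ℝ} (hs : Continuous s)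
    (hf : ContinuousOn (fun z : ℝ × ℝ => f z.1 z.2) (Ioi 0 ×ˢ Icc (-a) a)) :
    ContinuousOn (fun z : ℝ × ℝ => f z.1 z.2 * s z.1) (Ioi 0 ×ˢ Icc (-a) a) :=
  hf.mul (hs.comp continuous_fst).continuousOn

theorem cont_sum {a : ℝ} {f : ℕ → ℝ → ℝ → ℝ} {s : ℕ → ℝ → ℝ} (hs : ∀ j, Continuous (s j)) (N : ℕ)
    (hf : ∀ j < N, ContinuousOn (fun z : ℝ × ℝ => f j z.1 z.2) (Ioi 0 ×ˢ Icc (-a) a)) :
    ContinuousOn (fun z : ℝ × ℝ => ∑ j ∈ Finset.range N, f j z.1 z.2 * s j z.1)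
      (Ioi 0 ×ˢ Icc (-a) a) :=
  continuousOn_finsetSum _ fun j hj => cont_mul (hs j) (hf j (Finset.mem_range.1 hj))

theorem en_sum {a : ℝ} (ha : 0 < a) {f : ℕ → ℝ → ℝ → ℝ} {s : ℕ → ℝ → ℝ}
    (hs : ∀ j, Continuous (s j)) (N : ℕ)
    (hf : ∀ j < N, ContinuousOn (fun z : ℝ × ℝ => f j z.1 z.2) (Ioi 0 ×ˢ Icc (-a) a))
    (he : ∀ j < N, ∀ T : ℝ, ∫⁻ t in Ioc 0 T, ∫⁻ y in Icc (-a) a, ‖f j t y‖ₑ ^ 2 < ⊤) (T : ℝ) :
    ∫⁻ t in Ioc 0 T, ∫⁻ y in Icc (-a) a, ‖∑ j ∈ Finset.range N, f j t y * s j t‖ₑ ^ 2 < ⊤ := by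
  induction N generalizing T with
  | zero => simp
  | succ N ih =>
    have h1 := LSumEn.tSumEn a ha (fun t y => ∑ j ∈ Finset.range N, f j t y * s j t)
      (fun t y => f N t y * s N t) (cont_sum hs N fun j hj => hf j (by omega))
      (cont_mul (hs N) (hf N (by omega)))
      (fun T => ih (fun j hj => hf j (by omega)) (fun j hj => he j (by omega)) T)
      (fun T => en_mul (hs N) (he N (by omega)) T) T
    simp only [Finset.sum_range_succ]
    exact h1

theorem cont_esq : Continuous (fun x : ℝ => ‖x‖ₑ ^ 2) := by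
  have e : (fun x : ℝ => ‖x‖ₑ ^ 2) = fun x : ℝ => ENNReal.ofReal (x ^ 2) := by
    funext x
    exact LLimAdd.enorm_sq x
  rw [e]
  exact ENNReal.continuous_ofReal.comp (continuous_pow 2)

/-- convergence in `L²` -/
def LL (a : ℝ) (g : ℝ → ℝ → ℝ) (h : ℝ → ℝ) : Prop :=
  Tendsto (fun t => ∫⁻ y in Icc (-a) a, ‖g t y - h y‖ₑ ^ 2) (𝓝[>] 0) (𝓝 0)

theorem sl_meas {a : ℝ} {g : ℝ → ℝ → ℝ} {h : ℝ → ℝ}
    (hg : ContinuousOn (fun z : ℝ × ℝ => g z.1 z.2) (Ioi 0 ×ˢ Icc (-a) a))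
    (hh : MemLp h 2 (volume.restrict (Icc (-a) a))) (t : ℝ) (ht : 0 < t) :
    AEMeasurable (fun y => ‖g t y - h y‖ₑ ^ 2) (volume.restrict (Icc (-a) a)) := by
  have h1 : ContinuousOn (fun y => g t y) (Icc (-a) a) :=
    hg.comp (f := fun y : ℝ => ((t, y) : ℝ × ℝ)) (by fun_prop) fun y hy => ⟨ht, hy⟩
  exact (((h1.aemeasurable measurableSet_Icc).sub hh.1.aemeasurable).enorm).pow_const 2

theorem ll_add {a : ℝ} {g g' : ℝ → ℝ → ℝ} {h h' : ℝ → ℝ}
    (hg : ContinuousOn (fun z : ℝ × ℝ => g z.1 z.2) (Ioi 0 ×ˢ Icc (-a) a))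
    (hh : MemLp h 2 (volume.restrict (Icc (-a) a))) (h1 : LL a g h) (h2 : LL a g' h') :
    LL a (fun t y => g t y + g' t y) (fun y => h y + h' y) := by
  have hlim : Tendsto (fun t : ℝ =>
      2 * (∫⁻ y in Icc (-a) a, ‖g t y - h y‖ₑ ^ 2) +
      2 * (∫⁻ y in Icc (-a) a, ‖g' t y - h' y‖ₑ ^ 2)) (𝓝[>] 0) (𝓝 0) := by
    have h5 := (ENNReal.Tendsto.const_mul h1 (Or.inr (by norm_num : (2 : ℝ≥0∞) ≠ ⊤))).add
      (ENNReal.Tendsto.const_mul h2 (Or.inr (by norm_num : (2 : ℝ≥0∞) ≠ ⊤)))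
    simpa using h5
  refine tendsto_of_tendsto_of_tendsto_of_le_of_le' tendsto_const_nhds hlim
    (Eventually.of_forall fun _ => bot_le) ?_
  filter_upwards [self_mem_nhdsWithin] with t ht
  calc ∫⁻ y in Icc (-a) a, ‖(g t y + g' t y) - (h y + h' y)‖ₑ ^ 2
      ≤ ∫⁻ y in Icc (-a) a, (2 * ‖g t y - h y‖ₑ ^ 2 + 2 * ‖g' t y - h' y‖ₑ ^ 2) := by
        refine lintegral_mono fun y => ?_
        have e : g t y + g' t y - (h y + h' y) = (g t y - h y) + (g' t y - h' y) := by ring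
        show ‖g t y + g' t y - (h y + h' y)‖ₑ ^ 2 ≤ _
        rw [e]
        exact LLimAdd.two _ _
    _ = (∫⁻ y in Icc (-a) a, 2 * ‖g t y - h y‖ₑ ^ 2) +
          ∫⁻ y in Icc (-a) a, 2 * ‖g' t y - h' y‖ₑ ^ 2 :=
        lintegral_add_left' ((sl_meas hg hh t ht).const_mul 2) _
    _ = _ := by
        rw [lintegral_const_mul' _ _ (by norm_num), lintegral_const_mul' _ _ (by norm_num)]

theorem ll_mul {a : ℝ} {g : ℝ → ℝ → ℝ} {h : ℝ → ℝ} {s : ℝ → ℝ} (hs : Continuous s)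
    (hg : ContinuousOn (fun z : ℝ × ℝ => g z.1 z.2) (Ioi 0 ×ˢ Icc (-a) a))
    (hh : MemLp h 2 (volume.restrict (Icc (-a) a))) (h1 : LL a g h) :
    LL a (fun t y => g t y * s t) (fun y => h y * s 0) := by
  have hI : ∫⁻ y in Icc (-a) a, ‖h y‖ₑ ^ 2 ≠ ⊤ := by
    have h2 := hh.2
    have h3 := (eLpNorm_lt_top_iff_lintegral_rpow_enorm_lt_top (f := h)
      (μ := volume.restrict (Icc (-a) a)) (p := 2) (by norm_num) (by norm_num)).1 h2
    refine ne_of_lt ?_
    refine lt_of_le_of_lt (le_of_eq ?_) h3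
    refine lintegral_congr fun y => ?_
    norm_num
  have hs0 : Tendsto s (𝓝[>] 0) (𝓝 (s 0)) := (hs.tendsto 0).mono_left nhdsWithin_le_nhds
  have hsE : Tendsto (fun t => ‖s t‖ₑ ^ 2) (𝓝[>] 0) (𝓝 (‖s 0‖ₑ ^ 2)) :=
    (cont_esq.tendsto (s 0)).comp hs0
  have hsD : Tendsto (fun t => ‖s t - s 0‖ₑ ^ 2) (𝓝[>] 0) (𝓝 0) := by
    have h3 : Tendsto (fun t => s t - s 0) (𝓝[>] 0) (𝓝 (s 0 - s 0)) := hs0.sub_const _
    have h4 := (cont_esq.tendsto (s 0 - s 0)).comp h3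
    have e : ‖s 0 - s 0‖ₑ ^ 2 = 0 := by simp
    rw [e] at h4
    exact h4
  have hlim : Tendsto (fun t : ℝ =>
      2 * (‖s t‖ₑ ^ 2 * (∫⁻ y in Icc (-a) a, ‖g t y - h y‖ₑ ^ 2)) +
      2 * (‖s t - s 0‖ₑ ^ 2 * (∫⁻ y in Icc (-a) a, ‖h y‖ₑ ^ 2))) (𝓝[>] 0) (𝓝 0) := by
    have h4 := ENNReal.Tendsto.mul hsE (Or.inr ENNReal.zero_ne_top) h1
      (Or.inr (ENNReal.pow_ne_top enorm_ne_top))
    have h5 := ENNReal.Tendsto.mul_const hsD (b := ∫⁻ y in Icc (-a) a, ‖h y‖ₑ ^ 2) (Or.inr hI)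
    have h6 := (ENNReal.Tendsto.const_mul h4 (Or.inr (by norm_num : (2 : ℝ≥0∞) ≠ ⊤))).add
      (ENNReal.Tendsto.const_mul h5 (Or.inr (by norm_num : (2 : ℝ≥0∞) ≠ ⊤)))
    simpa using h6
  refine tendsto_of_tendsto_of_tendsto_of_le_of_le' tendsto_const_nhds hlim
    (Eventually.of_forall fun _ => bot_le) ?_
  filter_upwards [self_mem_nhdsWithin] with t ht
  have ht2 : ‖s t‖ₑ ^ 2 ≠ ⊤ := ENNReal.pow_ne_top enorm_ne_top
  have ht3 : ‖s t - s 0‖ₑ ^ 2 ≠ ⊤ := ENNReal.pow_ne_top enorm_ne_top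
  calc ∫⁻ y in Icc (-a) a, ‖g t y * s t - h y * s 0‖ₑ ^ 2
      ≤ ∫⁻ y in Icc (-a) a, (2 * (‖s t‖ₑ ^ 2 * ‖g t y - h y‖ₑ ^ 2) +
          2 * (‖s t - s 0‖ₑ ^ 2 * ‖h y‖ₑ ^ 2)) := by
        refine lintegral_mono fun y => ?_
        have e : g t y * s t - h y * s 0 = s t * (g t y - h y) + (s t - s 0) * h y := by ring
        show ‖g t y * s t - h y * s 0‖ₑ ^ 2 ≤ _
        rw [e]
        refine (LLimAdd.two _ _).trans (le_of_eq ?_)
        rw [enorm_mul, enorm_mul, mul_pow, mul_pow]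
    _ = (∫⁻ y in Icc (-a) a, 2 * (‖s t‖ₑ ^ 2 * ‖g t y - h y‖ₑ ^ 2)) +
          ∫⁻ y in Icc (-a) a, 2 * (‖s t - s 0‖ₑ ^ 2 * ‖h y‖ₑ ^ 2) :=
        lintegral_add_left' (((sl_meas hg hh t ht).const_mul _).const_mul 2) _
    _ = _ := by
        rw [lintegral_const_mul' 2 _ (by norm_num), lintegral_const_mul' 2 _ (by norm_num),
          lintegral_const_mul' (‖s t‖ₑ ^ 2) _ ht2, lintegral_const_mul' (‖s t - s 0‖ₑ ^ 2) _ ht3]

theorem ll_sum {a : ℝ} {g : ℕ → ℝ → ℝ → ℝ} {h : ℕ → ℝ → ℝ} {s : ℕ → ℝ → ℝ}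
    (hs : ∀ j, Continuous (s j)) (N : ℕ)
    (hg : ∀ j < N, ContinuousOn (fun z : ℝ × ℝ => g j z.1 z.2) (Ioi 0 ×ˢ Icc (-a) a))
    (hh : ∀ j, MemLp (h j) 2 (volume.restrict (Icc (-a) a))) (h1 : ∀ j < N, LL a (g j) (h j)) :
    LL a (fun t y => ∑ j ∈ Finset.range N, g j t y * s j t)
      (fun y => ∑ j ∈ Finset.range N, h j y * s j 0) := by
  induction N with
  | zero =>
    unfold LL
    simp only [Finset.range_zero, Finset.sum_empty, sub_zero, enorm_zero]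
    simp
  | succ N ih =>
    have h2 := ih (fun j hj => hg j (by omega)) (fun j hj => h1 j (by omega))
    have h3 := ll_mul (hs N) (hg N (by omega)) (hh N) (h1 N (by omega))
    have hm : MemLp (fun y => ∑ j ∈ Finset.range N, h j y * s j 0) 2
        (volume.restrict (Icc (-a) a)) := by
      refine memLp_finsetSum _ fun j _ => ?_
      exact (hh j).mul_const (s j 0)
    have h4 := ll_add (cont_sum hs N fun j hj => hg j (by omega)) hm h2 h3
    simp only [Finset.sum_range_succ]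
    exact h4

theorem tCoef (h1 : HpF) : Pool.Agent.H309.DP.Coef := by
  intro a n ha w f q qt qy qyy hf hc
  obtain ⟨hd, hv, hn, h0, -⟩ := id h1
  have hfl := chain_flow hc
  set s : ℕ → ℕ → ℝ → ℝ := fun i j t => hp n (i + j) t / (i.factorial : ℝ) with hs
  set s' : ℕ → ℕ → ℝ → ℝ := fun i j t => hp n (i + j + 2) t / (i.factorial : ℝ) with hs'
  have hsc : ∀ i j, Continuous (s i j) := fun i j => (cont_hp h1 n (i + j)).div_const _
  have hsc' : ∀ i j, Continuous (s' i j) := fun i j => (cont_hp h1 n (i + j + 2)).div_const _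
  have hsd : ∀ i j t, HasDerivAt (s i j) (s' i j t) t := fun i j t =>
    (hd n (i + j) t).div_const _
  have hfac : ∀ i : ℕ, ((i + 1).factorial : ℝ) = ((i : ℝ) + 1) * (i.factorial : ℝ) := by
    intro i
    rw [Nat.factorial_succ]
    push_cast
    ring
  have hf0 : ∀ i : ℕ, (i.factorial : ℝ) ≠ 0 := fun i => by exact_mod_cast i.factorial_ne_zero
  have hs1 : ∀ i j t, s i (j + 1) t = ((i : ℝ) + 1) * s (i + 1) j t := by
    intro i j t
    have hi : ((i : ℝ) + 1) ≠ 0 := by positivity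
    have e : i + (j + 1) = i + 1 + j := by omega
    simp only [hs]
    rw [hfac i, e]
    field_simp
  have hs2 : ∀ i j t, s' i j t = ((i : ℝ) + 1) * ((i : ℝ) + 2) * s (i + 2) j t := by
    intro i j t
    have hi : ((i : ℝ) + 1) ≠ 0 := by positivity
    have hi2 : ((i : ℝ) + 2) ≠ 0 := by positivity
    have e : i + j + 2 = i + 2 + j := by omega
    have e2 : ((i + 2).factorial : ℝ) = ((i : ℝ) + 2) * (((i : ℝ) + 1) * (i.factorial : ℝ)) := by
      rw [hfac (i + 1), hfac i]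
      push_cast
      ring
    simp only [hs, hs']
    rw [e2, e]
    field_simp
  have hsv : ∀ i t, s i (n + 1) t = 0 := by
    intro i t
    simp only [hs]
    rw [hv n (i + (n + 1)) t (by omega), zero_div]
  refine ⟨fun i t y => ∑ j ∈ Finset.range (n + 1), q j t y * s i j t,
    fun i t y => ∑ j ∈ Finset.range (n + 1), (qt j t y * s i j t + q j t y * s' i j t),
    fun i t y => ∑ j ∈ Finset.range (n + 1), qy j t y * s i j t,
    fun i t y => ∑ j ∈ Finset.range (n + 1), qyy j t y * s i j t, ⟨?_, ?_⟩, fun i t y => rfl⟩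
  · intro i hi
    refine ⟨⟨?_, ?_, ?_, ?_, ?_, ?_, ?_, ?_, ?_⟩, ?_, ?_⟩
    · exact cont_sum (hsc i) _ fun j hj => (hfl j hj).cl.c
    · refine continuousOn_finsetSum _ fun j hj => ?_
      have hj' := Finset.mem_range.1 hj
      exact (cont_mul (hsc i j) (hfl j hj').cl.ct).add (cont_mul (hsc' i j) (hfl j hj').cl.c)
    · exact cont_sum (hsc i) _ fun j hj => (hfl j hj).cl.cy
    · exact cont_sum (hsc i) _ fun j hj => (hfl j hj).cl.cyy
    · intro t ht y hy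
      refine HasDerivAt.fun_sum fun j hj => ?_
      exact ((hfl j (Finset.mem_range.1 hj)).cl.dt t ht y hy).mul (hsd i j t)
    · intro t ht y hy
      refine HasDerivAt.fun_sum fun j hj => ?_
      exact ((hfl j (Finset.mem_range.1 hj)).cl.dy t ht y hy).mul_const _
    · intro t ht y hy
      refine HasDerivAt.fun_sum fun j hj => ?_
      exact ((hfl j (Finset.mem_range.1 hj)).cl.dyy t ht y hy).mul_const _
    · intro t ht
      constructor
      · refine Finset.sum_eq_zero fun j hj => ?_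
        rw [((hfl j (Finset.mem_range.1 hj)).cl.wall t ht).1, zero_mul]
      · refine Finset.sum_eq_zero fun j hj => ?_
        rw [((hfl j (Finset.mem_range.1 hj)).cl.wall t ht).2, zero_mul]
    · intro t ht y hy
      have e1 : ∑ j ∈ Finset.range (n + 1), (qt j t y * s i j t + q j t y * s' i j t) =
          ∑ j ∈ Finset.range (n + 1), qyy j t y * s i j t +
          (∑ j ∈ Finset.range (n + 1), FF w q j t y * s i j t +
            ∑ j ∈ Finset.range (n + 1), q j t y * s' i j t) := by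
        rw [← Finset.sum_add_distrib, ← Finset.sum_add_distrib]
        refine Finset.sum_congr rfl fun j hj => ?_
        rw [(hfl j (Finset.mem_range.1 hj)).cl.eq t ht y hy]
        ring
      have e2 : ∑ j ∈ Finset.range (n + 1), FF w q j t y * s i j t =
          -(((i : ℝ) + 1) * (w t y * ∑ j ∈ Finset.range (n + 1), q j t y * s (i + 1) j t)) := by
        rw [Finset.sum_range_succ']
        have e3 : FF w q 0 t y * s i 0 t = 0 := by
          show (0 : ℝ) * s i 0 t = 0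
          rw [zero_mul]
        rw [e3, add_zero]
        have e4 : ∑ j ∈ Finset.range (n + 1), q j t y * s (i + 1) j t =
            ∑ j ∈ Finset.range n, q j t y * s (i + 1) j t := by
          rw [Finset.sum_range_succ]
          have h5 := hs1 i n t
          rw [hsv] at h5
          have hi : ((i : ℝ) + 1) ≠ 0 := by positivity
          have h6 : s (i + 1) n t = 0 := by
            rcases mul_eq_zero.1 h5.symm with h | h
            · exact absurd h hi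
            · exact h
          rw [h6, mul_zero, add_zero]
        rw [e4, Finset.mul_sum, Finset.mul_sum, ← Finset.sum_neg_distrib]
        refine Finset.sum_congr rfl fun j _ => ?_
        show -(w t y * q j t y) * s i (j + 1) t = _
        rw [hs1]
        ring
      have e5 : ∑ j ∈ Finset.range (n + 1), q j t y * s' i j t =
          ((i : ℝ) + 1) * ((i : ℝ) + 2) *
            ∑ j ∈ Finset.range (n + 1), q j t y * s (i + 2) j t := by
        rw [Finset.mul_sum]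
        refine Finset.sum_congr rfl fun j _ => ?_
        rw [hs2]
        ring
      rw [e1, e2, e5]
      ring
    · have h2 := ll_sum (a := a) (g := q) (h := GG f) (s := s i) (hsc i) (n + 1)
        (fun j hj => (hfl j hj).cl.c) (gg_mem hf) (fun j hj => (hfl j hj).lim)
      have h3 : (fun y => ∑ j ∈ Finset.range (n + 1), GG f j y * s i j 0) =
          (if i = n then f else fun _ => 0) := by
        funext y
        rw [Finset.sum_range_succ']
        have e1 : ∑ j ∈ Finset.range n, GG f (j + 1) y * s i (j + 1) 0 = 0 := by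
          refine Finset.sum_eq_zero fun j _ => ?_
          show (0 : ℝ) * _ = 0
          rw [zero_mul]
        rw [e1, zero_add]
        show f y * (hp n (i + 0) 0 / (i.factorial : ℝ)) = _
        rw [add_zero]
        by_cases hin : i = n
        · subst hin
          rw [if_pos rfl, hn, div_self (hf0 i), mul_one]
        · rw [if_neg hin, h0 n i hin, zero_div, mul_zero]
      rw [h3] at h2
      exact h2
    · exact en_sum ha (hsc i) (n + 1) (fun j hj => (hfl j hj).cl.cy) (fun j hj => (hfl j hj).en)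
  · intro i hi t y
    refine Finset.sum_eq_zero fun j _ => ?_
    show q j t y * (hp n (i + j) t / (i.factorial : ℝ)) = 0
    rw [hv n (i + j) t (by omega), zero_div, mul_zero]

end Pool.Agent.H309.DP.LCoef
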