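import Pool.Agent.H309.DP.Stm
import Pool.Agent.H309.DG.DriftW

/-!
# The drifted solution on all times, polynomial case
-/

set_option autoImplicit false

open Set Filter Topology MeasureTheory
open scoped ENNReal ContDiff

namespace Pool.Agent.H309.DP.LDriftP

open Pool.Agent.Q61.NC Pool.Agent.H309.DF Pool.Agent.H309.DG Pool.Agent.H309.DP
open Pool.Agent.H309.DG.LDriftW

/-- the finite sums -/
noncomputable def Fs (P R : ℕ → ℝ → ℝ → ℝ) (n i : ℕ) (t y z : ℝ) : ℝ :=
  ∑ j ∈ Finset.range (n + 1), P j t y * R (j + i) t z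

section sums

variable {n : ℕ} {b T ε : ℝ} {R : ℕ → ℝ → ℝ → ℝ}

theorem S_earlyP (hR : RFamP n b T ε R) (P : ℕ → ℝ → ℝ → ℝ) (i : ℕ) {t : ℝ} (y z : ℝ)
    (ht : 0 < t) (h : t ≤ T / 2) : S P R i t y z = Fs P R n i t y z := by
  unfold S Fs
  apply tsum_eq_sum
  intro j hj
  have hj' : n < j + i := by
    have := Finset.mem_range.not.1 hj
    omega
  rw [hR.van _ t z hj' ht h, mul_zero]

theorem S_lateP (hR : RFamP n b T ε R) (P : ℕ → ℝ → ℝ → ℝ) (i : ℕ) {t : ℝ} (y z : ℝ)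
    (h : T ≤ t) : S P R i t y z = 0 := by
  unfold S
  have h1 : ∀ j, P j t y * R (j + i) t z = 0 := by
    intro j
    rw [hR.zero _ t z h, mul_zero]
  simp_rw [h1]
  exact tsum_zero

theorem Fs_cont {a : ℝ} (hR : RFamP n b T ε R) (P : ℕ → ℝ → ℝ → ℝ) (i : ℕ)
    (hP : ∀ j, j ≤ n → ContinuousOn (fun z : ℝ × ℝ => P j z.1 z.2) (Ioi 0 ×ˢ Icc (-a) a)) :
    ContinuousOn (fun x : ℝ × ℝ × ℝ => Fs P R n i x.1 x.2.1 x.2.2)
      (Ioi 0 ×ˢ (Icc (-a) a ×ˢ Icc (-b) b)) := by
  unfold Fs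
  refine continuousOn_finsetSum _ ?_
  intro j hj
  have hj' : j ≤ n := by
    have := Finset.mem_range.1 hj
    omega
  have h1 : ContinuousOn (fun x : ℝ × ℝ × ℝ => (x.1, x.2.1))
      (Ioi 0 ×ˢ (Icc (-a) a ×ˢ Icc (-b) b)) := by fun_prop
  have h2 : ContinuousOn (fun x : ℝ × ℝ × ℝ => (x.1, x.2.2))
      (Ioi 0 ×ˢ (Icc (-a) a ×ˢ Icc (-b) b)) := by fun_prop
  have h3 : ContinuousOn (fun x : ℝ × ℝ × ℝ => P j x.1 x.2.1)
      (Ioi 0 ×ˢ (Icc (-a) a ×ˢ Icc (-b) b)) :=
    (hP j hj').comp h1 fun x hx => ⟨hx.1, hx.2.1⟩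
  have h4 : ContinuousOn (fun x : ℝ × ℝ × ℝ => R (j + i) x.1 x.2.2)
      (Ioi 0 ×ˢ (Icc (-a) a ×ˢ Icc (-b) b)) :=
    (hR.c (j + i)).comp h2 fun x hx => ⟨hx.1, hx.2.2⟩
  exact h3.mul h4

end sums

theorem tDriftP (h1 : FamP) (h2 : RPoly) (h3 : SumCont) (h4 : SumDer) :
    Pool.Agent.H309.DP.DriftP := by
  intro a b T n ha hb hT w wy wyy hw f q qt qy qyy hc
  have hT4 : 0 < T / 4 := by linarith
  obtain ⟨Q, Qt, Qy, Qyy, D, K, hQ, hQq⟩ := h1 a (T / 4) (2 * T) n ha hT4 (by linarith)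
    w wy wyy hw f q qt qy qyy hc
  have hK := hQ.K0
  have hε : 0 < 1 / (2 * K) := by positivity
  have hKε : K * (1 / (2 * K)) ≤ 1 / 2 := by
    apply le_of_eq
    field_simp
  obtain ⟨R, hR⟩ := h2 n b T (1 / (2 * K)) hb hT hε
  obtain ⟨C, hC, hRb⟩ := hR.bd (T / 4) hT4
  have hRb' : ∀ (j : ℕ), ∀ t ∈ Icc (T / 4) (2 * T), ∀ z ∈ Icc (-b) b,
      |R j t z| ≤ C * (j.factorial : ℝ) * (1 / (2 * K)) ^ j := fun j t ht z hz =>
    hRb j t ht.1 z hz
  have hRc : ∀ j, ContinuousOn (fun z : ℝ × ℝ => R j z.1 z.2)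
      (Icc (T / 4) (2 * T) ×ˢ Icc (-b) b) := fun j =>
    (hR.c j).mono (prod_mono (fun t ht => lt_of_lt_of_le hT4 ht.1) (subset_refl _))
  have hpos : ∀ t ∈ Icc (T / 4) (2 * T), 0 < t := fun t ht => lt_of_lt_of_le hT4 ht.1
  -- the profiles `q j`
  have hcl : ∀ j, j ≤ n → ∃ F : ℝ → ℝ → ℝ, CFlow a F (q j) (qt j) (qy j) (qyy j) := by
    intro j hj
    rcases j with _ | j
    · exact ⟨_, hc.zero.cl⟩
    · exact ⟨_, (hc.succ j (by omega)).cl⟩
  have hlt : ∀ j, j ∈ Finset.range (n + 1) → j ≤ n := fun j hj => by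
    have := Finset.mem_range.1 hj
    omega
  -- the sums
  have cQ := fun i => h3 (T / 4) (2 * T) a b D K C (1 / (2 * K)) hQ.D0 hK hC hε hKε Q R i
    (fun j => (hQ.cl j).c) hRc (fun j t ht y hy => (hQ.bd j t ht y hy).1) hRb'
  have cQt := fun i => h3 (T / 4) (2 * T) a b D K C (1 / (2 * K)) hQ.D0 hK hC hε hKε Qt R i
    (fun j => (hQ.cl j).ct) hRc (fun j t ht y hy => (hQ.bd j t ht y hy).2.1) hRb'
  have cQy := fun i => h3 (T / 4) (2 * T) a b D K C (1 / (2 * K)) hQ.D0 hK hC hε hKε Qy R i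
    (fun j => (hQ.cl j).cy) hRc (fun j t ht y hy => (hQ.bd j t ht y hy).2.2.1) hRb'
  have cQyy := fun i => h3 (T / 4) (2 * T) a b D K C (1 / (2 * K)) hQ.D0 hK hC hε hKε Qyy R i
    (fun j => (hQ.cl j).cyy) hRc (fun j t ht y hy => (hQ.bd j t ht y hy).2.2.2) hRb'
  obtain ⟨d1, d2, d3, d4, d5⟩ := h4 (T / 4) (2 * T) a b C (1 / (2 * K)) ha hb hC hε (q 0) w
    Q Qt Qy Qyy R D K hKε hQ hRb' (fun j t ht z hz => hR.dt j t (hpos t ht) z hz)
    (fun j t ht z hz => hR.dz j t (hpos t ht) z hz)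
  have hIcc : ∀ t, T / 4 < t → t ≤ T / 2 → t ∈ Icc (T / 4) (2 * T) := fun t h5 h6 =>
    ⟨h5.le, by linarith⟩
  -- agreement of the sums for `T / 4 < t ≤ T / 2`
  have eQ : ∀ i t, T / 4 < t → t ≤ T / 2 → ∀ y ∈ Icc (-a) a, ∀ z ∈ Icc (-b) b,
      S Q R i t y z = Fs q R n i t y z := by
    intro i t h5 h6 y hy z hz
    rw [S_earlyP hR Q i y z (by linarith) h6]
    refine Finset.sum_congr rfl fun j hj => ?_
    rw [(hQq j (hlt j hj) t (hIcc t h5 h6) y hy).1]
  have eQt : ∀ i t, T / 4 < t → t ≤ T / 2 → ∀ y ∈ Icc (-a) a, ∀ z ∈ Icc (-b) b,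
      S Qt R i t y z = Fs qt R n i t y z := by
    intro i t h5 h6 y hy z hz
    rw [S_earlyP hR Qt i y z (by linarith) h6]
    refine Finset.sum_congr rfl fun j hj => ?_
    rw [(hQq j (hlt j hj) t (hIcc t h5 h6) y hy).2.1]
  have eQy : ∀ i t, T / 4 < t → t ≤ T / 2 → ∀ y ∈ Icc (-a) a, ∀ z ∈ Icc (-b) b,
      S Qy R i t y z = Fs qy R n i t y z := by
    intro i t h5 h6 y hy z hz
    rw [S_earlyP hR Qy i y z (by linarith) h6]
    refine Finset.sum_congr rfl fun j hj => ?_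
    rw [(hQq j (hlt j hj) t (hIcc t h5 h6) y hy).2.2.1]
  have eQyy : ∀ i t, T / 4 < t → t ≤ T / 2 → ∀ y ∈ Icc (-a) a, ∀ z ∈ Icc (-b) b,
      S Qyy R i t y z = Fs qyy R n i t y z := by
    intro i t h5 h6 y hy z hz
    rw [S_earlyP hR Qyy i y z (by linarith) h6]
    refine Finset.sum_congr rfl fun j hj => ?_
    rw [(hQq j (hlt j hj) t (hIcc t h5 h6) y hy).2.2.2]
  have oA : Ov a b T (Fs q R n 0) (fun t y z => S Q R 0 t y z) :=
    ⟨fun t h5 h6 y hy z hz => eQ 0 t h5 h6 y hy z hz,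
      fun t h5 h6 y hy z hz => S_lateP hR Q 0 y z h5⟩
  have oAt : Ov a b T (fun t y z => Fs qt R n 0 t y z + Fs q R n 2 t y z)
      (fun t y z => S Qt R 0 t y z + S Q R 2 t y z) := by
    refine ⟨fun t h5 h6 y hy z hz => ?_, fun t h5 h6 y hy z hz => ?_⟩
    · rw [eQt 0 t h5 h6 y hy z hz, eQ 2 t h5 h6 y hy z hz]
    · rw [S_lateP hR Qt 0 y z h5, S_lateP hR Q 2 y z h5, add_zero]
  have oAy : Ov a b T (Fs qy R n 0) (fun t y z => S Qy R 0 t y z) :=
    ⟨fun t h5 h6 y hy z hz => eQy 0 t h5 h6 y hy z hz,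
      fun t h5 h6 y hy z hz => S_lateP hR Qy 0 y z h5⟩
  have oAyy : Ov a b T (Fs qyy R n 0) (fun t y z => S Qyy R 0 t y z) :=
    ⟨fun t h5 h6 y hy z hz => eQyy 0 t h5 h6 y hy z hz,
      fun t h5 h6 y hy z hz => S_lateP hR Qyy 0 y z h5⟩
  have oAz : Ov a b T (Fs q R n 1) (fun t y z => S Q R 1 t y z) :=
    ⟨fun t h5 h6 y hy z hz => eQ 1 t h5 h6 y hy z hz,
      fun t h5 h6 y hy z hz => S_lateP hR Q 1 y z h5⟩
  have oAzz : Ov a b T (Fs q R n 2) (fun t y z => S Q R 2 t y z) :=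
    ⟨fun t h5 h6 y hy z hz => eQ 2 t h5 h6 y hy z hz,
      fun t h5 h6 y hy z hz => S_lateP hR Q 2 y z h5⟩
  have hmid : ∀ t, ¬ t ≤ T / 2 → ¬ T ≤ t → t ∈ Icc (T / 4) (2 * T) := fun t h5 h6 =>
    ⟨by linarith, by linarith⟩
  -- continuity of the finite sums
  have fQ := fun i => Fs_cont (a := a) hR q i fun j hj => (hcl j hj).choose_spec.c
  have fQt := fun i => Fs_cont (a := a) hR qt i fun j hj => (hcl j hj).choose_spec.ct
  have fQy := fun i => Fs_cont (a := a) hR qy i fun j hj => (hcl j hj).choose_spec.cy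
  have fQyy := fun i => Fs_cont (a := a) hR qyy i fun j hj => (hcl j hj).choose_spec.cyy
  refine ⟨1 / (2 * K), R, pc T (Fs q R n 0) (fun t y z => S Q R 0 t y z),
    pc T (fun t y z => Fs qt R n 0 t y z + Fs q R n 2 t y z)
      (fun t y z => S Qt R 0 t y z + S Q R 2 t y z),
    pc T (Fs qy R n 0) (fun t y z => S Qy R 0 t y z),
    pc T (Fs qyy R n 0) (fun t y z => S Qyy R 0 t y z),
    pc T (Fs q R n 1) (fun t y z => S Q R 1 t y z),
    pc T (Fs q R n 2) (fun t y z => S Q R 2 t y z), hε, hR, ?_⟩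
  constructor
  · exact oA.cont hT (fQ 0) (cQ 0).1
  · exact oAt.cont hT ((fQt 0).add (fQ 2)) ((cQt 0).1.add (cQ 2).1)
  · exact oAy.cont hT (fQy 0) (cQy 0).1
  · exact oAyy.cont hT (fQyy 0) (cQyy 0).1
  · exact oAz.cont hT (fQ 1) (cQ 1).1
  · exact oAzz.cont hT (fQ 2) (cQ 2).1
  · intro t ht y hy z hz
    refine oA.dt hT oAt hy hz (fun t ht => ?_) (fun t ht => d1 t ht y hy z hz) t ht
    have e1 : HasDerivAt (fun s => ∑ j ∈ Finset.range (n + 1), q j s y * R (j + 0) s z)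
        (∑ j ∈ Finset.range (n + 1), (qt j t y * R (j + 0) t z + q j t y * R (j + 0 + 2) t z))
        t := by
      refine HasDerivAt.fun_sum fun j hj => ?_
      obtain ⟨F, hF⟩ := hcl j (hlt j hj)
      exact (hF.dt t ht y hy).mul (hR.dt (j + 0) t ht z hz)
    rw [Finset.sum_add_distrib] at e1
    exact e1
  · -- dy
    intro t ht y hy z hz
    by_cases h5 : t ≤ T / 2
    · simp only [pc_early _ _ h5]
      unfold Fs
      refine HasDerivAt.fun_sum fun j hj => ?_
      obtain ⟨F, hF⟩ := hcl j (hlt j hj)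
      exact (hF.dy t ht y hy).mul_const _
    · by_cases h6 : T ≤ t
      · simp only [pc_late hT _ _ h6]
        exact hasDerivAt_const _ _
      · simp only [pc_mid _ _ h5 h6]
        exact d2 t (hmid t h5 h6) y hy z hz
  · -- dyy
    intro t ht y hy z hz
    by_cases h5 : t ≤ T / 2
    · simp only [pc_early _ _ h5]
      unfold Fs
      refine HasDerivAt.fun_sum fun j hj => ?_
      obtain ⟨F, hF⟩ := hcl j (hlt j hj)
      exact (hF.dyy t ht y hy).mul_const _
    · by_cases h6 : T ≤ t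
      · simp only [pc_late hT _ _ h6]
        exact hasDerivAt_const _ _
      · simp only [pc_mid _ _ h5 h6]
        exact d3 t (hmid t h5 h6) y hy z hz
  · -- dz
    intro t ht y hy z hz
    by_cases h5 : t ≤ T / 2
    · simp only [pc_early _ _ h5]
      unfold Fs
      refine HasDerivAt.fun_sum fun j hj => ?_
      exact (hR.dz (j + 0) t ht z ⟨hz.1.le, hz.2.le⟩).const_mul _
    · by_cases h6 : T ≤ t
      · simp only [pc_late hT _ _ h6]
        exact hasDerivAt_const _ _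
      · simp only [pc_mid _ _ h5 h6]
        exact d4 t (hmid t h5 h6) y hy z hz
  · -- dzz
    intro t ht y hy z hz
    by_cases h5 : t ≤ T / 2
    · simp only [pc_early _ _ h5]
      unfold Fs
      refine HasDerivAt.fun_sum fun j hj => ?_
      exact (hR.dz (j + 1) t ht z ⟨hz.1.le, hz.2.le⟩).const_mul _
    · by_cases h6 : T ≤ t
      · simp only [pc_late hT _ _ h6]
        exact hasDerivAt_const _ _
      · simp only [pc_mid _ _ h5 h6]
        exact d5 t (hmid t h5 h6) y hy z hz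
  · -- the equation
    intro t ht y hy z hz
    by_cases h5 : t ≤ T / 2
    · simp only [pc_early _ _ h5]
      have e1 : Fs qt R n 0 t y z + w t y * Fs q R n 1 t y z = Fs qyy R n 0 t y z := by
        have z1 : R (n + 1) t z = 0 := hR.van _ t z (by omega) ht h5
        have e0 : qt 0 t y = qyy 0 t y := by
          have := hc.zero.cl.eq t ht y hy
          simpa using this
        have e2 : ∀ j ∈ Finset.range n, qt (j + 1) t y * R (j + 1 + 0) t z =
            qyy (j + 1) t y * R (j + 1 + 0) t z - w t y * (q j t y * R (j + 1) t z) := by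
          intro j hj
          have := (hc.succ j (Finset.mem_range.1 hj)).cl.eq t ht y hy
          rw [this]
          change (qyy (j + 1) t y + -(w t y * q j t y)) * R (j + 1) t z =
            qyy (j + 1) t y * R (j + 1) t z - w t y * (q j t y * R (j + 1) t z)
          ring
        have e3 : Fs q R n 1 t y z = ∑ j ∈ Finset.range n, q j t y * R (j + 1) t z := by
          unfold Fs
          rw [Finset.sum_range_succ, z1, mul_zero, add_zero]
        rw [e3]
        unfold Fs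
        rw [Finset.sum_range_succ', Finset.sum_range_succ', Finset.sum_congr rfl e2,
          Finset.sum_sub_distrib, ← Finset.mul_sum, e0]
        ring
      linarith
    · by_cases h6 : T ≤ t
      · simp only [pc_late hT _ _ h6]
        ring
      · simp only [pc_mid _ _ h5 h6]
        have hI := hmid t h5 h6
        have e1 : S Qt R 0 t y z + w t y * S Q R 1 t y z = S Qyy R 0 t y z := by
          unfold S
          have s1 := (cQt 0).2 t hI y hy z hz
          have s2 := (cQyy 0).2 t hI y hy z hz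
          have s3 := (cQ 1).2 t hI y hy z hz
          rw [s1.tsum_eq_zero_add, s2.tsum_eq_zero_add, ← tsum_mul_left]
          have e2 : ∀ j, Qt (j + 1) t y * R (j + 1 + 0) t z =
              Qyy (j + 1) t y * R (j + 1 + 0) t z - w t y * (Q j t y * R (j + 1) t z) := by
            intro j
            rw [hQ.next j t hI y hy]
            change (Qyy (j + 1) t y - w t y * Q j t y) * R (j + 1) t z =
              Qyy (j + 1) t y * R (j + 1) t z - w t y * (Q j t y * R (j + 1) t z)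
            ring
          simp_rw [e2]
          rw [((summable_nat_add_iff 1).2 s2).tsum_sub (s3.mul_left _),
            (hQ.start t hI y hy).2]
          ring
        linarith
  · -- walls
    intro t ht z hz
    by_cases h5 : t ≤ T / 2
    · simp only [pc_early _ _ h5]
      unfold Fs
      constructor
      · refine Finset.sum_eq_zero fun j hj => ?_
        obtain ⟨F, hF⟩ := hcl j (hlt j hj)
        rw [(hF.wall t ht).1, zero_mul]
      · refine Finset.sum_eq_zero fun j hj => ?_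
        obtain ⟨F, hF⟩ := hcl j (hlt j hj)
        rw [(hF.wall t ht).2, zero_mul]
    · by_cases h6 : T ≤ t
      · simp only [pc_late hT _ _ h6]
        exact ⟨trivial, trivial⟩
      · simp only [pc_mid _ _ h5 h6]
        unfold S
        have hI := hmid t h5 h6
        have e1 : ∀ j, Q j t a * R (j + 0) t z = 0 := fun j => by
          rw [((hQ.cl j).wall t hI).1, zero_mul]
        have e2 : ∀ j, Q j t (-a) * R (j + 0) t z = 0 := fun j => by
          rw [((hQ.cl j).wall t hI).2, zero_mul]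
        simp_rw [e1, e2]
        exact ⟨tsum_zero, tsum_zero⟩
  · intro t ht h5 y hy z hz
    exact ⟨pc_early _ _ h5, pc_early _ _ h5, pc_early _ _ h5⟩
  · intro t h5 y hy z hz
    exact ⟨pc_late hT _ _ h5, pc_late hT _ _ h5, pc_late hT _ _ h5⟩

end Pool.Agent.H309.DP.LDriftP
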