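import Pool.Agent.H309.DP.Stm
import Pool.Agent.H309.DF.LimAdd

/-!
# Project DP, leaf DP9 Duh (helper164): Duhamel for a drift
-/

set_option autoImplicit false

open Set Filter Topology MeasureTheory
open scoped ENNReal

namespace Pool.Agent.H309.DP.LDuh

open Pool.Agent.Q61.NC Pool.Agent.H309.DF Pool.Agent.H309.DG Pool.Agent.H309.DP

/-- parametric integrals are continuous for `t > 0` -/
theorem icont {a : ℝ} (ha : 0 < a) {h : ℝ → ℝ → ℝ}
    (hc : ContinuousOn (fun z : ℝ × ℝ => h z.1 z.2) (Ioi 0 ×ˢ Icc (-a) a)) :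
    ContinuousOn (fun t => ∫ y in (-a)..a, h t y) (Ioi 0) := by
  intro t0 ht0
  have ht0' : (0 : ℝ) < t0 := ht0
  have hle : -a ≤ a := by linarith
  have h1 : Continuous (fun z : ℝ × ℝ =>
      (((max (t0 / 2) z.1 : ℝ), (projIcc (-a) a hle z.2 : ℝ)) : ℝ × ℝ)) :=
    (continuous_const.max continuous_fst).prodMk
      (continuous_subtype_val.comp (continuous_projIcc.comp continuous_snd))
  have h2 : Continuous (fun z : ℝ × ℝ => h (max (t0 / 2) z.1) (projIcc (-a) a hle z.2)) :=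
    hc.comp_continuous h1 fun z =>
      ⟨lt_of_lt_of_le (by positivity : (0 : ℝ) < t0 / 2) (le_max_left _ _),
        (projIcc (-a) a hle z.2).2⟩
  have h3 : Continuous fun t => ∫ y in (-a)..a, h (max (t0 / 2) t) (projIcc (-a) a hle y) :=
    intervalIntegral.continuous_parametric_intervalIntegral_of_continuous' h2 _ _
  refine (h3.continuousAt.congr ?_).continuousWithinAt
  filter_upwards [lt_mem_nhds (show t0 / 2 < t0 by linarith)] with t ht
  refine intervalIntegral.integral_congr fun y hy => ?_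
  rw [uIcc_of_le hle] at hy
  show h (max (t0 / 2) t) (projIcc (-a) a hle y) = h t y
  rw [projIcc_of_mem hle hy, max_eq_right ht.le]

/-- slices -/
theorem slice {a : ℝ} {h : ℝ → ℝ → ℝ}
    (hc : ContinuousOn (fun z : ℝ × ℝ => h z.1 z.2) (Ioi 0 ×ˢ Icc (-a) a)) {t : ℝ} (ht : 0 < t) :
    ContinuousOn (h t) (Icc (-a) a) := by
  have h1 : ContinuousOn (fun y : ℝ => ((t, y) : ℝ × ℝ)) (Icc (-a) a) :=
    (continuous_const.prodMk continuous_id).continuousOn
  exact hc.comp h1 fun y hy => ⟨ht, hy⟩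

theorem conv {a : ℝ} (ha : 0 < a) {g : ℝ → ℝ} (hg : ContinuousOn g (Icc (-a) a)) :
    ∫⁻ y in Icc (-a) a, ‖g y‖ₑ ^ 2 = ENNReal.ofReal (∫ y in (-a)..a, g y ^ 2) := by
  have hle : -a ≤ a := by linarith
  have hi : IntegrableOn (fun y => g y ^ 2) (Icc (-a) a) := (hg.pow 2).integrableOn_Icc
  rw [intervalIntegral.integral_of_le hle, ← integral_Icc_eq_integral_Ioc,
    ofReal_integral_eq_lintegral_ofReal hi (ae_of_all _ fun y => sq_nonneg _)]
  exact lintegral_congr fun y => LLimAdd.enorm_sq (g y)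

/-- the norm of `q t` is bounded near `t = 0` -/
theorem bdd {a : ℝ} (ha : 0 < a) {f : ℝ → ℝ} {q : ℝ → ℝ → ℝ}
    (hf : MemLp f 2 (volume.restrict (Icc (-a) a)))
    (hc : ContinuousOn (fun z : ℝ × ℝ => q z.1 z.2) (Ioi 0 ×ˢ Icc (-a) a))
    (lim : Tendsto (fun t => ∫⁻ y in Icc (-a) a, ‖q t y - f y‖ₑ ^ 2) (𝓝[>] 0) (𝓝 0)) (T : ℝ) :
    ∃ B : ℝ, 0 ≤ B ∧ ∀ t ∈ Ioc 0 T, ∫ y in (-a)..a, q t y ^ 2 ≤ B := by
  have hle : -a ≤ a := by linarith
  have hN : ∫⁻ y in Icc (-a) a, ‖f y‖ₑ ^ 2 ≠ ⊤ := by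
    have h1 := hf.integrable_sq
    have h2 := ofReal_integral_eq_lintegral_ofReal h1 (ae_of_all _ fun y => sq_nonneg _)
    have h3 : ∫⁻ y in Icc (-a) a, ‖f y‖ₑ ^ 2 = ∫⁻ y in Icc (-a) a, ENNReal.ofReal (f y ^ 2) :=
      lintegral_congr fun y => LLimAdd.enorm_sq (f y)
    rw [h3, ← h2]
    exact ENNReal.ofReal_ne_top
  obtain ⟨N, hNd⟩ : ∃ N : ℝ≥0∞, N = ∫⁻ y in Icc (-a) a, ‖f y‖ₑ ^ 2 := ⟨_, rfl⟩
  rw [← hNd] at hN
  have h1 : ∀ᶠ t in 𝓝[>] (0 : ℝ), ∫⁻ y in Icc (-a) a, ‖q t y - f y‖ₑ ^ 2 < 1 :=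
    lim.eventually (gt_mem_nhds one_pos)
  obtain ⟨δ, hδ, h2⟩ := mem_nhdsGT_iff_exists_Ioo_subset.1 h1
  have hδ0 : (0 : ℝ) < δ := hδ
  have hM : (2 : ℝ≥0∞) * 1 + 2 * N ≠ ⊤ :=
    ENNReal.add_ne_top.2 ⟨by simp, ENNReal.mul_ne_top (by simp) hN⟩
  have b1 : ∀ t ∈ Ioo 0 δ, ∫ y in (-a)..a, q t y ^ 2 ≤ (2 * 1 + 2 * N : ℝ≥0∞).toReal := by
    intro t ht
    have h3 := h2 ht
    have h3' : ∫⁻ y in Icc (-a) a, ‖q t y - f y‖ₑ ^ 2 < 1 := h3
    have h4 : ∫⁻ y in Icc (-a) a, ‖q t y‖ₑ ^ 2 ≤ 2 * 1 + 2 * N := by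
      calc ∫⁻ y in Icc (-a) a, ‖q t y‖ₑ ^ 2 ≤
            ∫⁻ y in Icc (-a) a, (2 * ‖q t y - f y‖ₑ ^ 2 + 2 * ‖f y‖ₑ ^ 2) := by
            refine lintegral_mono fun y => ?_
            have h5 := LLimAdd.two (q t y - f y) (f y)
            rwa [sub_add_cancel] at h5
        _ = (∫⁻ y in Icc (-a) a, 2 * ‖q t y - f y‖ₑ ^ 2) +
            (∫⁻ y in Icc (-a) a, 2 * ‖f y‖ₑ ^ 2) :=
            lintegral_add_right' _ ((hf.1.enorm.pow_const 2).const_mul 2)
        _ = 2 * (∫⁻ y in Icc (-a) a, ‖q t y - f y‖ₑ ^ 2) +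
            2 * (∫⁻ y in Icc (-a) a, ‖f y‖ₑ ^ 2) := by
            rw [lintegral_const_mul' _ _ (by simp), lintegral_const_mul' _ _ (by simp)]
        _ ≤ 2 * 1 + 2 * N := by
            rw [← hNd]
            exact add_le_add (mul_le_mul_right h3'.le 2) le_rfl
    rw [conv ha (slice hc ht.1)] at h4
    exact (ENNReal.ofReal_le_iff_le_toReal hM).1 h4
  obtain ⟨C, hC⟩ := (isCompact_Icc (a := δ / 2) (b := T)).exists_bound_of_continuousOn
    ((icont (h := fun t y => q t y ^ 2) ha (hc.pow 2)).mono fun t ht =>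
      lt_of_lt_of_le (by positivity : (0 : ℝ) < δ / 2) ht.1)
  refine ⟨max (2 * 1 + 2 * N : ℝ≥0∞).toReal C, le_max_of_le_left ENNReal.toReal_nonneg, ?_⟩
  intro t ht
  rcases lt_or_ge t δ with h3 | h3
  · exact (b1 t ⟨ht.1, h3⟩).trans (le_max_left _ _)
  · have h4 := hC t ⟨by linarith, ht.2⟩
    rw [Real.norm_eq_abs] at h4
    exact ((le_abs_self _).trans h4).trans (le_max_right _ _)

/-- DP9 -/
theorem tDuh (h1 : SrcDuh) (h2 : EnI) : Pool.Agent.H309.DP.Duh := by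
  intro a ha w wy wyy hw ⟨om, hom, hwom, homi⟩ f F q qt qy qyy hf hq
  have hle : -a ≤ a := by linarith
  have hcl := hq.cl
  have h0 : (0 : ℝ) ∈ Icc (-a) a := ⟨by linarith, ha.le⟩
  have hom0 : ∀ t, 0 < t → 0 ≤ om t := fun t ht => (abs_nonneg _).trans (hwom t ht 0 h0)
  -- the source
  obtain ⟨G, hG⟩ : ∃ G : ℝ → ℝ → ℝ, G = fun t y => -(w t y * q t y) := ⟨_, rfl⟩
  have cG : ContinuousOn (fun z : ℝ × ℝ => G z.1 z.2) (Ioi 0 ×ˢ Icc (-a) a) := by
    rw [hG]; exact (hw.c.mul hcl.c).neg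
  -- the majorant
  obtain ⟨I, hI⟩ : ∃ I : ℝ → ℝ, I = fun t => ∫ y in (-a)..a, q t y ^ 2 := ⟨_, rfl⟩
  have hI0 : ∀ t, 0 ≤ I t := fun t => by
    rw [hI]; exact intervalIntegral.integral_nonneg hle fun y _ => sq_nonneg _
  have cI : ContinuousOn I (Ioi 0) := by
    rw [hI]; exact icont (h := fun t y => q t y ^ 2) ha (hcl.c.pow 2)
  obtain ⟨ψ, hψ⟩ : ∃ ψ : ℝ → ℝ, ψ = fun t => om t * √(I t) := ⟨_, rfl⟩
  have cψ : ContinuousOn ψ (Ioi 0) := by
    rw [hψ]; exact hom.mul cI.sqrt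
  have hψ0 : ∀ t, 0 < t → 0 ≤ ψ t := fun t ht => by
    rw [hψ]; exact mul_nonneg (hom0 t ht) (Real.sqrt_nonneg _)
  have iψ : ∀ T, 0 < T → IntegrableOn ψ (Ioc 0 T) := by
    intro T hT
    obtain ⟨B, hB0, hB⟩ := bdd ha hf hcl.c hq.lim T
    refine Integrable.mono' ((homi T hT).mul_const (√B))
      ((cψ.mono fun t ht => ht.1).aestronglyMeasurable measurableSet_Ioc) ?_
    refine (ae_restrict_iff' measurableSet_Ioc).2 (ae_of_all _ fun t ht => ?_)
    rw [Real.norm_eq_abs, abs_of_nonneg (hψ0 t ht.1), hψ]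
    refine mul_le_mul_of_nonneg_left (Real.sqrt_le_sqrt ?_) (hom0 t ht.1)
    have := hB t ht
    rw [hI]
    exact this
  have bG : ∀ t, 0 < t → ∫ y in (-a)..a, G t y ^ 2 ≤ ψ t ^ 2 := by
    intro t ht
    have e1 : ψ t ^ 2 = ∫ y in (-a)..a, om t ^ 2 * q t y ^ 2 := by
      rw [intervalIntegral.integral_const_mul, hψ]
      show (om t * √(I t)) ^ 2 = _
      rw [mul_pow, Real.sq_sqrt (hI0 t), hI]
    rw [e1]
    refine intervalIntegral.integral_mono_on hle ?_ ?_ fun y hy => ?_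
    · exact ContinuousOn.intervalIntegrable (by
        rw [uIcc_of_le hle]; exact (slice cG ht).pow 2)
    · exact ContinuousOn.intervalIntegrable (by
        rw [uIcc_of_le hle]; exact continuousOn_const.mul ((slice hcl.c ht).pow 2))
    · rw [hG]
      show (-(w t y * q t y)) ^ 2 ≤ _
      have h3 := hwom t ht y hy
      have h4 : w t y ^ 2 ≤ om t ^ 2 := by
        rw [← sq_abs (w t y)]
        exact pow_le_pow_left₀ (abs_nonneg _) h3 2
      calc (-(w t y * q t y)) ^ 2 = w t y ^ 2 * q t y ^ 2 := by ring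
        _ ≤ _ := mul_le_mul_of_nonneg_right h4 (sq_nonneg _)
  -- Duhamel
  obtain ⟨q', qt', qy', qyy', hcf, hb⟩ := h1 a ha G
    (fun t y => -(wy t y * q t y + w t y * qy t y))
    (fun t y => -(wyy t y * q t y + 2 * (wy t y * qy t y) + w t y * qyy t y)) cG
    ((hw.cy.mul hcl.c).add (hw.c.mul hcl.cy)).neg
    (((hw.cyy.mul hcl.c).add (continuousOn_const.mul (hw.cy.mul hcl.cy))).add
      (hw.c.mul hcl.cyy)).neg
    (fun t ht y hy => by
      rw [hG]
      exact ((hw.dy t ht y hy).mul (hcl.dy t ht y hy)).neg)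
    (fun t ht y hy => by
      have h3 := (((hw.dyy t ht y hy).mul (hcl.dy t ht y hy)).add
        ((hw.dy t ht y hy).mul (hcl.dyy t ht y hy))).neg
      refine h3.congr_deriv ?_
      ring)
    (fun t ht => by
      rw [hG]
      show -(w t a * q t a) = 0 ∧ -(w t (-a) * q t (-a)) = 0
      rw [(hcl.wall t ht).1, (hcl.wall t ht).2, mul_zero, mul_zero, neg_zero]
      exact ⟨rfl, rfl⟩)
    ψ cψ hψ0 iψ bG
  rw [hG] at hcf
  refine ⟨q', qt', qy', qyy', hcf, ?_, ?_⟩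
  · -- the initial value
    have h3 : Tendsto (fun t => ENNReal.ofReal ((∫ s in (0 : ℝ)..t, ψ s) ^ 2)) (𝓝[>] 0)
        (𝓝 0) := by
      have h4 : ContinuousOn (fun t => ∫ s in (0 : ℝ)..t, ψ s) (uIcc 0 1) := by
        refine intervalIntegral.continuousOn_primitive_interval ?_
        rw [uIcc_of_le zero_le_one, integrableOn_Icc_iff_integrableOn_Ioc]
        exact iψ 1 one_pos
      rw [uIcc_of_le zero_le_one] at h4
      have h5 : Tendsto (fun t => ∫ s in (0 : ℝ)..t, ψ s) (𝓝[>] 0) (𝓝 0) := by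
        have h6 := (h4 0 (left_mem_Icc.2 zero_le_one)).tendsto
        rw [intervalIntegral.integral_same] at h6
        refine h6.mono_left ?_
        rw [← nhdsWithin_Ioo_eq_nhdsGT (zero_lt_one' ℝ)]
        exact nhdsWithin_mono _ Ioo_subset_Icc_self
      have h7 := ENNReal.tendsto_ofReal (h5.pow 2)
      simpa using h7
    refine tendsto_of_tendsto_of_tendsto_of_le_of_le' tendsto_const_nhds h3
      (Eventually.of_forall fun t => bot_le) ?_
    filter_upwards [self_mem_nhdsWithin] with t ht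
    have ht0 : (0 : ℝ) < t := ht
    simp only [sub_zero]
    rw [conv ha (slice hcf.c ht0)]
    exact ENNReal.ofReal_le_ofReal (hb t ht0)
  · -- the energy
    intro T
    rcases le_or_gt T 0 with hT | hT
    · rw [Ioc_eq_empty (not_lt.2 hT)]
      simp
    · have hiψ : IntervalIntegrable ψ volume 0 T := by
        rw [intervalIntegrable_iff_integrableOn_Ioc_of_le hT.le]
        exact iψ T hT
      rw [← hG] at hcf
      refine h2 a ha G q' qt' qy' qyy' hcf cG ψ cψ hψ0 iψ bG T (∫ s in (0 : ℝ)..T, ψ s) hT ?_ ?_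
      · refine intervalIntegral.integral_nonneg_of_ae_restrict hT.le ?_
        refine (ae_restrict_iff' measurableSet_Icc).2 ?_
        have h5 : ∀ᵐ s : ℝ, s ≠ 0 := by simp [ae_iff]
        filter_upwards [h5] with s hs hs'
        exact hψ0 s (lt_of_le_of_ne hs'.1 (Ne.symm hs))
      · intro t ht
        refine (hb t ht.1).trans (pow_le_pow_left₀ ?_ ?_ 2)
        · refine intervalIntegral.integral_nonneg_of_ae_restrict ht.1.le ?_
          refine (ae_restrict_iff' measurableSet_Icc).2 ?_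
          have h5 : ∀ᵐ s : ℝ, s ≠ 0 := by simp [ae_iff]
          filter_upwards [h5] with s hs hs'
          exact hψ0 s (lt_of_le_of_ne hs'.1 (Ne.symm hs))
        · rw [intervalIntegral.integral_of_le ht.1.le, intervalIntegral.integral_of_le hT.le]
          refine setIntegral_mono_set (iψ T hT) ?_ (Ioc_subset_Ioc_right ht.2).eventuallyLE
          exact (ae_restrict_iff' measurableSet_Ioc).2 (ae_of_all _ fun s hs => hψ0 s hs.1)

end Pool.Agent.H309.DP.LDuh
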