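import Pool.Agent.H309.DP.Stm

/-! # DP8: the energy inequality for classical flows (project DP of helper309, by helper640) -/

set_option autoImplicit false

open Set Filter Topology MeasureTheory
open scoped ENNReal

namespace Pool.Agent.H309.DP.LEnI

open Pool.Agent.H309.DP

/-- continuity of parametric integrals -/
theorem contPar {a : ℝ} (ha : 0 < a) {f : ℝ → ℝ → ℝ}
    (hf : ContinuousOn (fun z : ℝ × ℝ => f z.1 z.2) (Ioi 0 ×ˢ Icc (-a) a)) :
    ContinuousOn (fun t => ∫ y in (-a)..a, f t y) (Ioi 0) := by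
  have hle : -a ≤ a := by linarith
  intro t₀ ht₀
  have ht₀' : 0 < t₀ := ht₀
  have hI : t₀ / 2 ≤ 2 * t₀ := by linarith
  have h1 : Continuous (fun z : ℝ × ℝ =>
      (((projIcc (t₀ / 2) (2 * t₀) hI z.1 : ℝ), (projIcc (-a) a hle z.2 : ℝ)) : ℝ × ℝ)) :=
    (continuous_subtype_val.comp (continuous_projIcc.comp continuous_fst)).prodMk
      (continuous_subtype_val.comp (continuous_projIcc.comp continuous_snd))
  have hF : Continuous (Function.uncurry fun t y : ℝ =>
      f (projIcc (t₀ / 2) (2 * t₀) hI t) (projIcc (-a) a hle y)) :=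
    hf.comp_continuous h1 fun z =>
      ⟨lt_of_lt_of_le (by linarith : 0 < t₀ / 2) (projIcc (t₀ / 2) (2 * t₀) hI z.1).2.1,
        (projIcc (-a) a hle z.2).2⟩
  have hG := intervalIntegral.continuous_parametric_intervalIntegral_of_continuous'
    (μ := volume) hF (-a) a
  refine ContinuousAt.continuousWithinAt ?_
  refine hG.continuousAt.congr ?_
  filter_upwards [Ioo_mem_nhds (by linarith : t₀ / 2 < t₀) (by linarith : t₀ < 2 * t₀)] with t ht
  refine intervalIntegral.integral_congr fun y hy => ?_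
  rw [uIcc_of_le hle] at hy
  show f (projIcc (t₀ / 2) (2 * t₀) hI t) (projIcc (-a) a hle y) = f t y
  rw [projIcc_of_mem hI ⟨ht.1.le, ht.2.le⟩, projIcc_of_mem hle hy]

theorem slice {a : ℝ} {f : ℝ → ℝ → ℝ}
    (hf : ContinuousOn (fun z : ℝ × ℝ => f z.1 z.2) (Ioi 0 ×ˢ Icc (-a) a)) {t : ℝ} (ht : 0 < t) :
    ContinuousOn (f t) (Icc (-a) a) :=
  hf.comp (f := fun y : ℝ => ((t, y) : ℝ × ℝ)) (by fun_prop) fun y hy => ⟨ht, hy⟩

theorem sliceI {a : ℝ} (ha : 0 < a) {f : ℝ → ℝ → ℝ}
    (hf : ContinuousOn (fun z : ℝ × ℝ => f z.1 z.2) (Ioi 0 ×ˢ Icc (-a) a)) {t : ℝ} (ht : 0 < t) :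
    IntervalIntegrable (f t) volume (-a) a := by
  apply ContinuousOn.intervalIntegrable
  rw [uIcc_of_le (by linarith)]
  exact slice hf ht

/-- derivative of the square norm -/
theorem derE {a : ℝ} (ha : 0 < a) {q qt : ℝ → ℝ → ℝ}
    (hc : ContinuousOn (fun z : ℝ × ℝ => q z.1 z.2) (Ioi 0 ×ˢ Icc (-a) a))
    (hct : ContinuousOn (fun z : ℝ × ℝ => qt z.1 z.2) (Ioi 0 ×ˢ Icc (-a) a))
    (hdt : ∀ t, 0 < t → ∀ y ∈ Icc (-a) a, HasDerivAt (fun s => q s y) (qt t y) t)
    {t : ℝ} (ht : 0 < t) :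
    HasDerivAt (fun t => ∫ y in (-a)..a, q t y ^ 2) (∫ y in (-a)..a, 2 * q t y * qt t y) t := by
  have hle : -a ≤ a := by linarith
  have hc2 : ContinuousOn (fun z : ℝ × ℝ => q z.1 z.2 ^ 2) (Ioi 0 ×ˢ Icc (-a) a) := hc.pow 2
  have hcq : ContinuousOn (fun z : ℝ × ℝ => 2 * q z.1 z.2 * qt z.1 z.2) (Ioi 0 ×ˢ Icc (-a) a) :=
    (continuousOn_const.mul hc).mul hct
  obtain ⟨C, hC⟩ := (isCompact_Icc (a := t / 2) (b := 2 * t)).prod
    (isCompact_Icc (a := -a) (b := a)) |>.exists_bound_of_continuousOn (hcq.mono (by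
      rintro z ⟨hz1, hz2⟩
      exact ⟨lt_of_lt_of_le (by linarith : 0 < t / 2) hz1.1, hz2⟩))
  have hs : Ioo (t / 2) (2 * t) ∈ 𝓝 t := Ioo_mem_nhds (by linarith) (by linarith)
  have hpos : ∀ x ∈ Ioo (t / 2) (2 * t), 0 < x := fun x hx =>
    lt_trans (by linarith : 0 < t / 2) hx.1
  have hkey := intervalIntegral.hasDerivAt_integral_of_dominated_loc_of_deriv_le
    (μ := volume) (a := -a) (b := a) (F := fun s y => q s y ^ 2)
    (F' := fun s y => 2 * q s y * qt s y) (x₀ := t) (s := Ioo (t / 2) (2 * t))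
    (bound := fun _ => C) hs
    (by
      filter_upwards [hs] with x hx
      have h1 := (sliceI (f := fun t y => q t y ^ 2) ha hc2 (hpos x hx)).aestronglyMeasurable
      rw [uIoc_of_le hle]
      exact h1)
    (sliceI (f := fun t y => q t y ^ 2) ha hc2 ht)
    (by
      have h1 := (sliceI (f := fun t y => 2 * q t y * qt t y) ha hcq ht).aestronglyMeasurable
      rw [uIoc_of_le hle]
      exact h1)
    (Eventually.of_forall fun y hy x hx => by
      rw [uIoc_of_le hle] at hy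
      exact hC (x, y) ⟨⟨hx.1.le, hx.2.le⟩, ⟨hy.1.le, hy.2⟩⟩)
    intervalIntegrable_const
    (Eventually.of_forall fun y hy x hx => by
      rw [uIoc_of_le hle] at hy
      have h1 := (hdt x (hpos x hx) y ⟨hy.1.le, hy.2⟩).pow 2
      have h2 : ((2 : ℕ) : ℝ) * q x y ^ (2 - 1) * qt x y = 2 * q x y * qt x y := by
        norm_num
      rw [h2] at h1
      exact h1)
  exact hkey.2

/-- the energy identity -/
theorem derE2 {a : ℝ} (ha : 0 < a) {F q qt qy qyy : ℝ → ℝ → ℝ} (hq : CFlow a F q qt qy qyy)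
    (hF : ContinuousOn (fun z : ℝ × ℝ => F z.1 z.2) (Ioi 0 ×ˢ Icc (-a) a)) {t : ℝ} (ht : 0 < t) :
    HasDerivAt (fun t => ∫ y in (-a)..a, q t y ^ 2)
      (2 * (∫ y in (-a)..a, q t y * F t y) - 2 * ∫ y in (-a)..a, qy t y ^ 2) t := by
  have hle : -a ≤ a := by linarith
  have h0 := derE ha hq.c hq.ct hq.dt ht
  have iA : IntervalIntegrable (fun y => q t y * qyy t y) volume (-a) a :=
    sliceI (f := fun t y => q t y * qyy t y) ha (hq.c.mul hq.cyy) ht
  have iB : IntervalIntegrable (fun y => q t y * F t y) volume (-a) a :=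
    sliceI (f := fun t y => q t y * F t y) ha (hq.c.mul hF) ht
  have e1 : ∫ y in (-a)..a, 2 * q t y * qt t y =
      2 * (∫ y in (-a)..a, q t y * qyy t y) + 2 * ∫ y in (-a)..a, q t y * F t y := by
    rw [← intervalIntegral.integral_const_mul, ← intervalIntegral.integral_const_mul,
      ← intervalIntegral.integral_add (iA.const_mul 2) (iB.const_mul 2)]
    refine intervalIntegral.integral_congr fun y hy => ?_
    rw [uIcc_of_le hle] at hy
    show 2 * q t y * qt t y = 2 * (q t y * qyy t y) + 2 * (q t y * F t y)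
    rw [hq.eq t ht y hy]
    ring
  have e2 : ∫ y in (-a)..a, q t y * qyy t y = -∫ y in (-a)..a, qy t y ^ 2 := by
    have h1 := intervalIntegral.integral_mul_deriv_eq_deriv_mul_of_hasDeriv_right
      (a := -a) (b := a) (u := q t) (v := qy t) (u' := qy t) (v' := qyy t)
      (by rw [uIcc_of_le hle]; exact slice hq.c ht) (by rw [uIcc_of_le hle]; exact slice hq.cy ht)
      (fun y hy => by
        rw [min_eq_left hle, max_eq_right hle] at hy
        exact (hq.dy t ht y hy).hasDerivWithinAt)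
      (fun y hy => by
        rw [min_eq_left hle, max_eq_right hle] at hy
        exact (hq.dyy t ht y hy).hasDerivWithinAt)
      (sliceI ha hq.cy ht) (sliceI ha hq.cyy ht)
    rw [h1, (hq.wall t ht).1, (hq.wall t ht).2, zero_mul, zero_mul, sub_zero, zero_sub]
    apply congrArg
    refine intervalIntegral.integral_congr fun y _ => ?_
    show qy t y * qy t y = qy t y ^ 2
    ring
  rw [e1, e2] at h0
  have e3 : 2 * (∫ y in (-a)..a, q t y * F t y) - 2 * ∫ y in (-a)..a, qy t y ^ 2 =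
      2 * (-∫ y in (-a)..a, qy t y ^ 2) + 2 * ∫ y in (-a)..a, q t y * F t y := by ring
  rw [e3]
  exact h0

theorem tEnI : Pool.Agent.H309.DP.EnI := by
  intro a ha F q qt qy qyy hq hF ψ hψ hψ0 hψi hFψ T Φ hT hΦ hqΦ
  have hle : -a ≤ a := by linarith
  obtain ⟨D, hD⟩ : ∃ D : ℝ → ℝ, D = fun t => ∫ y in (-a)..a, qy t y ^ 2 := ⟨_, rfl⟩
  obtain ⟨G, hG⟩ : ∃ G : ℝ → ℝ, G = fun t => ∫ y in (-a)..a, q t y * F t y := ⟨_, rfl⟩
  obtain ⟨E, hE⟩ : ∃ E : ℝ → ℝ, E = fun t => ∫ y in (-a)..a, q t y ^ 2 := ⟨_, rfl⟩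
  have cy2 : ContinuousOn (fun z : ℝ × ℝ => qy z.1 z.2 ^ 2) (Ioi 0 ×ˢ Icc (-a) a) := hq.cy.pow 2
  have cqF : ContinuousOn (fun z : ℝ × ℝ => q z.1 z.2 * F z.1 z.2) (Ioi 0 ×ˢ Icc (-a) a) :=
    hq.c.mul hF
  have cD : ContinuousOn D (Ioi 0) := by
    rw [hD]
    exact contPar (f := fun t y => qy t y ^ 2) ha cy2
  have cG : ContinuousOn G (Ioi 0) := by
    rw [hG]
    exact contPar (f := fun t y => q t y * F t y) ha cqF
  have hD0 : ∀ t, 0 ≤ D t := by
    intro t
    rw [hD]
    exact intervalIntegral.integral_nonneg hle fun y _ => sq_nonneg _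
  have hE0 : ∀ t, 0 ≤ E t := by
    intro t
    rw [hE]
    exact intervalIntegral.integral_nonneg hle fun y _ => sq_nonneg _
  have hE' : ∀ t, 0 < t → HasDerivAt E (2 * G t - 2 * D t) t := by
    intro t ht
    rw [hE, hG, hD]
    exact derE2 ha hq hF ht
  -- the bound for `G`
  have hGb : ∀ t ∈ Ioc 0 T, G t ≤ (Φ + 1) * (ψ t + 1) := by
    intro t ht
    obtain ⟨P, hP⟩ : ∃ P, P = Φ + 1 := ⟨_, rfl⟩
    obtain ⟨R, hR⟩ : ∃ R, R = ψ t + 1 := ⟨_, rfl⟩
    have hP0 : 0 < P := by rw [hP]; linarith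
    have hψt := hψ0 t ht.1
    have hR0 : 0 < R := by rw [hR]; linarith
    rw [← hP, ← hR]
    have hRP : 0 < R / P := div_pos hR0 hP0
    have hPR : 0 < P / R := div_pos hP0 hR0
    have i1 : IntervalIntegrable (fun y => R / P * q t y ^ 2) volume (-a) a :=
      (sliceI (f := fun t y => q t y ^ 2) ha (hq.c.pow 2) ht.1).const_mul _
    have i2 : IntervalIntegrable (fun y => P / R * F t y ^ 2) volume (-a) a :=
      (sliceI (f := fun t y => F t y ^ 2) ha (hF.pow 2) ht.1).const_mul _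
    have i3 : IntervalIntegrable (fun y => 2 * (q t y * F t y)) volume (-a) a :=
      (sliceI (f := fun t y => q t y * F t y) ha cqF ht.1).const_mul _
    have h1 : ∫ y in (-a)..a, 2 * (q t y * F t y) ≤
        ∫ y in (-a)..a, (R / P * q t y ^ 2 + P / R * F t y ^ 2) := by
      refine intervalIntegral.integral_mono_on hle i3 (i1.add i2) fun y _ => ?_
      have h2 : 0 ≤ R / P * (q t y - P / R * F t y) ^ 2 := mul_nonneg hRP.le (sq_nonneg _)
      have h3 : R / P * (q t y - P / R * F t y) ^ 2 =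
          R / P * q t y ^ 2 + P / R * F t y ^ 2 - 2 * (q t y * F t y) := by
        field_simp
        ring
      linarith
    rw [intervalIntegral.integral_add i1 i2, intervalIntegral.integral_const_mul,
      intervalIntegral.integral_const_mul, intervalIntegral.integral_const_mul] at h1
    have h4 : R / P * ∫ y in (-a)..a, q t y ^ 2 ≤ R / P * P ^ 2 := by
      refine mul_le_mul_of_nonneg_left ((hqΦ t ht).trans ?_) hRP.le
      rw [hP]
      exact pow_le_pow_left₀ hΦ (by linarith) 2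
    have h5 : P / R * ∫ y in (-a)..a, F t y ^ 2 ≤ P / R * R ^ 2 := by
      refine mul_le_mul_of_nonneg_left ((hFψ t ht.1).trans ?_) hPR.le
      rw [hR]
      exact pow_le_pow_left₀ hψt (by linarith) 2
    have h6 : R / P * P ^ 2 = P * R := by field_simp
    have h7 : P / R * R ^ 2 = P * R := by field_simp
    rw [h6] at h4
    rw [h7] at h5
    have h8 : G t = ∫ y in (-a)..a, q t y * F t y := by rw [hG]
    rw [h8]
    linarith
  have hψ1 : IntegrableOn (fun t => (Φ + 1) * (ψ t + 1)) (Ioc 0 T) :=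
    ((hψi T hT).add (integrableOn_const (by simp))).const_mul _
  -- the bound for the integral of `D`
  have hbd : ∀ δ, 0 < δ → δ ≤ T → ∫ t in Ioc δ T, ‖D t‖ ≤
      Φ ^ 2 + 2 * ∫ t in Ioc 0 T, (Φ + 1) * (ψ t + 1) := by
    intro δ hδ hδT
    have hsub : Icc δ T ⊆ Ioi 0 := fun t ht => lt_of_lt_of_le hδ ht.1
    have iD : IntervalIntegrable D volume δ T := by
      apply ContinuousOn.intervalIntegrable
      rw [uIcc_of_le hδT]
      exact cD.mono hsub
    have iG : IntervalIntegrable G volume δ T := by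
      apply ContinuousOn.intervalIntegrable
      rw [uIcc_of_le hδT]
      exact cG.mono hsub
    have h1 : ∫ t in δ..T, (2 * G t - 2 * D t) = E T - E δ :=
      intervalIntegral.integral_eq_sub_of_hasDerivAt
        (fun t ht => hE' t (by
          rw [uIcc_of_le hδT] at ht
          exact hsub ht)) ((iG.const_mul 2).sub (iD.const_mul 2))
    rw [intervalIntegral.integral_sub (iG.const_mul 2) (iD.const_mul 2),
      intervalIntegral.integral_const_mul, intervalIntegral.integral_const_mul] at h1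
    have h2 : ∫ t in Ioc δ T, ‖D t‖ = ∫ t in δ..T, D t := by
      rw [intervalIntegral.integral_of_le hδT]
      refine setIntegral_congr_fun measurableSet_Ioc fun t _ => ?_
      show ‖D t‖ = D t
      rw [Real.norm_eq_abs, abs_of_nonneg (hD0 t)]
    have hsub2 : Ioc δ T ⊆ Ioc 0 T := fun t ht => ⟨lt_trans hδ ht.1, ht.2⟩
    have h3 : ∫ t in δ..T, G t ≤ ∫ t in Ioc 0 T, (Φ + 1) * (ψ t + 1) := by
      rw [intervalIntegral.integral_of_le hδT]
      refine (setIntegral_mono_on iG.1 (hψ1.mono_set hsub2) measurableSet_Ioc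
        fun t ht => hGb t (hsub2 ht)).trans ?_
      refine setIntegral_mono_set hψ1 ?_ (Filter.Eventually.of_forall hsub2)
      refine (ae_restrict_iff' measurableSet_Ioc).2 (Filter.Eventually.of_forall fun t ht => ?_)
      have := hψ0 t ht.1
      exact mul_nonneg (by linarith) (by linarith)
    have h4 : E δ ≤ Φ ^ 2 := by
      rw [hE]
      exact hqΦ δ ⟨hδ, hδT⟩
    have h5 := hE0 T
    have h6 : 0 ≤ ∫ t in δ..T, D t := intervalIntegral.integral_nonneg hδT fun t _ => hD0 t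
    rw [h2]
    linarith
  -- integrability of `D`
  have hDi : IntegrableOn D (Ioc 0 T) := by
    have hpos : ∀ i : ℕ, 0 < T / ((i : ℝ) + 1) := fun i => by positivity
    have hleT : ∀ i : ℕ, T / ((i : ℝ) + 1) ≤ T := fun i => by
      rw [div_le_iff₀ (by positivity)]
      nlinarith [Nat.cast_nonneg (α := ℝ) i]
    refine integrableOn_Ioc_of_intervalIntegral_norm_bounded_left
      (l := atTop) (a := fun i : ℕ => T / ((i : ℝ) + 1))
      (I := Φ ^ 2 + 2 * ∫ t in Ioc 0 T, (Φ + 1) * (ψ t + 1)) (fun i => ?_) ?_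
      (Eventually.of_forall fun i => hbd _ (hpos i) (hleT i))
    · refine (ContinuousOn.integrableOn_Icc (cD.mono ?_)).mono_set Ioc_subset_Icc_self
      exact fun t ht => lt_of_lt_of_le (hpos i) ht.1
    · exact tendsto_const_div_atTop_nhds_zero_nat T |>.comp (tendsto_add_atTop_nat 1) |>.congr
        fun i => by
          show T / ((i + 1 : ℕ) : ℝ) = T / ((i : ℝ) + 1)
          push_cast
          rfl
  have hfin : ∫⁻ t in Ioc 0 T, ENNReal.ofReal (D t) < ⊤ := hDi.lintegral_lt_top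
  refine lt_of_le_of_lt (le_of_eq ?_) hfin
  refine setLIntegral_congr_fun measurableSet_Ioc fun t ht => ?_
  show ∫⁻ y in Icc (-a) a, ‖qy t y‖ₑ ^ 2 = ENNReal.ofReal (D t)
  have h1 : D t = ∫ y in Icc (-a) a, qy t y ^ 2 := by
    rw [hD, integral_Icc_eq_integral_Ioc]
    exact intervalIntegral.integral_of_le hle
  have h2 : IntegrableOn (fun y => qy t y ^ 2) (Icc (-a) a) :=
    ContinuousOn.integrableOn_Icc ((slice hq.cy ht.1).pow 2)
  rw [h1, ofReal_integral_eq_lintegral_ofReal h2 (Eventually.of_forall fun y => sq_nonneg _)]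
  refine lintegral_congr fun y => ?_
  rw [← ofReal_norm, ← ENNReal.ofReal_pow (norm_nonneg _), Real.norm_eq_abs, sq_abs]

end Pool.Agent.H309.DP.LEnI
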