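import Pool.Agent.H309.DP.Stm2
import Pool.Agent.H309.DF.EnergyS

/-! # Energy in the box (DP16 ENP) -/

set_option autoImplicit false

open Set Filter Topology MeasureTheory
open scoped ENNReal

namespace Pool.Agent.H309.DP.LEnP

open Pool.Agent.Q61.NC
open Pool.Agent.H309.DF
open Pool.Agent.H309.DP

theorem tEnP (h1 : Box2) : Pool.Agent.H309.DP.EnP := by
  intro a b T₀ K ι _ ha hb hT₀ hK D H hD hH hHe hDH T'
  obtain ⟨c, hc, hG⟩ := h1 a b ha hb
  have hbm : MeasurableSet (box a b) := (LEnergyS.box_closed a b).measurableSet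
  have hvol : volume (box a b) ≠ ⊤ := (LEnergyS.box_compact a b).measure_lt_top.ne
  set T₁ : ℝ := max T' T₀ with hT₁
  have hmid : ∀ i : Fin 3, ∃ C : ℝ, ∀ z ∈ Icc T₀ T₁ ×ˢ box a b, ‖D i z.1 z.2‖ ≤ C := by
    intro i
    refine (isCompact_Icc.prod (LEnergyS.box_compact a b)).exists_bound_of_continuousOn
      ((hD i).mono ?_)
    rintro z ⟨hz1, hz2⟩
    exact ⟨lt_of_lt_of_le hT₀ hz1.1, hz2⟩
  choose C hC using hmid
  set K' : ℝ≥0∞ := ∑ i, (ENNReal.ofReal (C i)) ^ 2 with hK'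
  have hKt : K' ≠ ⊤ := by
    rw [hK']
    exact (ENNReal.sum_lt_top.2 fun i _ => ENNReal.pow_lt_top ENNReal.ofReal_lt_top).ne
  -- measurability of the slices
  have hsl : ∀ k t, 0 < t → AEMeasurable (fun z : ℝ × ℝ => ‖H k t z.1 z.2‖ₑ ^ 2)
      ((volume : Measure (ℝ × ℝ)).restrict (Icc (-a) a ×ˢ Icc (-b) b)) := by
    intro k t ht
    have h2 : ContinuousOn (fun z : ℝ × ℝ => H k t z.1 z.2) (Icc (-a) a ×ˢ Icc (-b) b) :=
      (hH k).comp (f := fun z : ℝ × ℝ => ((t, z.1, z.2) : ℝ × ℝ × ℝ)) (by fun_prop)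
        fun z hz => ⟨ht, hz⟩
    exact ((h2.aemeasurable (measurableSet_Icc.prod measurableSet_Icc)).enorm).pow_const 2
  set μ : Measure (ℝ × ℝ × ℝ) := ((volume : Measure ℝ).restrict (Ioc 0 T₀)).prod
    (((volume : Measure ℝ).restrict (Icc (-a) a)).prod ((volume : Measure ℝ).restrict (Icc (-b) b)))
    with hμ
  have hfull : ∀ k, AEMeasurable (fun x : ℝ × ℝ × ℝ => ‖H k x.1 x.2.1 x.2.2‖ₑ ^ 2) μ := by
    intro k
    rw [hμ, Measure.prod_restrict, Measure.prod_restrict]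
    have h2 : ContinuousOn (fun x : ℝ × ℝ × ℝ => H k x.1 x.2.1 x.2.2)
        (Ioc 0 T₀ ×ˢ (Icc (-a) a ×ˢ Icc (-b) b)) :=
      (hH k).mono (prod_mono Ioc_subset_Ioi_self subset_rfl)
    exact ((h2.aemeasurable (measurableSet_Ioc.prod
      (measurableSet_Icc.prod measurableSet_Icc))).enorm).pow_const 2
  have htri : ∀ F : ℝ × ℝ × ℝ → ℝ≥0∞, AEMeasurable F μ →
      (∀ t, 0 < t → AEMeasurable (fun z : ℝ × ℝ => F (t, z.1, z.2))
        ((volume : Measure (ℝ × ℝ)).restrict (Icc (-a) a ×ˢ Icc (-b) b))) →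
      ∫⁻ t in Ioc 0 T₀, ∫⁻ y in Icc (-a) a, ∫⁻ z in Icc (-b) b, F (t, y, z) = ∫⁻ x, F x ∂μ := by
    intro F hF hs
    rw [hμ, lintegral_prod _ hF]
    refine setLIntegral_congr_fun measurableSet_Ioc fun t ht => ?_
    have h3 : AEMeasurable (fun z : ℝ × ℝ => F (t, z.1, z.2))
        (((volume : Measure ℝ).restrict (Icc (-a) a)).prod
          ((volume : Measure ℝ).restrict (Icc (-b) b))) := by
      rw [Measure.prod_restrict]
      exact hs t ht.1
    exact (lintegral_prod _ h3).symm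
  have hfirst : ∫⁻ t in Ioc 0 T₀, ∫⁻ x in box a b, ∑ i, ‖D i t x‖ₑ ^ 2 < ⊤ := by
    have hb1 : ∀ t ∈ Ioc 0 T₀, ∫⁻ x in box a b, ∑ i, ‖D i t x‖ₑ ^ 2 ≤
        c * ∫⁻ y in Icc (-a) a, ∫⁻ z in Icc (-b) b, K * ∑ k, ‖H k t y z‖ₑ ^ 2 := by
      intro t ht
      refine le_trans (setLIntegral_mono' hbm fun x hx => hDH t ht.1 ht.2 x hx) ?_
      exact hG (fun y z => K * ∑ k, ‖H k t y z‖ₑ ^ 2)
        ((Finset.aemeasurable_fun_sum _ fun k _ => hsl k t ht.1).const_mul K)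
    refine lt_of_le_of_lt (setLIntegral_mono' measurableSet_Ioc hb1) ?_
    rw [lintegral_const_mul' _ _ hc]
    refine ENNReal.mul_lt_top hc.lt_top ?_
    have h4 := htri (fun x => K * ∑ k, ‖H k x.1 x.2.1 x.2.2‖ₑ ^ 2)
      ((Finset.aemeasurable_fun_sum _ fun k _ => hfull k).const_mul K)
      (fun t ht => (Finset.aemeasurable_fun_sum _ fun k _ => hsl k t ht).const_mul K)
    rw [h4, lintegral_const_mul' _ _ hK, lintegral_finsetSum' _ fun k _ => hfull k]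
    refine ENNReal.mul_lt_top hK.lt_top (ENNReal.sum_lt_top.2 fun k _ => ?_)
    rw [← htri (fun x => ‖H k x.1 x.2.1 x.2.2‖ₑ ^ 2) (hfull k) (fun t ht => hsl k t ht)]
    exact hHe k
  have hsecond : ∫⁻ t in Icc T₀ T₁, ∫⁻ x in box a b, ∑ i, ‖D i t x‖ₑ ^ 2 < ⊤ := by
    have hb2 : ∀ t ∈ Icc T₀ T₁, ∫⁻ x in box a b, ∑ i, ‖D i t x‖ₑ ^ 2 ≤ K' * volume (box a b) := by
      intro t ht
      rw [← setLIntegral_const]
      refine setLIntegral_mono' hbm fun x hx => ?_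
      refine Finset.sum_le_sum fun i _ => ?_
      have h3 := hC i (t, x) ⟨ht, hx⟩
      have h4 : ‖D i t x‖ₑ ≤ ENNReal.ofReal (C i) := by
        rw [← ofReal_norm]
        exact ENNReal.ofReal_le_ofReal h3
      exact pow_le_pow_left' h4 2
    refine lt_of_le_of_lt (setLIntegral_mono' measurableSet_Icc hb2) ?_
    rw [setLIntegral_const, Real.volume_Icc]
    exact ENNReal.mul_lt_top (ENNReal.mul_lt_top hKt.lt_top hvol.lt_top) ENNReal.ofReal_lt_top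
  have hsub : Ioc 0 T' ⊆ Ioc 0 T₀ ∪ Icc T₀ T₁ := by
    intro t ht
    rcases le_total t T₀ with h | h
    · exact Or.inl ⟨ht.1, h⟩
    · exact Or.inr ⟨h, ht.2.trans (le_max_left _ _)⟩
  refine lt_of_le_of_lt (lintegral_mono_set hsub) ?_
  refine lt_of_le_of_lt (lintegral_union_le _ _ _) ?_
  exact ENNReal.add_lt_top.2 ⟨hfirst, hsecond⟩

end Pool.Agent.H309.DP.LEnP
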