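import Pool.Agent.H309.DP.Stm

/-!
# Project DP (helper309), DP12: the combined family on `[α, β]` (helper596)
-/

set_option autoImplicit false

open Set Filter Topology MeasureTheory
open scoped ENNReal ContDiff

namespace Pool.Agent.H309.DP.LFamP

open Pool.Agent.Q61.NC Pool.Agent.H309.DF Pool.Agent.H309.DG Pool.Agent.H309.DP

theorem sub_dom {a α β : ℝ} (hα : 0 < α) :
    Icc α β ×ˢ Icc (-a) a ⊆ Ioi 0 ×ˢ Icc (-a) a :=
  prod_mono (fun t ht => by
    show 0 < t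
    exact lt_of_lt_of_le hα ht.1) (Subset.refl _)

theorem cl_of {a α β : ℝ} (hα : 0 < α) {F q qt qy qyy : ℝ → ℝ → ℝ}
    (h : CFlow a F q qt qy qyy) : Cl a α β q qt qy qyy where
  c := h.c.mono (sub_dom hα)
  ct := h.ct.mono (sub_dom hα)
  cy := h.cy.mono (sub_dom hα)
  cyy := h.cyy.mono (sub_dom hα)
  dt := fun t ht y hy => h.dt t (hα.trans ht.1) y hy
  dy := fun t ht y hy => h.dy t (lt_of_lt_of_le hα ht.1) y hy
  dyy := fun t ht y hy => h.dyy t (lt_of_lt_of_le hα ht.1) y hy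
  wall := fun t ht => h.wall t (lt_of_lt_of_le hα ht.1)

theorem wf_of {a α β : ℝ} (hα : 0 < α) {w wy wyy : ℝ → ℝ → ℝ}
    (h : WF a (Ioi 0) w wy wyy) : WF a (Icc α β) w wy wyy where
  c := h.c.mono (sub_dom hα)
  cy := h.cy.mono (sub_dom hα)
  cyy := h.cyy.mono (sub_dom hα)
  dy := fun t ht y hy => h.dy t (lt_of_lt_of_le hα ht.1) y hy
  dyy := fun t ht y hy => h.dyy t (lt_of_lt_of_le hα ht.1) y hy

theorem mapsW {a α β : ℝ} :
    MapsTo (fun z : ℝ × ℝ => (z.1 + α, z.2)) (Icc 0 (β - α) ×ˢ Icc (-a) a)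
      (Icc α β ×ˢ Icc (-a) a) := by
  rintro ⟨t, y⟩ ⟨ht, hy⟩
  simp only [mem_Icc] at ht
  refine ⟨?_, hy⟩
  show α ≤ t + α ∧ t + α ≤ β
  constructor <;> linarith [ht.1, ht.2]

theorem shiftW {a α β : ℝ} {F : ℝ → ℝ → ℝ}
    (hF : ContinuousOn (fun q : ℝ × ℝ => F q.1 q.2) (Icc α β ×ˢ Icc (-a) a)) :
    ContinuousOn (fun z : ℝ × ℝ => F (z.1 + α) z.2) (Icc 0 (β - α) ×ˢ Icc (-a) a) :=
  ContinuousOn.comp (g := fun q : ℝ × ℝ => F q.1 q.2) (t := Icc α β ×ˢ Icc (-a) a) hF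
    (by fun_prop : Continuous fun z : ℝ × ℝ => (z.1 + α, z.2)).continuousOn mapsW

theorem wf_shift {a α β : ℝ} {w wy wyy : ℝ → ℝ → ℝ} (h : WF a (Icc α β) w wy wyy) :
    WF a (Icc 0 (β - α)) (fun t => w (t + α)) (fun t => wy (t + α))
      (fun t => wyy (t + α)) where
  c := shiftW h.c
  cy := shiftW h.cy
  cyy := shiftW h.cyy
  dy := fun t ht y hy => h.dy (t + α) ⟨by linarith [ht.1], by linarith [ht.2]⟩ y hy
  dyy := fun t ht y hy => h.dyy (t + α) ⟨by linarith [ht.1], by linarith [ht.2]⟩ y hy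

theorem cl_fwd {a α β : ℝ} {q qt qy qyy : ℝ → ℝ → ℝ} (h : Cl a α β q qt qy qyy) :
    Cl a 0 (β - α) (fun t => q (t + α)) (fun t => qt (t + α)) (fun t => qy (t + α))
      (fun t => qyy (t + α)) where
  c := shiftW h.c
  ct := shiftW h.ct
  cy := shiftW h.cy
  cyy := shiftW h.cyy
  dt := fun t ht y hy => HasDerivAt.comp_add_const t α
    (h.dt (t + α) ⟨by linarith [ht.1], by linarith [ht.2]⟩ y hy)
  dy := fun t ht y hy => h.dy (t + α) ⟨by linarith [ht.1], by linarith [ht.2]⟩ y hy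
  dyy := fun t ht y hy => h.dyy (t + α) ⟨by linarith [ht.1], by linarith [ht.2]⟩ y hy
  wall := fun t ht => h.wall (t + α) ⟨by linarith [ht.1], by linarith [ht.2]⟩

theorem mapsB {a α β : ℝ} :
    MapsTo (fun z : ℝ × ℝ => (z.1 - α, z.2)) (Icc α β ×ˢ Icc (-a) a)
      (Icc 0 (β - α) ×ˢ Icc (-a) a) := by
  rintro ⟨t, y⟩ ⟨ht, hy⟩
  simp only [mem_Icc] at ht
  refine ⟨?_, hy⟩
  show 0 ≤ t - α ∧ t - α ≤ β - α
  constructor <;> linarith [ht.1, ht.2]

theorem backC {a α β : ℝ} {F : ℝ → ℝ → ℝ}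
    (hF : ContinuousOn (fun q : ℝ × ℝ => F q.1 q.2) (Icc 0 (β - α) ×ˢ Icc (-a) a)) :
    ContinuousOn (fun z : ℝ × ℝ => F (z.1 - α) z.2) (Icc α β ×ˢ Icc (-a) a) :=
  ContinuousOn.comp (g := fun q : ℝ × ℝ => F q.1 q.2) (t := Icc 0 (β - α) ×ˢ Icc (-a) a) hF
    (by fun_prop : Continuous fun z : ℝ × ℝ => (z.1 - α, z.2)).continuousOn mapsB

theorem memB {α β t : ℝ} (ht : t ∈ Icc α β) : t - α ∈ Icc 0 (β - α) :=
  ⟨by linarith [ht.1], by linarith [ht.2]⟩

theorem cl_back {a α β : ℝ} {q qt qy qyy : ℝ → ℝ → ℝ} (h : Cl a 0 (β - α) q qt qy qyy) :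
    Cl a α β (fun t => q (t - α)) (fun t => qt (t - α)) (fun t => qy (t - α))
      (fun t => qyy (t - α)) where
  c := backC h.c
  ct := backC h.ct
  cy := backC h.cy
  cyy := backC h.cyy
  dt := fun t ht y hy => HasDerivAt.comp_sub_const t α
    (h.dt (t - α) ⟨by linarith [ht.1], by linarith [ht.2]⟩ y hy)
  dy := fun t ht y hy => h.dy (t - α) (memB ht) y hy
  dyy := fun t ht y hy => h.dyy (t - α) (memB ht) y hy
  wall := fun t ht => h.wall (t - α) (memB ht)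

theorem bound1 {a α β : ℝ} {F : ℝ → ℝ → ℝ}
    (hF : ContinuousOn (fun q : ℝ × ℝ => F q.1 q.2) (Icc α β ×ˢ Icc (-a) a)) :
    ∃ B : ℝ, 0 ≤ B ∧ ∀ t ∈ Icc α β, ∀ y ∈ Icc (-a) a, |F t y| ≤ B := by
  obtain ⟨B, hB⟩ := (isCompact_Icc.prod isCompact_Icc).exists_bound_of_continuousOn hF
  refine ⟨|B|, abs_nonneg _, fun t ht y hy => ?_⟩
  have h := hB (t, y) ⟨ht, hy⟩
  rw [Real.norm_eq_abs] at h
  exact h.trans (le_abs_self _)

theorem bound4 {a α β : ℝ} {q qt qy qyy : ℝ → ℝ → ℝ} (h : Cl a α β q qt qy qyy) :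
    ∃ B : ℝ, 0 ≤ B ∧ ∀ t ∈ Icc α β, ∀ y ∈ Icc (-a) a,
      |q t y| ≤ B ∧ |qt t y| ≤ B ∧ |qy t y| ≤ B ∧ |qyy t y| ≤ B := by
  obtain ⟨B1, p1, h1⟩ := bound1 h.c
  obtain ⟨B2, p2, h2⟩ := bound1 h.ct
  obtain ⟨B3, p3, h3⟩ := bound1 h.cy
  obtain ⟨B4, p4, h4⟩ := bound1 h.cyy
  refine ⟨B1 + B2 + B3 + B4, by positivity, fun t ht y hy => ⟨?_, ?_, ?_, ?_⟩⟩
  · linarith [h1 t ht y hy]
  · linarith [h2 t ht y hy]
  · linarith [h3 t ht y hy]
  · linarith [h4 t ht y hy]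

theorem boundN {a α β : ℝ} {n : ℕ} {q qt qy qyy : ℕ → ℝ → ℝ → ℝ}
    (h : ∀ j, j ≤ n → Cl a α β (q j) (qt j) (qy j) (qyy j)) :
    ∃ B : ℝ, 0 ≤ B ∧ ∀ j, j ≤ n → ∀ t ∈ Icc α β, ∀ y ∈ Icc (-a) a,
      |q j t y| ≤ B ∧ |qt j t y| ≤ B ∧ |qy j t y| ≤ B ∧ |qyy j t y| ≤ B := by
  have h1 : ∀ j : ℕ, ∃ B : ℝ, 0 ≤ B ∧ (j ≤ n → ∀ t ∈ Icc α β, ∀ y ∈ Icc (-a) a,
      |q j t y| ≤ B ∧ |qt j t y| ≤ B ∧ |qy j t y| ≤ B ∧ |qyy j t y| ≤ B) := by
    intro j
    by_cases hj : j ≤ n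
    · obtain ⟨B, h0, hB⟩ := bound4 (h j hj)
      exact ⟨B, h0, fun _ => hB⟩
    · exact ⟨0, le_refl _, fun h' => absurd h' hj⟩
  choose B hB0 hB using h1
  refine ⟨∑ j ∈ Finset.range (n + 1), B j, Finset.sum_nonneg fun j _ => hB0 j, ?_⟩
  intro j hj t ht y hy
  have h2 : B j ≤ ∑ j ∈ Finset.range (n + 1), B j :=
    Finset.single_le_sum (f := B) (fun j _ => hB0 j) (Finset.mem_range.2 (by omega))
  obtain ⟨g1, g2, g3, g4⟩ := hB j hj t ht y hy
  exact ⟨g1.trans h2, g2.trans h2, g3.trans h2, g4.trans h2⟩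

theorem fac_bd (n l : ℕ) : ((n + l).factorial : ℝ) ≤ 2 ^ (n + l) * n.factorial * l.factorial := by
  have h1 : (n + l).choose n * n.factorial * l.factorial = (n + l).factorial := by
    have := Nat.choose_mul_factorial_mul_factorial (Nat.le_add_right n l)
    rwa [Nat.add_sub_cancel_left] at this
  have h2 : (n + l).choose n ≤ 2 ^ (n + l) := Nat.choose_le_two_pow (n + l) n
  have h3 : (n + l).factorial ≤ 2 ^ (n + l) * n.factorial * l.factorial := by
    rw [← h1]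
    gcongr
  exact_mod_cast h3

theorem low_bd {B D K : ℝ} {n j : ℕ} (hB : 0 ≤ B) (hD : 0 ≤ D) (hK : 0 < K) (hj : j ≤ n) :
    B ≤ (B + D) * n.factorial * (2 * (K + 1)) ^ j / (j.factorial : ℝ) := by
  have h0 : (0:ℝ) < j.factorial := by exact_mod_cast j.factorial_pos
  rw [le_div_iff₀ h0]
  have h1 : (j.factorial : ℝ) ≤ n.factorial := by exact_mod_cast Nat.factorial_le hj
  have h2 : (1:ℝ) ≤ (2 * (K + 1)) ^ j := one_le_pow₀ (by linarith)
  have h3 : (0:ℝ) ≤ (B + D) * n.factorial := by positivity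
  calc B * (j.factorial : ℝ) ≤ (B + D) * n.factorial := by
        apply mul_le_mul (by linarith) h1 h0.le (by linarith)
    _ = (B + D) * n.factorial * 1 := (mul_one _).symm
    _ ≤ _ := mul_le_mul_of_nonneg_left h2 h3

theorem high_bd {B D K : ℝ} {n j : ℕ} (hB : 0 ≤ B) (hD : 0 ≤ D) (hK : 0 < K) (hj : n ≤ j) :
    D * K ^ (j - n) / ((j - n).factorial : ℝ) ≤
      (B + D) * n.factorial * (2 * (K + 1)) ^ j / (j.factorial : ℝ) := by
  obtain ⟨l, rfl⟩ := Nat.exists_eq_add_of_le hj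
  rw [Nat.add_sub_cancel_left]
  have h0 : (0:ℝ) < l.factorial := by exact_mod_cast l.factorial_pos
  have h1 : (0:ℝ) < (n + l).factorial := by exact_mod_cast (n + l).factorial_pos
  rw [div_le_div_iff₀ h0 h1]
  have h2 := fac_bd n l
  have h3 : K ^ l ≤ (K + 1) ^ (n + l) := by
    calc K ^ l ≤ (K + 1) ^ l := pow_le_pow_left₀ hK.le (by linarith) l
      _ ≤ (K + 1) ^ (n + l) := pow_le_pow_right₀ (by linarith) (by omega)
  calc D * K ^ l * ((n + l).factorial : ℝ) ≤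
      (B + D) * (K + 1) ^ (n + l) * (2 ^ (n + l) * n.factorial * l.factorial) := by
        refine mul_le_mul (mul_le_mul (by linarith) h3 (by positivity) (by linarith)) h2 h1.le
          (by positivity)
    _ = (B + D) * n.factorial * (2 * (K + 1)) ^ (n + l) * l.factorial := by
        rw [mul_pow]
        ring

theorem tFamP (h1 : Pool.Agent.H309.DP.IterG) : Pool.Agent.H309.DP.FamP := by
  intro a α β n ha hα hαβ w wy wyy hw f q qt qy qyy hc
  have hcl : ∀ j, j ≤ n → Cl a α β (q j) (qt j) (qy j) (qyy j) := by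
    intro j hj
    cases j with
    | zero => exact cl_of hα hc.zero.cl
    | succ i => exact cl_of hα (hc.succ i (by omega)).cl
  obtain ⟨P, Pt, Py, Pyy, D, K, hD, hK, P0, Pt0, Py0, Pyy0, hPc, hPn, hPb⟩ :=
    h1 a (β - α) ha (by linarith) _ _ _ _ _ _ _ (cl_fwd (hcl n (le_refl n)))
      (wf_shift (wf_of (β := β) hα hw))
  obtain ⟨B, hB0, hB⟩ := boundN hcl
  refine ⟨fun j => if j ≤ n then q j else fun t => P (j - n) (t - α),
    fun j => if j ≤ n then qt j else fun t => Pt (j - n) (t - α),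
    fun j => if j ≤ n then qy j else fun t => Py (j - n) (t - α),
    fun j => if j ≤ n then qyy j else fun t => Pyy (j - n) (t - α),
    (B + D) * n.factorial, 2 * (K + 1), ⟨by positivity, by positivity, ?_, ?_, ?_, ?_⟩, ?_⟩
  · intro j
    by_cases hj : j ≤ n
    · simp only [if_pos hj]
      exact hcl j hj
    · simp only [if_neg hj]
      exact cl_back (hPc (j - n))
  · intro t ht y hy
    simp only [if_pos (Nat.zero_le n)]
    have h2 := hc.zero.cl.eq t (lt_of_lt_of_le hα ht.1) y hy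
    rw [add_zero] at h2
    exact ⟨trivial, h2⟩
  · intro j t ht y hy
    by_cases hj : j + 1 ≤ n
    · simp only [if_pos hj, if_pos (show j ≤ n by omega)]
      have h2 := (hc.succ j (by omega)).cl.eq t (lt_of_lt_of_le hα ht.1) y hy
      rw [h2]
      ring
    · by_cases hj2 : j ≤ n
      · have hjn : j = n := by omega
        subst hjn
        simp only [if_neg hj, if_pos (le_refl j)]
        have h2 := hPn 0 (t - α) (memB ht) y hy
        rw [P0] at h2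
        simp only [sub_add_cancel, zero_add] at h2
        rw [Nat.add_sub_cancel_left]
        exact h2
      · simp only [if_neg hj, if_neg hj2]
        have h2 := hPn (j - n) (t - α) (memB ht) y hy
        simp only [sub_add_cancel] at h2
        have h3 : j + 1 - n = j - n + 1 := by omega
        rw [h3]
        exact h2
  · intro j t ht y hy
    by_cases hj : j ≤ n
    · simp only [if_pos hj]
      obtain ⟨g1, g2, g3, g4⟩ := hB j hj t ht y hy
      have h2 := low_bd (n := n) (j := j) hB0 hD hK hj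
      exact ⟨g1.trans h2, g2.trans h2, g3.trans h2, g4.trans h2⟩
    · simp only [if_neg hj]
      obtain ⟨g1, g2, g3, g4⟩ := hPb (j - n) (t - α) (memB ht) y hy
      have h2 := high_bd (n := n) (j := j) hB0 hD hK (by omega)
      exact ⟨g1.trans h2, g2.trans h2, g3.trans h2, g4.trans h2⟩
  · intro j hj t _ y _
    simp only [if_pos hj]
    exact ⟨trivial, trivial, trivial, trivial⟩

end Pool.Agent.H309.DP.LFamP
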