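import Pool.Agent.H309.DP.Stm
import Pool.Agent.H309.DF.SeriesCl

/-!
# DP5 HEATC: the heat flow of bounded sine coefficients
-/

set_option autoImplicit false

open Set Filter Topology MeasureTheory

namespace Pool.Agent.H309.DP.LHeatC

open Pool.Agent.Q61.NC Pool.Agent.H309.DF Pool.Agent.H309.DG Pool.Agent.H309.DP

theorem summ {a : ℝ} (ha : 0 < a) (B : ℝ) {δ : ℝ} (hδ : 0 < δ) :
    Summable fun m : ℕ => B * (mu a m ^ 2 * Real.exp (-(mu a m ^ 2 * δ))) := by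
  refine Summable.mul_left B ?_
  obtain ⟨κ, hκ⟩ : ∃ κ : ℝ, κ = (Real.pi / (2 * a)) ^ 2 := ⟨_, rfl⟩
  have hκ0 : 0 < κ := by
    rw [hκ]
    have := Real.pi_pos
    positivity
  have hgeo : Summable fun m : ℕ => 2 / δ * Real.exp (-(κ * δ / 2)) ^ m :=
    (summable_geometric_of_lt_one (Real.exp_pos _).le (Real.exp_lt_one_iff.2 (by
      have : 0 < κ * δ := mul_pos hκ0 hδ
      linarith))).mul_left _
  refine Summable.of_nonneg_of_le (fun m => by positivity) (fun m => ?_) hgeo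
  obtain ⟨x, hx⟩ : ∃ x, x = mu a m ^ 2 := ⟨_, rfl⟩
  have hxm : κ * m ≤ x := by
    have e : mu a m ^ 2 = κ * ((m : ℝ) + 1) ^ 2 := by
      rw [hκ]
      unfold mu
      field_simp
    rw [hx, e]
    have : (0 : ℝ) ≤ m := Nat.cast_nonneg m
    have h2 : (m : ℝ) ≤ ((m : ℝ) + 1) ^ 2 := by nlinarith
    exact mul_le_mul_of_nonneg_left h2 hκ0.le
  rw [← hx]
  have h1 : x * δ / 2 ≤ Real.exp (x * δ / 2) := by
    have := Real.add_one_le_exp (x * δ / 2)
    linarith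
  have h2 : x ≤ 2 / δ * Real.exp (x * δ / 2) := by
    rw [div_mul_eq_mul_div, le_div_iff₀ hδ]
    linarith
  calc x * Real.exp (-(x * δ)) ≤ 2 / δ * Real.exp (x * δ / 2) * Real.exp (-(x * δ)) :=
        mul_le_mul_of_nonneg_right h2 (Real.exp_pos _).le
    _ = 2 / δ * Real.exp (-(x * δ / 2)) := by
        rw [mul_assoc, ← Real.exp_add]
        congr 2
        ring
    _ ≤ 2 / δ * Real.exp (-(κ * δ / 2)) ^ m := by
        refine mul_le_mul_of_nonneg_left ?_ (by positivity)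
        rw [← Real.exp_nat_mul, Real.exp_le_exp]
        have := mul_le_mul_of_nonneg_right hxm hδ.le
        linarith

theorem shift_c {a : ℝ} {f : ℝ → ℝ → ℝ} (h : ∀ δ τ : ℝ, 0 < δ → 0 < τ →
    ContinuousOn (fun z : ℝ × ℝ => f (z.1 + δ) z.2) (Icc 0 τ ×ˢ Icc (-a) a)) :
    ContinuousOn (fun z : ℝ × ℝ => f z.1 z.2) (Ioi 0 ×ˢ Icc (-a) a) := by
  rintro ⟨t, y⟩ ⟨ht, hy⟩
  have ht' : 0 < t := ht
  have h1 := h (t / 2) t (by linarith) ht'
  have h2 : ContinuousOn (fun z : ℝ × ℝ => ((z.1 - t / 2, z.2) : ℝ × ℝ))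
      (Ioo (t / 2) (3 * t / 2) ×ˢ Icc (-a) a) := by fun_prop
  have h3 : MapsTo (fun z : ℝ × ℝ => ((z.1 - t / 2, z.2) : ℝ × ℝ))
      (Ioo (t / 2) (3 * t / 2) ×ˢ Icc (-a) a) (Icc 0 t ×ˢ Icc (-a) a) := by
    rintro ⟨s, z⟩ ⟨hs, hz⟩
    refine ⟨⟨?_, ?_⟩, hz⟩
    · have := hs.1
      simp only at this ⊢
      linarith
    · have := hs.2
      simp only at this ⊢
      linarith
  have h4 := h1.comp h2 h3
  have h5 : ContinuousOn (fun z : ℝ × ℝ => f z.1 z.2)
      (Ioo (t / 2) (3 * t / 2) ×ˢ Icc (-a) a) := by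
    refine h4.congr fun z _ => ?_
    simp only [Function.comp, sub_add_cancel]
  have hmem : t ∈ Ioo (t / 2) (3 * t / 2) := ⟨by linarith, by linarith⟩
  refine (h5 (t, y) ⟨hmem, hy⟩).mono_of_mem_nhdsWithin ?_
  rw [mem_nhdsWithin_iff_exists_mem_nhds_inter]
  refine ⟨Ioo (t / 2) (3 * t / 2) ×ˢ univ, prod_mem_nhds (Ioo_mem_nhds hmem.1 hmem.2) univ_mem, ?_⟩
  rintro ⟨s, z⟩ ⟨⟨hs, _⟩, ⟨_, hz⟩⟩
  exact ⟨hs, hz⟩

theorem tHeatC : Pool.Agent.H309.DP.HeatC := by
  intro a ha c B hB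
  have hB0 : 0 ≤ B := (abs_nonneg _).trans (hB 0)
  have hpt : ∀ (δ t : ℝ) (m : ℕ), 0 < δ → δ ≤ t →
      |mu a m ^ 2 * (c m * Real.exp (-(mu a m ^ 2 * t)))| ≤
        B * (mu a m ^ 2 * Real.exp (-(mu a m ^ 2 * δ))) := by
    intro δ t m _ hδt
    have h0 : 0 ≤ mu a m ^ 2 := sq_nonneg _
    rw [abs_mul, abs_mul, abs_of_nonneg h0, abs_of_pos (Real.exp_pos _)]
    have h1 : Real.exp (-(mu a m ^ 2 * t)) ≤ Real.exp (-(mu a m ^ 2 * δ)) := by
      rw [Real.exp_le_exp]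
      have := mul_le_mul_of_nonneg_left hδt h0
      linarith
    calc mu a m ^ 2 * (|c m| * Real.exp (-(mu a m ^ 2 * t)))
        ≤ mu a m ^ 2 * (B * Real.exp (-(mu a m ^ 2 * δ))) :=
          mul_le_mul_of_nonneg_left (mul_le_mul (hB m) h1 (Real.exp_pos _).le hB0) h0
      _ = _ := by ring
  have key : ∀ δ τ : ℝ, 0 < δ → 0 < τ → Cl a 0 τ
      (fun t y => ∑' m, c m * Real.exp (-(mu a m ^ 2 * (t + δ))) * sn a m y)
      (fun t y => ∑' m, -(mu a m ^ 2 * (c m * Real.exp (-(mu a m ^ 2 * (t + δ))))) * sn a m y)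
      (fun t y => ∑' m, c m * Real.exp (-(mu a m ^ 2 * (t + δ))) *
        (mu a m * Real.cos (mu a m * (y + a))))
      (fun t y => ∑' m, -(mu a m ^ 2 * (c m * Real.exp (-(mu a m ^ 2 * (t + δ))))) * sn a m y) := by
    intro δ τ hδ hτ
    refine Pool.Agent.H309.DF.LSeriesCl.tSeriesCl a τ ha hτ
      (fun m t => c m * Real.exp (-(mu a m ^ 2 * (t + δ))))
      (fun m t => -(mu a m ^ 2 * (c m * Real.exp (-(mu a m ^ 2 * (t + δ))))))
      (fun m => B * (mu a m ^ 2 * Real.exp (-(mu a m ^ 2 * δ)))) (summ ha B hδ)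
      (fun m => by fun_prop) (fun m => by fun_prop) (fun m t _ => ?_) (fun m t ht => ?_)
      (fun m t ht => ?_)
    · have h1 : HasDerivAt (fun t : ℝ => -(mu a m ^ 2 * (t + δ))) (-(mu a m ^ 2 * 1)) t :=
        (((hasDerivAt_id t).add_const δ).const_mul _).neg
      have h2 := (h1.exp).const_mul (c m)
      refine h2.congr_deriv ?_
      ring
    · exact hpt δ (t + δ) m hδ (by linarith [ht.1])
    · rw [abs_neg]
      exact hpt δ (t + δ) m hδ (by linarith [ht.1])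
  have hdt : ∀ {q qt : ℝ → ℝ → ℝ} {t y : ℝ}, HasDerivAt (fun s => q (s + t / 2) y)
      (qt (t / 2 + t / 2) y) (t / 2) → HasDerivAt (fun s => q s y) (qt t y) t := by
    intro q qt t y h
    rw [add_halves] at h
    have h1 : HasDerivAt (fun s => q (s + t / 2) y) (qt t y) (t - t / 2) := by
      rwa [show t - t / 2 = t / 2 by ring]
    have h2 := h1.comp_sub_const t (t / 2)
    simpa only [sub_add_cancel] using h2
  refine ⟨⟨?_, ?_, ?_, ?_, ?_, ?_, ?_, ?_, ?_⟩, fun t ht => ?_⟩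
  · exact shift_c (f := fun t y => ∑' m, c m * Real.exp (-(mu a m ^ 2 * t)) * sn a m y)
      fun δ τ hδ hτ => (key δ τ hδ hτ).c
  · exact shift_c (f := fun t y => ∑' m, -(mu a m ^ 2 * (c m * Real.exp (-(mu a m ^ 2 * t)))) *
      sn a m y) fun δ τ hδ hτ => (key δ τ hδ hτ).ct
  · exact shift_c (f := fun t y => ∑' m, c m * Real.exp (-(mu a m ^ 2 * t)) *
      (mu a m * Real.cos (mu a m * (y + a)))) fun δ τ hδ hτ => (key δ τ hδ hτ).cy
  · exact shift_c (f := fun t y => ∑' m, -(mu a m ^ 2 * (c m * Real.exp (-(mu a m ^ 2 * t)))) *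
      sn a m y) fun δ τ hδ hτ => (key δ τ hδ hτ).cyy
  · intro t ht y hy
    exact hdt (q := fun t y => ∑' m, c m * Real.exp (-(mu a m ^ 2 * t)) * sn a m y)
      (qt := fun t y => ∑' m, -(mu a m ^ 2 * (c m * Real.exp (-(mu a m ^ 2 * t)))) * sn a m y)
      ((key (t / 2) t (by linarith) ht).dt (t / 2) ⟨by linarith, by linarith⟩ y hy)
  · intro t ht y hy
    have h := (key (t / 2) t (by linarith) ht).dy (t / 2) ⟨by linarith, by linarith⟩ y hy
    simpa only [add_halves] using h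
  · intro t ht y hy
    have h := (key (t / 2) t (by linarith) ht).dyy (t / 2) ⟨by linarith, by linarith⟩ y hy
    simpa only [add_halves] using h
  · intro t ht
    have h := (key (t / 2) t (by linarith) ht).wall (t / 2) ⟨by linarith, by linarith⟩
    simpa only [add_halves] using h
  · intro t _ y _
    simp only [add_zero]
  · exact Summable.of_nonneg_of_le (fun m => abs_nonneg _) (fun m => hpt t t m ht le_rfl)
      (summ ha B ht)

end Pool.Agent.H309.DP.LHeatC
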