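import Pool.Agent.H309.DP.Stm

set_option autoImplicit false

open Set Filter Topology MeasureTheory
open scoped ENNReal

namespace Pool.Agent.H309.DP.LHeatL2

open Pool.Agent.Q61.NC Pool.Agent.H309.DF Pool.Agent.H309.DG Pool.Agent.H309.DP

namespace XHL

theorem ineq (x y : ℝ) : ‖(x - y) / 2‖ₑ ^ 2 ≤ ‖x‖ₑ ^ 2 + ‖y‖ₑ ^ 2 := by
  have h : ∀ z : ℝ, ‖z‖ₑ ^ 2 = ENNReal.ofReal (z ^ 2) := by
    intro z
    rw [Real.enorm_eq_ofReal_abs, ← ENNReal.ofReal_pow (abs_nonneg z), sq_abs]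
  rw [h, h, h, ← ENNReal.ofReal_add (sq_nonneg _) (sq_nonneg _)]
  apply ENNReal.ofReal_le_ofReal
  nlinarith [sq_nonneg (x + y), sq_nonneg x, sq_nonneg y]

theorem shiftR {a : ℝ} (ha : 0 < a) (Φ : ℝ → ℝ≥0∞) :
    ∫⁻ y in Icc (-a) a, Φ (a + y) ≤ ∫⁻ s in Icc (-(2 * a)) (2 * a), Φ s := by
  have h1 := (measurePreserving_add_left (volume : Measure ℝ) a).setLIntegral_comp_preimage_emb
    (measurableEmbedding_addLeft a) Φ (Icc (-(2 * a)) (2 * a))
  rw [← h1]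
  refine lintegral_mono_set fun y hy => ?_
  rw [mem_preimage, mem_Icc]
  constructor <;> linarith [hy.1, hy.2]

theorem shiftL {a : ℝ} (ha : 0 < a) (Φ : ℝ → ℝ≥0∞) :
    ∫⁻ y in Icc (-a) a, Φ (-a - y) ≤ ∫⁻ s in Icc (-(2 * a)) (2 * a), Φ s := by
  have h1 := (Measure.measurePreserving_sub_left (volume : Measure ℝ)
    (-a)).setLIntegral_comp_preimage_emb (MeasurableEquiv.subLeft (-a)).measurableEmbedding Φ
    (Icc (-(2 * a)) (2 * a))
  rw [← h1]
  refine lintegral_mono_set fun y hy => ?_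
  rw [mem_preimage, mem_Icc]
  constructor <;> linarith [hy.1, hy.2]

/-- the sum of two parts -/
theorem split {a : ℝ} (ha : 0 < a) (Φ : ℝ → ℝ≥0∞) (F G H : ℝ → ℝ)
    (hF : AEMeasurable F (volume.restrict (Icc (-a) a)))
    (h1 : ∀ᵐ y : ℝ, y ∈ Icc (-a) a → ‖F y‖ₑ ^ 2 = Φ (a + y))
    (h2 : ∀ᵐ y : ℝ, y ∈ Icc (-a) a → ‖G y‖ₑ ^ 2 = Φ (-a - y))
    (h3 : ∀ y ∈ Icc (-a) a, H y = (F y - G y) / 2) :
    ∫⁻ y in Icc (-a) a, ‖H y‖ₑ ^ 2 ≤ 2 * ∫⁻ s in Icc (-(2 * a)) (2 * a), Φ s := by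
  calc ∫⁻ y in Icc (-a) a, ‖H y‖ₑ ^ 2
      ≤ ∫⁻ y in Icc (-a) a, (‖F y‖ₑ ^ 2 + ‖G y‖ₑ ^ 2) := by
        refine setLIntegral_mono' measurableSet_Icc fun y hy => ?_
        rw [h3 y hy]
        exact ineq _ _
    _ = (∫⁻ y in Icc (-a) a, ‖F y‖ₑ ^ 2) + ∫⁻ y in Icc (-a) a, ‖G y‖ₑ ^ 2 :=
        lintegral_add_left' (hF.enorm.pow_const 2) _
    _ = (∫⁻ y in Icc (-a) a, Φ (a + y)) + ∫⁻ y in Icc (-a) a, Φ (-a - y) := by
        rw [setLIntegral_congr_fun_ae measurableSet_Icc h1,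
          setLIntegral_congr_fun_ae measurableSet_Icc h2]
    _ ≤ (∫⁻ s in Icc (-(2 * a)) (2 * a), Φ s) + ∫⁻ s in Icc (-(2 * a)) (2 * a), Φ s :=
        add_le_add (shiftR ha Φ) (shiftL ha Φ)
    _ = _ := (two_mul _).symm

end XHL

open XHL in
theorem tHeatL2 : Pool.Agent.H309.DP.HeatL2 := by
  intro a ha f hf
  have ha2 : 0 < 2 * a := by linarith
  set g : ℝ → ℝ := indicator (Ioc 0 (2 * a)) (fun s => 2 * indicator (Icc (-a) a) f (-a + s))
    with hg
  have hgm : MemLp g 2 (volume.restrict (Icc (-(2 * a)) (2 * a))) := by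
    have h1 : MemLp (indicator (Icc (-a) a) f) 2 volume := by
      rw [memLp_indicator_iff_restrict measurableSet_Icc]
      exact hf
    have h2 : MemLp (fun s => indicator (Icc (-a) a) f (-a + s)) 2 volume :=
      h1.comp_measurePreserving (measurePreserving_add_left volume (-a))
    exact ((h2.const_mul 2).indicator measurableSet_Ioc).mono_measure Measure.restrict_le_self
  obtain ⟨V, Vt, Vy, hV⟩ := flowO ha2 hgm
  have hgp : ∀ y, -a < y → y ≤ a → (g (a + y) - g (-(a + y))) / 2 = f y := by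
    intro y h1 h2
    have e1 : g (a + y) = 2 * f y := by
      rw [hg, indicator_of_mem (by constructor <;> linarith)]
      have : -a + (a + y) = y := by ring
      rw [this, indicator_of_mem (by constructor <;> linarith)]
    have e2 : g (-(a + y)) = 0 := by
      rw [hg, indicator_of_notMem]
      intro h
      linarith [h.1]
    rw [e1, e2]
    ring
  have hgn : ∀ y, -a < y → y ≤ a → (g (-a - y) - g (-(-a - y))) / 2 = -f y := by
    intro y h1 h2
    have h3 := hgp y h1 h2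
    have e1 : -a - y = -(a + y) := by ring
    have e2 : -(-a - y) = a + y := by ring
    rw [e1, neg_neg]
    linarith
  have hne : ∀ᵐ y : ℝ, y ≠ -a := by
    rw [ae_iff]
    have : {y : ℝ | ¬ y ≠ -a} = {-a} := by ext y; simp
    rw [this]
    exact Real.volume_singleton
  -- points
  have hR : ∀ y ∈ Icc (-a) a, |a + y| < 2 * (2 * a) := fun y hy => by
    rw [abs_lt]; constructor <;> linarith [hy.1, hy.2]
  have hL : ∀ y ∈ Icc (-a) a, |-a - y| < 2 * (2 * a) := fun y hy => by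
    rw [abs_lt]; constructor <;> linarith [hy.1, hy.2]
  have mR : ContinuousOn (fun z : ℝ × ℝ => ((z.1, a + z.2) : ℝ × ℝ)) (Ioi 0 ×ˢ Icc (-a) a) :=
    (continuous_fst.prodMk (continuous_const.add continuous_snd)).continuousOn
  have mL : ContinuousOn (fun z : ℝ × ℝ => ((z.1, -a - z.2) : ℝ × ℝ)) (Ioi 0 ×ˢ Icc (-a) a) :=
    (continuous_fst.prodMk (continuous_const.sub continuous_snd)).continuousOn
  have mR' : MapsTo (fun z : ℝ × ℝ => ((z.1, a + z.2) : ℝ × ℝ)) (Ioi 0 ×ˢ Icc (-a) a)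
      (Dom (2 * (2 * a))) := fun z hz => ⟨hz.1, hR _ hz.2⟩
  have mL' : MapsTo (fun z : ℝ × ℝ => ((z.1, -a - z.2) : ℝ × ℝ)) (Ioi 0 ×ˢ Icc (-a) a)
      (Dom (2 * (2 * a))) := fun z hz => ⟨hz.1, hL _ hz.2⟩
  have cV : ContinuousOn (fun q : ℝ × ℝ => V q.1 q.2) (Dom (2 * (2 * a))) := hV.smooth.continuousOn
  have cVt : ContinuousOn (fun q : ℝ × ℝ => Vt q.1 q.2) (Dom (2 * (2 * a))) :=
    tcont hV.smooth hV.dt
  have cVy := hV.ycont
  have c1 : ContinuousOn (fun z : ℝ × ℝ => (V z.1 (a + z.2) - V z.1 (-a - z.2)) / 2)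
      (Ioi 0 ×ˢ Icc (-a) a) := ((cV.comp mR mR').sub (cV.comp mL mL')).div_const 2
  have c2 : ContinuousOn (fun z : ℝ × ℝ => (Vt z.1 (a + z.2) - Vt z.1 (-a - z.2)) / 2)
      (Ioi 0 ×ˢ Icc (-a) a) := ((cVt.comp mR mR').sub (cVt.comp mL mL')).div_const 2
  have c3 : ContinuousOn (fun z : ℝ × ℝ => (Vy z.1 (a + z.2) - -Vy z.1 (-a - z.2)) / 2)
      (Ioi 0 ×ˢ Icc (-a) a) := ((cVy.comp mR mR').sub (cVy.comp mL mL').neg).div_const 2
  have slice : ∀ (W : ℝ → ℝ → ℝ), ContinuousOn (fun q : ℝ × ℝ => W q.1 q.2) (Dom (2 * (2 * a))) →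
      ∀ t, 0 < t → ContinuousOn (fun y => W t (a + y)) (Icc (-a) a) := by
    intro W hW t ht
    have h1 : ContinuousOn (fun y : ℝ => ((t, a + y) : ℝ × ℝ)) (Icc (-a) a) :=
      (continuous_const.prodMk (continuous_const.add continuous_id)).continuousOn
    exact hW.comp h1 fun y hy => ⟨ht, hR y hy⟩
  have dR : ∀ (t y : ℝ) (W W' : ℝ → ℝ → ℝ), HasDerivAt (fun v => W t v) (W' t (a + y)) (a + y) →
      HasDerivAt (fun s => W t (a + s)) (W' t (a + y)) y := fun t y W W' h =>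
    h.comp_const_add a y
  have dL : ∀ (t y : ℝ) (W W' : ℝ → ℝ → ℝ), HasDerivAt (fun v => W t v) (W' t (-a - y)) (-a - y) →
      HasDerivAt (fun s => W t (-a - s)) (-W' t (-a - y)) y := fun t y W W' h =>
    h.comp_const_sub (-a) y
  refine ⟨fun t y => (V t (a + y) - V t (-a - y)) / 2,
    fun t y => (Vt t (a + y) - Vt t (-a - y)) / 2,
    fun t y => (Vy t (a + y) - -Vy t (-a - y)) / 2, ?_, ?_, ?_⟩
  · refine ⟨c1, c2, c3, c2, ?_, ?_, ?_, ?_, ?_⟩
    · intro t ht y hy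
      exact ((hV.dt t _ ht (hR y hy)).sub (hV.dt t _ ht (hL y hy))).div_const 2
    · intro t ht y hy
      have hy' : y ∈ Icc (-a) a := Ioo_subset_Icc_self hy
      exact ((dR t y V Vy (hV.dy t _ ht (hR y hy'))).sub
        (dL t y V Vy (hV.dy t _ ht (hL y hy')))).div_const 2
    · intro t ht y hy
      have hy' : y ∈ Icc (-a) a := Ioo_subset_Icc_self hy
      have h1 := ((dR t y Vy Vt (hV.dyy t _ ht (hR y hy'))).sub
        (dL t y Vy Vt (hV.dyy t _ ht (hL y hy'))).neg).div_const 2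
      rw [neg_neg] at h1
      exact h1
    · intro t ht
      have h1 := hV.wall t ht
      constructor
      · show (V t (a + a) - V t (-a - a)) / 2 = 0
        have e1 : a + a = 2 * a := by ring
        have e2 : -a - a = -(2 * a) := by ring
        rw [e1, e2, h1.1, h1.2]
        norm_num
      · show (V t (a + -a) - V t (-a - -a)) / 2 = 0
        have e1 : a + -a = 0 := by ring
        have e2 : -a - -a = 0 := by ring
        rw [e1, e2]
        norm_num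
    · intro t ht y hy
      show _ = _ + (0 : ℝ)
      rw [add_zero]
  · have h0 : Tendsto (fun t : ℝ => 2 * ∫⁻ y in Icc (-(2 * a)) (2 * a),
        ‖V t y - (g y - g (-y)) / 2‖ₑ ^ 2) (𝓝[>] 0) (𝓝 (2 * 0)) :=
      ENNReal.Tendsto.const_mul hV.lim (Or.inr (by norm_num))
    rw [mul_zero] at h0
    refine tendsto_of_tendsto_of_tendsto_of_le_of_le' tendsto_const_nhds h0
      (Eventually.of_forall fun t => bot_le) ?_
    filter_upwards [self_mem_nhdsWithin] with t ht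
    have ht' : 0 < t := ht
    refine split ha (fun s => ‖V t s - (g s - g (-s)) / 2‖ₑ ^ 2) (fun y => V t (a + y) - f y)
      (fun y => V t (-a - y) + f y) _ ?_ ?_ ?_ ?_
    · exact ((slice V cV t ht').aestronglyMeasurable measurableSet_Icc).aemeasurable.sub
        hf.aestronglyMeasurable.aemeasurable
    · filter_upwards [hne] with y hy hyI
      have h1 : -a < y := lt_of_le_of_ne hyI.1 (Ne.symm hy)
      show _ = ‖V t (a + y) - (g (a + y) - g (-(a + y))) / 2‖ₑ ^ 2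
      rw [hgp y h1 hyI.2]
    · filter_upwards [hne] with y hy hyI
      have h1 : -a < y := lt_of_le_of_ne hyI.1 (Ne.symm hy)
      show _ = ‖V t (-a - y) - (g (-a - y) - g (-(-a - y))) / 2‖ₑ ^ 2
      rw [hgn y h1 hyI.2, sub_neg_eq_add]
    · intro y _
      show (V t (a + y) - V t (-a - y)) / 2 - f y =
        (V t (a + y) - f y - (V t (-a - y) + f y)) / 2
      ring
  · intro T
    have h1 : ∀ t ∈ Ioc 0 T, ∫⁻ y in Icc (-a) a, ‖(Vy t (a + y) - -Vy t (-a - y)) / 2‖ₑ ^ 2 ≤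
        2 * ∫⁻ s in Icc (-(2 * a)) (2 * a), ‖Vy t s‖ₑ ^ 2 := by
      intro t ht
      refine split ha (fun s => ‖Vy t s‖ₑ ^ 2) (fun y => Vy t (a + y))
        (fun y => -Vy t (-a - y)) _ ?_ ?_ ?_ ?_
      · exact ((slice Vy cVy t ht.1).aestronglyMeasurable measurableSet_Icc).aemeasurable
      · exact Eventually.of_forall fun y _ => rfl
      · refine Eventually.of_forall fun y _ => ?_
        show ‖-Vy t (-a - y)‖ₑ ^ 2 = _
        rw [enorm_neg]
      · intro y _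
        rfl
    calc ∫⁻ t in Ioc 0 T, ∫⁻ y in Icc (-a) a, ‖(Vy t (a + y) - -Vy t (-a - y)) / 2‖ₑ ^ 2
        ≤ ∫⁻ t in Ioc 0 T, 2 * ∫⁻ s in Icc (-(2 * a)) (2 * a), ‖Vy t s‖ₑ ^ 2 :=
          setLIntegral_mono' measurableSet_Ioc h1
      _ = 2 * ∫⁻ t in Ioc 0 T, ∫⁻ s in Icc (-(2 * a)) (2 * a), ‖Vy t s‖ₑ ^ 2 :=
          lintegral_const_mul' _ _ (by norm_num)
      _ ≤ 2 * ∫⁻ t in Ioi 0, ∫⁻ s in Icc (-(2 * a)) (2 * a), ‖Vy t s‖ₑ ^ 2 := by
          gcongr
          exact Ioc_subset_Ioi_self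
      _ < ⊤ := ENNReal.mul_lt_top (by norm_num) hV.en

end Pool.Agent.H309.DP.LHeatL2
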