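import Pool.Agent.H309.DP.Stm2

/-!
# Project DP (helper309), task LimBox (helper928)
-/

set_option autoImplicit false

open Set Filter Topology MeasureTheory
open scoped ENNReal

namespace Pool.Agent.H309.DP.LLimBox

open Pool.Agent.Q61.NC Pool.Agent.H309.DF Pool.Agent.H309.DG Pool.Agent.H309.DP

theorem box_meas (a b : ℝ) : MeasurableSet (box a b) := by
  have h : ∀ i : Fin 3, Continuous fun x : Sp 3 => |x i| := fun i =>
    ((EuclideanSpace.proj (𝕜 := ℝ) i).continuous).abs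
  exact (((isClosed_le (h 1) continuous_const).inter ((isClosed_le (h 0) continuous_const).inter
    (isClosed_le (h 2) continuous_const)))).measurableSet

theorem tLimBox (h1 : Box2) : Pool.Agent.H309.DP.LimBox := by
  intro a b T₀ K ι _ ha hb hT hK e H hm hl he
  obtain ⟨c, hc, hbox⟩ := h1 a b ha hb
  have key : ∀ t, 0 < t → t < T₀ → ∫⁻ x in box a b, ‖e t x‖ₑ ^ 2 ≤
      c * (K * ∑ k, ∫⁻ y in Icc (-a) a, ∫⁻ z in Icc (-b) b, ‖H k t y z‖ₑ ^ 2) := by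
    intro t ht1 ht2
    have hmk : ∀ k, AEMeasurable (fun z : ℝ × ℝ => ‖H k t z.1 z.2‖ₑ ^ 2)
        ((volume.restrict (Icc (-a) a)).prod (volume.restrict (Icc (-b) b))) := fun k =>
      ((hm k t ht1 ht2).enorm).pow_const 2
    have hms : AEMeasurable (fun z : ℝ × ℝ => ∑ k, ‖H k t z.1 z.2‖ₑ ^ 2)
        ((volume.restrict (Icc (-a) a)).prod (volume.restrict (Icc (-b) b))) :=
      Finset.aemeasurable_fun_sum _ fun k _ => hmk k
    have hmK : AEMeasurable (fun z : ℝ × ℝ => K * ∑ k, ‖H k t z.1 z.2‖ₑ ^ 2)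
        ((volume.restrict (Icc (-a) a)).prod (volume.restrict (Icc (-b) b))) :=
      hms.const_mul K
    have hpr : (volume.restrict (Icc (-a) a ×ˢ Icc (-b) b) : Measure (ℝ × ℝ)) =
        (volume.restrict (Icc (-a) a)).prod (volume.restrict (Icc (-b) b)) := by
      rw [Measure.prod_restrict]
      rfl
    have e1 : ∫⁻ x in box a b, ‖e t x‖ₑ ^ 2 ≤
        ∫⁻ x in box a b, K * ∑ k, ‖H k t (x 1) (x 2)‖ₑ ^ 2 :=
      setLIntegral_mono' (box_meas a b) fun x hx => he t ht1 ht2 x hx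
    have e2 := hbox (fun y z => K * ∑ k, ‖H k t y z‖ₑ ^ 2) (by rw [hpr]; exact hmK)
    have e3 : ∫⁻ y in Icc (-a) a, ∫⁻ z in Icc (-b) b, K * ∑ k, ‖H k t y z‖ₑ ^ 2 =
        K * ∑ k, ∫⁻ y in Icc (-a) a, ∫⁻ z in Icc (-b) b, ‖H k t y z‖ₑ ^ 2 := by
      have f1 := lintegral_prod (μ := volume.restrict (Icc (-a) a))
        (ν := volume.restrict (Icc (-b) b))
        (fun z : ℝ × ℝ => K * ∑ k, ‖H k t z.1 z.2‖ₑ ^ 2) hmK
      have f2 : ∀ k, ∫⁻ z, ‖H k t z.1 z.2‖ₑ ^ 2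
          ∂((volume.restrict (Icc (-a) a)).prod (volume.restrict (Icc (-b) b))) =
          ∫⁻ y in Icc (-a) a, ∫⁻ z in Icc (-b) b, ‖H k t y z‖ₑ ^ 2 := fun k =>
        lintegral_prod (μ := volume.restrict (Icc (-a) a))
          (ν := volume.restrict (Icc (-b) b)) (fun z : ℝ × ℝ => ‖H k t z.1 z.2‖ₑ ^ 2) (hmk k)
      rw [← f1, lintegral_const_mul' K _ hK, lintegral_finsetSum' _ fun k _ => hmk k]
      simp only [f2]
    calc ∫⁻ x in box a b, ‖e t x‖ₑ ^ 2 ≤ _ := e1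
      _ ≤ _ := e2
      _ = _ := by rw [e3]
  have hlim : Tendsto (fun t : ℝ => c * (K * ∑ k, ∫⁻ y in Icc (-a) a, ∫⁻ z in Icc (-b) b,
      ‖H k t y z‖ₑ ^ 2)) (𝓝[>] 0) (𝓝 0) := by
    have g1 : Tendsto (fun t : ℝ => ∑ k, ∫⁻ y in Icc (-a) a, ∫⁻ z in Icc (-b) b,
        ‖H k t y z‖ₑ ^ 2) (𝓝[>] 0) (𝓝 (∑ _k : ι, (0 : ℝ≥0∞))) :=
      tendsto_finsetSum _ fun k _ => hl k
    rw [Finset.sum_const_zero] at g1
    have g2 := ENNReal.Tendsto.const_mul g1 (Or.inr hK)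
    rw [mul_zero] at g2
    have g3 := ENNReal.Tendsto.const_mul g2 (Or.inr hc)
    rw [mul_zero] at g3
    exact g3
  refine tendsto_of_tendsto_of_tendsto_of_le_of_le' tendsto_const_nhds hlim
    (Eventually.of_forall fun t => bot_le) ?_
  filter_upwards [Ioo_mem_nhdsGT hT] with t ht
  exact key t ht.1 ht.2

end Pool.Agent.H309.DP.LLimBox
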