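import Pool.Agent.H309.DP.Stm

/-!
# DP14: `L²` limit and energy of a finite sum (project DP of helper309)
-/

set_option autoImplicit false

open Set Filter Topology MeasureTheory
open scoped ENNReal

namespace Pool.Agent.H309.DP.LLimP

open Pool.Agent.H309.DP

lemma LimP_sqe (x : ℝ) : ‖x‖ₑ ^ 2 = ENNReal.ofReal (x ^ 2) := by
  rw [Real.enorm_eq_ofReal_abs, ← ENNReal.ofReal_pow (abs_nonneg x), sq_abs]

lemma LimP_ptw2 {n : ℕ} {C : ℝ} (qv Rv : ℕ → ℝ) (hR : ∀ j, |Rv j| ≤ C) :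
    ‖∑ j ∈ Finset.range (n + 1), qv j * Rv j‖ₑ ^ 2 ≤
      ENNReal.ofReal (C ^ 2 * (n + 1)) * ∑ j ∈ Finset.range (n + 1), ‖qv j‖ₑ ^ 2 := by
  have h1 : (∑ j ∈ Finset.range (n + 1), qv j * Rv j) ^ 2 ≤
      (C ^ 2 * (n + 1)) * ∑ j ∈ Finset.range (n + 1), qv j ^ 2 := by
    have h2 := sq_sum_le_card_mul_sum_sq (s := Finset.range (n + 1)) (f := fun j => qv j * Rv j)
    rw [Finset.card_range] at h2
    refine h2.trans ?_
    have h3 : ∑ j ∈ Finset.range (n + 1), (qv j * Rv j) ^ 2 ≤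
        ∑ j ∈ Finset.range (n + 1), C ^ 2 * qv j ^ 2 := by
      refine Finset.sum_le_sum fun j _ => ?_
      have h4 : Rv j ^ 2 ≤ C ^ 2 := sq_le_sq' (neg_le_of_abs_le (hR j)) (le_of_abs_le (hR j))
      rw [mul_pow, mul_comm]
      exact mul_le_mul_of_nonneg_right h4 (sq_nonneg _)
    rw [← Finset.mul_sum] at h3
    push_cast
    calc ((n : ℝ) + 1) * ∑ j ∈ Finset.range (n + 1), (qv j * Rv j) ^ 2
        ≤ ((n : ℝ) + 1) * (C ^ 2 * ∑ j ∈ Finset.range (n + 1), qv j ^ 2) :=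
          mul_le_mul_of_nonneg_left h3 (by positivity)
      _ = _ := by ring
  have e1 : ∑ j ∈ Finset.range (n + 1), ‖qv j‖ₑ ^ 2 =
      ENNReal.ofReal (∑ j ∈ Finset.range (n + 1), qv j ^ 2) := by
    rw [ENNReal.ofReal_sum_of_nonneg fun j _ => sq_nonneg _]
    exact Finset.sum_congr rfl fun j _ => LimP_sqe _
  rw [LimP_sqe, e1, ← ENNReal.ofReal_mul (by positivity)]
  exact ENNReal.ofReal_le_ofReal h1

lemma LimP_ptw {n : ℕ} {C t fy : ℝ} (qv fv Rv : ℕ → ℝ) (zn : ℝ)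
    (hR : ∀ j, |Rv j| ≤ C) (h0 : |Rv 0 - zn| ≤ C * t)
    (hf : ∀ j, fv j = if j = 0 then fy else 0) :
    ‖(∑ j ∈ Finset.range (n + 1), qv j * Rv j) - zn * fy‖ₑ ^ 2 ≤
      ENNReal.ofReal (2 * (C ^ 2 * (n + 1))) *
        (∑ j ∈ Finset.range (n + 1), ‖qv j - fv j‖ₑ ^ 2 + ENNReal.ofReal (t ^ 2) * ‖fy‖ₑ ^ 2) := by
  have e0 : (∑ j ∈ Finset.range (n + 1), qv j * Rv j) - zn * fy =
      (∑ j ∈ Finset.range (n + 1), (qv j - fv j) * Rv j) + (Rv 0 - zn) * fy := by
    have e1 : ∑ j ∈ Finset.range (n + 1), fv j * Rv j = fy * Rv 0 := by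
      rw [Finset.sum_eq_single 0]
      · rw [hf, if_pos rfl]
      · intro j _ hj
        rw [hf, if_neg hj, zero_mul]
      · intro h
        exact absurd (Finset.mem_range.2 (Nat.succ_pos n)) h
    have e2 : ∑ j ∈ Finset.range (n + 1), (qv j - fv j) * Rv j =
        ∑ j ∈ Finset.range (n + 1), qv j * Rv j - ∑ j ∈ Finset.range (n + 1), fv j * Rv j := by
      rw [← Finset.sum_sub_distrib]
      exact Finset.sum_congr rfl fun j _ => by ring
    rw [e2, e1]
    ring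
  have h1 := LimP_ptw2 (n := n) (fun j => qv j - fv j) Rv hR
  have h2 : ((Rv 0 - zn) * fy) ^ 2 ≤ (C ^ 2 * (n + 1)) * (t ^ 2 * fy ^ 2) := by
    have h3 : (Rv 0 - zn) ^ 2 ≤ (C * t) ^ 2 :=
      sq_le_sq' (neg_le_of_abs_le h0) (le_of_abs_le h0)
    have hn : (1 : ℝ) ≤ (n : ℝ) + 1 := by
      have : (0 : ℝ) ≤ n := Nat.cast_nonneg n
      linarith
    calc ((Rv 0 - zn) * fy) ^ 2 = (Rv 0 - zn) ^ 2 * fy ^ 2 := by ring
      _ ≤ (C * t) ^ 2 * fy ^ 2 := mul_le_mul_of_nonneg_right h3 (sq_nonneg _)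
      _ = (C ^ 2 * (t ^ 2 * fy ^ 2)) * 1 := by ring
      _ ≤ (C ^ 2 * (t ^ 2 * fy ^ 2)) * ((n : ℝ) + 1) := mul_le_mul_of_nonneg_left hn (by positivity)
      _ = _ := by ring
  have h4 : ∀ x y : ℝ, ‖x + y‖ₑ ^ 2 ≤ 2 * ‖x‖ₑ ^ 2 + 2 * ‖y‖ₑ ^ 2 := by
    intro x y
    rw [LimP_sqe, LimP_sqe, LimP_sqe, ← mul_add, ← ENNReal.ofReal_add (sq_nonneg _) (sq_nonneg _)]
    rw [show (2 : ℝ≥0∞) = ENNReal.ofReal 2 by norm_num, ← ENNReal.ofReal_mul (by norm_num)]
    apply ENNReal.ofReal_le_ofReal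
    nlinarith [sq_nonneg (x - y)]
  rw [e0]
  refine (h4 _ _).trans ?_
  have h5 : ‖(Rv 0 - zn) * fy‖ₑ ^ 2 ≤
      ENNReal.ofReal (C ^ 2 * (n + 1)) * (ENNReal.ofReal (t ^ 2) * ‖fy‖ₑ ^ 2) := by
    rw [LimP_sqe, LimP_sqe, ← ENNReal.ofReal_mul (sq_nonneg _), ← ENNReal.ofReal_mul (by positivity)]
    exact ENNReal.ofReal_le_ofReal h2
  rw [ENNReal.ofReal_mul (by norm_num : (0 : ℝ) ≤ 2), show ENNReal.ofReal 2 = 2 by norm_num,
    mul_add, mul_assoc, mul_assoc]
  exact add_le_add (mul_le_mul_right h1 _) (mul_le_mul_right h5 _)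

section

variable {a : ℝ} {f : ℝ → ℝ} {F q qt qy qyy : ℝ → ℝ → ℝ}

lemma LimP_cont (h : SFlow a f F q qt qy qyy) {t : ℝ} (ht : 0 < t) :
    AEStronglyMeasurable (q t) (volume.restrict (Icc (-a) a)) := by
  have h1 : ContinuousOn (q t) (Icc (-a) a) :=
    h.cl.c.comp (f := fun y : ℝ => (t, y)) (by fun_prop) fun y hy => ⟨ht, hy⟩
  exact h1.aestronglyMeasurable measurableSet_Icc

lemma LimP_conty (h : SFlow a f F q qt qy qyy) {t : ℝ} (ht : 0 < t) :
    AEStronglyMeasurable (qy t) (volume.restrict (Icc (-a) a)) := by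
  have h1 : ContinuousOn (qy t) (Icc (-a) a) :=
    h.cl.cy.comp (f := fun y : ℝ => (t, y)) (by fun_prop) fun y hy => ⟨ht, hy⟩
  exact h1.aestronglyMeasurable measurableSet_Icc

lemma LimP_bdd (h : SFlow a f F q qt qy qyy) (hf : MemLp f 2 (volume.restrict (Icc (-a) a)))
    (T : ℝ) : ∃ M : ℝ≥0∞, M < ⊤ ∧ ∀ t, 0 < t → t ≤ T →
      ∫⁻ y in Icc (-a) a, ‖q t y‖ₑ ^ 2 ≤ M := by
  have hfF : ∫⁻ y in Icc (-a) a, ‖f y‖ₑ ^ 2 < ⊤ := by
    have h1 := hf.integrable_sq.2
    unfold HasFiniteIntegral at h1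
    simpa only [enorm_pow] using h1
  have h1 : ∀ᶠ t in 𝓝[>] (0 : ℝ), ∫⁻ y in Icc (-a) a, ‖q t y - f y‖ₑ ^ 2 < 1 :=
    h.lim.eventually_lt_const (by norm_num)
  obtain ⟨t0, ht0, hsub⟩ := mem_nhdsGT_iff_exists_Ioo_subset.1 h1
  have ht0' : (0 : ℝ) < t0 := ht0
  obtain ⟨K, hK⟩ := (isCompact_Icc.prod isCompact_Icc).exists_bound_of_continuousOn
    (f := fun z : ℝ × ℝ => q z.1 z.2)
    (h.cl.c.mono (Set.prod_mono (fun x (hx : x ∈ Icc t0 T) => lt_of_lt_of_le ht0' hx.1)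
      (subset_refl (Icc (-a) a))))
  refine ⟨(2 * 1 + 2 * ∫⁻ y in Icc (-a) a, ‖f y‖ₑ ^ 2) +
    ENNReal.ofReal (K ^ 2) * volume (Icc (-a) a), ?_, fun t ht htT => ?_⟩
  · refine ENNReal.add_lt_top.2 ⟨ENNReal.add_lt_top.2 ⟨by norm_num, ?_⟩, ?_⟩
    · exact ENNReal.mul_lt_top (by norm_num) hfF
    · exact ENNReal.mul_lt_top ENNReal.ofReal_lt_top (by rw [Real.volume_Icc]; exact ENNReal.ofReal_lt_top)
  · rcases lt_or_ge t t0 with htt | htt
    · refine le_trans ?_ le_self_add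
      have h2 : ∫⁻ y in Icc (-a) a, ‖q t y - f y‖ₑ ^ 2 < 1 := hsub ⟨ht, htt⟩
      have hm : AEMeasurable (fun y => 2 * ‖f y‖ₑ ^ 2) (volume.restrict (Icc (-a) a)) :=
        (hf.1.enorm.pow_const 2).const_mul 2
      calc ∫⁻ y in Icc (-a) a, ‖q t y‖ₑ ^ 2
          ≤ ∫⁻ y in Icc (-a) a, (2 * ‖q t y - f y‖ₑ ^ 2 + 2 * ‖f y‖ₑ ^ 2) := by
            refine lintegral_mono fun y => ?_
            rw [LimP_sqe, LimP_sqe, LimP_sqe, ← mul_add,
              ← ENNReal.ofReal_add (sq_nonneg _) (sq_nonneg _),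
              show (2 : ℝ≥0∞) = ENNReal.ofReal 2 by norm_num, ← ENNReal.ofReal_mul (by norm_num)]
            apply ENNReal.ofReal_le_ofReal
            nlinarith [sq_nonneg (q t y - 2 * f y)]
        _ = 2 * (∫⁻ y in Icc (-a) a, ‖q t y - f y‖ₑ ^ 2) +
            2 * ∫⁻ y in Icc (-a) a, ‖f y‖ₑ ^ 2 := by
            rw [lintegral_add_right' _ hm, lintegral_const_mul' _ _ (by norm_num),
              lintegral_const_mul' _ _ (by norm_num)]
        _ ≤ 2 * 1 + 2 * ∫⁻ y in Icc (-a) a, ‖f y‖ₑ ^ 2 := by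
            exact add_le_add (mul_le_mul_right h2.le _) le_rfl
    · refine le_trans ?_ le_add_self
      calc ∫⁻ y in Icc (-a) a, ‖q t y‖ₑ ^ 2
          ≤ ∫⁻ y in Icc (-a) a, ENNReal.ofReal (K ^ 2) := by
            refine setLIntegral_mono' measurableSet_Icc fun y hy => ?_
            rw [LimP_sqe]
            apply ENNReal.ofReal_le_ofReal
            have h3 : |q t y| ≤ K := hK (t, y) ⟨⟨htt, htT⟩, hy⟩
            exact sq_le_sq' (neg_le_of_abs_le h3) (le_of_abs_le h3)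
        _ = ENNReal.ofReal (K ^ 2) * volume (Icc (-a) a) := setLIntegral_const _ _

lemma LimP_meas (h : SFlow a f F q qt qy qyy) (T : ℝ) :
    AEMeasurable (fun t => ∫⁻ y in Icc (-a) a, ‖qy t y‖ₑ ^ 2) (volume.restrict (Ioc 0 T)) := by
  have hm : AEMeasurable (fun z : ℝ × ℝ => ‖qy z.1 z.2‖ₑ ^ 2)
      ((volume.restrict (Ioc 0 T)).prod (volume.restrict (Icc (-a) a))) := by
    rw [Measure.prod_restrict]
    exact ((h.cl.cy.mono (Set.prod_mono Ioc_subset_Ioi_self (subset_refl _))).aestronglyMeasurable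
      (measurableSet_Ioc.prod measurableSet_Icc)).enorm.pow_const 2
  exact hm.lintegral_prod_right'

end

theorem tLimP : Pool.Agent.H309.DP.LimP := by
  intro a b T ε n ha hb hT w f q qt qy qyy R hf hc hR
  obtain ⟨C, hC, hlow⟩ := hR.low
  obtain ⟨F, hF⟩ : ∃ F : ℕ → ℝ → ℝ, ∀ j y, F j y = if j = 0 then f y else 0 := ⟨_, fun _ _ => rfl⟩
  have hF0 : F 0 = f := by
    funext y
    rw [hF, if_pos rfl]
  have hF1 : ∀ j, F (j + 1) = fun _ => 0 := by
    intro j
    funext y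
    rw [hF, if_neg (Nat.succ_ne_zero j)]
  have hS : ∀ j, j < n + 1 → ∃ Fs, SFlow a (F j) Fs (q j) (qt j) (qy j) (qyy j) := by
    intro j hj
    rcases j with _ | j
    · rw [hF0]
      exact ⟨_, hc.zero⟩
    · rw [hF1]
      exact ⟨_, hc.succ j (by omega)⟩
  have hFm : ∀ j, MemLp (F j) 2 (volume.restrict (Icc (-a) a)) := by
    intro j
    rcases j with _ | j
    · rw [hF0]; exact hf
    · rw [hF1]; exact MemLp.zero'
  have hfF : ∫⁻ y in Icc (-a) a, ‖f y‖ₑ ^ 2 < ⊤ := by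
    have h1 := hf.integrable_sq.2
    unfold HasFiniteIntegral at h1
    simpa only [enorm_pow] using h1
  have hV : volume (Icc (-b) b) < ⊤ := by rw [Real.volume_Icc]; exact ENNReal.ofReal_lt_top
  refine ⟨?_, ?_⟩
  · -- the limit
    have hbound : ∀ t, 0 < t → t ≤ T / 2 →
        ∫⁻ y in Icc (-a) a, ∫⁻ z in Icc (-b) b,
          ‖(∑ j ∈ Finset.range (n + 1), q j t y * R j t z) - z ^ n * f y‖ₑ ^ 2 ≤
        (ENNReal.ofReal (2 * (C ^ 2 * (n + 1))) * volume (Icc (-b) b)) *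
          (∑ j ∈ Finset.range (n + 1), (∫⁻ y in Icc (-a) a, ‖q j t y - F j y‖ₑ ^ 2) +
            ENNReal.ofReal (t ^ 2) * ∫⁻ y in Icc (-a) a, ‖f y‖ₑ ^ 2) := by
      intro t ht htT
      calc ∫⁻ y in Icc (-a) a, ∫⁻ z in Icc (-b) b,
          ‖(∑ j ∈ Finset.range (n + 1), q j t y * R j t z) - z ^ n * f y‖ₑ ^ 2
          ≤ ∫⁻ y in Icc (-a) a, (ENNReal.ofReal (2 * (C ^ 2 * (n + 1))) * volume (Icc (-b) b)) *
            (∑ j ∈ Finset.range (n + 1), ‖q j t y - F j y‖ₑ ^ 2 +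
              ENNReal.ofReal (t ^ 2) * ‖f y‖ₑ ^ 2) := by
            refine lintegral_mono fun y => ?_
            calc ∫⁻ z in Icc (-b) b,
                ‖(∑ j ∈ Finset.range (n + 1), q j t y * R j t z) - z ^ n * f y‖ₑ ^ 2
                ≤ ∫⁻ z in Icc (-b) b, ENNReal.ofReal (2 * (C ^ 2 * (n + 1))) *
                  (∑ j ∈ Finset.range (n + 1), ‖q j t y - F j y‖ₑ ^ 2 +
                    ENNReal.ofReal (t ^ 2) * ‖f y‖ₑ ^ 2) := by
                  refine setLIntegral_mono' measurableSet_Icc fun z hz => ?_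
                  exact LimP_ptw (fun j => q j t y) (fun j => F j y) (fun j => R j t z) (z ^ n)
                    (fun j => (hlow j t ht htT z hz).1) (hlow 0 t ht htT z hz).2
                    (fun j => hF j y)
              _ = _ := by
                  rw [setLIntegral_const]
                  ring
        _ = _ := by
            rw [lintegral_const_mul' _ _
              (ENNReal.mul_lt_top ENNReal.ofReal_lt_top hV).ne]
            have hm : AEMeasurable (fun y => ENNReal.ofReal (t ^ 2) * ‖f y‖ₑ ^ 2)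
                (volume.restrict (Icc (-a) a)) := (hf.1.enorm.pow_const 2).const_mul _
            rw [lintegral_add_right' _ hm, lintegral_const_mul' _ _ ENNReal.ofReal_ne_top,
              lintegral_finsetSum']
            intro j hj
            obtain ⟨Fs, hj'⟩ := hS j (Finset.mem_range.1 hj)
            exact ((LimP_cont hj' ht).sub (hFm j).1).enorm.pow_const 2
    have hlim : Tendsto (fun t : ℝ =>
        (ENNReal.ofReal (2 * (C ^ 2 * (n + 1))) * volume (Icc (-b) b)) *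
          (∑ j ∈ Finset.range (n + 1), (∫⁻ y in Icc (-a) a, ‖q j t y - F j y‖ₑ ^ 2) +
            ENNReal.ofReal (t ^ 2) * ∫⁻ y in Icc (-a) a, ‖f y‖ₑ ^ 2)) (𝓝[>] 0) (𝓝 0) := by
      have h1 : Tendsto (fun t : ℝ => ∑ j ∈ Finset.range (n + 1),
          (∫⁻ y in Icc (-a) a, ‖q j t y - F j y‖ₑ ^ 2)) (𝓝[>] 0)
          (𝓝 (∑ j ∈ Finset.range (n + 1), 0)) := by
        refine tendsto_finsetSum _ fun j hj => ?_
        obtain ⟨Fs, hj'⟩ := hS j (Finset.mem_range.1 hj)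
        exact hj'.lim
      have h2 : Tendsto (fun t : ℝ => ENNReal.ofReal (t ^ 2) * ∫⁻ y in Icc (-a) a, ‖f y‖ₑ ^ 2)
          (𝓝[>] 0) (𝓝 (0 * ∫⁻ y in Icc (-a) a, ‖f y‖ₑ ^ 2)) := by
        refine ENNReal.Tendsto.mul_const ?_ (Or.inr hfF.ne)
        have h3 : Tendsto (fun t : ℝ => t ^ 2) (𝓝[>] 0) (𝓝 (0 ^ 2)) :=
          ((continuous_pow 2).tendsto (0 : ℝ)).mono_left nhdsWithin_le_nhds
        have h4 := ENNReal.tendsto_ofReal h3
        rwa [zero_pow two_ne_zero, ENNReal.ofReal_zero] at h4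
      have h5 := ENNReal.Tendsto.const_mul (h1.add h2)
        (a := ENNReal.ofReal (2 * (C ^ 2 * (n + 1))) * volume (Icc (-b) b))
        (Or.inr (ENNReal.mul_lt_top ENNReal.ofReal_lt_top hV).ne)
      rwa [Finset.sum_const_zero, zero_mul, add_zero, mul_zero] at h5
    refine tendsto_of_tendsto_of_tendsto_of_le_of_le' tendsto_const_nhds hlim
      (Eventually.of_forall fun t => bot_le) ?_
    have hev : Ioo (0 : ℝ) (T / 2) ∈ 𝓝[>] (0 : ℝ) := Ioo_mem_nhdsGT (by linarith)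
    filter_upwards [hev] with t ht
    exact hbound t ht.1 ht.2.le
  · -- the energy
    have hMex : ∀ j, ∃ M : ℝ≥0∞, M < ⊤ ∧ (j < n + 1 → ∀ t, 0 < t → t ≤ T / 2 →
        ∫⁻ y in Icc (-a) a, ‖q j t y‖ₑ ^ 2 ≤ M) := by
      intro j
      by_cases hj : j < n + 1
      · obtain ⟨Fs, hj'⟩ := hS j hj
        obtain ⟨M, h1, h2⟩ := LimP_bdd hj' (hFm j) (T / 2)
        exact ⟨M, h1, fun _ => h2⟩
      · exact ⟨0, by norm_num, fun h => absurd h hj⟩
    choose M hM1 hM2 using hMex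
    have hKt : ENNReal.ofReal (C ^ 2 * (n + 1)) * volume (Icc (-b) b) < ⊤ :=
      ENNReal.mul_lt_top ENNReal.ofReal_lt_top hV
    calc ∫⁻ t in Ioc 0 (T / 2), ∫⁻ y in Icc (-a) a, ∫⁻ z in Icc (-b) b,
        (‖∑ j ∈ Finset.range (n + 1), qy j t y * R j t z‖ₑ ^ 2 +
          ‖∑ j ∈ Finset.range (n + 1), q j t y * R (j + 1) t z‖ₑ ^ 2)
        ≤ ∫⁻ t in Ioc 0 (T / 2), (ENNReal.ofReal (C ^ 2 * (n + 1)) * volume (Icc (-b) b)) *
          ∑ j ∈ Finset.range (n + 1), ((∫⁻ y in Icc (-a) a, ‖qy j t y‖ₑ ^ 2) + M j) := by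
          refine setLIntegral_mono' measurableSet_Ioc fun t ht => ?_
          calc ∫⁻ y in Icc (-a) a, ∫⁻ z in Icc (-b) b,
              (‖∑ j ∈ Finset.range (n + 1), qy j t y * R j t z‖ₑ ^ 2 +
                ‖∑ j ∈ Finset.range (n + 1), q j t y * R (j + 1) t z‖ₑ ^ 2)
              ≤ ∫⁻ y in Icc (-a) a, (ENNReal.ofReal (C ^ 2 * (n + 1)) * volume (Icc (-b) b)) *
                ∑ j ∈ Finset.range (n + 1), (‖qy j t y‖ₑ ^ 2 + ‖q j t y‖ₑ ^ 2) := by
                refine lintegral_mono fun y => ?_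
                calc ∫⁻ z in Icc (-b) b,
                    (‖∑ j ∈ Finset.range (n + 1), qy j t y * R j t z‖ₑ ^ 2 +
                      ‖∑ j ∈ Finset.range (n + 1), q j t y * R (j + 1) t z‖ₑ ^ 2)
                    ≤ ∫⁻ z in Icc (-b) b, ENNReal.ofReal (C ^ 2 * (n + 1)) *
                      ∑ j ∈ Finset.range (n + 1), (‖qy j t y‖ₑ ^ 2 + ‖q j t y‖ₑ ^ 2) := by
                      refine setLIntegral_mono' measurableSet_Icc fun z hz => ?_
                      rw [Finset.sum_add_distrib, mul_add]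
                      exact add_le_add
                        (LimP_ptw2 (fun j => qy j t y) (fun j => R j t z)
                          fun j => (hlow j t ht.1 ht.2 z hz).1)
                        (LimP_ptw2 (fun j => q j t y) (fun j => R (j + 1) t z)
                          fun j => (hlow (j + 1) t ht.1 ht.2 z hz).1)
                  _ = _ := by
                      rw [setLIntegral_const]
                      ring
            _ = (ENNReal.ofReal (C ^ 2 * (n + 1)) * volume (Icc (-b) b)) *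
                ∑ j ∈ Finset.range (n + 1), ((∫⁻ y in Icc (-a) a, ‖qy j t y‖ₑ ^ 2) +
                  ∫⁻ y in Icc (-a) a, ‖q j t y‖ₑ ^ 2) := by
                rw [lintegral_const_mul' _ _ hKt.ne, lintegral_finsetSum']
                · congr 1
                  refine Finset.sum_congr rfl fun j hj => ?_
                  obtain ⟨Fs, hj'⟩ := hS j (Finset.mem_range.1 hj)
                  exact lintegral_add_right' _ ((LimP_cont hj' ht.1).enorm.pow_const 2)
                · intro j hj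
                  obtain ⟨Fs, hj'⟩ := hS j (Finset.mem_range.1 hj)
                  exact ((LimP_conty hj' ht.1).enorm.pow_const 2).add
                    ((LimP_cont hj' ht.1).enorm.pow_const 2)
            _ ≤ _ := by
                refine mul_le_mul_right (Finset.sum_le_sum fun j hj => ?_) _
                exact add_le_add le_rfl (hM2 j (Finset.mem_range.1 hj) t ht.1 ht.2)
      _ = (ENNReal.ofReal (C ^ 2 * (n + 1)) * volume (Icc (-b) b)) *
          ∑ j ∈ Finset.range (n + 1), ((∫⁻ t in Ioc 0 (T / 2), ∫⁻ y in Icc (-a) a,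
            ‖qy j t y‖ₑ ^ 2) + M j * volume (Ioc 0 (T / 2))) := by
          rw [lintegral_const_mul' _ _ hKt.ne, lintegral_finsetSum']
          · congr 1
            refine Finset.sum_congr rfl fun j hj => ?_
            rw [lintegral_add_right' _ aemeasurable_const, setLIntegral_const]
          · intro j hj
            obtain ⟨Fs, hj'⟩ := hS j (Finset.mem_range.1 hj)
            exact (LimP_meas hj' (T / 2)).add aemeasurable_const
      _ < ⊤ := by
          refine ENNReal.mul_lt_top hKt (ENNReal.sum_lt_top.2 fun j hj => ?_)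
          obtain ⟨Fs, hj'⟩ := hS j (Finset.mem_range.1 hj)
          refine ENNReal.add_lt_top.2 ⟨hj'.en (T / 2), ENNReal.mul_lt_top (hM1 j) ?_⟩
          rw [Real.volume_Ioc]
          exact ENNReal.ofReal_lt_top

end Pool.Agent.H309.DP.LLimP
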