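import Mathlib
import Pool.Agent.H309.DP.Stm

/-!
# DP4 (Minkowski with a weight), after `DF/Mink.lean`
-/

set_option autoImplicit false

open Set MeasureTheory

namespace Pool.Agent.H309.DP.LMink1

theorem tMink1 : Pool.Agent.H309.DP.Mink1 := by
  intro F ψ hF hψc hψ0 hψi hb t ht s
  have ht0 : 0 ≤ t := ht.le
  have hsub : Ioc 0 t ⊆ Ioi (0 : ℝ) := fun r hr => hr.1
  have hψI : IntervalIntegrable ψ volume 0 t :=
    (intervalIntegrable_iff_integrableOn_Ioc_of_le ht0).2 (hψi t ht)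
  have hint : ∀ m, IntervalIntegrable (fun r => |F m r|) volume 0 t := by
    intro m
    rw [intervalIntegrable_iff_integrableOn_Ioc_of_le ht0]
    refine Integrable.mono' (hψi t ht)
      ((((hF m).mono hsub).abs).aestronglyMeasurable measurableSet_Ioc) ?_
    refine (ae_restrict_iff' measurableSet_Ioc).2 (Filter.Eventually.of_forall fun r hr => ?_)
    have h1 := hb r hr.1 {m}
    rw [Finset.sum_singleton] at h1
    rw [Real.norm_eq_abs, abs_abs]
    exact abs_le_of_sq_le_sq h1 (hψ0 r hr.1)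
  obtain ⟨G, hG⟩ : ∃ G : ℕ → ℝ, G = fun m => ∫ r in (0 : ℝ)..t, |F m r| := ⟨_, rfl⟩
  obtain ⟨N, hN⟩ : ∃ N : ℝ, N = Real.sqrt (∑ m ∈ s, G m ^ 2) := ⟨_, rfl⟩
  obtain ⟨C, hC⟩ : ∃ C : ℝ, C = ∫ r in (0 : ℝ)..t, ψ r := ⟨_, rfl⟩
  have hQ0 : 0 ≤ ∑ m ∈ s, G m ^ 2 := Finset.sum_nonneg fun m _ => sq_nonneg _
  have hN0 : 0 ≤ N := by rw [hN]; exact Real.sqrt_nonneg _
  have hN2 : N ^ 2 = ∑ m ∈ s, G m ^ 2 := by rw [hN]; exact Real.sq_sqrt hQ0
  have hC0 : 0 ≤ C := by
    rw [hC, intervalIntegral.integral_of_le ht0]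
    exact setIntegral_nonneg measurableSet_Ioc fun r hr => hψ0 r hr.1
  have h1 : ∑ m ∈ s, G m ^ 2 = ∫ r in (0 : ℝ)..t, ∑ m ∈ s, G m * |F m r| := by
    rw [intervalIntegral.integral_finsetSum fun m _ => (hint m).const_mul (G m)]
    refine Finset.sum_congr rfl fun m _ => ?_
    rw [intervalIntegral.integral_const_mul, pow_two]
    have : (∫ r in (0 : ℝ)..t, |F m r|) = G m := by rw [hG]
    rw [this]
  have h2 : ∫ r in (0 : ℝ)..t, ∑ m ∈ s, G m * |F m r| ≤ ∫ r in (0 : ℝ)..t, N * ψ r := by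
    refine intervalIntegral.integral_mono_on_of_le_Ioo ht0 ?_ (hψI.const_mul N) ?_
    · have h3 := IntervalIntegrable.sum s fun m (_ : m ∈ s) => (hint m).const_mul (G m)
      have h4 : (∑ i ∈ s, fun x => G i * |F i x|) = fun r => ∑ m ∈ s, G m * |F m r| := by
        funext r
        rw [Finset.sum_apply]
      rw [h4] at h3
      exact h3
    · intro r hr
      have h3 := Real.sum_mul_le_sqrt_mul_sqrt s G fun m => |F m r|
      have h4 : Real.sqrt (∑ m ∈ s, |F m r| ^ 2) ≤ ψ r := by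
        have h5 : 0 ≤ ψ r := hψ0 r hr.1
        rw [Real.sqrt_le_left h5]
        have h6 := hb r hr.1 s
        calc ∑ m ∈ s, |F m r| ^ 2 = ∑ m ∈ s, F m r ^ 2 :=
              Finset.sum_congr rfl fun m _ => sq_abs _
          _ ≤ _ := h6
      rw [← hN] at h3
      exact h3.trans (mul_le_mul_of_nonneg_left h4 hN0)
  have h7 : ∫ r in (0 : ℝ)..t, N * ψ r = N * C := by
    rw [intervalIntegral.integral_const_mul, hC]
  rw [← h1, h7, ← hN2] at h2
  have h8 : N ≤ C := by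
    rcases eq_or_lt_of_le hN0 with h | h
    · rw [← h]; exact hC0
    · rw [pow_two] at h2
      exact le_of_mul_le_mul_left h2 h
  have h9 : ∑ m ∈ s, (∫ r in (0 : ℝ)..t, |F m r|) ^ 2 = N ^ 2 := by
    rw [hN2, hG]
  rw [h9, ← hC]
  exact pow_le_pow_left₀ hN0 h8 2

end Pool.Agent.H309.DP.LMink1
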