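import Pool.Agent.H309.DP.Stm
import Pool.Agent.H309.DF.SwitchFam

/-!
# Switches starting at heat polynomials (project DP of helper309, DP10), by helper14
-/

set_option autoImplicit false

open Set Filter Topology

namespace Pool.Agent.H309.DP.LRPoly

open Pool.Agent.H309.DF Pool.Agent.H309.DP

/-- the derivatives of `(z + 2 t ∂_z) R 0` -/
noncomputable def Sf (R : ℕ → ℝ → ℝ → ℝ) (j : ℕ) (t z : ℝ) : ℝ :=
  z * R j t z + (j : ℝ) * R (j - 1) t z + 2 * t * R (j + 1) t z

theorem base (b T ε : ℝ) (hb : 0 < b) (hT : 0 < T) (hε : 0 < ε) :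
    ∃ R : ℕ → ℝ → ℝ → ℝ, RFamP 0 b T ε R := by
  obtain ⟨R, hR⟩ := Pool.Agent.H309.DF.LSwitchFam.tSwitchFam b T ε hb hT hε
  refine ⟨R, hR.c, hR.dt, hR.dz, ?_, ?_, ⟨1, zero_le_one, ?_⟩, hR.zero, hR.bd⟩
  · intro j t z hj h0 ht
    obtain ⟨i, rfl⟩ : ∃ i, j = i + 1 := ⟨j - 1, by omega⟩
    exact hR.onej i t z h0 ht
  · intro t z h0 ht
    rw [hR.one t z h0 ht]
    simp
  · intro j t h0 ht z hz
    refine ⟨?_, ?_⟩
    · rcases j with _ | j
      · rw [hR.one t z h0 ht]; simp
      · rw [hR.onej j t z h0 ht]; simp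
    · rw [hR.one t z h0 ht]
      simp [h0.le]

theorem succ_le_pow (j : ℕ) : ((j : ℝ) + 1) ≤ 2 ^ j := by
  have h : j + 1 ≤ 2 ^ j := Nat.lt_two_pow_self
  exact_mod_cast h

theorem step (n : ℕ) (b T ε : ℝ) (hb : 0 < b) (hT : 0 < T) (hε : 0 < ε)
    {R : ℕ → ℝ → ℝ → ℝ} (hR : RFamP n b T (ε / 2) R) : RFamP (n + 1) b T ε (Sf R) := by
  refine ⟨?_, ?_, ?_, ?_, ?_, ?_, ?_, ?_⟩
  · intro j
    have h1 : ContinuousOn (fun z : ℝ × ℝ => z.2) (Ioi (0 : ℝ) ×ˢ Icc (-b) b) :=
      continuous_snd.continuousOn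
    have h2 : ContinuousOn (fun z : ℝ × ℝ => 2 * z.1) (Ioi (0 : ℝ) ×ˢ Icc (-b) b) :=
      (continuous_const.mul continuous_fst).continuousOn
    exact ((h1.mul (hR.c j)).add (continuousOn_const.mul (hR.c (j - 1)))).add
      (h2.mul (hR.c (j + 1)))
  · intro j t ht z hz
    have h1 := (hR.dt j t ht z hz).const_mul z
    have h2 := (hR.dt (j - 1) t ht z hz).const_mul (j : ℝ)
    have h3 := (((hasDerivAt_id t).const_mul (2 : ℝ)).mul (hR.dt (j + 1) t ht z hz))
    have h4 := (h1.add h2).add h3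
    refine h4.congr_deriv ?_
    unfold Sf
    rcases j with _ | j
    · simp
      ring
    · simp only [id, Nat.add_sub_cancel, mul_one]
      push_cast
      have e1 : j + 1 + 1 = j + 2 := rfl
      have e2 : j + 2 + 2 = j + 1 + 2 + 1 := rfl
      rw [e1, e2]
      ring
  · intro j t ht z hz
    have h1 := (hasDerivAt_id z).mul (hR.dz j t ht z hz)
    have h2 := (hR.dz (j - 1) t ht z hz).const_mul (j : ℝ)
    have h3 := (hR.dz (j + 1) t ht z hz).const_mul (2 * t)
    have h4 := (h1.add h2).add h3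
    refine h4.congr_deriv ?_
    unfold Sf
    rcases j with _ | j
    · simp
      ring
    · simp only [id, Nat.add_sub_cancel, one_mul]
      push_cast
      ring
  · intro j t z hj h0 ht
    unfold Sf
    rw [hR.van j t z (by omega) h0 ht, hR.van (j - 1) t z (by omega) h0 ht,
      hR.van (j + 1) t z (by omega) h0 ht]
    ring
  · intro t z h0 ht
    unfold Sf
    rw [hR.van (n + 1) t z (by omega) h0 ht, hR.van (n + 1 + 1) t z (by omega) h0 ht,
      Nat.add_sub_cancel, hR.top t z h0 ht, Nat.factorial_succ]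
    push_cast
    ring
  · obtain ⟨C, hC, h⟩ := hR.low
    refine ⟨(b + (n + 1) + T + 2) * C, by positivity, ?_⟩
    intro j t h0 ht z hz
    have hz' : |z| ≤ b := abs_le.2 hz
    have ht' : |2 * t| ≤ T := by
      rw [abs_of_pos (by linarith)]
      linarith
    refine ⟨?_, ?_⟩
    · have h1 := (h j t h0 ht z hz).1
      have h3 := (h (j + 1) t h0 ht z hz).1
      have h2 : |(j : ℝ) * R (j - 1) t z| ≤ (n + 1) * C := by
        rcases Nat.lt_or_ge (n + 1) j with hj | hj
        · rw [hR.van (j - 1) t z (by omega) h0 ht, mul_zero, abs_zero]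
          positivity
        · rw [abs_mul, Nat.abs_cast]
          have h5 : (j : ℝ) ≤ n + 1 := by exact_mod_cast hj
          have h6 := (h (j - 1) t h0 ht z hz).1
          gcongr
      have h4 : |z * R j t z| ≤ b * C := by
        rw [abs_mul]
        gcongr
      have h5 : |2 * t * R (j + 1) t z| ≤ T * C := by
        rw [abs_mul]
        gcongr
      unfold Sf
      calc _ ≤ |z * R j t z| + |(j : ℝ) * R (j - 1) t z| + |2 * t * R (j + 1) t z| :=
            (abs_add_le _ _).trans (add_le_add_left (abs_add_le _ _) _)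
        _ ≤ b * C + (n + 1) * C + T * C := by gcongr
        _ ≤ (b + (n + 1) + T + 2) * C := by nlinarith
    · have h1 := (h 0 t h0 ht z hz).2
      have h3 := (h 1 t h0 ht z hz).1
      have e : Sf R 0 t z - z ^ (n + 1) = z * (R 0 t z - z ^ n) + 2 * t * R 1 t z := by
        unfold Sf
        simp
        ring
      rw [e]
      have h4 : |z * (R 0 t z - z ^ n)| ≤ b * (C * t) := by
        rw [abs_mul]
        gcongr
      have h5 : |2 * t * R 1 t z| ≤ 2 * t * C := by
        rw [abs_mul, abs_of_pos (show (0 : ℝ) < 2 * t by linarith)]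
        gcongr
      calc _ ≤ |z * (R 0 t z - z ^ n)| + |2 * t * R 1 t z| := abs_add_le _ _
        _ ≤ b * (C * t) + 2 * t * C := by gcongr
        _ = (b + 2) * C * t := by ring
        _ ≤ (b + (n + 1) + T + 2) * C * t := by
          gcongr
          have : (0 : ℝ) ≤ n := Nat.cast_nonneg n
          linarith
  · intro j t z ht
    unfold Sf
    rw [hR.zero j t z ht, hR.zero (j - 1) t z ht, hR.zero (j + 1) t z ht]
    ring
  · intro t₁ ht₁
    obtain ⟨C, hC, h⟩ := hR.bd t₁ ht₁
    obtain ⟨δ, hδ⟩ : ∃ δ : ℝ, δ = ε / 2 := ⟨_, rfl⟩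
    have hδ0 : 0 < δ := by rw [hδ]; positivity
    rw [← hδ] at h
    refine ⟨C * (b + δ⁻¹ + 2 * T * δ), by positivity, ?_⟩
    intro j t ht z hz
    have hz' : |z| ≤ b := abs_le.2 hz
    rcases le_or_gt T t with htT | htT
    · unfold Sf
      rw [hR.zero j t z htT, hR.zero (j - 1) t z htT, hR.zero (j + 1) t z htT]
      simp only [mul_zero, add_zero, abs_zero]
      positivity
    · have ht0 : 0 < t := lt_of_lt_of_le ht₁ ht
      have ht' : |2 * t| ≤ 2 * T := by
        rw [abs_of_pos (by linarith)]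
        linarith
      have h1 := h j t ht z hz
      have h3 := h (j + 1) t ht z hz
      have h2 : |(j : ℝ) * R (j - 1) t z| ≤ C * (j.factorial : ℝ) * δ ^ j * δ⁻¹ := by
        rcases j with _ | j
        · simp
          positivity
        · rw [abs_mul, Nat.abs_cast, Nat.add_sub_cancel]
          have h6 := h j t ht z hz
          calc ((j + 1 : ℕ) : ℝ) * |R j t z| ≤ ((j + 1 : ℕ) : ℝ) * (C * (j.factorial : ℝ) * δ ^ j) := by
                gcongr
            _ = C * ((j + 1).factorial : ℝ) * δ ^ (j + 1) * δ⁻¹ := by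
                rw [Nat.factorial_succ, pow_succ]
                push_cast
                field_simp
      have h4 : |z * R j t z| ≤ b * (C * (j.factorial : ℝ) * δ ^ j) := by
        rw [abs_mul]
        gcongr
      have h5 : |2 * t * R (j + 1) t z| ≤ 2 * T * (C * ((j + 1).factorial : ℝ) * δ ^ (j + 1)) := by
        rw [abs_mul]
        gcongr
      have h7 := succ_le_pow j
      have h8 : (2 : ℝ) ^ j * δ ^ j = ε ^ j := by
        rw [← mul_pow, hδ]
        congr 1
        ring
      have h9 : (1 : ℝ) ≤ 2 ^ j := one_le_pow₀ (by norm_num)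
      have h10 : 0 ≤ C * (j.factorial : ℝ) * δ ^ j := by positivity
      unfold Sf
      calc _ ≤ |z * R j t z| + |(j : ℝ) * R (j - 1) t z| + |2 * t * R (j + 1) t z| :=
            (abs_add_le _ _).trans (add_le_add_left (abs_add_le _ _) _)
        _ ≤ b * (C * (j.factorial : ℝ) * δ ^ j) + C * (j.factorial : ℝ) * δ ^ j * δ⁻¹ +
            2 * T * (C * ((j + 1).factorial : ℝ) * δ ^ (j + 1)) := by gcongr
        _ = C * (j.factorial : ℝ) * δ ^ j * (b + δ⁻¹ + 2 * T * δ * ((j : ℝ) + 1)) := by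
            rw [Nat.factorial_succ, pow_succ]
            push_cast
            ring
        _ ≤ C * (j.factorial : ℝ) * δ ^ j * (b * 2 ^ j + δ⁻¹ * 2 ^ j + 2 * T * δ * 2 ^ j) := by
            gcongr
            · nlinarith
            · exact le_mul_of_one_le_right (by positivity) h9
        _ = C * (b + δ⁻¹ + 2 * T * δ) * (j.factorial : ℝ) * (2 ^ j * δ ^ j) := by ring
        _ = C * (b + δ⁻¹ + 2 * T * δ) * (j.factorial : ℝ) * ε ^ j := by rw [h8]

theorem tRPoly : Pool.Agent.H309.DP.RPoly := by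
  intro n
  induction n with
  | zero => exact base
  | succ n ih =>
    intro b T ε hb hT hε
    obtain ⟨R, hR⟩ := ih b T (ε / 2) hb hT (by positivity)
    exact ⟨Sf R, step n b T ε hb hT hε hR⟩

end Pool.Agent.H309.DP.LRPoly
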