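import Pool.Agent.H309.DP.Stm

/-! # Scalar Duhamel integral with an integrable singularity at `0` -/

set_option autoImplicit false

open Set Filter Topology MeasureTheory

namespace Pool.Agent.H309.DP.LScal

open Pool.Agent.H309.DF

private theorem du_eq {l : ℝ} (G : ℝ → ℝ) (t : ℝ) :
    du l G t = Real.exp (-(l * t)) * ∫ s in (0 : ℝ)..t, Real.exp (l * s) * G s := by
  unfold du
  rw [← intervalIntegral.integral_const_mul]
  refine intervalIntegral.integral_congr fun s _ => ?_
  rw [← mul_assoc, ← Real.exp_add]
  congr 2
  ring

theorem tScal : Pool.Agent.H309.DP.Scal := by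
  intro l hl F ψ hF hψ hψi
  have hFi : ∀ t, 0 < t → IntervalIntegrable F volume 0 t := by
    intro t ht
    rw [intervalIntegrable_iff_integrableOn_Ioc_of_le ht.le]
    refine Integrable.mono' (hψi t ht) ?_ ?_
    · exact (hF.mono fun x hx => hx.1).aestronglyMeasurable measurableSet_Ioc
    · rw [ae_restrict_iff' measurableSet_Ioc]
      exact Eventually.of_forall fun x hx => by
        rw [Real.norm_eq_abs]
        exact hψ x hx.1
  have hgi : ∀ t, 0 < t → IntervalIntegrable (fun s => Real.exp (l * s) * F s) volume 0 t := by
    intro t ht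
    exact (hFi t ht).continuousOn_mul (by fun_prop : Continuous fun s => Real.exp (l * s)).continuousOn
  have hgc : ContinuousOn (fun s => Real.exp (l * s) * F s) (Ioi 0) :=
    (by fun_prop : Continuous fun s => Real.exp (l * s)).continuousOn.mul hF
  have hder : ∀ t, 0 < t → HasDerivAt (du l F) (-(l * du l F t) + F t) t := by
    intro t ht
    have hfun : du l F = fun t => Real.exp (-(l * t)) * ∫ s in (0 : ℝ)..t, Real.exp (l * s) * F s :=
      funext fun t => du_eq F t
    have h1 : HasDerivAt (fun t => ∫ s in (0 : ℝ)..t, Real.exp (l * s) * F s)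
        (Real.exp (l * t) * F t) t :=
      intervalIntegral.integral_hasDerivAt_right (hgi t ht)
        (hgc.stronglyMeasurableAtFilter isOpen_Ioi t ht) (hgc.continuousAt (Ioi_mem_nhds ht))
    have h2 : HasDerivAt (fun t : ℝ => Real.exp (-(l * t))) (Real.exp (-(l * t)) * -(l * 1)) t :=
      (((hasDerivAt_id t).const_mul l).neg).exp
    have h3 := h2.mul h1
    rw [hfun]
    refine h3.congr_deriv ?_
    simp only
    have h4 : Real.exp (-(l * t)) * (Real.exp (l * t) * F t) = F t := by
      rw [← mul_assoc, ← Real.exp_add, neg_add_cancel, Real.exp_zero, one_mul]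
    rw [h4]
    ring
  refine ⟨fun t ht => (hder t ht).continuousAt.continuousWithinAt, hder, ?_, ?_⟩
  · intro s t hs hst
    have ht : 0 < t := lt_of_lt_of_le hs hst
    have hsti : IntervalIntegrable (fun r => Real.exp (l * r) * F r) volume s t :=
      (hgi s hs).symm.trans (hgi t ht)
    have e1 : du l (fun r => F (s + r)) (t - s) =
        Real.exp (-(l * t)) * ∫ r in s..t, Real.exp (l * r) * F r := by
      unfold du
      have := intervalIntegral.integral_comp_add_left (a := 0) (b := t - s)
        (fun u => Real.exp (-(l * (t - u))) * F u) s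
      rw [add_zero, add_sub_cancel] at this
      rw [← intervalIntegral.integral_const_mul]
      have e2 : (∫ r in s..t, Real.exp (-(l * t)) * (Real.exp (l * r) * F r)) =
          ∫ u in s..t, Real.exp (-(l * (t - u))) * F u := by
        refine intervalIntegral.integral_congr fun r _ => ?_
        rw [← mul_assoc, ← Real.exp_add]
        congr 2
        ring
      rw [e2, ← this]
      refine intervalIntegral.integral_congr fun r _ => ?_
      congr 3
      ring
    rw [e1, du_eq F t, du_eq F s, ← intervalIntegral.integral_add_adjacent_intervals (hgi s hs) hsti,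
      mul_add, ← mul_assoc, ← Real.exp_add]
    congr 3
    ring
  · intro t ht
    unfold du
    refine (intervalIntegral.abs_integral_le_integral_abs ht.le).trans ?_
    have hi : IntervalIntegrable (fun s => Real.exp (-(l * (t - s))) * F s) volume 0 t :=
      (hFi t ht).continuousOn_mul
        (by fun_prop : Continuous fun s => Real.exp (-(l * (t - s)))).continuousOn
    refine intervalIntegral.integral_mono_on ht.le hi.abs (hFi t ht).abs fun s hs => ?_
    rw [abs_mul, abs_of_pos (Real.exp_pos _)]
    refine mul_le_of_le_one_left (abs_nonneg _) ?_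
    rw [Real.exp_le_one_iff]
    have := mul_nonneg hl.le (sub_nonneg.2 hs.2)
    linarith

end Pool.Agent.H309.DP.LScal
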