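import Pool.Agent.H309.DP.Stm
import Pool.Agent.H309.DF.CoCont
import Pool.Agent.H309.DF.CoBessel
import Pool.Agent.H309.DF.SqSeries

/-!
# DP7 SRCDUH (helper971 for helper309): Duhamel with a source integrable at `t = 0`
-/

set_option autoImplicit false

open Set Filter Topology MeasureTheory
open scoped ENNReal

namespace Pool.Agent.H309.DP.LSrcDuh

open Pool.Agent.Q61.NC Pool.Agent.H309.DF Pool.Agent.H309.DG Pool.Agent.H309.DP

theorem mu_pos {a : ℝ} (ha : 0 < a) (m : ℕ) : 0 < mu a m := by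
  unfold mu
  positivity

theorem mu_ge {a : ℝ} (ha : 0 < a) (m : ℕ) : mu a 0 ≤ mu a m := by
  unfold mu
  have hp := Real.pi_pos
  apply div_le_div_of_nonneg_right _ (by positivity)
  apply mul_le_mul_of_nonneg_right _ hp.le
  simp

/-- the three series of an absolutely summable coefficient sequence -/
theorem sums {a : ℝ} (ha : 0 < a) (P : ℕ → ℝ) (h : Summable fun m => |mu a m ^ 2 * P m|)
    (y : ℝ) :
    Summable (fun m => |P m|) ∧ Summable (fun m => P m * sn a m y) ∧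
    Summable (fun m => P m * (mu a m * Real.cos (mu a m * (y + a)))) ∧
    Summable (fun m => -(mu a m ^ 2 * P m) * sn a m y) := by
  have h0 := mu_pos ha 0
  have hP : ∀ m, |P m| ≤ (1 / mu a 0 ^ 2) * |mu a m ^ 2 * P m| := by
    intro m
    rw [abs_mul, abs_of_nonneg (sq_nonneg (mu a m)), one_div, ← div_eq_inv_mul,
      le_div_iff₀ (by positivity), mul_comm]
    exact mul_le_mul_of_nonneg_right (pow_le_pow_left₀ h0.le (mu_ge ha m) 2) (abs_nonneg _)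
  have hs1 : Summable (fun m => |P m|) :=
    Summable.of_nonneg_of_le (fun m => abs_nonneg _) hP (h.mul_left _)
  refine ⟨hs1, ?_, ?_, ?_⟩
  · refine Summable.of_norm_bounded hs1 (fun m => ?_)
    rw [norm_mul, Real.norm_eq_abs, Real.norm_eq_abs]
    have : |sn a m y| ≤ 1 := by unfold sn; exact Real.abs_sin_le_one _
    nlinarith [abs_nonneg (P m)]
  · refine Summable.of_norm_bounded (h.mul_left (1 / mu a 0)) (fun m => ?_)
    rw [norm_mul, norm_mul, Real.norm_eq_abs, Real.norm_eq_abs, Real.norm_eq_abs, abs_mul,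
      abs_of_nonneg (sq_nonneg (mu a m)), abs_of_pos (mu_pos ha m)]
    have h1 : |Real.cos (mu a m * (y + a))| ≤ 1 := Real.abs_cos_le_one _
    have h2 := mu_ge ha m
    have h3 := mu_pos ha m
    have h4 := abs_nonneg (P m)
    have h5 : mu a m ≤ 1 / mu a 0 * mu a m ^ 2 := by
      rw [one_div, ← div_eq_inv_mul, le_div_iff₀ h0]
      nlinarith
    calc |P m| * (mu a m * |Real.cos (mu a m * (y + a))|) ≤ |P m| * (mu a m * 1) := by
          apply mul_le_mul_of_nonneg_left _ h4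
          exact mul_le_mul_of_nonneg_left h1 h3.le
      _ = mu a m * |P m| := by ring
      _ ≤ (1 / mu a 0 * mu a m ^ 2) * |P m| := mul_le_mul_of_nonneg_right h5 h4
      _ = 1 / mu a 0 * (mu a m ^ 2 * |P m|) := by ring
  · refine Summable.of_norm_bounded h (fun m => ?_)
    rw [norm_mul, Real.norm_eq_abs, Real.norm_eq_abs, abs_neg]
    have : |sn a m y| ≤ 1 := by unfold sn; exact Real.abs_sin_le_one _
    nlinarith [abs_nonneg (mu a m ^ 2 * P m)]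

/-- local continuity in time -/
theorem locc {f : ℝ × ℝ → ℝ} {S : Set ℝ}
    (h : ∀ t0, 0 < t0 → ∃ δ τ : ℝ, δ < t0 ∧ t0 < δ + τ ∧ ContinuousOn f (Ioo δ (δ + τ) ×ˢ S)) :
    ContinuousOn f (Ioi 0 ×ˢ S) := by
  intro z hz
  obtain ⟨δ, τ, h1, h2, h3⟩ := h z.1 hz.1
  have h4 : ContinuousWithinAt f (Ioo δ (δ + τ) ×ˢ S) z := h3 z ⟨⟨h1, h2⟩, hz.2⟩
  refine h4.mono_of_mem_nhdsWithin ?_
  rw [mem_nhdsWithin_iff_exists_mem_nhds_inter]
  refine ⟨Ioo δ (δ + τ) ×ˢ univ, prod_mem_nhds (Ioo_mem_nhds h1 h2) univ_mem, ?_⟩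
  rintro w ⟨hw1, hw2⟩
  exact ⟨hw1.1, hw2.2⟩

/-- continuity in time of the coefficients -/
theorem co_cont {a : ℝ} (ha : 0 < a) (F : ℝ → ℝ → ℝ)
    (hF : ContinuousOn (fun z : ℝ × ℝ => F z.1 z.2) (Ioi 0 ×ˢ Icc (-a) a)) (m : ℕ) :
    ContinuousOn (fun s => co a (F s) m) (Ioi 0) := by
  intro t0 ht0
  have ht0' : (0:ℝ) < t0 := ht0
  have hsub : ContinuousOn (fun z : ℝ × ℝ => F (t0 / 2 + z.1) z.2) (Icc 0 t0 ×ˢ Icc (-a) a) := by
    have hc : Continuous (fun z : ℝ × ℝ => (t0 / 2 + z.1, z.2)) := by fun_prop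
    refine hF.comp hc.continuousOn ?_
    rintro z ⟨hz1, hz2⟩
    refine ⟨?_, hz2⟩
    have := hz1.1
    show 0 < t0 / 2 + z.1
    linarith
  obtain ⟨S, hS⟩ := (isCompact_Icc.prod isCompact_Icc).exists_bound_of_continuousOn hsub
  have h1 := (LCoCont.tCoCont a t0 (max S 0) ha ht0' (le_max_right _ _) (fun s => F (t0 / 2 + s))
    hsub (fun t ht y hy => (hS (t, y) ⟨ht, hy⟩).trans (le_max_left _ _)) m).1
  have h2 : ContinuousAt (fun t => co a (F (t0 / 2 + t)) m) (t0 / 2) :=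
    h1.continuousAt (Icc_mem_nhds (by linarith) (by linarith))
  have h3 : ContinuousAt ((fun t => co a (F (t0 / 2 + t)) m) ∘ fun s => s - t0 / 2) t0 := by
    refine ContinuousAt.comp ?_ (by fun_prop)
    have : t0 - t0 / 2 = t0 / 2 := by ring
    rw [this]
    exact h2
  have h4 : ((fun t => co a (F (t0 / 2 + t)) m) ∘ fun s => s - t0 / 2) =
      fun s => co a (F s) m := by
    funext s
    simp only [Function.comp]
    rw [add_sub_cancel]
  rw [h4] at h3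
  exact h3.continuousWithinAt

theorem tSrcDuh (h1 : Scal) (h2 : Mink1) (h3 : HeatC) (h4 : StepC) :
    Pool.Agent.H309.DP.SrcDuh := by
  intro a ha F Fy Fyy hF hFy hFyy hdy hdyy hwall ψ hψc hψ0 hψi hψF
  have hsa : 0 < Real.sqrt a := Real.sqrt_pos.2 ha
  have hsa2 : Real.sqrt a ^ 2 = a := Real.sq_sqrt ha.le
  have hmu2 : ∀ m, 0 < mu a m ^ 2 := fun m => pow_pos (mu_pos ha m) 2
  -- the coefficients of the source
  have hFt : ∀ t, 0 < t → ContinuousOn (F t) (Icc (-a) a) := by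
    intro t ht
    have hc : Continuous (fun y : ℝ => (t, y)) := by fun_prop
    exact hF.comp hc.continuousOn (fun y hy => ⟨ht, hy⟩)
  have hcoc : ∀ m, ContinuousOn (fun s => co a (F s) m) (Ioi 0) := co_cont ha F hF
  have hbes : ∀ t, 0 < t → ∀ s : Finset ℕ, ∑ m ∈ s, co a (F t) m ^ 2 ≤
      (ψ t / Real.sqrt a) ^ 2 := by
    intro t ht s
    refine (LCoBessel.tCoBessel a ha (F t) (hFt t ht) s).trans ?_
    rw [div_pow, hsa2, one_div, ← div_eq_inv_mul]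
    exact div_le_div_of_nonneg_right (hψF t ht) ha.le
  have hco1 : ∀ m t, 0 < t → |co a (F t) m| ≤ ψ t / Real.sqrt a := by
    intro m t ht
    have := hbes t ht {m}
    rw [Finset.sum_singleton] at this
    exact abs_le_of_sq_le_sq this (div_nonneg (hψ0 t ht) hsa.le)
  have hψ1c : ContinuousOn (fun t => ψ t / Real.sqrt a) (Ioi 0) := hψc.div_const _
  have hψ1i : ∀ T, 0 < T → IntegrableOn (fun t => ψ t / Real.sqrt a) (Ioc 0 T) :=
    fun T hT => (hψi T hT).div_const _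
  have hsc := fun m => h1 (mu a m ^ 2) (hmu2 m) (fun s => co a (F s) m)
    (fun t => ψ t / Real.sqrt a) (hcoc m) (hco1 m) hψ1i
  obtain ⟨p, hp⟩ : ∃ p : ℕ → ℝ → ℝ, p = fun m t => du (mu a m ^ 2) (fun s => co a (F s) m) t :=
    ⟨_, rfl⟩
  have hint : ∀ t, 0 < t → ∀ s : Finset ℕ,
      ∑ m ∈ s, (∫ r in (0 : ℝ)..t, |co a (F r) m|) ^ 2 ≤
        (∫ r in (0 : ℝ)..t, ψ r / Real.sqrt a) ^ 2 :=
    h2 (fun m s => co a (F s) m) (fun t => ψ t / Real.sqrt a) hcoc hψ1c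
      (fun t ht => div_nonneg (hψ0 t ht) hsa.le) hψ1i hbes
  have hintn : ∀ m t, 0 < t → 0 ≤ ∫ r in (0 : ℝ)..t, |co a (F r) m| := by
    intro m t ht
    exact intervalIntegral.integral_nonneg ht.le (fun r _ => abs_nonneg _)
  have hψn : ∀ t, 0 < t → 0 ≤ ∫ r in (0 : ℝ)..t, ψ r / Real.sqrt a := by
    intro t ht
    rw [intervalIntegral.integral_of_le ht.le]
    exact setIntegral_nonneg measurableSet_Ioc
      (fun r hr => div_nonneg (hψ0 r hr.1) hsa.le)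
  have hpb : ∀ m t, 0 < t → |p m t| ≤ ∫ r in (0 : ℝ)..t, ψ r / Real.sqrt a := by
    intro m t ht
    rw [hp]
    refine ((hsc m).2.2.2 t ht).trans ?_
    have := hint t ht {m}
    rw [Finset.sum_singleton] at this
    exact (pow_le_pow_iff_left₀ (hintn m t ht) (hψn t ht) two_ne_zero).1 this
  -- local representation
  have hloc : ∀ δ τ : ℝ, 0 < δ → 0 < τ → ∃ Q1 Q1t Q1y Q2 Q2t Q2y Q2yy : ℝ → ℝ → ℝ,
      CFlow a (fun _ _ => 0) Q1 Q1t Q1y Q1t ∧ Cl a 0 τ Q2 Q2t Q2y Q2yy ∧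
      (∀ t ∈ Icc 0 τ, ∀ y ∈ Icc (-a) a, Q2t t y = Q2yy t y + F (δ + t) y) ∧
      ∀ t, 0 < t → t ≤ τ → (Summable fun m => |mu a m ^ 2 * p m (δ + t)|) ∧
        ∀ y, (∑' m, p m (δ + t) * sn a m y = Q1 t y + Q2 t y) ∧
          (∑' m, p m (δ + t) * (mu a m * Real.cos (mu a m * (y + a))) = Q1y t y + Q2y t y) ∧
          (∑' m, -(mu a m ^ 2 * p m (δ + t)) * sn a m y = Q1t t y + Q2yy t y) := by
    intro δ τ hδ hτ
    have hmap : Continuous (fun z : ℝ × ℝ => (δ + z.1, z.2)) := by fun_prop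
    have hmem : MapsTo (fun z : ℝ × ℝ => (δ + z.1, z.2)) (Icc 0 τ ×ˢ Icc (-a) a)
        (Ioi 0 ×ˢ Icc (-a) a) := by
      rintro z ⟨hz1, hz2⟩
      refine ⟨?_, hz2⟩
      have := hz1.1
      show 0 < δ + z.1
      linarith
    have hpos : ∀ t ∈ Icc 0 τ, 0 < δ + t := fun t ht => by linarith [ht.1]
    have hsrc : Src a τ (fun s => F (δ + s)) (fun s => Fy (δ + s)) (fun s => Fyy (δ + s)) :=
      ⟨hF.comp hmap.continuousOn hmem, hFy.comp hmap.continuousOn hmem,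
        hFyy.comp hmap.continuousOn hmem, fun t ht y hy => hdy _ (hpos t ht) y hy,
        fun t ht y hy => hdyy _ (hpos t ht) y hy, fun t ht => hwall _ (hpos t ht)⟩
    obtain ⟨hcl, heq, β, hβs, hβ⟩ := h4 a τ ha hτ _ _ _ hsrc
    obtain ⟨hcf, hsum⟩ := h3 a ha (fun m => p m δ) _ (fun m => hpb m δ hδ)
    refine ⟨_, _, _, _, _, _, _, hcf, hcl, heq, ?_⟩
    intro t ht htτ
    have hdec : ∀ m, p m (δ + t) = p m δ * Real.exp (-(mu a m ^ 2 * t)) +
        du (mu a m ^ 2) (fun s => co a (F (δ + s)) m) t := by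
      intro m
      have := (hsc m).2.2.1 δ (δ + t) hδ (by linarith)
      rw [hp]
      simp only
      rw [this, add_sub_cancel_left]
      ring
    have hs1 := hsum t ht
    have hs2 : Summable fun m => |mu a m ^ 2 *
        du (mu a m ^ 2) (fun s => co a (F (δ + s)) m) t| :=
      Summable.of_nonneg_of_le (fun m => abs_nonneg _) (fun m => (hβ m t ⟨ht.le, htτ⟩).1) hβs
    refine ⟨?_, ?_⟩
    · refine Summable.of_nonneg_of_le (fun m => abs_nonneg _) (fun m => ?_) (hs1.add hs2)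
      rw [hdec m, mul_add]
      exact abs_add_le _ _
    · intro y
      obtain ⟨-, a1, a2, a3⟩ := sums ha _ hs1 y
      obtain ⟨-, b1, b2, b3⟩ := sums ha _ hs2 y
      refine ⟨?_, ?_, ?_⟩
      · rw [← a1.tsum_add b1]
        refine tsum_congr (fun m => ?_)
        rw [hdec m]; ring
      · rw [← a2.tsum_add b2]
        refine tsum_congr (fun m => ?_)
        rw [hdec m]; ring
      · rw [← a3.tsum_add b3]
        refine tsum_congr (fun m => ?_)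
        rw [hdec m]; ring
  obtain ⟨q, hq⟩ : ∃ q : ℝ → ℝ → ℝ, q = fun t y => ∑' m, p m t * sn a m y := ⟨_, rfl⟩
  obtain ⟨qy, hqy⟩ : ∃ qy : ℝ → ℝ → ℝ, qy = fun t y =>
    ∑' m, p m t * (mu a m * Real.cos (mu a m * (y + a))) := ⟨_, rfl⟩
  obtain ⟨qyy, hqyy⟩ : ∃ qyy : ℝ → ℝ → ℝ, qyy = fun t y =>
    ∑' m, -(mu a m ^ 2 * p m t) * sn a m y := ⟨_, rfl⟩
  -- the same in a form for every time
  have hrep : ∀ t0, 0 < t0 → ∃ Q1 Q1t Q1y Q2 Q2t Q2y Q2yy : ℝ → ℝ → ℝ,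
      CFlow a (fun _ _ => 0) Q1 Q1t Q1y Q1t ∧ Cl a 0 t0 Q2 Q2t Q2y Q2yy ∧
      (∀ t ∈ Icc 0 t0, ∀ y ∈ Icc (-a) a, Q2t t y = Q2yy t y + F (t0 / 2 + t) y) ∧
      ∀ t ∈ Ioo (t0 / 2) (t0 / 2 + t0), ∀ y,
        q t y = Q1 (t - t0 / 2) y + Q2 (t - t0 / 2) y ∧
        qy t y = Q1y (t - t0 / 2) y + Q2y (t - t0 / 2) y ∧
        qyy t y = Q1t (t - t0 / 2) y + Q2yy (t - t0 / 2) y := by
    intro t0 ht0
    obtain ⟨Q1, Q1t, Q1y, Q2, Q2t, Q2y, Q2yy, e1, e2, e3, e4⟩ := hloc (t0 / 2) t0 (by linarith) ht0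
    refine ⟨Q1, Q1t, Q1y, Q2, Q2t, Q2y, Q2yy, e1, e2, e3, ?_⟩
    intro t ht y
    have h5 := (e4 (t - t0 / 2) (by linarith [ht.1]) (by linarith [ht.2])).2 y
    rw [add_sub_cancel] at h5
    rw [hq, hqy, hqyy]
    exact h5
  have hcontc : ∀ t0, 0 < t0 → ∀ G1 G2 G : ℝ → ℝ → ℝ,
      ContinuousOn (fun z : ℝ × ℝ => G1 z.1 z.2) (Ioi 0 ×ˢ Icc (-a) a) →
      ContinuousOn (fun z : ℝ × ℝ => G2 z.1 z.2) (Icc 0 t0 ×ˢ Icc (-a) a) →
      (∀ t ∈ Ioo (t0 / 2) (t0 / 2 + t0), ∀ y,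
        G t y = G1 (t - t0 / 2) y + G2 (t - t0 / 2) y) →
      ∃ δ τ : ℝ, δ < t0 ∧ t0 < δ + τ ∧
        ContinuousOn (fun z : ℝ × ℝ => G z.1 z.2) (Ioo δ (δ + τ) ×ˢ Icc (-a) a) := by
    intro t0 ht0 G1 G2 G c1 c2 hG
    refine ⟨t0 / 2, t0, by linarith, by linarith, ?_⟩
    have hmap : Continuous (fun z : ℝ × ℝ => (z.1 - t0 / 2, z.2)) := by fun_prop
    have d1 : ContinuousOn (fun z : ℝ × ℝ => G1 (z.1 - t0 / 2) z.2)
        (Ioo (t0 / 2) (t0 / 2 + t0) ×ˢ Icc (-a) a) := by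
      refine c1.comp hmap.continuousOn ?_
      rintro z ⟨hz1, hz2⟩
      refine ⟨?_, hz2⟩
      show 0 < z.1 - t0 / 2
      linarith [hz1.1]
    have d2 : ContinuousOn (fun z : ℝ × ℝ => G2 (z.1 - t0 / 2) z.2)
        (Ioo (t0 / 2) (t0 / 2 + t0) ×ˢ Icc (-a) a) := by
      refine c2.comp hmap.continuousOn ?_
      rintro z ⟨hz1, hz2⟩
      refine ⟨⟨?_, ?_⟩, hz2⟩
      · show 0 ≤ z.1 - t0 / 2
        linarith [hz1.1]
      · show z.1 - t0 / 2 ≤ t0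
        linarith [hz1.2]
    refine (d1.add d2).congr ?_
    rintro z ⟨hz1, _⟩
    exact hG z.1 hz1 z.2
  have hmid : ∀ t0 : ℝ, 0 < t0 → t0 ∈ Ioo (t0 / 2) (t0 / 2 + t0) := fun t0 ht0 =>
    ⟨by linarith, by linarith⟩
  have hhalf : ∀ t0 : ℝ, t0 - t0 / 2 = t0 / 2 := fun t0 => by ring
  have hqyyc : ContinuousOn (fun z : ℝ × ℝ => qyy z.1 z.2) (Ioi 0 ×ˢ Icc (-a) a) := by
    refine locc (fun t0 ht0 => ?_)
    obtain ⟨Q1, Q1t, Q1y, Q2, Q2t, Q2y, Q2yy, e1, e2, e3, e4⟩ := hrep t0 ht0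
    exact hcontc t0 ht0 Q1t Q2yy qyy e1.ct e2.cyy (fun t ht y => (e4 t ht y).2.2)
  refine ⟨q, fun t y => qyy t y + F t y, qy, qyy, ⟨?_, ?_, ?_, hqyyc, ?_, ?_, ?_, ?_, ?_⟩, ?_⟩
  · refine locc (fun t0 ht0 => ?_)
    obtain ⟨Q1, Q1t, Q1y, Q2, Q2t, Q2y, Q2yy, e1, e2, e3, e4⟩ := hrep t0 ht0
    exact hcontc t0 ht0 Q1 Q2 q e1.c e2.c (fun t ht y => (e4 t ht y).1)
  · exact hqyyc.add hF
  · refine locc (fun t0 ht0 => ?_)
    obtain ⟨Q1, Q1t, Q1y, Q2, Q2t, Q2y, Q2yy, e1, e2, e3, e4⟩ := hrep t0 ht0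
    exact hcontc t0 ht0 Q1y Q2y qy e1.cy e2.cy (fun t ht y => (e4 t ht y).2.1)
  · -- time derivative
    intro t0 ht0 y hy
    obtain ⟨Q1, Q1t, Q1y, Q2, Q2t, Q2y, Q2yy, e1, e2, e3, e4⟩ := hrep t0 ht0
    have hpos : 0 < t0 / 2 := by linarith
    have d1 := e1.dt (t0 / 2) hpos y hy
    have d2 := e2.dt (t0 / 2) ⟨hpos, by linarith⟩ y hy
    have d3 : HasDerivAt (fun s => Q1 s y + Q2 s y) (Q1t (t0 / 2) y + Q2t (t0 / 2) y)
        (t0 - t0 / 2) := by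
      rw [hhalf]
      exact d1.add d2
    have d4 : HasDerivAt (fun s => Q1 (s - t0 / 2) y + Q2 (s - t0 / 2) y)
        (Q1t (t0 / 2) y + Q2t (t0 / 2) y) t0 := d3.comp_sub_const t0 (t0 / 2)
    have d5 : HasDerivAt (fun s => q s y) (Q1t (t0 / 2) y + Q2t (t0 / 2) y) t0 := by
      refine d4.congr_of_eventuallyEq ?_
      filter_upwards [Ioo_mem_nhds (hmid t0 ht0).1 (hmid t0 ht0).2] with s hs
      exact (e4 s hs y).1
    have e5 := (e4 t0 (hmid t0 ht0) y).2.2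
    have e6 := e3 (t0 / 2) ⟨hpos.le, by linarith⟩ y hy
    rw [hhalf] at e5
    rw [add_halves] at e6
    have e7 : qyy t0 y + F t0 y = Q1t (t0 / 2) y + Q2t (t0 / 2) y := by
      rw [e5, e6]; ring
    show HasDerivAt (fun s => q s y) (qyy t0 y + F t0 y) t0
    rw [e7]
    exact d5
  · -- first space derivative
    intro t0 ht0 y hy
    obtain ⟨Q1, Q1t, Q1y, Q2, Q2t, Q2y, Q2yy, e1, e2, e3, e4⟩ := hrep t0 ht0
    have hpos : 0 < t0 / 2 := by linarith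
    have d1 := e1.dy (t0 / 2) hpos y hy
    have d2 := e2.dy (t0 / 2) ⟨hpos.le, by linarith⟩ y hy
    have e5 := e4 t0 (hmid t0 ht0)
    rw [hhalf] at e5
    have e6 : q t0 = fun y => Q1 (t0 / 2) y + Q2 (t0 / 2) y := funext (fun y => (e5 y).1)
    rw [e6, (e5 y).2.1]
    exact d1.add d2
  · intro t0 ht0 y hy
    obtain ⟨Q1, Q1t, Q1y, Q2, Q2t, Q2y, Q2yy, e1, e2, e3, e4⟩ := hrep t0 ht0
    have hpos : 0 < t0 / 2 := by linarith
    have d1 := e1.dyy (t0 / 2) hpos y hy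
    have d2 := e2.dyy (t0 / 2) ⟨hpos.le, by linarith⟩ y hy
    have e5 := e4 t0 (hmid t0 ht0)
    rw [hhalf] at e5
    have e6 : qy t0 = fun y => Q1y (t0 / 2) y + Q2y (t0 / 2) y := funext (fun y => (e5 y).2.1)
    rw [e6, (e5 y).2.2]
    exact d1.add d2
  · intro t0 ht0
    obtain ⟨Q1, Q1t, Q1y, Q2, Q2t, Q2y, Q2yy, e1, e2, e3, e4⟩ := hrep t0 ht0
    have hpos : 0 < t0 / 2 := by linarith
    have d1 := e1.wall (t0 / 2) hpos
    have d2 := e2.wall (t0 / 2) ⟨hpos.le, by linarith⟩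
    have e5 := e4 t0 (hmid t0 ht0)
    rw [hhalf] at e5
    rw [(e5 a).1, (e5 (-a)).1, d1.1, d1.2, d2.1, d2.2, add_zero]
    exact ⟨rfl, rfl⟩
  · intro t _ y _
    rfl
  · -- the bound
    intro t ht
    obtain ⟨Q1, Q1t, Q1y, Q2, Q2t, Q2y, Q2yy, e1, e2, e3, e4⟩ := hloc (t / 2) t (by linarith) ht
    have hs := (e4 (t / 2) (by linarith) (by linarith)).1
    rw [add_halves] at hs
    have h5 := LSqSeries.tSqSeries a ha (fun m => p m t) (sums ha _ hs 0).1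
      ((∫ r in (0 : ℝ)..t, ψ r / Real.sqrt a) ^ 2) ?_
    · rw [hq]
      refine h5.trans ?_
      rw [intervalIntegral.integral_div, div_pow, hsa2]
      exact (mul_div_cancel₀ _ ha.ne').le
    · intro s
      refine le_trans (Finset.sum_le_sum (fun m _ => ?_)) (hint t ht s)
      have h6 : |p m t| ≤ ∫ r in (0 : ℝ)..t, |co a (F r) m| := by
        rw [hp]
        exact (hsc m).2.2.2 t ht
      rw [← sq_abs]
      exact pow_le_pow_left₀ (abs_nonneg _) h6 2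

end Pool.Agent.H309.DP.LSrcDuh
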