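import Pool.Agent.H309.DP.Stm
import Pool.Agent.H309.DF.Step
import Pool.Agent.H309.DF.CoSecond
import Pool.Agent.H309.DF.CoExpand
import Pool.Agent.H309.DF.CoBessel
import Pool.Agent.H309.DF.CoCont
import Pool.Agent.H309.DF.DuFacts
import Pool.Agent.H309.DF.Mink
import Pool.Agent.H309.DF.StepCoef
import Pool.Agent.H309.DF.SeriesCl

/-!
# Leaf DP6 of the project DP (helper945, for helper309): one step of the forced heat equation, with
the formula of the solution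
-/

set_option autoImplicit false

open Set Filter Topology MeasureTheory

namespace Pool.Agent.H309.DP.LStepC

open Pool.Agent.H309.DF Pool.Agent.H309.DF.LStep

theorem tStepC : Pool.Agent.H309.DP.StepC := by
  intro a τ ha hτ f fy fyy hS
  obtain ⟨M, hM, h7⟩ := LStepCoef.tStepCoef LDuFacts.tDuFacts LMink.tMink a τ ha hτ
  obtain ⟨S, hS0, hSb⟩ := bdd hS.c
  obtain ⟨S₂, hS20, hS2b⟩ := bdd hS.cyy
  have hmu : ∀ m, 0 < mu a m ^ 2 := fun m => pow_pos (mu_pos ha m) 2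
  -- the coefficients
  have hF2 : ∀ m, ∀ t ∈ Icc 0 τ, mu a m ^ 2 * co a (f t) m = -co a (fyy t) m := by
    intro m t ht
    exact LCoSecond.tCoSecond a ha (f t) (fy t) (fyy t) (slice hS.c ht) (slice hS.cy ht)
      (slice hS.cyy ht) (hS.dy t ht) (hS.dyy t ht) (hS.wall t ht).1 (hS.wall t ht).2 m
  have hFc : ∀ m, ContinuousOn (fun t => co a (f t) m) (Icc 0 τ) := fun m =>
    (LCoCont.tCoCont a τ S ha hτ hS0 f hS.c hSb m).1
  have hG : ∀ m, ∀ t ∈ Icc 0 τ, |co a (fyy t) m| ≤ 2 * S₂ := fun m =>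
    (LCoCont.tCoCont a τ S₂ ha hτ hS20 fyy hS.cyy hS2b m).2
  have hFb : ∀ m, ∀ t ∈ Icc 0 τ, |co a (f t) m| ≤ 2 * S₂ * (1 / mu a m ^ 2) := by
    intro m t ht
    have e1 : co a (f t) m = -co a (fyy t) m / mu a m ^ 2 := by
      rw [eq_div_iff (hmu m).ne', mul_comm]
      exact hF2 m t ht
    rw [e1, abs_div, abs_neg, abs_of_pos (hmu m), div_eq_mul_one_div]
    exact mul_le_mul_of_nonneg_right (hG m t ht) (by have := hmu m; positivity)
  have hI : ∀ t ∈ Icc 0 τ, ∫ y in (-a)..a, fyy t y ^ 2 ≤ S₂ ^ 2 * (2 * a) := by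
    intro t ht
    have h9 : ‖∫ y in (-a)..a, fyy t y ^ 2‖ ≤ S₂ ^ 2 * |a - -a| := by
      refine intervalIntegral.norm_integral_le_of_norm_le_const fun y hy => ?_
      rw [uIoc_of_le (by linarith : -a ≤ a)] at hy
      rw [Real.norm_eq_abs, abs_pow]
      exact pow_le_pow_left₀ (abs_nonneg _) (hS2b t ht y ⟨hy.1.le, hy.2⟩) 2
    rw [show a - -a = 2 * a by ring, abs_of_pos (by linarith : 0 < 2 * a)] at h9
    exact (le_abs_self _).trans h9
  have hsum : ∀ t ∈ Icc 0 τ, ∀ s : Finset ℕ,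
      ∑ m ∈ s, (mu a m ^ 2 * co a (f t) m) ^ 2 ≤ (2 * S₂ * t ^ 0) ^ 2 := by
    intro t ht s
    have e1 : ∑ m ∈ s, (mu a m ^ 2 * co a (f t) m) ^ 2 = ∑ m ∈ s, co a (fyy t) m ^ 2 := by
      refine Finset.sum_congr rfl fun m _ => ?_
      rw [hF2 m t ht, neg_sq]
    rw [e1]
    refine (LCoBessel.tCoBessel a ha (fyy t) (slice hS.cyy ht) s).trans ?_
    have h9 := mul_le_mul_of_nonneg_left (hI t ht) (by positivity : (0 : ℝ) ≤ 1 / a)
    refine h9.trans ?_
    have e2 : 1 / a * (S₂ ^ 2 * (2 * a)) = 2 * S₂ ^ 2 := by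
      field_simp
    rw [e2, pow_zero, mul_one, mul_pow]
    nlinarith [sq_nonneg S₂]
  obtain ⟨⟨β, hβ, -, hβb⟩, -⟩ := h7 (fun m t => co a (f t) m) 0 (2 * S₂) (by positivity) hFc hsum
  set p : ℕ → ℝ → ℝ := fun m => du (mu a m ^ 2) (fun t => co a (f t) m) with hp
  set p' : ℕ → ℝ → ℝ := fun m t => -(mu a m ^ 2 * p m t) + co a (f t) m with hp'
  have hpc : ∀ m, ContinuousOn (p m) (Icc 0 τ) := fun m =>
    (LDuFacts.tDuFacts (mu a m ^ 2) τ (hmu m) hτ _ (hFc m)).1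
  have hpd : ∀ m, ∀ t ∈ Ioo 0 τ, HasDerivAt (p m) (p' m t) t := fun m =>
    (LDuFacts.tDuFacts (mu a m ^ 2) τ (hmu m) hτ _ (hFc m)).2.1
  have hp'c : ∀ m, ContinuousOn (p' m) (Icc 0 τ) := fun m =>
    ((continuousOn_const.mul (hpc m)).neg).add (hFc m)
  have hβ0 : ∀ m, 0 ≤ β m := fun m =>
    (abs_nonneg _).trans (hβb m 0 ⟨le_refl _, hτ.le⟩)
  have hβ2 : Summable (fun m => β m + 2 * S₂ * (1 / mu a m ^ 2)) :=
    hβ.add ((sum_mu ha).mul_left _)
  have hcl := LSeriesCl.tSeriesCl a τ ha hτ p p' (fun m => β m + 2 * S₂ * (1 / mu a m ^ 2))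
    hβ2 hpc hp'c hpd
    (by
      intro m t ht
      have h9 : 0 ≤ 2 * S₂ * (1 / mu a m ^ 2) := by have := hmu m; positivity
      exact (hβb m t ht).trans (by linarith))
    (by
      intro m t ht
      refine (abs_add_le _ _).trans ?_
      rw [abs_neg]
      exact add_le_add (hβb m t ht) (hFb m t ht))
  refine ⟨hcl, ?_, fun m => β m + 2 * S₂ * (1 / mu a m ^ 2), hβ2, fun m t ht => ⟨?_, ?_⟩⟩
  · -- the equation
    intro t ht y hy
    have hs1 : Summable (fun m => -(mu a m ^ 2 * p m t) * sn a m y) := by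
      refine Summable.of_norm_bounded hβ fun m => ?_
      rw [Real.norm_eq_abs, abs_mul, abs_neg]
      calc |mu a m ^ 2 * p m t| * |sn a m y| ≤ β m * 1 :=
            mul_le_mul (hβb m t ht) (sn_le a m y) (abs_nonneg _) (hβ0 m)
        _ = β m := mul_one _
    have hs2 : Summable (fun m => |co a (f t) m|) :=
      Summable.of_nonneg_of_le (fun m => abs_nonneg _) (fun m => hFb m t ht)
        ((sum_mu ha).mul_left _)
    have hs3 := LCoExpand.tCoExpand a ha (f t) (slice hS.c ht) (hS.wall t ht).1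
      (hS.wall t ht).2 hs2 y hy
    have e1 : ∀ m, (-(mu a m ^ 2 * p m t) + co a (f t) m) * sn a m y =
        -(mu a m ^ 2 * p m t) * sn a m y + co a (f t) m * sn a m y := by
      intro m
      ring
    show ∑' m, (-(mu a m ^ 2 * p m t) + co a (f t) m) * sn a m y =
      ∑' m, -(mu a m ^ 2 * p m t) * sn a m y + f t y
    simp only [e1]
    rw [hs1.tsum_add hs3.summable, hs3.tsum_eq]
  · have h9 : 0 ≤ 2 * S₂ * (1 / mu a m ^ 2) := by have := hmu m; positivity
    exact (hβb m t ht).trans (by linarith)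
  · exact (hFb m t ht).trans (by have := hβ0 m; linarith)

end Pool.Agent.H309.DP.LStepC
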