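import Pool.Agent.H309.DP.Stm
import Pool.Agent.H309.DG.ProdW

/-!
# Project DP of helper309: `SupW` (helper99)
-/

set_option autoImplicit false

open Set Filter Topology MeasureTheory
open scoped ENNReal

namespace Pool.Agent.H309.DP.LSupW

open Pool.Agent.H309.DF Pool.Agent.H309.DG Pool.Agent.H309.DP
open Pool.Agent.H309.DG.LProdW (ft_bound)

namespace LSupW

theorem enorm_sq (x : ℝ) : ‖x‖ₑ ^ 2 = ENNReal.ofReal (x ^ 2) := by
  rw [Real.enorm_eq_ofReal_abs, ← ENNReal.ofReal_pow (abs_nonneg _), sq_abs]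

theorem ii {a : ℝ} (ha : 0 < a) {g : ℝ → ℝ} (hg : ContinuousOn g (Icc (-a) a)) :
    IntervalIntegrable g volume (-a) a := by
  apply ContinuousOn.intervalIntegrable
  rw [uIcc_of_le (by linarith)]
  exact hg

theorem lin {a : ℝ} (ha : 0 < a) {g : ℝ → ℝ} (hg : ContinuousOn g (Icc (-a) a)) :
    ∫⁻ y in Icc (-a) a, ‖g y‖ₑ ^ 2 = ENNReal.ofReal (∫ y in (-a)..a, g y ^ 2) := by
  have h1 : Integrable (fun y => g y ^ 2) (volume.restrict (Icc (-a) a)) :=
    (hg.pow 2).integrableOn_Icc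
  rw [intervalIntegral.integral_of_le (by linarith), ← integral_Icc_eq_integral_Ioc,
    ofReal_integral_eq_lintegral_ofReal h1 (Eventually.of_forall fun y => sq_nonneg _)]
  apply lintegral_congr
  intro y
  exact enorm_sq _

theorem slice {a : ℝ} {f : ℝ → ℝ → ℝ}
    (hf : ContinuousOn (fun z : ℝ × ℝ => f z.1 z.2) (Ioi 0 ×ˢ Icc (-a) a)) {t : ℝ}
    (ht : 0 < t) : ContinuousOn (f t) (Icc (-a) a) := by
  have h1 : ContinuousOn (fun y : ℝ => ((t, y) : ℝ × ℝ)) (Icc (-a) a) := by fun_prop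
  exact hf.comp h1 fun y hy => ⟨ht, hy⟩

/-- integrals with a parameter -/
theorem par {a : ℝ} (ha : 0 < a) {f : ℝ → ℝ → ℝ}
    (hf : ContinuousOn (fun z : ℝ × ℝ => f z.1 z.2) (Ioi 0 ×ˢ Icc (-a) a)) :
    ContinuousOn (fun t => ∫ y in (-a)..a, f t y) (Ioi 0) := by
  intro t₀ ht₀
  have ht₀' : (0 : ℝ) < t₀ := ht₀
  have h1 : Continuous (fun z : ℝ × ℝ => f (max z.1 (t₀ / 2)) (max (-a) (min a z.2))) := by
    have h2 : Continuous (fun z : ℝ × ℝ =>
        ((max z.1 (t₀ / 2), max (-a) (min a z.2)) : ℝ × ℝ)) := by fun_prop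
    refine hf.comp_continuous h2 ?_
    intro z
    refine ⟨?_, ?_, ?_⟩
    · exact lt_of_lt_of_le (by linarith : (0 : ℝ) < t₀ / 2) (le_max_right _ _)
    · exact le_max_left _ _
    · exact max_le (by linarith) (min_le_left _ _)
  have h3 : Continuous (fun t => ∫ y in (-a)..a, f (max t (t₀ / 2)) (max (-a) (min a y))) :=
    intervalIntegral.continuous_parametric_intervalIntegral_of_continuous' h1 (-a) a
  have h4 : (fun t => ∫ y in (-a)..a, f t y) =ᶠ[𝓝 t₀]
      fun t => ∫ y in (-a)..a, f (max t (t₀ / 2)) (max (-a) (min a y)) := by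
    have h5 : ∀ᶠ t in 𝓝 t₀, t₀ / 2 < t := lt_mem_nhds (by linarith)
    filter_upwards [h5] with t ht
    apply intervalIntegral.integral_congr
    intro y hy
    rw [uIcc_of_le (by linarith)] at hy
    show f t y = f (max t (t₀ / 2)) (max (-a) (min a y))
    rw [max_eq_left ht.le, min_eq_right hy.2, max_eq_right hy.1]
  exact ((h3.continuousAt (x := t₀)).congr h4.symm).continuousWithinAt

/-- the pointwise bound -/
theorem pt {a : ℝ} (ha : 0 < a) {f f' : ℝ → ℝ} (hf : ContinuousOn f (Icc (-a) a))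
    (hf' : ContinuousOn f' (Icc (-a) a)) (hd : ∀ y ∈ Ioo (-a) a, HasDerivAt f (f' y) y)
    {y : ℝ} (hy : y ∈ Icc (-a) a) :
    |f y| ≤ (1 + 2 * a) + (1 / (2 * a)) * (∫ s in (-a)..a, f s ^ 2) +
      ∫ s in (-a)..a, f' s ^ 2 := by
  have hle : -a ≤ a := by linarith
  have hx1 : ∀ x : ℝ, |x| ≤ 1 + x ^ 2 := by
    intro x
    rcases abs_cases x with ⟨h, _⟩ | ⟨h, _⟩ <;> rw [h] <;> nlinarith [sq_nonneg (x - 1), sq_nonneg (x + 1)]
  obtain ⟨K, hK⟩ : ∃ K : ℝ, K = ∫ s in (-a)..a, |f' s| := ⟨_, rfl⟩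
  have hK1 : K ≤ 2 * a + ∫ s in (-a)..a, f' s ^ 2 := by
    have h1 : K ≤ ∫ s in (-a)..a, (1 + f' s ^ 2) := by
      rw [hK]
      exact intervalIntegral.integral_mono_on hle (ii ha hf'.abs)
        (intervalIntegrable_const.add (ii ha (hf'.pow 2))) (fun s _ => hx1 _)
    have i2 : IntervalIntegrable (fun s => f' s ^ 2) volume (-a) a := ii ha (hf'.pow 2)
    rw [intervalIntegral.integral_add intervalIntegrable_const i2,
      intervalIntegral.integral_const, smul_eq_mul] at h1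
    linarith
  have h2 : ∫ _s in (-a)..a, |f y| ≤ ∫ s in (-a)..a, ((1 + K) + f s ^ 2) := by
    refine intervalIntegral.integral_mono_on hle intervalIntegrable_const
      (intervalIntegrable_const.add (ii ha (hf.pow 2))) ?_
    intro s hs
    have h3 := ft_bound ha hf hf' hd hs hy
    rw [← hK] at h3
    have h4 := hx1 (f s)
    have h5 : |f y| ≤ |f y - f s| + |f s| := by
      have := abs_add_le (f y - f s) (f s)
      rwa [sub_add_cancel] at this
    linarith
  have i3 : IntervalIntegrable (fun s => f s ^ 2) volume (-a) a := ii ha (hf.pow 2)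
  rw [intervalIntegral.integral_add intervalIntegrable_const i3,
    intervalIntegral.integral_const, intervalIntegral.integral_const, smul_eq_mul,
    smul_eq_mul] at h2
  have h6 : |f y| ≤ (1 + K) + (1 / (2 * a)) * ∫ s in (-a)..a, f s ^ 2 := by
    have h7 : 2 * a * |f y| ≤ 2 * a * ((1 + K) + (1 / (2 * a)) * ∫ s in (-a)..a, f s ^ 2) := by
      have h8 : 2 * a * ((1 + K) + (1 / (2 * a)) * ∫ s in (-a)..a, f s ^ 2) =
          2 * a * (1 + K) + ∫ s in (-a)..a, f s ^ 2 := by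
        field_simp
      rw [h8]
      linarith
    exact le_of_mul_le_mul_left h7 (by linarith)
  linarith

end LSupW

open LSupW

theorem tSupW : Pool.Agent.H309.DP.SupW := by
  intro a ha w wy wyy u hw hu hlim hen
  have sw : ∀ t, 0 < t → ContinuousOn (w t) (Icc (-a) a) := fun t ht => slice hw.c ht
  have swy : ∀ t, 0 < t → ContinuousOn (wy t) (Icc (-a) a) := fun t ht => slice hw.cy ht
  have cA : ContinuousOn (fun t => ∫ y in (-a)..a, w t y ^ 2) (Ioi 0) :=
    par ha (f := fun t y => w t y ^ 2) (hw.c.pow 2)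
  have cB : ContinuousOn (fun t => ∫ y in (-a)..a, wy t y ^ 2) (Ioi 0) :=
    par ha (f := fun t y => wy t y ^ 2) (hw.cy.pow 2)
  have hA0 : ∀ t, 0 ≤ ∫ y in (-a)..a, w t y ^ 2 := fun t =>
    intervalIntegral.integral_nonneg (by linarith) fun _ _ => sq_nonneg _
  have hB0 : ∀ t, 0 ≤ ∫ y in (-a)..a, wy t y ^ 2 := fun t =>
    intervalIntegral.integral_nonneg (by linarith) fun _ _ => sq_nonneg _
  refine ⟨fun t => (1 + 2 * a) + (1 / (2 * a)) * (∫ y in (-a)..a, w t y ^ 2) +
    ∫ y in (-a)..a, wy t y ^ 2, ?_, ?_, ?_⟩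
  · exact (continuousOn_const.add (continuousOn_const.mul cA)).add cB
  · intro t ht y hy
    exact pt ha (sw t ht) (swy t ht) (hw.dy t ht) hy
  · intro T hT
    have hsub : Ioc (0 : ℝ) T ⊆ Ioi 0 := fun t ht => ht.1
    have mA : AEStronglyMeasurable (fun t => ∫ y in (-a)..a, w t y ^ 2)
        (volume.restrict (Ioc 0 T)) := (cA.mono hsub).aestronglyMeasurable measurableSet_Ioc
    have mB : AEStronglyMeasurable (fun t => ∫ y in (-a)..a, wy t y ^ 2)
        (volume.restrict (Ioc 0 T)) := (cB.mono hsub).aestronglyMeasurable measurableSet_Ioc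
    have iB : IntegrableOn (fun t => ∫ y in (-a)..a, wy t y ^ 2) (Ioc 0 T) := by
      refine ⟨mB, ?_⟩
      have h1 : ∫⁻ t in Ioc 0 T, ‖∫ y in (-a)..a, wy t y ^ 2‖ₑ =
          ∫⁻ t in Ioc 0 T, ∫⁻ y in Icc (-a) a, ‖wy t y‖ₑ ^ 2 := by
        apply setLIntegral_congr_fun measurableSet_Ioc
        intro t ht
        show ‖∫ y in (-a)..a, wy t y ^ 2‖ₑ = ∫⁻ y in Icc (-a) a, ‖wy t y‖ₑ ^ 2
        rw [lin ha (swy t ht.1), Real.enorm_eq_ofReal (hB0 t)]
      rw [hasFiniteIntegral_iff_enorm, h1]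
      exact hen T
    have iA : IntegrableOn (fun t => ∫ y in (-a)..a, w t y ^ 2) (Ioc 0 T) := by
      -- near zero
      have e1 := hlim.eventually_lt_const (show (0 : ℝ≥0∞) < 1 by norm_num)
      obtain ⟨δ, hδ, hδ'⟩ := mem_nhdsGT_iff_exists_Ioo_subset.1 e1
      have hδ0 : (0 : ℝ) < δ := hδ
      have hU : ∫⁻ y in Icc (-a) a, ENNReal.ofReal (2 * u y ^ 2) < ⊤ :=
        (hu.integrable_sq.const_mul 2).lintegral_lt_top
      obtain ⟨M, hM⟩ : ∃ M : ℝ≥0∞, M = 2 + ∫⁻ y in Icc (-a) a, ENNReal.ofReal (2 * u y ^ 2) :=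
        ⟨_, rfl⟩
      have hMt : M ≠ ⊤ := by
        rw [hM]
        exact ENNReal.add_ne_top.2 ⟨by norm_num, hU.ne⟩
      have near : ∀ t, 0 < t → t < δ → ∫ y in (-a)..a, w t y ^ 2 ≤ M.toReal := by
        intro t ht1 ht2
        have h1 : ∫⁻ y in Icc (-a) a, ‖w t y - u y‖ₑ ^ 2 < 1 := hδ' ⟨ht1, ht2⟩
        have h2 : ENNReal.ofReal (∫ y in (-a)..a, w t y ^ 2) ≤ M := by
          rw [← lin ha (sw t ht1)]
          have h3 : ∫⁻ y in Icc (-a) a, ‖w t y‖ₑ ^ 2 ≤
              ∫⁻ y in Icc (-a) a, (2 * ‖w t y - u y‖ₑ ^ 2 + ENNReal.ofReal (2 * u y ^ 2)) := by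
            apply lintegral_mono
            intro y
            show ‖w t y‖ₑ ^ 2 ≤ 2 * ‖w t y - u y‖ₑ ^ 2 + ENNReal.ofReal (2 * u y ^ 2)
            rw [enorm_sq, enorm_sq]
            have h4 : (2 : ℝ≥0∞) * ENNReal.ofReal ((w t y - u y) ^ 2) =
                ENNReal.ofReal (2 * (w t y - u y) ^ 2) := by
              rw [ENNReal.ofReal_mul (by norm_num)]
              congr 1
              norm_num
            rw [h4, ← ENNReal.ofReal_add (by positivity) (by positivity)]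
            apply ENNReal.ofReal_le_ofReal
            nlinarith [sq_nonneg (w t y - 2 * u y)]
          refine h3.trans ?_
          have h5 : AEMeasurable (fun y => ENNReal.ofReal (2 * u y ^ 2))
              (volume.restrict (Icc (-a) a)) :=
            ((hu.1.aemeasurable.pow_const 2).const_mul 2).ennreal_ofReal
          rw [lintegral_add_right' _ h5, lintegral_const_mul' _ _ (by norm_num), hM]
          refine add_le_add ?_ le_rfl
          calc (2 : ℝ≥0∞) * ∫⁻ y in Icc (-a) a, ‖w t y - u y‖ₑ ^ 2 ≤ 2 * 1 :=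
                mul_le_mul_right h1.le 2
            _ = 2 := mul_one 2
        exact (ENNReal.ofReal_le_iff_le_toReal hMt).1 h2
      -- far from zero
      obtain ⟨C, hC⟩ := (isCompact_Icc (a := δ) (b := T)).exists_bound_of_continuousOn
        (cA.mono (fun t ht => lt_of_lt_of_le hδ0 ht.1))
      refine Integrable.of_bound mA (max M.toReal C) ?_
      refine (ae_restrict_iff' measurableSet_Ioc).2 (Eventually.of_forall fun t ht => ?_)
      rcases lt_or_ge t δ with h | h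
      · rw [Real.norm_of_nonneg (hA0 t)]
        exact (near t ht.1 h).trans (le_max_left _ _)
      · exact (hC t ⟨h, ht.2⟩).trans (le_max_right _ _)
    have iC : IntegrableOn (fun _ : ℝ => (1 + 2 * a : ℝ)) (Ioc 0 T) :=
      integrable_const _
    exact (iC.add (iA.const_mul _)).add iB

end Pool.Agent.H309.DP.LSupW
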