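import Pool.Agent.H309.DP.MainP
import Pool.Agent.H309.DP.HeatL2
import Pool.Agent.H309.DP.SupW
import Pool.Agent.H309.DP.Scal
import Pool.Agent.H309.DP.Mink1
import Pool.Agent.H309.DP.HeatC
import Pool.Agent.H309.DP.StepC
import Pool.Agent.H309.DP.SrcDuh
import Pool.Agent.H309.DP.EnI
import Pool.Agent.H309.DP.Duh
import Pool.Agent.H309.DP.RPoly
import Pool.Agent.H309.DP.IterG
import Pool.Agent.H309.DP.FamP
import Pool.Agent.H309.DP.DriftP
import Pool.Agent.H309.DP.LimP
import Pool.Agent.H309.DP.Box2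
import Pool.Agent.H309.DP.EnP
import Pool.Agent.H309.DP.LimBox
import Pool.Agent.H309.DP.ChainEx
import Pool.Agent.H309.DP.SumEn
import Pool.Agent.H309.DG.FinT

/-!
# Data polynomial in the spanwise variable are steered to shear trajectories
-/

set_option autoImplicit false

namespace Pool.Agent.H309.DP

open Pool.Agent.H309.DF

theorem step_holds : Pool.Agent.H309.DF.Step :=
  LStep.tStep LCoSecond.tCoSecond LCoExpand.tCoExpand LCoBessel.tCoBessel LSqSeries.tSqSeries
    LCoCont.tCoCont LDuFacts.tDuFacts (LStepCoef.tStepCoef LDuFacts.tDuFacts LMink.tMink)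
    LSeriesCl.tSeriesCl

theorem famP_holds : FamP :=
  LFamP.tFamP (LIterG.tIterG step_holds Pool.Agent.H309.DG.LProdW.tProdW LSupB.tSupB)

theorem driftP_holds : DriftP :=
  LDriftP.tDriftP famP_holds LRPoly.tRPoly LSumCont.tSumCont LSumDer.tSumDer

theorem duh_holds : Duh :=
  LDuh.tDuh (LSrcDuh.tSrcDuh LScal.tScal LMink1.tMink1 LHeatC.tHeatC LStepC.tStepC) LEnI.tEnI

theorem steer_poly : MainP :=
  mainP LHeatL2.tHeatL2 LSupW.tSupW (LChainEx.tChainEx LHeatL2.tHeatL2 duh_holds) driftP_holds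
    LLimP.tLimP (LEnP.tEnP LBox2.tBox2) (LLimBox.tLimBox LBox2.tBox2) LSumEn.tSumEn

end Pool.Agent.H309.DP
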