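import Pool.Agent.H309.DP.Stm3

/-!
# DT1: coefficients of heat polynomials
-/

set_option autoImplicit false

open Set Filter Topology MeasureTheory
open scoped ENNReal

namespace Pool.Agent.H309.DP.LHpF

open Pool.Agent.H309.DP

theorem hp_succ (n m : ℕ) (t : ℝ) :
    hp (n + 1) m t = (m : ℝ) * hp n (m - 1) t + 2 * t * hp n (m + 1) t := by
  simp only [hp]

theorem hp_zero (m : ℕ) (t : ℝ) : hp 0 (m + 1) t = 0 := by
  simp only [hp]

theorem hp_zero_zero (t : ℝ) : hp 0 0 t = 1 := by
  simp only [hp]

theorem hp_deriv : ∀ n m t, HasDerivAt (hp n m) (hp n (m + 2) t) t := by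
  intro n
  induction n with
  | zero =>
    intro m t
    rw [show m + 2 = (m + 1) + 1 by ring, hp_zero]
    cases m with
    | zero =>
      have h : hp 0 0 = fun _ => (1 : ℝ) := by
        funext t
        exact hp_zero_zero t
      rw [h]
      exact hasDerivAt_const t 1
    | succ m =>
      have h : hp 0 (m + 1) = fun _ => (0 : ℝ) := by
        funext t
        exact hp_zero m t
      rw [h]
      exact hasDerivAt_const t 0
  | succ n ih =>
    intro m t
    have h : hp (n + 1) m = fun t => (m : ℝ) * hp n (m - 1) t + 2 * t * hp n (m + 1) t := by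
      funext t
      exact hp_succ n m t
    rw [h, hp_succ]
    have h1 := (ih (m - 1) t).const_mul (m : ℝ)
    have h2 : HasDerivAt (fun t : ℝ => 2 * t) 2 t := by
      simpa using (hasDerivAt_id t).const_mul (2 : ℝ)
    have h3 := h1.add (h2.mul (ih (m + 1) t))
    refine h3.congr_deriv ?_
    have h4 : (m : ℝ) * hp n (m - 1 + 2) t = (m : ℝ) * hp n (m + 1) t := by
      cases m with
      | zero => simp
      | succ m => rfl
    rw [h4, show m + 2 - 1 = m + 1 by omega, show m + 1 + 2 = m + 2 + 1 by ring]
    push_cast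
    ring

theorem hp_big : ∀ n m t, n < m → hp n m t = 0 := by
  intro n
  induction n with
  | zero =>
    intro m t hm
    obtain ⟨k, rfl⟩ : ∃ k, m = k + 1 := ⟨m - 1, by omega⟩
    exact hp_zero k t
  | succ n ih =>
    intro m t hm
    rw [hp_succ, ih (m - 1) t (by omega), ih (m + 1) t (by omega)]
    ring

theorem hp_diag : ∀ n t, hp n n t = (n.factorial : ℝ) := by
  intro n
  induction n with
  | zero =>
    intro t
    rw [hp_zero_zero]
    simp
  | succ n ih =>
    intro t
    rw [hp_succ, Nat.add_sub_cancel, ih, hp_big n (n + 1 + 1) t (by omega), Nat.factorial_succ]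
    push_cast
    ring

theorem hp_init : ∀ n m, m ≠ n → hp n m 0 = 0 := by
  intro n
  induction n with
  | zero =>
    intro m hm
    obtain ⟨k, rfl⟩ : ∃ k, m = k + 1 := ⟨m - 1, by omega⟩
    exact hp_zero k 0
  | succ n ih =>
    intro m hm
    rw [hp_succ]
    cases m with
    | zero => simp
    | succ m =>
      rw [Nat.add_sub_cancel, ih m (by omega)]
      ring

theorem tHpF : Pool.Agent.H309.DP.HpF := by
  refine ⟨hp_deriv, hp_big, hp_diag, hp_init, ?_⟩
  intro n m t z
  have e : ∀ i : ℕ, z ^ i / (i.factorial : ℝ) * hp (n + 1) (i + m) t =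
      (i : ℝ) * (z ^ i / (i.factorial : ℝ)) * hp n (i + m - 1) t +
      (m : ℝ) * (z ^ i / (i.factorial : ℝ) * hp n (i + (m - 1)) t) +
      2 * t * (z ^ i / (i.factorial : ℝ) * hp n (i + (m + 1)) t) := by
    intro i
    rw [hp_succ]
    have h1 : (m : ℝ) * hp n (i + m - 1) t = (m : ℝ) * hp n (i + (m - 1)) t := by
      cases m with
      | zero => simp
      | succ m => rfl
    rw [show i + m + 1 = i + (m + 1) by ring]
    push_cast
    linear_combination (z ^ i / (i.factorial : ℝ)) * h1
  rw [Finset.sum_congr rfl fun i _ => e i, Finset.sum_add_distrib, Finset.sum_add_distrib,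
    ← Finset.mul_sum, ← Finset.mul_sum]
  congr 1
  · congr 1
    · rw [Finset.sum_range_succ', Finset.mul_sum]
      simp only [Nat.cast_zero, zero_mul, add_zero]
      apply Finset.sum_congr rfl
      intro i _
      rw [show i + 1 + m - 1 = i + m by omega, Nat.factorial_succ, pow_succ]
      have h1 : (i.factorial : ℝ) ≠ 0 := by positivity
      have h2 : ((i : ℝ) + 1) ≠ 0 := by positivity
      push_cast
      field_simp
    · rw [Finset.sum_range_succ]
      cases m with
      | zero => simp
      | succ m =>
        rw [hp_big n (n + 1 + (m + 1 - 1)) t (by omega)]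
        ring
  · rw [Finset.sum_range_succ, hp_big n (n + 1 + (m + 1)) t (by omega)]
    ring

end Pool.Agent.H309.DP.LHpF
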