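import Pool.Agent.H309.DP.Stm3

/-! DT8: the field of a polynomial solution is classical. -/

set_option autoImplicit false

open Set Filter Topology MeasureTheory
open scoped ENNReal

namespace Pool.Agent.H309.DP.LPolyField

open Pool.Agent.H309.DP

namespace PolyFieldL

lemma contS {a b : ℝ} {n : ℕ} (g : ℕ → ℝ → ℝ → ℝ)
    (hg : ∀ i, i ≤ n → ContinuousOn (fun z : ℝ × ℝ => g i z.1 z.2) (Ioi 0 ×ˢ Icc (-a) a)) :
    ContinuousOn (fun x : ℝ × ℝ × ℝ => ∑ i ∈ Finset.range (n + 1), x.2.2 ^ i * g i x.1 x.2.1)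
      (Ioi 0 ×ˢ (Icc (-a) a ×ˢ Icc (-b) b)) := by
  refine continuousOn_finsetSum _ fun i hi => ?_
  have hi' : i ≤ n := Nat.lt_succ_iff.1 (Finset.mem_range.1 hi)
  have h1 : Continuous fun x : ℝ × ℝ × ℝ => x.2.2 ^ i := by fun_prop
  have h2 : Continuous fun x : ℝ × ℝ × ℝ => (x.1, x.2.1) := by fun_prop
  refine h1.continuousOn.mul ?_
  exact (hg i hi').comp h2.continuousOn (fun x hx => ⟨hx.1, hx.2.1⟩)

lemma derS {n : ℕ} (C : ℕ → ℝ) (hC : ∀ i, n < i → C i = 0) (z : ℝ) :
    HasDerivAt (fun s : ℝ => ∑ i ∈ Finset.range (n + 1), s ^ i * C i)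
      (∑ i ∈ Finset.range (n + 1), z ^ i * (((i : ℝ) + 1) * C (i + 1))) z := by
  have h1 : HasDerivAt (fun s : ℝ => ∑ i ∈ Finset.range (n + 1), s ^ i * C i)
      (∑ i ∈ Finset.range (n + 1), ((i : ℝ) * z ^ (i - 1)) * C i) z := by
    refine HasDerivAt.fun_sum fun i _ => ?_
    exact (hasDerivAt_pow i z).mul_const (C i)
  have h2 : ∑ i ∈ Finset.range (n + 1), ((i : ℝ) * z ^ (i - 1)) * C i =
      ∑ i ∈ Finset.range (n + 1), z ^ i * (((i : ℝ) + 1) * C (i + 1)) := by
    rw [Finset.sum_range_succ', Finset.sum_range_succ, hC (n + 1) (Nat.lt_succ_self n)]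
    simp only [Nat.cast_zero, zero_mul, mul_zero, add_zero]
    refine Finset.sum_congr rfl fun i _ => ?_
    rw [Nat.add_sub_cancel]
    push_cast
    ring
  rw [← h2]
  exact h1

end PolyFieldL

open PolyFieldL in
/-- DT8 POLYFIELD -/
theorem tPolyField : Pool.Agent.H309.DP.PolyField := by
  intro a b n ha hb w P c ct cy cyy hP
  have hc : ∀ i, ContinuousOn (fun z : ℝ × ℝ => c i z.1 z.2) (Ioi 0 ×ˢ Icc (-a) a) := by
    intro i
    rcases Nat.lt_or_ge n i with h | h
    · have e : (fun z : ℝ × ℝ => c i z.1 z.2) = fun _ => 0 := by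
        funext z
        exact hP.van i h _ _
      rw [e]
      exact continuousOn_const
    · exact (hP.fl i h).cl.c
  have hr : ∀ i, i ∈ Finset.range (n + 1) → i ≤ n := fun i hi =>
    Nat.lt_succ_iff.1 (Finset.mem_range.1 hi)
  refine ⟨fun t y z => ∑ i ∈ Finset.range (n + 1), z ^ i * c i t y,
    fun t y z => ∑ i ∈ Finset.range (n + 1), z ^ i * ct i t y,
    fun t y z => ∑ i ∈ Finset.range (n + 1), z ^ i * cy i t y,
    fun t y z => ∑ i ∈ Finset.range (n + 1), z ^ i * cyy i t y,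
    fun t y z => ∑ i ∈ Finset.range (n + 1), z ^ i * (((i : ℝ) + 1) * c (i + 1) t y),
    fun t y z => ∑ i ∈ Finset.range (n + 1), z ^ i *
      (((i : ℝ) + 1) * ((((i + 1 : ℕ) : ℝ) + 1) * c (i + 1 + 1) t y)),
    fun _ _ _ => rfl, fun _ _ _ => rfl, ?_, ?_, ?_, ?_, ?_, ?_, ?_, ?_⟩
  · intro F hF
    simp only [List.mem_cons, List.not_mem_nil, or_false] at hF
    rcases hF with rfl | rfl | rfl | rfl | rfl | rfl
    · exact contS c fun i _ => hc i
    · exact contS ct fun i hi => (hP.fl i hi).cl.ct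
    · exact contS cy fun i hi => (hP.fl i hi).cl.cy
    · exact contS cyy fun i hi => (hP.fl i hi).cl.cyy
    · exact contS (fun i t y => ((i : ℝ) + 1) * c (i + 1) t y) fun i _ =>
        continuousOn_const.mul (hc (i + 1))
    · exact contS (fun i t y => ((i : ℝ) + 1) * ((((i + 1 : ℕ) : ℝ) + 1) * c (i + 1 + 1) t y))
        fun i _ => continuousOn_const.mul (continuousOn_const.mul (hc (i + 1 + 1)))
  · intro t ht y hy z
    exact HasDerivAt.fun_sum fun i hi => ((hP.fl i (hr i hi)).cl.dt t ht y hy).const_mul (z ^ i)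
  · intro t ht y hy z
    exact HasDerivAt.fun_sum fun i hi => ((hP.fl i (hr i hi)).cl.dy t ht y hy).const_mul (z ^ i)
  · intro t ht y hy z
    exact HasDerivAt.fun_sum fun i hi => ((hP.fl i (hr i hi)).cl.dyy t ht y hy).const_mul (z ^ i)
  · intro t y z
    exact derS (fun i => c i t y) (fun i hi => hP.van i hi t y) z
  · intro t y z
    exact derS (fun i => ((i : ℝ) + 1) * c (i + 1) t y) (fun i hi => by
      rw [hP.van (i + 1) (by omega) t y, mul_zero]) z
  · intro t ht y hy z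
    show ∑ i ∈ Finset.range (n + 1), z ^ i * ct i t y +
      w t y * ∑ i ∈ Finset.range (n + 1), z ^ i * (((i : ℝ) + 1) * c (i + 1) t y) =
      ∑ i ∈ Finset.range (n + 1), z ^ i * cyy i t y + ∑ i ∈ Finset.range (n + 1), z ^ i *
      (((i : ℝ) + 1) * ((((i + 1 : ℕ) : ℝ) + 1) * c (i + 1 + 1) t y))
    rw [Finset.mul_sum, ← Finset.sum_add_distrib, ← Finset.sum_add_distrib]
    refine Finset.sum_congr rfl fun i hi => ?_
    have h1 := (hP.fl i (hr i hi)).cl.eq t ht y hy
    rw [h1]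
    push_cast
    ring
  · intro t ht z
    constructor
    · exact Finset.sum_eq_zero fun i hi => by
        rw [((hP.fl i (hr i hi)).cl.wall t ht).1, mul_zero]
    · exact Finset.sum_eq_zero fun i hi => by
        rw [((hP.fl i (hr i hi)).cl.wall t ht).2, mul_zero]

end Pool.Agent.H309.DP.LPolyField
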