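import Pool.Agent.H309.DP.Stm3
import Pool.Agent.H309.DP.SumEn
import Pool.Agent.H309.DF.LimAdd

set_option autoImplicit false

/-! Task PolySum of helper309 (DT7). -/

open Set Filter Topology MeasureTheory
open scoped ENNReal

namespace Pool.Agent.H309.DP.LPolySum

open Pool.Agent.Q61.NC Pool.Agent.H309.DF Pool.Agent.H309.DG Pool.Agent.H309.DP

theorem zeroFlow (a : ℝ) : SFlow a (fun _ => 0) (fun _ _ => 0) (fun _ _ => 0) (fun _ _ => 0)
    (fun _ _ => 0) (fun _ _ => 0) := by
  refine ⟨⟨continuousOn_const, continuousOn_const, continuousOn_const, continuousOn_const,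
    fun t _ y _ => hasDerivAt_const t 0, fun t _ y _ => hasDerivAt_const y 0,
    fun t _ y _ => hasDerivAt_const y 0, fun t _ => ⟨rfl, rfl⟩, fun t _ y _ => by simp⟩, ?_, ?_⟩
  · simp
  · intro T
    simp

theorem addFlow {a : ℝ} (ha : 0 < a) {f g : ℝ → ℝ} {F G q r qt rt qy ry qyy ryy : ℝ → ℝ → ℝ}
    (hf : AEMeasurable f (volume.restrict (Icc (-a) a)))
    (h1 : SFlow a f F q qt qy qyy) (h2 : SFlow a g G r rt ry ryy) :
    SFlow a (fun y => f y + g y) (fun t y => F t y + G t y) (fun t y => q t y + r t y)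
      (fun t y => qt t y + rt t y) (fun t y => qy t y + ry t y) (fun t y => qyy t y + ryy t y) := by
  refine ⟨⟨h1.cl.c.add h2.cl.c, h1.cl.ct.add h2.cl.ct, h1.cl.cy.add h2.cl.cy,
    h1.cl.cyy.add h2.cl.cyy,
    fun t ht y hy => (h1.cl.dt t ht y hy).add (h2.cl.dt t ht y hy),
    fun t ht y hy => (h1.cl.dy t ht y hy).add (h2.cl.dy t ht y hy),
    fun t ht y hy => (h1.cl.dyy t ht y hy).add (h2.cl.dyy t ht y hy),
    fun t ht => ⟨?_, ?_⟩, fun t ht y hy => ?_⟩, ?_, ?_⟩
  · simp only [(h1.cl.wall t ht).1, (h2.cl.wall t ht).1, add_zero]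
  · simp only [(h1.cl.wall t ht).2, (h2.cl.wall t ht).2, add_zero]
  · have e1 := h1.cl.eq t ht y hy
    have e2 := h2.cl.eq t ht y hy
    rw [e1, e2]
    ring
  · have hlim : Tendsto (fun t : ℝ => 2 * (∫⁻ y in Icc (-a) a, ‖q t y - f y‖ₑ ^ 2) +
        2 * (∫⁻ y in Icc (-a) a, ‖r t y - g y‖ₑ ^ 2)) (𝓝[>] 0) (𝓝 0) := by
      have h5 := (ENNReal.Tendsto.const_mul h1.lim (Or.inr (by norm_num : (2 : ℝ≥0∞) ≠ ⊤))).add
        (ENNReal.Tendsto.const_mul h2.lim (Or.inr (by norm_num : (2 : ℝ≥0∞) ≠ ⊤)))
      simpa using h5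
    refine tendsto_of_tendsto_of_tendsto_of_le_of_le' tendsto_const_nhds hlim
      (Eventually.of_forall fun _ => bot_le) ?_
    filter_upwards [self_mem_nhdsWithin] with t ht
    have hm : AEMeasurable (fun y => 2 * ‖q t y - f y‖ₑ ^ 2) (volume.restrict (Icc (-a) a)) := by
      have hc : ContinuousOn (fun y => q t y) (Icc (-a) a) :=
        h1.cl.c.comp (f := fun y : ℝ => ((t, y) : ℝ × ℝ)) (by fun_prop) fun y hy => ⟨ht, hy⟩
      exact ((((hc.aemeasurable measurableSet_Icc).sub hf).enorm).pow_const 2).const_mul 2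
    calc ∫⁻ y in Icc (-a) a, ‖(q t y + r t y) - (f y + g y)‖ₑ ^ 2
        ≤ ∫⁻ y in Icc (-a) a, (2 * ‖q t y - f y‖ₑ ^ 2 + 2 * ‖r t y - g y‖ₑ ^ 2) := by
          refine lintegral_mono fun y => ?_
          have e : q t y + r t y - (f y + g y) = (q t y - f y) + (r t y - g y) := by ring
          show ‖q t y + r t y - (f y + g y)‖ₑ ^ 2 ≤ _
          rw [e]
          exact LLimAdd.two _ _
      _ = (∫⁻ y in Icc (-a) a, 2 * ‖q t y - f y‖ₑ ^ 2) +
            ∫⁻ y in Icc (-a) a, 2 * ‖r t y - g y‖ₑ ^ 2 := lintegral_add_left' hm _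
      _ = _ := by
          rw [lintegral_const_mul' _ _ (by norm_num), lintegral_const_mul' _ _ (by norm_num)]
  · exact LSumEn.tSumEn a ha qy ry h1.cl.cy h2.cl.cy h1.en h2.en

theorem sumFlow {a : ℝ} (ha : 0 < a) (f : ℕ → ℝ → ℝ) (F q qt qy qyy : ℕ → ℝ → ℝ → ℝ)
    (S : Finset ℕ) (hf : ∀ k ∈ S, AEMeasurable (f k) (volume.restrict (Icc (-a) a)))
    (h : ∀ k ∈ S, SFlow a (f k) (F k) (q k) (qt k) (qy k) (qyy k)) :
    SFlow a (fun y => ∑ k ∈ S, f k y) (fun t y => ∑ k ∈ S, F k t y) (fun t y => ∑ k ∈ S, q k t y)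
      (fun t y => ∑ k ∈ S, qt k t y) (fun t y => ∑ k ∈ S, qy k t y)
      (fun t y => ∑ k ∈ S, qyy k t y) := by
  classical
  induction S using Finset.induction_on with
  | empty =>
    simp only [Finset.sum_empty]
    exact zeroFlow a
  | insert k S hk ih =>
    simp only [Finset.sum_insert hk]
    exact addFlow ha (hf k (Finset.mem_insert_self _ _)) (h k (Finset.mem_insert_self _ _))
      (ih (fun j hj => hf j (Finset.mem_insert_of_mem hj))
        (fun j hj => h j (Finset.mem_insert_of_mem hj)))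

/-- **PolySum** -/
theorem tPolySum : Pool.Agent.H309.DP.PolySum := by
  intro a n ha w P c ct cy cyy hP hc
  refine ⟨fun i t y => ∑ k ∈ Finset.range (n + 1), if i ≤ k then ct k i t y else 0,
    fun i t y => ∑ k ∈ Finset.range (n + 1), if i ≤ k then cy k i t y else 0,
    fun i t y => ∑ k ∈ Finset.range (n + 1), if i ≤ k then cyy k i t y else 0, ?_, ?_⟩
  · intro i hi
    have hflow : ∀ k ∈ Finset.range (n + 1),
        SFlow a (if i = k then P k else fun _ => 0)
          (fun t y => ((i : ℝ) + 1) * ((i : ℝ) + 2) * c k (i + 2) t y -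
            ((i : ℝ) + 1) * (w t y * c k (i + 1) t y)) (c k i)
          (fun t y => if i ≤ k then ct k i t y else 0)
          (fun t y => if i ≤ k then cy k i t y else 0)
          (fun t y => if i ≤ k then cyy k i t y else 0) := by
      intro k hk
      have hk' : k ≤ n := Nat.lt_succ_iff.1 (Finset.mem_range.1 hk)
      have h1 := hc k hk'
      by_cases hik : i ≤ k
      · simp only [hik, if_true]
        exact h1.fl i hik
      · have hik' : k < i := not_le.1 hik
        have e0 : c k i = fun _ _ => 0 := by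
          funext t y
          exact h1.van i hik' t y
        have e1 : c k (i + 1) = fun _ _ => 0 := by
          funext t y
          exact h1.van (i + 1) (by omega) t y
        have e2 : c k (i + 2) = fun _ _ => 0 := by
          funext t y
          exact h1.van (i + 2) (by omega) t y
        have e3 : (if i = k then P k else fun _ => 0) = fun _ => 0 := if_neg (by omega)
        rw [e0, e1, e2, e3]
        simp only [hik, if_false, mul_zero, sub_zero]
        exact zeroFlow a
    have hm : ∀ k ∈ Finset.range (n + 1), AEMeasurable (if i = k then P k else fun _ => 0)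
        (volume.restrict (Icc (-a) a)) := by
      intro k _
      by_cases hik : i = k
      · rw [if_pos hik]
        exact (hP k).1.aemeasurable
      · rw [if_neg hik]
        exact aemeasurable_const
    have h2 := sumFlow ha (fun k => if i = k then P k else fun _ => 0)
      (fun k t y => ((i : ℝ) + 1) * ((i : ℝ) + 2) * c k (i + 2) t y -
            ((i : ℝ) + 1) * (w t y * c k (i + 1) t y)) (fun k => c k i)
      (fun k t y => if i ≤ k then ct k i t y else 0)
      (fun k t y => if i ≤ k then cy k i t y else 0)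
      (fun k t y => if i ≤ k then cyy k i t y else 0) (Finset.range (n + 1)) hm hflow
    have e1 : (fun y => ∑ k ∈ Finset.range (n + 1), (if i = k then P k else fun _ => 0) y) =
        P i := by
      funext y
      rw [Finset.sum_eq_single i]
      · rw [if_pos rfl]
      · intro k _ hk
        rw [if_neg (Ne.symm hk)]
      · intro hni
        exact absurd (Finset.mem_range.2 (Nat.lt_succ_iff.2 hi)) hni
    have e2 : (fun (t y : ℝ) => ∑ k ∈ Finset.range (n + 1),
          (((i : ℝ) + 1) * ((i : ℝ) + 2) * c k (i + 2) t y -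
            ((i : ℝ) + 1) * (w t y * c k (i + 1) t y))) =
        fun t y => ((i : ℝ) + 1) * ((i : ℝ) + 2) *
            (∑ k ∈ Finset.range (n + 1), c k (i + 2) t y) -
          ((i : ℝ) + 1) * (w t y * ∑ k ∈ Finset.range (n + 1), c k (i + 1) t y) := by
      funext t y
      rw [Finset.sum_sub_distrib, Finset.mul_sum, Finset.mul_sum, Finset.mul_sum]
    rw [e1, e2] at h2
    exact h2
  · intro i hi t y
    refine Finset.sum_eq_zero fun k hk => ?_
    have hk' : k ≤ n := Nat.lt_succ_iff.1 (Finset.mem_range.1 hk)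
    exact (hc k hk').van i (by omega) t y

end Pool.Agent.H309.DP.LPolySum
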