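import Pool.Agent.H309.DP.Stm3
import Pool.Agent.H309.DP.RPoly

/-!
# Switches starting at heat polynomials, with the formula (project DT of helper309, DT2), by helper977
-/

set_option autoImplicit false

open Set Filter Topology

namespace Pool.Agent.H309.DP.LRPoly2

open Pool.Agent.H309.DF Pool.Agent.H309.DP

theorem tRPoly2 (h1 : HpF) : Pool.Agent.H309.DP.RPoly2 := by
  intro n
  induction n with
  | zero =>
    intro b T ε hb hT hε
    obtain ⟨R, hR⟩ := LRPoly.base b T ε hb hT hε
    refine ⟨R, hR, fun j t z h0 ht => ?_⟩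
    rw [Finset.sum_range_one]
    rcases j with _ | j
    · rw [hR.top t z h0 ht, h1.2.2.1 0 t]
      simp
    · rw [hR.van (j + 1) t z (by omega) h0 ht, h1.2.1 0 (0 + (j + 1)) t (by omega), mul_zero]
  | succ n ih =>
    intro b T ε hb hT hε
    obtain ⟨R, hR, hf⟩ := ih b T (ε / 2) hb hT (by positivity)
    refine ⟨LRPoly.Sf R, LRPoly.step n b T ε hb hT hε hR, fun j t z h0 ht => ?_⟩
    unfold LRPoly.Sf
    rw [h1.2.2.2.2 n j t z, hf j t z h0 ht, hf (j - 1) t z h0 ht, hf (j + 1) t z h0 ht]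

end Pool.Agent.H309.DP.LRPoly2
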