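import Pool.Agent.H309.DP.Stm3

/-!
# Task DT9: switch (helper340, subtask of helper309)
-/

set_option autoImplicit false

open Set Filter Topology MeasureTheory
open scoped ENNReal

namespace Pool.Agent.H309.DP.LSwOn

open Pool.Agent.H309.DP Pool.Agent.Q61.NC Pool.Agent.H309.DF Pool.Agent.H309.DG

theorem zero_ext {g g' : ℝ → ℝ} {a : ℝ} (ha : 0 < a) (hg : ∀ y ∈ Icc (-a) a, g y = 0)
    (hd : ∀ y ∈ Ioo (-a) a, HasDerivAt g (g' y) y) (hc : ContinuousOn g' (Icc (-a) a)) :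
    ∀ y ∈ Icc (-a) a, g' y = 0 := by
  have h1 : EqOn g' (fun _ => 0) (Ioo (-a) a) := by
    intro y hy
    have h2 : HasDerivAt g 0 y := by
      have h3 : g =ᶠ[𝓝 y] fun _ => (0 : ℝ) := by
        filter_upwards [Ioo_mem_nhds hy.1 hy.2] with s hs
        exact hg s (Ioo_subset_Icc_self hs)
      exact (hasDerivAt_const y (0 : ℝ)).congr_of_eventuallyEq h3
    exact (hd y hy).unique h2
  have h4 : EqOn g' (fun _ => 0) (Icc (-a) a) := by
    refine h1.of_subset_closure hc continuousOn_const Ioo_subset_Icc_self ?_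
    rw [closure_Ioo (by linarith)]
  exact fun y hy => h4 hy

theorem tSwOn (h1 : ChainEx) (h2 : DriftP2) (h3 : Coef) (h4 : PolySum) (h5 : UniPoly)
    (h6 : PolyField) : Pool.Agent.H309.DP.SwOn := by
  intro a b T n ha hb hT w wy wyy hw hD P c ct cy cyy hP hPT
  have hch : ∀ k, ∃ q qt qy qyy : ℕ → ℝ → ℝ → ℝ, Chain a k (P k) w q qt qy qyy := fun k =>
    h1 a ha w wy wyy hw hD (P k) (hP k) k
  choose q qt qy qyy hq using hch
  have hAex : ∀ k, ∃ (ε : ℝ) (R : ℕ → ℝ → ℝ → ℝ) (A At Ay Ayy Az Azz : ℝ → ℝ → ℝ → ℝ), 0 < ε ∧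
      RFamP k b T ε R ∧ (∀ j t z, 0 < t → t ≤ T / 2 →
        R j t z = ∑ i ∈ Finset.range (k + 1), z ^ i / (i.factorial : ℝ) * hp k (i + j) t) ∧
      PDrift a b T k w (q k) (qy k) R A At Ay Ayy Az Azz := fun k =>
    h2 a b T k ha hb hT w wy wyy hw (P k) (q k) (qt k) (qy k) (qyy k) (hq k)
  choose εA RA A At Ay Ayy Az Azz hεA hRA hRf hA using hAex
  have hC : ∀ k, ∃ c' ct' cy' cyy' : ℕ → ℝ → ℝ → ℝ,
      PolyT a k w (fun i => if i = k then P k else fun _ => 0) c' ct' cy' cyy' ∧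
      ∀ i t y, c' i t y =
        ∑ j ∈ Finset.range (k + 1), q k j t y * (hp k (i + j) t / (i.factorial : ℝ)) := fun k =>
    h3 a k ha w (P k) (q k) (qt k) (qy k) (qyy k) (hP k) (hq k)
  choose c' ct' cy' cyy' hc' hcf using hC
  obtain ⟨ct2, cy2, cyy2, hsum⟩ := h4 a n ha w P c' ct' cy' cyy' hP (fun k _ => hc' k)
  have huni := h5 a n ha w P c ct cy cyy _ ct2 cy2 cyy2 hP hPT hsum
  obtain ⟨F, Ft, Fy, Fyy, Fz, Fzz, hF, hFz, hFc, dFt, dFy, dFyy, dFz, dFzz, hpde, hwall⟩ :=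
    h6 a b n ha hb w P c ct cy cyy hPT
  -- the value at early times
  have hearly : ∀ t, 0 < t → t ≤ T / 2 → ∀ y ∈ Icc (-a) a, ∀ z ∈ Icc (-b) b,
      F t y z - ∑ k ∈ Finset.range (n + 1), A k t y z = 0 := by
    intro t ht htT y hy z hz
    rw [hF, sub_eq_zero]
    have e1 : ∑ i ∈ Finset.range (n + 1), z ^ i * c i t y =
        ∑ k ∈ Finset.range (n + 1), ∑ i ∈ Finset.range (n + 1), z ^ i * c' k i t y := by
      rw [Finset.sum_comm]
      refine Finset.sum_congr rfl fun i _ => ?_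
      rw [huni i t ht y hy, Finset.mul_sum]
    rw [e1]
    refine Finset.sum_congr rfl fun k hk => ?_
    have hkn : k < n + 1 := Finset.mem_range.1 hk
    have e2 : ∑ i ∈ Finset.range (n + 1), z ^ i * c' k i t y =
        ∑ i ∈ Finset.range (k + 1), z ^ i * c' k i t y := by
      symm
      refine Finset.sum_subset (Finset.range_subset_range.2 (by omega)) ?_
      intro i _ hi
      have h7 : k < i := by
        rw [Finset.mem_range] at hi
        omega
      rw [(hc' k).van i h7 t y, mul_zero]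
    rw [e2, ((hA k).early t ht htT y hy z hz).1]
    have e3 : ∀ i ∈ Finset.range (k + 1), z ^ i * c' k i t y =
        ∑ j ∈ Finset.range (k + 1), q k j t y * (z ^ i / (i.factorial : ℝ) * hp k (i + j) t) := by
      intro i _
      rw [hcf, Finset.mul_sum]
      refine Finset.sum_congr rfl fun j _ => ?_
      ring
    rw [Finset.sum_congr rfl e3, Finset.sum_comm]
    refine Finset.sum_congr rfl fun j _ => ?_
    rw [hRf k j t z ht htT, Finset.mul_sum]
  have cF : ContinuousOn (fun x : ℝ × ℝ × ℝ => F x.1 x.2.1 x.2.2 -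
      ∑ k ∈ Finset.range (n + 1), A k x.1 x.2.1 x.2.2) (Ioi 0 ×ˢ (Icc (-a) a ×ˢ Icc (-b) b)) :=
    (hFc F (by simp)).sub (continuousOn_finsetSum _ fun k _ => (hA k).c)
  have cFt : ContinuousOn (fun x : ℝ × ℝ × ℝ => Ft x.1 x.2.1 x.2.2 -
      ∑ k ∈ Finset.range (n + 1), At k x.1 x.2.1 x.2.2) (Ioi 0 ×ˢ (Icc (-a) a ×ˢ Icc (-b) b)) :=
    (hFc Ft (by simp)).sub (continuousOn_finsetSum _ fun k _ => (hA k).ct)
  have cFy : ContinuousOn (fun x : ℝ × ℝ × ℝ => Fy x.1 x.2.1 x.2.2 -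
      ∑ k ∈ Finset.range (n + 1), Ay k x.1 x.2.1 x.2.2) (Ioi 0 ×ˢ (Icc (-a) a ×ˢ Icc (-b) b)) :=
    (hFc Fy (by simp)).sub (continuousOn_finsetSum _ fun k _ => (hA k).cy)
  have cFyy : ContinuousOn (fun x : ℝ × ℝ × ℝ => Fyy x.1 x.2.1 x.2.2 -
      ∑ k ∈ Finset.range (n + 1), Ayy k x.1 x.2.1 x.2.2) (Ioi 0 ×ˢ (Icc (-a) a ×ˢ Icc (-b) b)) :=
    (hFc Fyy (by simp)).sub (continuousOn_finsetSum _ fun k _ => (hA k).cyy)
  have cFz : ContinuousOn (fun x : ℝ × ℝ × ℝ => Fz x.1 x.2.1 x.2.2 -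
      ∑ k ∈ Finset.range (n + 1), Az k x.1 x.2.1 x.2.2) (Ioi 0 ×ˢ (Icc (-a) a ×ˢ Icc (-b) b)) :=
    (hFc Fz (by simp)).sub (continuousOn_finsetSum _ fun k _ => (hA k).cz)
  have cFzz : ContinuousOn (fun x : ℝ × ℝ × ℝ => Fzz x.1 x.2.1 x.2.2 -
      ∑ k ∈ Finset.range (n + 1), Azz k x.1 x.2.1 x.2.2) (Ioi 0 ×ˢ (Icc (-a) a ×ˢ Icc (-b) b)) :=
    (hFc Fzz (by simp)).sub (continuousOn_finsetSum _ fun k _ => (hA k).czz)
  have hdy : ∀ t, 0 < t → ∀ y ∈ Ioo (-a) a, ∀ z ∈ Icc (-b) b,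
      HasDerivAt (fun s => F t s z - ∑ k ∈ Finset.range (n + 1), A k t s z)
        (Fy t y z - ∑ k ∈ Finset.range (n + 1), Ay k t y z) y := fun t ht y hy z hz =>
    (dFy t ht y hy z).sub (HasDerivAt.fun_sum fun k _ => (hA k).dy t ht y hy z hz)
  have hdz : ∀ t, 0 < t → ∀ y ∈ Icc (-a) a, ∀ z ∈ Ioo (-b) b,
      HasDerivAt (fun s => F t y s - ∑ k ∈ Finset.range (n + 1), A k t y s)
        (Fz t y z - ∑ k ∈ Finset.range (n + 1), Az k t y z) z := fun t ht y hy z hz =>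
    (dFz t y z).sub (HasDerivAt.fun_sum fun k _ => (hA k).dz t ht y hy z hz)
  refine ⟨fun t y z => F t y z - ∑ k ∈ Finset.range (n + 1), A k t y z,
    fun t y z => Ft t y z - ∑ k ∈ Finset.range (n + 1), At k t y z,
    fun t y z => Fy t y z - ∑ k ∈ Finset.range (n + 1), Ay k t y z,
    fun t y z => Fyy t y z - ∑ k ∈ Finset.range (n + 1), Ayy k t y z,
    fun t y z => Fz t y z - ∑ k ∈ Finset.range (n + 1), Az k t y z,
    fun t y z => Fzz t y z - ∑ k ∈ Finset.range (n + 1), Azz k t y z,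
    { c := cF, ct := cFt, cy := cFy, cyy := cFyy, cz := cFz, czz := cFzz,
      dt := ?_, dy := hdy, dyy := ?_, dz := hdz, dzz := ?_, pde := ?_, wall := ?_,
      early := ?_, late := ?_ }⟩
  · intro t ht y hy z hz
    exact (dFt t ht y hy z).sub (HasDerivAt.fun_sum fun k _ => (hA k).dt t ht y hy z hz)
  · intro t ht y hy z hz
    exact (dFyy t ht y hy z).sub (HasDerivAt.fun_sum fun k _ => (hA k).dyy t ht y hy z hz)
  · intro t ht y hy z hz
    exact (dFzz t y z).sub (HasDerivAt.fun_sum fun k _ => (hA k).dzz t ht y hy z hz)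
  · intro t ht y hy z hz
    have e1 := hpde t ht y hy z
    have e2 : ∑ k ∈ Finset.range (n + 1), At k t y z +
        w t y * ∑ k ∈ Finset.range (n + 1), Az k t y z =
        ∑ k ∈ Finset.range (n + 1), Ayy k t y z + ∑ k ∈ Finset.range (n + 1), Azz k t y z := by
      rw [Finset.mul_sum, ← Finset.sum_add_distrib, ← Finset.sum_add_distrib]
      exact Finset.sum_congr rfl fun k _ => (hA k).pde t ht y hy z hz
    linear_combination e1 - e2
  · intro t ht z hz
    obtain ⟨e1, e2⟩ := hwall t ht z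
    have e3 : ∑ k ∈ Finset.range (n + 1), A k t a z = 0 :=
      Finset.sum_eq_zero fun k _ => ((hA k).wall t ht z hz).1
    have e4 : ∑ k ∈ Finset.range (n + 1), A k t (-a) z = 0 :=
      Finset.sum_eq_zero fun k _ => ((hA k).wall t ht z hz).2
    simp only [e1, e2, e3, e4, sub_zero, and_self]
  · intro t ht htT y hy z hz
    refine ⟨hearly t ht htT y hy z hz, ?_, ?_⟩
    · have hc : ContinuousOn (fun s => Fy t s z - ∑ k ∈ Finset.range (n + 1), Ay k t s z)
          (Icc (-a) a) := by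
        have e1 : Continuous fun s : ℝ => ((t, s, z) : ℝ × ℝ × ℝ) := by fun_prop
        exact cFy.comp (t := Ioi 0 ×ˢ (Icc (-a) a ×ˢ Icc (-b) b)) e1.continuousOn
          fun s hs => ⟨ht, hs, hz⟩
      exact zero_ext ha (fun s hs => hearly t ht htT s hs z hz)
        (fun s hs => hdy t ht s hs z hz) hc y hy
    · have hc : ContinuousOn (fun s => Fz t y s - ∑ k ∈ Finset.range (n + 1), Az k t y s)
          (Icc (-b) b) := by
        have e1 : Continuous fun s : ℝ => ((t, y, s) : ℝ × ℝ × ℝ) := by fun_prop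
        exact cFz.comp (t := Ioi 0 ×ˢ (Icc (-a) a ×ˢ Icc (-b) b)) e1.continuousOn
          fun s hs => ⟨ht, hy, hs⟩
      exact zero_ext hb (fun s hs => hearly t ht htT y hy s hs)
        (fun s hs => hdz t ht y hy s hs) hc z hz
  · intro t ht y hy z hz
    have e1 : ∑ k ∈ Finset.range (n + 1), A k t y z = 0 :=
      Finset.sum_eq_zero fun k _ => ((hA k).late t ht y hy z hz).1
    simp only [e1, sub_zero]
    exact hF t y z

end Pool.Agent.H309.DP.LSwOn
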