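import Pool.Agent.H309.DP.Stm3
import Pool.Agent.H309.DP.EnI
import Pool.Agent.H309.DF.LimAdd

/-! # DT4: uniqueness for the scalar heat flow (by helper764 for helper309) -/

set_option autoImplicit false

open Set Filter Topology MeasureTheory
open scoped ENNReal

namespace Pool.Agent.H309.DP.LUni

open Pool.Agent.H309.DP Pool.Agent.H309.DP.LEnI Pool.Agent.H309.DF.LLimAdd

/-- the difference of two flows with the same source -/
theorem diff {a : ℝ} {F F' q qt qy qyy q' qt' qy' qyy' : ℝ → ℝ → ℝ}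
    (h : CFlow a F q qt qy qyy) (h' : CFlow a F' q' qt' qy' qyy')
    (hF : ∀ t, 0 < t → ∀ y ∈ Icc (-a) a, F t y = F' t y) :
    CFlow a (fun _ _ => 0) (fun t y => q t y - q' t y) (fun t y => qt t y - qt' t y)
      (fun t y => qy t y - qy' t y) (fun t y => qyy t y - qyy' t y) where
  c := h.c.sub h'.c
  ct := h.ct.sub h'.ct
  cy := h.cy.sub h'.cy
  cyy := h.cyy.sub h'.cyy
  dt := fun t ht y hy => (h.dt t ht y hy).sub (h'.dt t ht y hy)
  dy := fun t ht y hy => (h.dy t ht y hy).sub (h'.dy t ht y hy)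
  dyy := fun t ht y hy => (h.dyy t ht y hy).sub (h'.dyy t ht y hy)
  wall := fun t ht => by
    rw [(h.wall t ht).1, (h.wall t ht).2, (h'.wall t ht).1, (h'.wall t ht).2]
    exact ⟨sub_zero 0, sub_zero 0⟩
  eq := fun t ht y hy => by
    rw [h.eq t ht y hy, h'.eq t ht y hy, hF t ht y hy]
    ring

theorem ofE {a : ℝ} (ha : 0 < a) {d : ℝ → ℝ} (hd : ContinuousOn d (Icc (-a) a)) :
    ENNReal.ofReal (∫ y in (-a)..a, d y ^ 2) = ∫⁻ y in Icc (-a) a, ‖d y‖ₑ ^ 2 := by
  have h1 : IntegrableOn (fun y => d y ^ 2) (Icc (-a) a) := (hd.pow 2).integrableOn_Icc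
  rw [intervalIntegral.integral_of_le (by linarith), ← integral_Icc_eq_integral_Ioc,
    ofReal_integral_eq_lintegral_ofReal h1 (Eventually.of_forall fun y => sq_nonneg _)]
  apply lintegral_congr
  intro y
  rw [enorm_sq]

theorem tUni : Pool.Agent.H309.DP.Uni := by
  intro a ha f F F' q qt qy qyy q' qt' qy' qyy' hf h h' hF
  have hle : -a ≤ a := by linarith
  have hd := diff h.cl h'.cl hF
  obtain ⟨E, hE⟩ : ∃ E : ℝ → ℝ, E = fun t => ∫ y in (-a)..a, (q t y - q' t y) ^ 2 := ⟨_, rfl⟩
  have hE0 : ∀ t, 0 ≤ E t := by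
    intro t
    rw [hE]
    exact intervalIntegral.integral_nonneg hle fun y _ => sq_nonneg _
  have hE' : ∀ t, 0 < t → HasDerivAt E (-(2 * ∫ y in (-a)..a, (qy t y - qy' t y) ^ 2)) t := by
    intro t ht
    have h1 := derE2 ha hd continuousOn_const ht
    simp only [mul_zero, intervalIntegral.integral_zero, zero_sub] at h1
    rw [hE]
    exact h1
  have hanti : AntitoneOn E (Ioi 0) := by
    apply antitoneOn_of_deriv_nonpos (convex_Ioi 0)
    · intro t ht
      exact (hE' t ht).continuousAt.continuousWithinAt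
    · intro t ht
      rw [interior_Ioi] at ht
      exact (hE' t ht).differentiableAt.differentiableWithinAt
    · intro t ht
      rw [interior_Ioi] at ht
      rw [(hE' t ht).deriv]
      have : 0 ≤ ∫ y in (-a)..a, (qy t y - qy' t y) ^ 2 :=
        intervalIntegral.integral_nonneg hle fun y _ => sq_nonneg _
      linarith
  have hlim : Tendsto (fun t => ENNReal.ofReal (E t)) (𝓝[>] 0) (𝓝 0) := by
    have h5 := (ENNReal.Tendsto.const_mul h.lim (Or.inr (by norm_num : (2 : ℝ≥0∞) ≠ ⊤))).add
      (ENNReal.Tendsto.const_mul h'.lim (Or.inr (by norm_num : (2 : ℝ≥0∞) ≠ ⊤)))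
    rw [mul_zero, add_zero] at h5
    refine tendsto_of_tendsto_of_tendsto_of_le_of_le' tendsto_const_nhds h5
      (Eventually.of_forall fun _ => zero_le) ?_
    filter_upwards [self_mem_nhdsWithin] with t ht
    have ht' : 0 < t := ht
    have hc : ContinuousOn (q t) (Icc (-a) a) := slice h.cl.c ht'
    have hm : AEMeasurable (fun y => 2 * ‖q t y - f y‖ₑ ^ 2) (volume.restrict (Icc (-a) a)) :=
      ((((hc.aestronglyMeasurable measurableSet_Icc).aemeasurable.sub
        hf.1.aemeasurable).enorm.pow_const 2).const_mul 2)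
    rw [hE]
    simp only
    rw [ofE ha (d := fun y => q t y - q' t y) (slice (f := fun t y => q t y - q' t y) hd.c ht'),
      ← lintegral_const_mul' 2 _ (by norm_num), ← lintegral_const_mul' 2 _ (by norm_num),
      ← lintegral_add_left' hm]
    apply lintegral_mono
    intro y
    have h6 := two (q t y - f y) (-(q' t y - f y))
    rw [enorm_neg] at h6
    have h7 : q t y - f y + -(q' t y - f y) = q t y - q' t y := by ring
    rw [h7] at h6
    exact h6
  intro t ht y hy
  have hEt : E t = 0 := by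
    have h1 : ENNReal.ofReal (E t) ≤ 0 := by
      apply ge_of_tendsto hlim
      filter_upwards [Ioo_mem_nhdsGT ht] with s hs
      exact ENNReal.ofReal_le_ofReal (hanti hs.1 ht hs.2.le)
    have h2 := ENNReal.ofReal_eq_zero.1 (le_antisymm h1 (zero_le))
    exact le_antisymm h2 (hE0 t)
  have hcd : ContinuousOn (fun y => q t y - q' t y) (Icc (-a) a) :=
    slice (f := fun t y => q t y - q' t y) hd.c ht
  have hint : ∫ y in Icc (-a) a, (q t y - q' t y) ^ 2 = 0 := by
    rw [hE] at hEt
    rw [integral_Icc_eq_integral_Ioc, ← intervalIntegral.integral_of_le hle]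
    exact hEt
  have hae : (fun y => (q t y - q' t y) ^ 2) =ᵐ[volume.restrict (Icc (-a) a)] fun _ => (0 : ℝ) := by
    have h1 := (integral_eq_zero_iff_of_nonneg (f := fun y => (q t y - q' t y) ^ 2)
      (μ := volume.restrict (Icc (-a) a)) (fun y => sq_nonneg _)
      ((hcd.pow 2).integrableOn_Icc)).1 hint
    exact h1
  have heq := Measure.eqOn_Icc_of_ae_eq volume (by linarith : -a ≠ a) hae (hcd.pow 2)
    continuousOn_const
  have h3 : (q t y - q' t y) ^ 2 = 0 := heq hy
  have h4 := pow_eq_zero_iff (two_ne_zero) |>.1 h3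
  linarith

end Pool.Agent.H309.DP.LUni
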