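import Pool.Agent.H309.DP.Stm3

/-!
Uniqueness for polynomial solutions.
-/

set_option autoImplicit false

open Set Filter Topology MeasureTheory
open scoped ENNReal

namespace Pool.Agent.H309.DP.LUniPoly

open Pool.Agent.Q61.NC Pool.Agent.H309.DF Pool.Agent.H309.DG Pool.Agent.H309.DP

theorem tUniPoly (h1 : Uni) : Pool.Agent.H309.DP.UniPoly := by
  intro a n ha w P c ct cy cyy c' ct' cy' cyy' hP h h'
  have key : ∀ k i : ℕ, n < i + k → ∀ t : ℝ, 0 < t → ∀ y ∈ Icc (-a) a, c i t y = c' i t y := by
    intro k
    induction k with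
    | zero =>
      intro i hi t _ y _
      rw [h.van i (by omega), h'.van i (by omega)]
    | succ k ih =>
      intro i hi t ht y hy
      rcases Nat.lt_or_ge n i with hn | hn
      · rw [h.van i hn, h'.van i hn]
      · refine h1 a ha (P i) _ _ (c i) (ct i) (cy i) (cyy i) (c' i) (ct' i) (cy' i) (cyy' i)
          (hP i) (h.fl i hn) (h'.fl i hn) ?_ t ht y hy
        intro s hs z hz
        rw [ih (i + 2) (by omega) s hs z hz, ih (i + 1) (by omega) s hs z hz]
  intro i t ht y hy
  exact key (n + 1) i (by omega) t ht y hy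

end Pool.Agent.H309.DP.LUniPoly
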