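import Pool.Agent.H309.DP.MainTr
import Pool.Agent.H309.DP.FinP
import Pool.Agent.H309.DP.HpF
import Pool.Agent.H309.DP.RPoly2
import Pool.Agent.H309.DP.DriftP2
import Pool.Agent.H309.DP.Uni
import Pool.Agent.H309.DP.UniPoly
import Pool.Agent.H309.DP.Coef
import Pool.Agent.H309.DP.PolySum
import Pool.Agent.H309.DP.PolyField
import Pool.Agent.H309.DP.SwOn

/-!
# Data polynomial in the spanwise variable are steered to trajectories of the same kind
-/

set_option autoImplicit false

namespace Pool.Agent.H309.DP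

open Pool.Agent.H309.DF

theorem driftP2_holds : DriftP2 :=
  LDriftP2.tDriftP2 famP_holds (LRPoly2.tRPoly2 LHpF.tHpF) LSumCont.tSumCont LSumDer.tSumDer

theorem swOn_holds : SwOn :=
  LSwOn.tSwOn (LChainEx.tChainEx LHeatL2.tHeatL2 duh_holds) driftP2_holds
    (LCoef.tCoef LHpF.tHpF) LPolySum.tPolySum (LUniPoly.tUniPoly LUni.tUni)
    LPolyField.tPolyField

theorem steer_tr : MainTr :=
  mainTr LHeatL2.tHeatL2 LSupW.tSupW (LChainEx.tChainEx LHeatL2.tHeatL2 duh_holds) driftP_holds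
    LLimP.tLimP (LEnP.tEnP LBox2.tBox2) (LLimBox.tLimBox LBox2.tBox2) LSumEn.tSumEn swOn_holds

end Pool.Agent.H309.DP
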