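import Pool.Agent.H309.DP.Stm2
import Pool.Agent.H309.DG.EnergyT
import Pool.Agent.H309.DF.InitS

/-!
# The flow with initial velocity `(∑ zⁱ Pᵢ(y), 0, Q(y))`: assembly
-/

set_option autoImplicit false

open Set Filter Topology MeasureTheory
open scoped ENNReal

namespace Pool.Agent.H309.DP

open Pool.Agent.Q61.NC Pool.Agent.H309.DF Pool.Agent.H309.DG

theorem sumsq {ι : Type} (s : Finset ι) (f : ι → ℝ) :
    ‖∑ i ∈ s, f i‖ₑ ^ 2 ≤ (s.card : ℝ≥0∞) * ∑ i ∈ s, ‖f i‖ₑ ^ 2 := by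
  simp only [Pool.Agent.H309.DF.LLimAdd.enorm_sq]
  rw [← ENNReal.ofReal_sum_of_nonneg fun i _ => sq_nonneg _, ← ENNReal.ofReal_natCast,
    ← ENNReal.ofReal_mul (Nat.cast_nonneg _)]
  exact ENNReal.ofReal_le_ofReal sq_sum_le_card_mul_sum_sq

theorem lift_int {a b : ℝ} (h : ℝ → ℝ) :
    ∫⁻ y in Icc (-a) a, ∫⁻ _ in Icc (-b) b, ‖h y‖ₑ ^ 2 =
      (∫⁻ y in Icc (-a) a, ‖h y‖ₑ ^ 2) * volume (Icc (-b) b) := by
  simp_rw [setLIntegral_const]
  rw [lintegral_mul_const' _ _ (by rw [Real.volume_Icc]; exact ENNReal.ofReal_ne_top)]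

theorem lift_lim {a b : ℝ} {h : ℝ → ℝ → ℝ}
    (hh : Tendsto (fun t : ℝ => ∫⁻ y in Icc (-a) a, ‖h t y‖ₑ ^ 2) (𝓝[>] 0) (𝓝 0)) :
    Tendsto (fun t : ℝ => ∫⁻ y in Icc (-a) a, ∫⁻ _ in Icc (-b) b, ‖h t y‖ₑ ^ 2)
      (𝓝[>] 0) (𝓝 0) := by
  simp_rw [lift_int]
  have h1 := ENNReal.Tendsto.mul_const (b := volume (Icc (-b) b)) hh
    (Or.inr (by rw [Real.volume_Icc]; exact ENNReal.ofReal_ne_top))
  rwa [zero_mul] at h1

theorem lift_en {a b S : ℝ} {h : ℝ → ℝ → ℝ}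
    (hh : ∫⁻ t in Ioc 0 S, ∫⁻ y in Icc (-a) a, ‖h t y‖ₑ ^ 2 < ⊤) :
    ∫⁻ t in Ioc 0 S, ∫⁻ y in Icc (-a) a, ∫⁻ _ in Icc (-b) b, ‖h t y‖ₑ ^ 2 < ⊤ := by
  have hv : volume (Icc (-b) b) ≠ ⊤ := by rw [Real.volume_Icc]; exact ENNReal.ofReal_ne_top
  simp_rw [lift_int]
  rw [lintegral_mul_const' _ _ hv]
  exact ENNReal.mul_lt_top hh hv.lt_top

theorem mainP (h1 : HeatL2) (h2 : SupW) (h3 : ChainEx) (h4 : DriftP) (h5 : LimP) (h6 : EnP)
    (h7 : LimBox) (h8 : SumEn) : MainP := by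
  intro a b T ha hb hT n P Q hP hQ V G hVG
  obtain ⟨U₁, Vt, Vy, Vyy, hU1, hV1, cV, cVt, cVy, cVyy, cG, dVt, dVy, dVyy, hVeq, hVlim, hVen⟩ := hVG
  have hT2 : 0 < T / 2 := by linarith
  have hT4 : 0 < T / 4 := by linarith
  have e24 : T / 2 / 2 = T / 4 := by ring
  -- the components of the target
  have hproj : ∀ m : Fin 3, Continuous fun x : Sp 3 => x m := fun m =>
    (EuclideanSpace.proj m : Sp 3 →L[ℝ] ℝ).continuous
  have cc : ∀ (m : Fin 3) {F : ℝ → ℝ → Sp 3},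
      ContinuousOn (fun z : ℝ × ℝ => F z.1 z.2) (Ioi 0 ×ˢ Icc (-a) a) →
      ContinuousOn (fun z : ℝ × ℝ => F z.1 z.2 m) (Ioi 0 ×ˢ Icc (-a) a) := fun m F h =>
    (hproj m).comp_continuousOn h
  have cd : ∀ (m : Fin 3) {F : ℝ → Sp 3} {F' : Sp 3} {t : ℝ}, HasDerivAt F F' t →
      HasDerivAt (fun s => F s m) (F' m) t := fun m F F' t h =>
    (EuclideanSpace.proj m : Sp 3 →L[ℝ] ℝ).hasFDerivAt.comp_hasDerivAt t h
  have hU1k : ∀ m, MemLp (fun y => U₁ y m) 2 (volume.restrict (Icc (-a) a)) := fun m =>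
    (EuclideanSpace.proj m : Sp 3 →L[ℝ] ℝ).comp_memLp' hU1
  have cs : ∀ (m : Fin 3) t, 0 < t → ContinuousOn (fun y => V t y m) (Icc (-a) a) := by
    intro m t ht
    exact (cc m cV).comp (f := fun y : ℝ => ((t, y) : ℝ × ℝ)) (by fun_prop)
      fun y hy => ⟨ht, hy⟩
  -- the flow W
  set dz : ℝ → ℝ := fun y => Q y - U₁ y 2 with hdz
  have hdzL : MemLp dz 2 (volume.restrict (Icc (-a) a)) := hQ.sub (hU1k 2)
  obtain ⟨W, Wt, Wy, hW⟩ := h1 a ha dz hdzL
  have w1 : WF a (Ioi 0) (fun t y => V t y 2 + W t y) (fun t y => Vy t y 2 + Wy t y)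
      (fun t y => Vyy t y 2 + Wt t y) :=
    ⟨(cc 2 cV).add hW.cl.c, (cc 2 cVy).add hW.cl.cy, (cc 2 cVyy).add hW.cl.cyy,
      fun t ht y hy => (cd 2 (dVy t ht y hy)).add (hW.cl.dy t ht y hy),
      fun t ht y hy => (cd 2 (dVyy t ht y hy)).add (hW.cl.dyy t ht y hy)⟩
  have w2 : WF a (Ioi 0) (fun t y => V t y 0) (fun t y => Vy t y 0) (fun t y => Vyy t y 0) :=
    ⟨cc 0 cV, cc 0 cVy, cc 0 cVyy, fun t ht y hy => cd 0 (dVy t ht y hy),
      fun t ht y hy => cd 0 (dVyy t ht y hy)⟩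
  have hDrf : Drf a (fun t y => V t y 2 + W t y) := by
    refine h2 a ha _ _ _ Q w1 hQ ?_ ?_
    · exact LEnergyT.limSum (hU1k 2).aestronglyMeasurable.aemeasurable
        (fun y => by simp only [hdz]; ring) (cs 2) (LEnergyT.limComp 2 hVlim) hW.lim
    · exact h8 a ha _ _ (cc 2 cVy) hW.cl.cy (fun S => LEnergyT.enComp 2 (hVen S)) hW.en
  -- the flow B
  have chain0 : Chain a 0 dz (fun t y => V t y 0) (fun _ => W) (fun _ => Wt) (fun _ => Wy)
      (fun _ => Wt) := ⟨hW, fun j hj => absurd hj (Nat.not_lt_zero j)⟩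
  obtain ⟨εB, RB, B, Bt, By, Byy, Bx, Bxx, hεB, hRB, hB⟩ :=
    h4 a b T 0 ha hb hT _ _ _ w2 dz _ _ _ _ chain0
  have hBe : ∀ t, 0 < t → t ≤ T / 2 → ∀ y ∈ Icc (-a) a, ∀ x ∈ Icc (-b) b,
      B t y x = W t y ∧ By t y x = Wy t y ∧ Bx t y x = 0 := by
    intro t ht ht' y hy x hx
    obtain ⟨e1, e2, e3⟩ := hB.early t ht ht' y hy x hx
    have r0 : RB 0 t x = 1 := by
      have := hRB.top t x ht ht'
      simpa using this
    have r1 : RB 1 t x = 0 := hRB.van 1 t x Nat.one_pos ht ht'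
    rw [e1, e2, e3]
    simp only [zero_add, Finset.sum_range_one, r0, r1]
    exact ⟨mul_one _, mul_one _, mul_zero _⟩
  -- the flows A i
  set f : ℕ → ℝ → ℝ := fun i y => if i = 0 then P 0 y - U₁ y 0 else P i y with hf
  have hfL : ∀ i, MemLp (f i) 2 (volume.restrict (Icc (-a) a)) := by
    intro i
    by_cases hi : i = 0
    · have : f i = fun y => P 0 y - U₁ y 0 := by
        funext y
        simp only [hf, hi, if_true]
      rw [this]
      exact (hP 0).sub (hU1k 0)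
    · have : f i = P i := by
        funext y
        simp only [hf, if_neg hi]
      rw [this]
      exact hP i
  have hch : ∀ i, ∃ q qt qy qyy : ℕ → ℝ → ℝ → ℝ,
      Chain a i (f i) (fun t y => V t y 2 + W t y) q qt qy qyy := fun i =>
    h3 a ha _ _ _ w1 hDrf (f i) (hfL i) i
  choose q qt qy qyy hq using hch
  have hAex : ∀ i, ∃ (ε : ℝ) (R : ℕ → ℝ → ℝ → ℝ) (A At Ay Ayy Az Azz : ℝ → ℝ → ℝ → ℝ), 0 < ε ∧
      RFamP i b (T / 2) ε R ∧
      PDrift a b (T / 2) i (fun t y => V t y 2 + W t y) (q i) (qy i) R A At Ay Ayy Az Azz :=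
    fun i => h4 a b (T / 2) i ha hb hT2 _ _ _ w1 (f i) _ _ _ _ (hq i)
  choose εA RA A At Ay Ayy Az Azz hεA hRA hA using hAex
  -- the scalar fields
  set SA : ℝ → ℝ → ℝ → ℝ := fun t y z => ∑ i ∈ Finset.range (n + 1), A i t y z with hSA
  set SAt : ℝ → ℝ → ℝ → ℝ := fun t y z => ∑ i ∈ Finset.range (n + 1), At i t y z with hSAt
  set SAy : ℝ → ℝ → ℝ → ℝ := fun t y z => ∑ i ∈ Finset.range (n + 1), Ay i t y z with hSAy
  set SAyy : ℝ → ℝ → ℝ → ℝ := fun t y z => ∑ i ∈ Finset.range (n + 1), Ayy i t y z with hSAyy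
  set SAz : ℝ → ℝ → ℝ → ℝ := fun t y z => ∑ i ∈ Finset.range (n + 1), Az i t y z with hSAz
  set SAzz : ℝ → ℝ → ℝ → ℝ := fun t y z => ∑ i ∈ Finset.range (n + 1), Azz i t y z with hSAzz
  have hpdeA : ∀ t, 0 < t → ∀ y ∈ Icc (-a) a, ∀ z ∈ Icc (-b) b,
      SAt t y z + (V t y 2 + W t y) * SAz t y z = SAyy t y z + SAzz t y z := by
    intro t ht y hy z hz
    simp only [hSAt, hSAz, hSAyy, hSAzz]
    rw [Finset.mul_sum, ← Finset.sum_add_distrib, ← Finset.sum_add_distrib]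
    exact Finset.sum_congr rfl fun i _ => (hA i).pde t ht y hy z hz
  have hlateA : ∀ t, T / 2 ≤ t → ∀ y ∈ Icc (-a) a, ∀ z ∈ Icc (-b) b,
      SA t y z = 0 ∧ SAz t y z = 0 := by
    intro t ht y hy z hz
    exact ⟨Finset.sum_eq_zero fun i _ => ((hA i).late t ht y hy z hz).1,
      Finset.sum_eq_zero fun i _ => ((hA i).late t ht y hy z hz).2.2⟩
  have pi : ∀ {F : ℝ → ℝ → ℝ}, ContinuousOn (fun q : ℝ × ℝ => F q.1 q.2) (Ioi 0 ×ˢ Icc (-a) a) →
      ContinuousOn (fun x : ℝ × ℝ × ℝ => F x.1 x.2.1) (Ioi 0 ×ˢ (Icc (-a) a ×ˢ Icc (-b) b)) := by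
    intro F hF
    have h1 : Continuous fun z : ℝ × ℝ × ℝ => ((z.1, z.2.1) : ℝ × ℝ) := by fun_prop
    exact hF.comp (t := Ioi 0 ×ˢ Icc (-a) a) h1.continuousOn fun z hz => ⟨hz.1, hz.2.1⟩
  have cF := fun m => pi (F := fun t y => V t y m) (cc m cV)
  have cFt := fun m => pi (F := fun t y => Vt t y m) (cc m cVt)
  have cFy := fun m => pi (F := fun t y => Vy t y m) (cc m cVy)
  have cFyy := fun m => pi (F := fun t y => Vyy t y m) (cc m cVyy)
  have cA : ContinuousOn (fun x : ℝ × ℝ × ℝ => SA x.1 x.2.1 x.2.2)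
      (Ioi 0 ×ˢ (Icc (-a) a ×ˢ Icc (-b) b)) := continuousOn_finset_sum _ fun i _ => (hA i).c
  have cAt : ContinuousOn (fun x : ℝ × ℝ × ℝ => SAt x.1 x.2.1 x.2.2)
      (Ioi 0 ×ˢ (Icc (-a) a ×ˢ Icc (-b) b)) := continuousOn_finset_sum _ fun i _ => (hA i).ct
  have cAy : ContinuousOn (fun x : ℝ × ℝ × ℝ => SAy x.1 x.2.1 x.2.2)
      (Ioi 0 ×ˢ (Icc (-a) a ×ˢ Icc (-b) b)) := continuousOn_finset_sum _ fun i _ => (hA i).cy
  have cAyy : ContinuousOn (fun x : ℝ × ℝ × ℝ => SAyy x.1 x.2.1 x.2.2)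
      (Ioi 0 ×ˢ (Icc (-a) a ×ˢ Icc (-b) b)) := continuousOn_finset_sum _ fun i _ => (hA i).cyy
  have cAz : ContinuousOn (fun x : ℝ × ℝ × ℝ => SAz x.1 x.2.1 x.2.2)
      (Ioi 0 ×ˢ (Icc (-a) a ×ˢ Icc (-b) b)) := continuousOn_finset_sum _ fun i _ => (hA i).cz
  have cAzz : ContinuousOn (fun x : ℝ × ℝ × ℝ => SAzz x.1 x.2.1 x.2.2)
      (Ioi 0 ×ˢ (Icc (-a) a ×ˢ Icc (-b) b)) := continuousOn_finset_sum _ fun i _ => (hA i).czz
  set PP : ℝ → ℝ → ℝ → ℝ := fun t y z => V t y 0 + SA t y z with hPP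
  set Pt : ℝ → ℝ → ℝ → ℝ := fun t y z => Vt t y 0 + SAt t y z with hPt
  set Py : ℝ → ℝ → ℝ → ℝ := fun t y z => Vy t y 0 + SAy t y z with hPy
  set Pyy : ℝ → ℝ → ℝ → ℝ := fun t y z => Vyy t y 0 + SAyy t y z with hPyy
  set S : ℝ → ℝ → ℝ → ℝ := fun t y x => V t y 2 + B t y x with hS
  set St : ℝ → ℝ → ℝ → ℝ := fun t y x => Vt t y 2 + Bt t y x with hSt
  set Sy : ℝ → ℝ → ℝ → ℝ := fun t y x => Vy t y 2 + By t y x with hSy
  set Syy : ℝ → ℝ → ℝ → ℝ := fun t y x => Vyy t y 2 + Byy t y x with hSyy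
  set O3 : ℝ → ℝ → ℝ → ℝ := fun _ _ _ => 0 with hO3
  have cP := (cF 0).add cA
  have cPt := (cFt 0).add cAt
  have cPy := (cFy 0).add cAy
  have cPyy := (cFyy 0).add cAyy
  have cS := (cF 2).add hB.c
  have cSt := (cFt 2).add hB.ct
  have cSy := (cFy 2).add hB.cy
  have cSyy := (cFyy 2).add hB.cyy
  have c0 : ContinuousOn (fun x : ℝ × ℝ × ℝ => O3 x.1 x.2.1 x.2.2)
      (Ioi 0 ×ˢ (Icc (-a) a ×ˢ Icc (-b) b)) := continuousOn_const
  set u : ℝ → Sp 3 → Sp 3 := fun t x => vec (PP t (x 1) (x 2)) (S t (x 1) (x 0)) with hu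
  set ut : ℝ → Sp 3 → Sp 3 := fun t x => vec (Pt t (x 1) (x 2)) (St t (x 1) (x 0)) with hut
  set D : Fin 3 → ℝ → Sp 3 → Sp 3 := ![fun t x => vec (O3 t (x 1) (x 2)) (Bx t (x 1) (x 0)),
    fun t x => vec (Py t (x 1) (x 2)) (Sy t (x 1) (x 0)),
    fun t x => vec (SAz t (x 1) (x 2)) (O3 t (x 1) (x 0))] with hD
  set DD : Fin 3 → ℝ → Sp 3 → Sp 3 := ![fun t x => vec (O3 t (x 1) (x 2)) (Bxx t (x 1) (x 0)),
    fun t x => vec (Pyy t (x 1) (x 2)) (Syy t (x 1) (x 0)),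
    fun t x => vec (SAzz t (x 1) (x 2)) (O3 t (x 1) (x 0))] with hDD
  set p : ℝ → Sp 3 → ℝ := fun t x => G t 0 * x 0 + G t 2 * x 2 with hp
  set dp : ℝ → Sp 3 → Sp 3 := fun t _ => vec (G t 0) (G t 2) with hdp
  have hbox : ∀ {x : Sp 3}, x ∈ box a b → x 1 ∈ Icc (-a) a ∧ x 0 ∈ Icc (-b) b ∧ x 2 ∈ Icc (-b) b :=
    fun hx => ⟨abs_le.1 hx.1, abs_le.1 hx.2.1, abs_le.1 hx.2.2⟩
  have hobox : ∀ {x : Sp 3}, x ∈ obox a b →
      x 1 ∈ Ioo (-a) a ∧ x 0 ∈ Ioo (-b) b ∧ x 2 ∈ Ioo (-b) b :=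
    fun hx => ⟨abs_lt.1 hx.1, abs_lt.1 hx.2.1, abs_lt.1 hx.2.2⟩
  have cD : ∀ i, ContinuousOn (fun z : ℝ × Sp 3 => D i z.1 z.2) (Ioi 0 ×ˢ box a b) := by
    intro i
    fin_cases i
    · exact cont_field c0 hB.cz
    · exact cont_field cPy cSy
    · exact cont_field cAz c0
  have hgk : ∀ (m : Fin 3), ContinuousOn (fun z : ℝ × Sp 3 => G z.1 m) (Ioi 0 ×ˢ box a b) := by
    intro m
    have e1 : ContinuousOn (fun t : ℝ => G t m) (Ioi 0) := (hproj m).comp_continuousOn cG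
    exact e1.comp (t := Ioi 0) continuous_fst.continuousOn fun z hz => hz.1
  refine ⟨u, p, ut, D, DD, dp, cont_field cP cS, ?_, cont_field cPt cSt, cD, ?_, ?_, ?_, ?_, ?_,
    ?_, ?_, ?_, ?_, ?_, ?_, ?_, ?_⟩
  · -- continuity of the pressure
    exact ((hgk 0).mul ((hproj 0).comp continuous_snd).continuousOn).add
      ((hgk 2).mul ((hproj 2).comp continuous_snd).continuousOn)
  · intro i
    fin_cases i
    · exact cont_field c0 hB.czz
    · exact cont_field cPyy cSyy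
    · exact cont_field cAzz c0
  · exact vec_cont (hgk 0) (hgk 2)
  · -- time derivative
    intro t ht x hx
    obtain ⟨q1, q0, q2⟩ := hobox hx
    have r1 := Ioo_subset_Icc_self q1
    have r0 := Ioo_subset_Icc_self q0
    have r2 := Ioo_subset_Icc_self q2
    refine vec_hasDeriv ((cd 0 (dVt t ht _ q1)).add
      (HasDerivAt.fun_sum fun i _ => (hA i).dt t ht _ r1 _ r2)) ?_
    exact (cd 2 (dVt t ht _ q1)).add (hB.dt t ht _ r1 _ r0)
  · -- first derivatives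
    intro t ht x hx i
    obtain ⟨q1, q0, q2⟩ := hobox hx
    have r1 := Ioo_subset_Icc_self q1
    have r0 := Ioo_subset_Icc_self q0
    have r2 := Ioo_subset_Icc_self q2
    fin_cases i
    · refine line0 (p := PP t) (s := S t) ?_
      exact (hB.dz t ht _ r1 _ q0).const_add (V t (x 1) 2)
    · refine line1 (p := PP t) (s := S t) ?_ ?_
      · exact (cd 0 (dVy t ht _ q1)).add
          (HasDerivAt.fun_sum fun i _ => (hA i).dy t ht _ q1 _ r2)
      · exact (cd 2 (dVy t ht _ q1)).add (hB.dy t ht _ q1 _ r0)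
    · refine line2 (p := PP t) (s := S t) ?_
      exact (HasDerivAt.fun_sum fun i _ => (hA i).dz t ht _ r1 _ q2).const_add (V t (x 1) 0)
  · -- second derivatives
    intro t ht x hx i
    obtain ⟨q1, q0, q2⟩ := hobox hx
    have r1 := Ioo_subset_Icc_self q1
    have r0 := Ioo_subset_Icc_self q0
    have r2 := Ioo_subset_Icc_self q2
    fin_cases i
    · refine line0 (p := O3 t) (s := Bx t) ?_
      exact hB.dzz t ht _ r1 _ q0
    · refine line1 (p := Py t) (s := Sy t) ?_ ?_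
      · exact (cd 0 (dVyy t ht _ q1)).add
          (HasDerivAt.fun_sum fun i _ => (hA i).dyy t ht _ q1 _ r2)
      · exact (cd 2 (dVyy t ht _ q1)).add (hB.dyy t ht _ q1 _ r0)
    · refine line2 (p := SAz t) (s := O3 t) ?_
      exact HasDerivAt.fun_sum fun i _ => (hA i).dzz t ht _ r1 _ q2
  · -- pressure
    intro t ht x hx i
    have h0 : HasDerivAt (fun r : ℝ => x 0 + r) 1 0 := (hasDerivAt_id _).const_add (x 0)
    have h2 : HasDerivAt (fun r : ℝ => x 2 + r) 1 0 := (hasDerivAt_id _).const_add (x 2)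
    fin_cases i
    · have h := ((h0.const_mul (G t 0)).add_const (G t 2 * x 2))
      rw [mul_one] at h
      refine h.congr_of_eventuallyEq (Eventually.of_forall fun r => ?_)
      simp [hp]
    · have h := hasDerivAt_const (0 : ℝ) (G t 0 * x 0 + G t 2 * x 2)
      refine h.congr_of_eventuallyEq (Eventually.of_forall fun r => ?_)
      simp [hp]
    · have h := ((h2.const_mul (G t 2)).const_add (G t 0 * x 0))
      rw [mul_one] at h
      refine h.congr_of_eventuallyEq (Eventually.of_forall fun r => ?_)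
      simp [hp]
  · -- momentum
    intro t ht x hx
    obtain ⟨r1, r0, r2⟩ := hbox hx
    have hpA := hpdeA t ht _ r1 _ r2
    have hpB := hB.pde t ht _ r1 _ r0
    have hV0 : Vt t (x 1) 0 + G t 0 = Vyy t (x 1) 0 :=
      congrFun (congrArg (fun v : Sp 3 => (v : Fin 3 → ℝ)) (hVeq t ht _ r1)) 0
    have hV2 : Vt t (x 1) 2 + G t 2 = Vyy t (x 1) 2 :=
      congrFun (congrArg (fun v : Sp 3 => (v : Fin 3 → ℝ)) (hVeq t ht _ r1)) 2
    have k1 : (V t (x 1) 2 + B t (x 1) (x 0)) * SAz t (x 1) (x 2) =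
        (V t (x 1) 2 + W t (x 1)) * SAz t (x 1) (x 2) := by
      rcases le_or_gt t (T / 2) with q' | q'
      · rw [(hBe t ht q' _ r1 _ r0).1]
      · rw [(hlateA t q'.le _ r1 _ r2).2]
        ring
    have k2 : (V t (x 1) 0 + SA t (x 1) (x 2)) * Bx t (x 1) (x 0) =
        V t (x 1) 0 * Bx t (x 1) (x 0) := by
      rcases le_or_gt t (T / 2) with q | q
      · rw [(hBe t ht q _ r1 _ r0).2.2]
        ring
      · rw [(hlateA t q.le _ r1 _ r2).1]
        ring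
    have hsum : ∀ (F : Fin 3 → Sp 3), ∑ i, F i = F 0 + F 1 + F 2 := fun F => Fin.sum_univ_three F
    rw [hsum, hsum]
    ext m
    fin_cases m
    · show Vt t (x 1) 0 + SAt t (x 1) (x 2) +
        ((V t (x 1) 0 + SA t (x 1) (x 2)) * 0 +
        0 * (Vy t (x 1) 0 + SAy t (x 1) (x 2)) +
        (V t (x 1) 2 + B t (x 1) (x 0)) * SAz t (x 1) (x 2)) -
        (0 + (Vyy t (x 1) 0 + SAyy t (x 1) (x 2)) + SAzz t (x 1) (x 2)) + G t 0 = 0
      rw [k1]
      linarith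
    · show (0 : ℝ) + ((V t (x 1) 0 + SA t (x 1) (x 2)) * 0 + 0 * 0 +
        (V t (x 1) 2 + B t (x 1) (x 0)) * 0) - (0 + 0 + 0) + 0 = 0
      ring
    · show Vt t (x 1) 2 + Bt t (x 1) (x 0) +
        ((V t (x 1) 0 + SA t (x 1) (x 2)) * Bx t (x 1) (x 0) +
        0 * (Vy t (x 1) 2 + By t (x 1) (x 0)) +
        (V t (x 1) 2 + B t (x 1) (x 0)) * 0) -
        (Bxx t (x 1) (x 0) + (Vyy t (x 1) 2 + Byy t (x 1) (x 0)) + 0) + G t 2 = 0
      rw [k2]
      linarith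
  · -- divergence
    intro t _ x _
    rw [Fin.sum_univ_three]
    show (0 : ℝ) + 0 + 0 = 0
    ring
  · -- walls
    intro t ht x hx hw
    obtain ⟨r1, r0, r2⟩ := hbox hx
    have h1 : x 1 = a ∨ x 1 = -a := by
      rcases abs_choice (x 1) with h3 | h3
      · left
        rw [← h3, hw]
      · right
        rw [← hw, h3, neg_neg]
    have h2 : B t (x 1) (x 0) = 0 ∧ SA t (x 1) (x 2) = 0 := by
      rcases h1 with h3 | h3
      · rw [h3]
        exact ⟨(hB.wall t ht _ r0).1, Finset.sum_eq_zero fun i _ => ((hA i).wall t ht _ r2).1⟩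
      · rw [h3]
        exact ⟨(hB.wall t ht _ r0).2, Finset.sum_eq_zero fun i _ => ((hA i).wall t ht _ r2).2⟩
    show vec (V t (x 1) 0 + SA t (x 1) (x 2)) (V t (x 1) 2 + B t (x 1) (x 0)) = V t (x 1)
    rw [h2.1, h2.2, add_zero, add_zero]
    ext m
    fin_cases m
    · rfl
    · exact (hV1 t (x 1)).symm
    · rfl
  · -- the target is reached
    intro t ht x hx
    obtain ⟨r1, r0, r2⟩ := hbox hx
    show vec (V t (x 1) 0 + SA t (x 1) (x 2)) (V t (x 1) 2 + B t (x 1) (x 0)) = V t (x 1)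
    rw [(hB.late t ht _ r1 _ r0).1, (hlateA t (by linarith) _ r1 _ r2).1, add_zero, add_zero]
    ext m
    fin_cases m
    · rfl
    · exact (hV1 t (x 1)).symm
    · rfl
  · intro t _ x _
    rfl
  · -- initial data
    have hsplit : ∀ y z : ℝ, ∑ i ∈ Finset.range (n + 1), z ^ i * P i y =
        U₁ y 0 + ∑ i ∈ Finset.range (n + 1), z ^ i * f i y := by
      intro y z
      rw [Finset.sum_range_succ', Finset.sum_range_succ']
      simp only [hf, if_true, Nat.add_eq_zero_iff, one_ne_zero, and_false, if_false, pow_zero,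
        one_mul]
      ring
    set K : ℝ≥0∞ := 2 * ((Finset.range (n + 1)).card : ℝ≥0∞) with hK
    have hK2 : (2 : ℝ≥0∞) ≤ K := by
      rw [hK, Finset.card_range]
      have : (1 : ℝ≥0∞) ≤ ((n + 1 : ℕ) : ℝ≥0∞) := by exact_mod_cast Nat.succ_le_succ (Nat.zero_le n)
      calc (2 : ℝ≥0∞) = 2 * 1 := (mul_one 2).symm
        _ ≤ _ := by gcongr
    have hKt : K ≠ ⊤ := ENNReal.mul_ne_top (by norm_num) (ENNReal.natCast_ne_top _)
    set H : Fin 3 ⊕ Fin (n + 1) → ℝ → ℝ → ℝ → ℝ := Sum.elim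
      ![fun t y _ => V t y 0 - U₁ y 0, fun t y _ => V t y 2 - U₁ y 2, fun t y _ => W t y - dz y]
      (fun i t y z => A i t y z - z ^ (i : ℕ) * f i y) with hH
    refine h7 a b (T / 4) K _ ha hb hT4 hKt (fun t x => u t x -
      vec (∑ i ∈ Finset.range (n + 1), x 2 ^ i * P i (x 1)) (Q (x 1))) H ?_ ?_ ?_
    · -- measurability
      intro k t ht _
      have ml : ∀ {g : ℝ → ℝ}, AEMeasurable g (volume.restrict (Icc (-a) a)) →
          AEMeasurable (fun z : ℝ × ℝ => g z.1)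
            ((volume.restrict (Icc (-a) a)).prod (volume.restrict (Icc (-b) b))) := fun hg =>
        hg.comp_quasiMeasurePreserving Measure.quasiMeasurePreserving_fst
      rcases k with k | i
      · fin_cases k
        · exact ml (((cs 0 t ht).aemeasurable measurableSet_Icc).sub
            (hU1k 0).aestronglyMeasurable.aemeasurable)
        · exact ml (((cs 2 t ht).aemeasurable measurableSet_Icc).sub
            (hU1k 2).aestronglyMeasurable.aemeasurable)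
        · have h9 : ContinuousOn (fun y => W t y) (Icc (-a) a) :=
            hW.cl.c.comp (f := fun y : ℝ => ((t, y) : ℝ × ℝ)) (by fun_prop)
              fun y hy => ⟨ht, hy⟩
          exact ml ((h9.aemeasurable measurableSet_Icc).sub
            hdzL.aestronglyMeasurable.aemeasurable)
      · have h9 : ContinuousOn (fun z : ℝ × ℝ => A i t z.1 z.2) (Icc (-a) a ×ˢ Icc (-b) b) :=
          (hA i).c.comp (f := fun z : ℝ × ℝ => ((t, z.1, z.2) : ℝ × ℝ × ℝ)) (by fun_prop)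
            fun z hz => ⟨ht, hz⟩
        have h10 : AEMeasurable (fun z : ℝ × ℝ => A i t z.1 z.2)
            ((volume.restrict (Icc (-a) a)).prod (volume.restrict (Icc (-b) b))) := by
          rw [Measure.prod_restrict]
          exact h9.aemeasurable (measurableSet_Icc.prod measurableSet_Icc)
        exact h10.sub ((measurable_snd.pow_const _).aemeasurable.mul
          (ml (hfL i).aestronglyMeasurable.aemeasurable))
    · -- limits
      intro k
      rcases k with k | i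
      · fin_cases k
        · exact lift_lim (LEnergyT.limComp 0 hVlim)
        · exact lift_lim (LEnergyT.limComp 2 hVlim)
        · exact lift_lim hW.lim
      · refine (h5 a b (T / 2) (εA i) i ha hb hT2 _ (f i) _ _ _ _ (RA i) (hfL i) (hq i)
          (hRA i)).1.congr' ?_
        filter_upwards [Ioo_mem_nhdsGT hT4] with t ht
        refine setLIntegral_congr_fun measurableSet_Icc fun y hy => ?_
        refine setLIntegral_congr_fun measurableSet_Icc fun z hz => ?_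
        show ‖(∑ j ∈ Finset.range ((i : ℕ) + 1), q i j t y * RA i j t z) - z ^ (i : ℕ) * f i y‖ₑ ^ 2 =
          ‖A i t y z - z ^ (i : ℕ) * f i y‖ₑ ^ 2
        rw [((hA i).early t ht.1 (by rw [e24]; exact ht.2.le) y hy z hz).1]
    · -- the bound
      intro t ht ht' x hx
      obtain ⟨r1, r0, r2⟩ := hbox hx
      rw [Fintype.sum_sum_type, Fin.sum_univ_three]
      show ‖vec (V t (x 1) 0 + SA t (x 1) (x 2)) (V t (x 1) 2 + B t (x 1) (x 0)) -
        vec (∑ i ∈ Finset.range (n + 1), x 2 ^ i * P i (x 1)) (Q (x 1))‖ₑ ^ 2 ≤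
        K * (‖V t (x 1) 0 - U₁ (x 1) 0‖ₑ ^ 2 + ‖V t (x 1) 2 - U₁ (x 1) 2‖ₑ ^ 2 +
          ‖W t (x 1) - dz (x 1)‖ₑ ^ 2 + ∑ i : Fin (n + 1),
            ‖A i t (x 1) (x 2) - x 2 ^ (i : ℕ) * f i (x 1)‖ₑ ^ 2)
      rw [LInitS.enorm_vec _ _ _ (vec1 _ _), vec0, vec2]
      have n1 : ‖V t (x 1) 0 + SA t (x 1) (x 2) - ∑ i ∈ Finset.range (n + 1), x 2 ^ i * P i (x 1)‖ₑ ^ 2 ≤
          K * (‖V t (x 1) 0 - U₁ (x 1) 0‖ₑ ^ 2 + ∑ i : Fin (n + 1),
            ‖A i t (x 1) (x 2) - x 2 ^ (i : ℕ) * f i (x 1)‖ₑ ^ 2) := by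
        have e1 : V t (x 1) 0 + SA t (x 1) (x 2) - ∑ i ∈ Finset.range (n + 1), x 2 ^ i * P i (x 1) =
            (V t (x 1) 0 - U₁ (x 1) 0) + ∑ i ∈ Finset.range (n + 1),
              (A i t (x 1) (x 2) - x 2 ^ i * f i (x 1)) := by
          rw [hsplit, Finset.sum_sub_distrib]
          ring
        rw [e1]
        refine (LLimAdd.two _ _).trans ?_
        rw [← Finset.sum_range (fun i => ‖A i t (x 1) (x 2) - x 2 ^ i * f i (x 1)‖ₑ ^ 2), mul_add]
        refine add_le_add (mul_le_mul_left hK2 _) ?_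
        calc 2 * ‖∑ i ∈ Finset.range (n + 1), (A i t (x 1) (x 2) - x 2 ^ i * f i (x 1))‖ₑ ^ 2
            ≤ 2 * (((Finset.range (n + 1)).card : ℝ≥0∞) *
              ∑ i ∈ Finset.range (n + 1), ‖A i t (x 1) (x 2) - x 2 ^ i * f i (x 1)‖ₑ ^ 2) := by
                gcongr
                exact sumsq _ _
          _ = _ := by rw [hK, mul_assoc]
      have n2 : ‖V t (x 1) 2 + B t (x 1) (x 0) - Q (x 1)‖ₑ ^ 2 ≤
          K * (‖V t (x 1) 2 - U₁ (x 1) 2‖ₑ ^ 2 + ‖W t (x 1) - dz (x 1)‖ₑ ^ 2) := by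
        have e1 : V t (x 1) 2 + B t (x 1) (x 0) - Q (x 1) =
            (V t (x 1) 2 - U₁ (x 1) 2) + (W t (x 1) - dz (x 1)) := by
          rw [(hBe t ht (by linarith) _ r1 _ r0).1]
          simp only [hdz]
          ring
        rw [e1]
        refine (LLimAdd.two _ _).trans ?_
        rw [mul_add]
        exact add_le_add (mul_le_mul_left hK2 _) (mul_le_mul_left hK2 _)
      refine (add_le_add n1 n2).trans (le_of_eq ?_)
      ring
  · -- energy
    set K : ℝ≥0∞ := 2 * ((Finset.range (n + 1)).card : ℝ≥0∞) with hK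
    have hK2 : (2 : ℝ≥0∞) ≤ K := by
      rw [hK, Finset.card_range]
      have : (1 : ℝ≥0∞) ≤ ((n + 1 : ℕ) : ℝ≥0∞) := by exact_mod_cast Nat.succ_le_succ (Nat.zero_le n)
      calc (2 : ℝ≥0∞) = 2 * 1 := (mul_one 2).symm
        _ ≤ _ := by gcongr
    have hKt : K ≠ ⊤ := ENNReal.mul_ne_top (by norm_num) (ENNReal.natCast_ne_top _)
    have hKc : ((Finset.range (n + 1)).card : ℝ≥0∞) ≤ K := by
      rw [hK, two_mul]
      exact le_self_add
    set H : Fin 3 ⊕ (Fin (n + 1) ⊕ Fin (n + 1)) → ℝ → ℝ → ℝ → ℝ := Sum.elim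
      ![fun t y _ => Vy t y 0, fun t y _ => Vy t y 2, fun t y _ => Wy t y]
      (Sum.elim (fun i => Ay i) (fun i => Az i)) with hH
    have hsub : Ioc (0 : ℝ) (T / 4) ⊆ Ioc 0 (T / 2 / 2) := by rw [e24]
    have hLP : ∀ i, ∫⁻ t in Ioc 0 (T / 4), ∫⁻ y in Icc (-a) a, ∫⁻ z in Icc (-b) b,
        (‖Ay i t y z‖ₑ ^ 2 + ‖Az i t y z‖ₑ ^ 2) < ⊤ := by
      intro i
      refine lt_of_le_of_lt ?_ (h5 a b (T / 2) (εA i) i ha hb hT2 _ (f i) _ _ _ _ (RA i) (hfL i)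
        (hq i) (hRA i)).2
      rw [e24]
      refine setLIntegral_mono' measurableSet_Ioc fun t ht => ?_
      refine setLIntegral_mono' measurableSet_Icc fun y hy => ?_
      refine setLIntegral_mono' measurableSet_Icc fun z hz => ?_
      obtain ⟨-, e2, e3⟩ := (hA i).early t ht.1 (by rw [e24]; exact ht.2) y hy z hz
      rw [e2, e3]
    refine h6 a b (T / 4) K _ ha hb hT4 hKt D H cD ?_ ?_ ?_
    · intro k
      rcases k with k | k | k
      · fin_cases k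
        · exact cFy 0
        · exact cFy 2
        · exact pi hW.cl.cy
      · exact (hA k).cy
      · exact (hA k).cz
    · intro k
      rcases k with k | k | k
      · fin_cases k
        · exact lift_en (LEnergyT.enComp 0 (hVen _))
        · exact lift_en (LEnergyT.enComp 2 (hVen _))
        · exact lift_en (hW.en _)
      · exact lt_of_le_of_lt (lintegral_mono fun _ => lintegral_mono fun _ => lintegral_mono
          fun _ => le_self_add) (hLP k)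
      · exact lt_of_le_of_lt (lintegral_mono fun _ => lintegral_mono fun _ => lintegral_mono
          fun _ => le_add_self) (hLP k)
    · intro t ht ht' x hx
      obtain ⟨r1, r0, r2⟩ := hbox hx
      have e0 : D 0 t x = 0 := by
        show vec 0 (Bx t (x 1) (x 0)) = 0
        rw [(hBe t ht (by linarith) _ r1 _ r0).2.2, vec_eq]
        simp
      have e2 : ‖D 2 t x‖ₑ ^ 2 = ‖SAz t (x 1) (x 2)‖ₑ ^ 2 := by
        have : D 2 t x = vec (SAz t (x 1) (x 2)) 0 := rfl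
        rw [this, enorm_sq_eq, Fin.sum_univ_three, vec0, vec1, vec2]
        simp
      have e1 : ‖D 1 t x‖ₑ ^ 2 = ‖Vy t (x 1) 0 + SAy t (x 1) (x 2)‖ₑ ^ 2 +
          ‖Vy t (x 1) 2 + Wy t (x 1)‖ₑ ^ 2 := by
        have : D 1 t x = vec (Vy t (x 1) 0 + SAy t (x 1) (x 2)) (Vy t (x 1) 2 + Wy t (x 1)) := by
          show vec (Vy t (x 1) 0 + SAy t (x 1) (x 2)) (Vy t (x 1) 2 + By t (x 1) (x 0)) = _
          rw [(hBe t ht (by linarith) _ r1 _ r0).2.1]
        rw [this, enorm_sq_eq, Fin.sum_univ_three, vec0, vec1, vec2]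
        simp
      rw [Fin.sum_univ_three, e0, e1, e2, Fintype.sum_sum_type, Fin.sum_univ_three,
        Fintype.sum_sum_type]
      show ‖(0 : Sp 3)‖ₑ ^ 2 + _ + _ ≤ K * (‖Vy t (x 1) 0‖ₑ ^ 2 + ‖Vy t (x 1) 2‖ₑ ^ 2 +
        ‖Wy t (x 1)‖ₑ ^ 2 + (∑ i : Fin (n + 1), ‖Ay i t (x 1) (x 2)‖ₑ ^ 2 +
          ∑ i : Fin (n + 1), ‖Az i t (x 1) (x 2)‖ₑ ^ 2))
      have n1 : ‖Vy t (x 1) 0 + SAy t (x 1) (x 2)‖ₑ ^ 2 ≤
          K * (‖Vy t (x 1) 0‖ₑ ^ 2 + ∑ i : Fin (n + 1), ‖Ay i t (x 1) (x 2)‖ₑ ^ 2) := by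
        refine (LLimAdd.two _ _).trans ?_
        rw [← Finset.sum_range (fun i => ‖Ay i t (x 1) (x 2)‖ₑ ^ 2), mul_add]
        refine add_le_add (mul_le_mul_left hK2 _) ?_
        calc 2 * ‖∑ i ∈ Finset.range (n + 1), Ay i t (x 1) (x 2)‖ₑ ^ 2
            ≤ 2 * (((Finset.range (n + 1)).card : ℝ≥0∞) *
              ∑ i ∈ Finset.range (n + 1), ‖Ay i t (x 1) (x 2)‖ₑ ^ 2) := by
                gcongr
                exact sumsq _ _
          _ = _ := by rw [hK, mul_assoc]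
      have n2 : ‖Vy t (x 1) 2 + Wy t (x 1)‖ₑ ^ 2 ≤
          K * (‖Vy t (x 1) 2‖ₑ ^ 2 + ‖Wy t (x 1)‖ₑ ^ 2) := by
        refine (LLimAdd.two _ _).trans ?_
        rw [mul_add]
        exact add_le_add (mul_le_mul_left hK2 _) (mul_le_mul_left hK2 _)
      have n3 : ‖SAz t (x 1) (x 2)‖ₑ ^ 2 ≤ K * ∑ i : Fin (n + 1), ‖Az i t (x 1) (x 2)‖ₑ ^ 2 := by
        rw [← Finset.sum_range (fun i => ‖Az i t (x 1) (x 2)‖ₑ ^ 2)]
        refine (sumsq _ _).trans ?_
        gcongr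
      rw [enorm_zero, zero_pow (by norm_num), zero_add]
      refine (add_le_add (add_le_add n1 n2) n3).trans (le_of_eq ?_)
      ring

end Pool.Agent.H309.DP
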