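import Pool.Agent.H309.DP.Stm

/-!
# Project DP: more leaves, and the main statement
-/

set_option autoImplicit false

open Set Filter Topology MeasureTheory
open scoped ENNReal

namespace Pool.Agent.H309.DP

open Pool.Agent.Q61.NC Pool.Agent.H309.DF Pool.Agent.H309.DG

/-- DP16 ENP. Take `Box2` as hypothesis. Proof: `Ioc 0 T' ⊆ Ioc 0 T₀ ∪ Icc T₀ T'`,
`lintegral_union_le`. On the second set the integrand is bounded (the `D i` are bounded on the compact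
set `Icc T₀ T' ×ˢ box a b`, `box a b` has finite volume: see `box_compact` in the finished
`DF/EnergyS.lean`). On the first: `≤ K c ∫∫∫ ∑ ‖H k‖²`; sums and integrals are exchanged after
writing the iterated integral as an integral for the product measure
`(volume.restrict (Ioc 0 T₀)).prod ((volume.restrict (Icc (-a) a)).prod (volume.restrict (Icc (-b) b)))`
(`lintegral_prod`, `Measure.prod_restrict`, `ContinuousOn.aemeasurable`). -/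
def EnP : Prop := ∀ (a b T₀ : ℝ) (K : ℝ≥0∞) (ι : Type) [Fintype ι], 0 < a → 0 < b → 0 < T₀ →
  K ≠ ⊤ → ∀ (D : Fin 3 → ℝ → Sp 3 → Sp 3) (H : ι → ℝ → ℝ → ℝ → ℝ),
  (∀ i, ContinuousOn (fun z : ℝ × Sp 3 => D i z.1 z.2) (Ioi 0 ×ˢ box a b)) →
  (∀ k, ContinuousOn (fun x : ℝ × ℝ × ℝ => H k x.1 x.2.1 x.2.2)
    (Ioi 0 ×ˢ (Icc (-a) a ×ˢ Icc (-b) b))) →
  (∀ k, ∫⁻ t in Ioc 0 T₀, ∫⁻ y in Icc (-a) a, ∫⁻ z in Icc (-b) b, ‖H k t y z‖ₑ ^ 2 < ⊤) →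
  (∀ t, 0 < t → t ≤ T₀ → ∀ x ∈ box a b,
    ∑ i, ‖D i t x‖ₑ ^ 2 ≤ K * ∑ k, ‖H k t (x 1) (x 2)‖ₑ ^ 2) →
  ∀ T' : ℝ, ∫⁻ t in Ioc 0 T', ∫⁻ x in box a b, ∑ i, ‖D i t x‖ₑ ^ 2 < ⊤

/-- DP17 LIMBOX. Take `Box2` as hypothesis. Proof: for `0 < t < T₀`:
`∫_box ‖e t x‖² ≤ K c ∫∫ ∑ ‖H k t‖² = K c ∑ ∫∫ ‖H k t‖²` (the `H k t` are measurable for the product
measure, so sums and both integrals may be exchanged); squeeze. -/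
def LimBox : Prop := ∀ (a b T₀ : ℝ) (K : ℝ≥0∞) (ι : Type) [Fintype ι], 0 < a → 0 < b → 0 < T₀ →
  K ≠ ⊤ → ∀ (e : ℝ → Sp 3 → Sp 3) (H : ι → ℝ → ℝ → ℝ → ℝ),
  (∀ k t, 0 < t → t < T₀ → AEMeasurable (fun z : ℝ × ℝ => H k t z.1 z.2)
    ((volume.restrict (Icc (-a) a)).prod (volume.restrict (Icc (-b) b)))) →
  (∀ k, Tendsto (fun t : ℝ => ∫⁻ y in Icc (-a) a, ∫⁻ z in Icc (-b) b, ‖H k t y z‖ₑ ^ 2)
    (𝓝[>] 0) (𝓝 0)) →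
  (∀ t, 0 < t → t < T₀ → ∀ x ∈ box a b, ‖e t x‖ₑ ^ 2 ≤ K * ∑ k, ‖H k t (x 1) (x 2)‖ₑ ^ 2) →
  Tendsto (fun t : ℝ => ∫⁻ x in box a b, ‖e t x‖ₑ ^ 2) (𝓝[>] 0) (𝓝 0)

/-- DP18 CHAIN. Take `HeatL2`, `Duh` as hypotheses. Proof: recursion: `q 0` by `HeatL2`,
`q (j + 1)` from `q j` by `Duh` (the initial value of `q j` is `f` or `0`, both in `L²`), for all `j`
(`exists_seq`-style choice: build a sequence of quadruples with the property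
`SFlow a (if j = 0 then f else fun _ => 0) (F j) …` by `Nat.rec`). -/
def ChainEx : Prop := ∀ a : ℝ, 0 < a → ∀ w wy wyy : ℝ → ℝ → ℝ, WF a (Ioi 0) w wy wyy → Drf a w →
  ∀ f : ℝ → ℝ, MemLp f 2 (volume.restrict (Icc (-a) a)) → ∀ n : ℕ,
  ∃ q qt qy qyy : ℕ → ℝ → ℝ → ℝ, Chain a n f w q qt qy qyy

/-- DP19 SUMEN. `‖f + g‖² ≤ 2 ‖f‖² + 2 ‖g‖²` (`LLimAdd.two` in `DF/LimAdd.lean`), measurability as in
`DF/EnergyS.lean` (`hslice`, `hpar`). -/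
def SumEn : Prop := ∀ a : ℝ, 0 < a → ∀ f g : ℝ → ℝ → ℝ,
  ContinuousOn (fun z : ℝ × ℝ => f z.1 z.2) (Ioi 0 ×ˢ Icc (-a) a) →
  ContinuousOn (fun z : ℝ × ℝ => g z.1 z.2) (Ioi 0 ×ˢ Icc (-a) a) →
  (∀ T : ℝ, ∫⁻ t in Ioc 0 T, ∫⁻ y in Icc (-a) a, ‖f t y‖ₑ ^ 2 < ⊤) →
  (∀ T : ℝ, ∫⁻ t in Ioc 0 T, ∫⁻ y in Icc (-a) a, ‖g t y‖ₑ ^ 2 < ⊤) →
  ∀ T : ℝ, ∫⁻ t in Ioc 0 T, ∫⁻ y in Icc (-a) a, ‖f t y + g t y‖ₑ ^ 2 < ⊤

/-- `(u, p)` is, for positive times, a classical solution of the Navier-Stokes equations with unit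
viscosity in the box between the plates: `ut`, `D i`, `DD i` and `dp i` are the derivatives `∂ₜ u`,
`∂ᵢ u`, `∂ᵢ² u` and `∂ᵢ p`; `u`, `p` and these derivatives are continuous up to the boundary of
the box. On the plates `x 1 = ± a` the velocity is that of the shear flow `V`; it starts at
`U` (in `L²`), has locally finite energy, and from time `T` on it is the shear flow `V`. The
pressure is that of `V`. -/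
def SteerU (a b T : ℝ) (U : Sp 3 → Sp 3) (V : ℝ → ℝ → Sp 3) (G : ℝ → Sp 3)
    (u : ℝ → Sp 3 → Sp 3) (p : ℝ → Sp 3 → ℝ) : Prop :=
  ∃ (ut : ℝ → Sp 3 → Sp 3) (D DD : Fin 3 → ℝ → Sp 3 → Sp 3) (dp : ℝ → Sp 3 → Sp 3),
    ContinuousOn (fun z : ℝ × Sp 3 => u z.1 z.2) (Ioi 0 ×ˢ box a b) ∧
    ContinuousOn (fun z : ℝ × Sp 3 => p z.1 z.2) (Ioi 0 ×ˢ box a b) ∧
    ContinuousOn (fun z : ℝ × Sp 3 => ut z.1 z.2) (Ioi 0 ×ˢ box a b) ∧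
    (∀ i, ContinuousOn (fun z : ℝ × Sp 3 => D i z.1 z.2) (Ioi 0 ×ˢ box a b)) ∧
    (∀ i, ContinuousOn (fun z : ℝ × Sp 3 => DD i z.1 z.2) (Ioi 0 ×ˢ box a b)) ∧
    ContinuousOn (fun z : ℝ × Sp 3 => dp z.1 z.2) (Ioi 0 ×ˢ box a b) ∧
    (∀ t, 0 < t → ∀ x ∈ obox a b, HasDerivAt (fun s => u s x) (ut t x) t) ∧
    (∀ t, 0 < t → ∀ x ∈ obox a b, ∀ i,
      HasLineDerivAt ℝ (u t) (D i t x) x (EuclideanSpace.single i 1)) ∧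
    (∀ t, 0 < t → ∀ x ∈ obox a b, ∀ i,
      HasLineDerivAt ℝ (D i t) (DD i t x) x (EuclideanSpace.single i 1)) ∧
    (∀ t, 0 < t → ∀ x ∈ obox a b, ∀ i,
      HasLineDerivAt ℝ (p t) (dp t x i) x (EuclideanSpace.single i 1)) ∧
    (∀ t, 0 < t → ∀ x ∈ box a b,
      ut t x + ∑ i, u t x i • D i t x - ∑ i, DD i t x + dp t x = 0) ∧
    (∀ t, 0 < t → ∀ x ∈ box a b, ∑ i, D i t x i = 0) ∧
    (∀ t, 0 < t → ∀ x ∈ box a b, |x 1| = a → u t x = V t (x 1)) ∧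
    (∀ t, T ≤ t → ∀ x ∈ box a b, u t x = V t (x 1)) ∧
    (∀ t, 0 < t → ∀ x ∈ box a b, p t x = G t 0 * x 0 + G t 2 * x 2) ∧
    Tendsto (fun t => ∫⁻ x in box a b, ‖u t x - U x‖ₑ ^ 2) (𝓝[>] 0) (𝓝 0) ∧
    ∀ T' : ℝ, ∫⁻ t in Ioc 0 T', ∫⁻ x in box a b, ∑ i, ‖D i t x‖ₑ ^ 2 < ⊤

/-- The theorem. -/
def MainP : Prop := ∀ a b T : ℝ, 0 < a → 0 < b → 0 < T → ∀ (n : ℕ) (P : ℕ → ℝ → ℝ) (Q : ℝ → ℝ),
  (∀ i, MemLp (P i) 2 (volume.restrict (Icc (-a) a))) →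
  MemLp Q 2 (volume.restrict (Icc (-a) a)) →
  ∀ (V : ℝ → ℝ → Sp 3) (G : ℝ → Sp 3), Shear a V G → ∃ u p,
    SteerU a b T (fun x => vec (∑ i ∈ Finset.range (n + 1), x 2 ^ i * P i (x 1)) (Q (x 1)))
      V G u p

end Pool.Agent.H309.DP
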