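import Pool.Agent.H309.DP.Stm2

/-!
# Project DT: steering to trajectories that are polynomial in the spanwise variable

Leaves with paper proofs.
-/

set_option autoImplicit false

open Set Filter Topology MeasureTheory
open scoped ENNReal

namespace Pool.Agent.H309.DP

open Pool.Agent.Q61.NC Pool.Agent.H309.DF Pool.Agent.H309.DG

/-- `∑_{i ≤ n} zⁱ c i (t, y)` solves `∂ₜ A + w ∂_z A = ∂_y² A + ∂_z² A`, `A = 0` at `y = ± a`, with the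
initial value `∑ zⁱ P i (y)` (in `L²`) and locally finite energy (`c i = 0` for `i > n`). -/
structure PolyT (a : ℝ) (n : ℕ) (w : ℝ → ℝ → ℝ) (P : ℕ → ℝ → ℝ) (c ct cy cyy : ℕ → ℝ → ℝ → ℝ) :
    Prop where
  fl : ∀ i, i ≤ n → SFlow a (P i) (fun t y => ((i : ℝ) + 1) * ((i : ℝ) + 2) * c (i + 2) t y -
    ((i : ℝ) + 1) * (w t y * c (i + 1) t y)) (c i) (ct i) (cy i) (cyy i)
  van : ∀ i, n < i → ∀ t y, c i t y = 0

/-- `hp n m t` is the `m`-th `z`-derivative at `z = 0` of the heat polynomial with initial value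
`z ^ n`. -/
def hp : ℕ → ℕ → ℝ → ℝ
  | 0, 0, _ => 1
  | 0, _ + 1, _ => 0
  | n + 1, m, t => (m : ℝ) * hp n (m - 1) t + 2 * t * hp n (m + 1) t

/-- DT1 HP. Facts about `hp`. Proof: induction on `n`. -/
def HpF : Prop := (∀ n m t, HasDerivAt (hp n m) (hp n (m + 2) t) t) ∧
  (∀ n m t, n < m → hp n m t = 0) ∧ (∀ n t, hp n n t = (n.factorial : ℝ)) ∧
  (∀ n m, m ≠ n → hp n m 0 = 0) ∧
  ∀ n m t z, ∑ i ∈ Finset.range (n + 2), z ^ i / (i.factorial : ℝ) * hp (n + 1) (i + m) t =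
    z * (∑ i ∈ Finset.range (n + 1), z ^ i / (i.factorial : ℝ) * hp n (i + m) t) +
    (m : ℝ) * (∑ i ∈ Finset.range (n + 1), z ^ i / (i.factorial : ℝ) * hp n (i + (m - 1)) t) +
    2 * t * ∑ i ∈ Finset.range (n + 1), z ^ i / (i.factorial : ℝ) * hp n (i + (m + 1)) t

/-- DT2 RPOLY2. Take `HpF` as hypothesis. As `RPoly` (finished: `DP/RPoly.lean`, same induction and
same step `S j t z = z * R j t z + j * R (j - 1) t z + 2 * t * R (j + 1) t z`), with the formula for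
`t ≤ T / 2` carried along (last part of `HpF`). -/
def RPoly2 : Prop := ∀ (n : ℕ) (b T ε : ℝ), 0 < b → 0 < T → 0 < ε →
  ∃ R : ℕ → ℝ → ℝ → ℝ, RFamP n b T ε R ∧ ∀ j t z, 0 < t → t ≤ T / 2 →
    R j t z = ∑ i ∈ Finset.range (n + 1), z ^ i / (i.factorial : ℝ) * hp n (i + j) t

/-- DT3 DRIFTP2. Hypotheses `FamP`, `RPoly2`, `SumCont`, `SumDer`. Copy of the finished
`DP/DriftP.lean`, with `R` from `RPoly2` and the formula kept in the conclusion. -/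
def DriftP2 : Prop := ∀ (a b T : ℝ) (n : ℕ), 0 < a → 0 < b → 0 < T → ∀ w wy wyy : ℝ → ℝ → ℝ,
  WF a (Ioi 0) w wy wyy → ∀ (f : ℝ → ℝ) (q qt qy qyy : ℕ → ℝ → ℝ → ℝ),
  Chain a n f w q qt qy qyy →
  ∃ (ε : ℝ) (R : ℕ → ℝ → ℝ → ℝ) (A At Ay Ayy Az Azz : ℝ → ℝ → ℝ → ℝ), 0 < ε ∧
    RFamP n b T ε R ∧ (∀ j t z, 0 < t → t ≤ T / 2 →
      R j t z = ∑ i ∈ Finset.range (n + 1), z ^ i / (i.factorial : ℝ) * hp n (i + j) t) ∧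
    PDrift a b T n w q qy R A At Ay Ayy Az Azz

/-- DT4 UNI. Proof: `d = q - q'` is a `CFlow` with source `0`; `E t = ∫ d²` has `E' = -2 ∫ d_y² ≤ 0` for
`t > 0` (as in the finished `DP/EnI.lean`) and `E → 0` as `t → 0` (`‖d‖² ≤ 2 ‖q - f‖² + 2 ‖q' - f‖²`);
so `E = 0` and `d = 0` by continuity. -/
def Uni : Prop := ∀ a : ℝ, 0 < a → ∀ (f : ℝ → ℝ) (F F' q qt qy qyy q' qt' qy' qyy' : ℝ → ℝ → ℝ),
  MemLp f 2 (volume.restrict (Icc (-a) a)) → SFlow a f F q qt qy qyy →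
  SFlow a f F' q' qt' qy' qyy' → (∀ t, 0 < t → ∀ y ∈ Icc (-a) a, F t y = F' t y) →
  ∀ t, 0 < t → ∀ y ∈ Icc (-a) a, q t y = q' t y

/-- DT5 UNIPOLY. Take `Uni` as hypothesis. Proof: downward induction on `i` (both vanish for `i > n`;
for `i ≤ n` the sources agree by the induction hypothesis). -/
def UniPoly : Prop := ∀ (a : ℝ) (n : ℕ), 0 < a → ∀ (w : ℝ → ℝ → ℝ) (P : ℕ → ℝ → ℝ)
  (c ct cy cyy c' ct' cy' cyy' : ℕ → ℝ → ℝ → ℝ),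
  (∀ i, MemLp (P i) 2 (volume.restrict (Icc (-a) a))) → PolyT a n w P c ct cy cyy →
  PolyT a n w P c' ct' cy' cyy' → ∀ i t, 0 < t → ∀ y ∈ Icc (-a) a, c i t y = c' i t y

/-- DT6 COEF. Take `HpF` as hypothesis. Let `s i j t = hp n (i + j) t / i!` and
`c i = ∑_{j ≤ n} q j * s i j` (so `c i = 0` for `i > n`), `ct i = ∑ (qt j * s i j + q j * s i (j + 2))`,
`cy`, `cyy` in the obvious way. Equation: `ct i - cyy i = ∑_j (-[j ≥ 1] w q (j - 1)) s i j +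
∑_j q j s i (j + 2)`; `s i (j + 2) = (i + 1) (i + 2) s (i + 2) j` and `s i (j + 1) = (i + 1) s (i + 1) j`
(both `hp n (i + j + 2) / i!` etc.), and `s i (n + 1) = 0`. Initial value: `hp n m t → hp n m 0`
(continuous), which is `n!` for `m = n` and `0` otherwise; `q j → 0` for `j ≥ 1`, `q 0 → f`; so
`c n → f` and `c i → 0` for `i < n`. (Each term: `‖q s - g‖² ≤ …`; the factor `s` is bounded on `(0, T]`
and the `L²` norms of `q j t` are bounded near `0`.) Energy: `|s|` bounded on `(0, T]`,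
`(∑_{j ≤ n} x_j)² ≤ (n + 1) ∑ x_j²`. -/
def Coef : Prop := ∀ (a : ℝ) (n : ℕ), 0 < a → ∀ (w : ℝ → ℝ → ℝ) (f : ℝ → ℝ)
  (q qt qy qyy : ℕ → ℝ → ℝ → ℝ), MemLp f 2 (volume.restrict (Icc (-a) a)) →
  Chain a n f w q qt qy qyy →
  ∃ c ct cy cyy : ℕ → ℝ → ℝ → ℝ, PolyT a n w (fun i => if i = n then f else fun _ => 0)
    c ct cy cyy ∧ ∀ i t y, c i t y =
      ∑ j ∈ Finset.range (n + 1), q j t y * (hp n (i + j) t / (i.factorial : ℝ))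

/-- DT7 POLYSUM (sums of polynomial solutions; also raises the degree). Proof: `SFlow` is additive
(`‖f + g‖² ≤ 2 ‖f‖² + 2 ‖g‖²`: `LLimAdd.two` in `DF/LimAdd.lean`, `SumEn` in `DP/SumEn.lean`); for
`i > k` the functions `c k i` vanish (so does the initial value used there) and the zero functions
form an `SFlow` (replace the derivatives by `0` where `i > k`: define the sum over `k ∈ Icc i n` only).
State and prove by induction or directly with `Finset.sum`. -/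
def PolySum : Prop := ∀ (a : ℝ) (n : ℕ), 0 < a → ∀ (w : ℝ → ℝ → ℝ) (P : ℕ → ℝ → ℝ)
  (c ct cy cyy : ℕ → ℕ → ℝ → ℝ → ℝ), (∀ i, MemLp (P i) 2 (volume.restrict (Icc (-a) a))) →
  (∀ k, k ≤ n → PolyT a k w (fun i => if i = k then P k else fun _ => 0)
    (c k) (ct k) (cy k) (cyy k)) →
  ∃ ct' cy' cyy' : ℕ → ℝ → ℝ → ℝ,
    PolyT a n w P (fun i t y => ∑ k ∈ Finset.range (n + 1), c k i t y) ct' cy' cyy'

/-- The solution `E` of `∂ₜ E + w ∂_z E = ∂_y² E + ∂_z² E` on `|y| ≤ a`, `|z| ≤ b`, equal to `0` for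
`t ≤ T / 2` and to `∑_{i ≤ n} zⁱ c i (t, y)` for `t ≥ T`, vanishing at `y = ± a`. -/
structure SwE (a b T : ℝ) (n : ℕ) (w : ℝ → ℝ → ℝ) (co : ℕ → ℝ → ℝ → ℝ)
    (A At Ay Ayy Az Azz : ℝ → ℝ → ℝ → ℝ) : Prop where
  c : ContinuousOn (fun x : ℝ × ℝ × ℝ => A x.1 x.2.1 x.2.2)
    (Ioi 0 ×ˢ (Icc (-a) a ×ˢ Icc (-b) b))
  ct : ContinuousOn (fun x : ℝ × ℝ × ℝ => At x.1 x.2.1 x.2.2)
    (Ioi 0 ×ˢ (Icc (-a) a ×ˢ Icc (-b) b))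
  cy : ContinuousOn (fun x : ℝ × ℝ × ℝ => Ay x.1 x.2.1 x.2.2)
    (Ioi 0 ×ˢ (Icc (-a) a ×ˢ Icc (-b) b))
  cyy : ContinuousOn (fun x : ℝ × ℝ × ℝ => Ayy x.1 x.2.1 x.2.2)
    (Ioi 0 ×ˢ (Icc (-a) a ×ˢ Icc (-b) b))
  cz : ContinuousOn (fun x : ℝ × ℝ × ℝ => Az x.1 x.2.1 x.2.2)
    (Ioi 0 ×ˢ (Icc (-a) a ×ˢ Icc (-b) b))
  czz : ContinuousOn (fun x : ℝ × ℝ × ℝ => Azz x.1 x.2.1 x.2.2)
    (Ioi 0 ×ˢ (Icc (-a) a ×ˢ Icc (-b) b))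
  dt : ∀ t, 0 < t → ∀ y ∈ Icc (-a) a, ∀ z ∈ Icc (-b) b,
    HasDerivAt (fun s => A s y z) (At t y z) t
  dy : ∀ t, 0 < t → ∀ y ∈ Ioo (-a) a, ∀ z ∈ Icc (-b) b,
    HasDerivAt (fun s => A t s z) (Ay t y z) y
  dyy : ∀ t, 0 < t → ∀ y ∈ Ioo (-a) a, ∀ z ∈ Icc (-b) b,
    HasDerivAt (fun s => Ay t s z) (Ayy t y z) y
  dz : ∀ t, 0 < t → ∀ y ∈ Icc (-a) a, ∀ z ∈ Ioo (-b) b,
    HasDerivAt (fun s => A t y s) (Az t y z) z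
  dzz : ∀ t, 0 < t → ∀ y ∈ Icc (-a) a, ∀ z ∈ Ioo (-b) b,
    HasDerivAt (fun s => Az t y s) (Azz t y z) z
  pde : ∀ t, 0 < t → ∀ y ∈ Icc (-a) a, ∀ z ∈ Icc (-b) b,
    At t y z + w t y * Az t y z = Ayy t y z + Azz t y z
  wall : ∀ t, 0 < t → ∀ z ∈ Icc (-b) b, A t a z = 0 ∧ A t (-a) z = 0
  early : ∀ t, 0 < t → t ≤ T / 2 → ∀ y ∈ Icc (-a) a, ∀ z ∈ Icc (-b) b,
    A t y z = 0 ∧ Ay t y z = 0 ∧ Az t y z = 0
  late : ∀ t, T ≤ t → ∀ y ∈ Icc (-a) a, ∀ z ∈ Icc (-b) b,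
    A t y z = ∑ i ∈ Finset.range (n + 1), z ^ i * co i t y

/-- DT8 POLYFIELD. The field `∑ zⁱ c i` of a `PolyT` is classical: the derivatives are
`At = ∑ zⁱ ct i`, `Ay = ∑ zⁱ cy i`, `Ayy = ∑ zⁱ cyy i`, `Az = ∑ zⁱ (i + 1) c (i + 1)`,
`Azz = ∑ zⁱ (i + 1) (i + 2) c (i + 2)` (the sums over `i ≤ n`; the terms beyond vanish). -/
def PolyField : Prop := ∀ (a b : ℝ) (n : ℕ), 0 < a → 0 < b → ∀ (w : ℝ → ℝ → ℝ) (P : ℕ → ℝ → ℝ)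
  (c ct cy cyy : ℕ → ℝ → ℝ → ℝ), PolyT a n w P c ct cy cyy →
  ∃ A At Ay Ayy Az Azz : ℝ → ℝ → ℝ → ℝ,
    (∀ t y z, A t y z = ∑ i ∈ Finset.range (n + 1), z ^ i * c i t y) ∧
    (∀ t y z, Az t y z = ∑ i ∈ Finset.range (n + 1), z ^ i * (((i : ℝ) + 1) * c (i + 1) t y)) ∧
    (∀ F ∈ [A, At, Ay, Ayy, Az, Azz], ContinuousOn (fun x : ℝ × ℝ × ℝ => F x.1 x.2.1 x.2.2)
      (Ioi 0 ×ˢ (Icc (-a) a ×ˢ Icc (-b) b))) ∧
    (∀ t, 0 < t → ∀ y ∈ Icc (-a) a, ∀ z, HasDerivAt (fun s => A s y z) (At t y z) t) ∧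
    (∀ t, 0 < t → ∀ y ∈ Ioo (-a) a, ∀ z, HasDerivAt (fun s => A t s z) (Ay t y z) y) ∧
    (∀ t, 0 < t → ∀ y ∈ Ioo (-a) a, ∀ z, HasDerivAt (fun s => Ay t s z) (Ayy t y z) y) ∧
    (∀ t y z, HasDerivAt (fun s => A t y s) (Az t y z) z) ∧
    (∀ t y z, HasDerivAt (fun s => Az t y s) (Azz t y z) z) ∧
    (∀ t, 0 < t → ∀ y ∈ Icc (-a) a, ∀ z,
      At t y z + w t y * Az t y z = Ayy t y z + Azz t y z) ∧
    ∀ t, 0 < t → ∀ z, A t a z = 0 ∧ A t (-a) z = 0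

/-- DT9 SWON. Hypotheses `ChainEx`, `DriftP2`, `Coef`, `PolySum`, `UniPoly`, `PolyField` (in this
order). Proof: for `k ≤ n` (use all `k`): `ChainEx` with `f = P k`, length `k`; `DriftP2` gives
`R k`, `A k, …`; `Coef` gives `c' k`. By `PolySum` and `UniPoly`: `∑_{k ≤ n} c' k i = c i`. For
`t ≤ T / 2`: `∑_k A k = ∑_k ∑_j q k j R k j = ∑_k ∑_j ∑_{i ≤ k} q k j zⁱ / i! hp k (i + j) =
∑_k ∑_{i ≤ k} zⁱ c' k i = ∑_{i ≤ n} zⁱ c i` (`c' k i = 0` for `i > k`: `PolyT.van`). Put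
`E = (field of PolyField) - ∑_{k ≤ n} A k`. `early`: `E = 0` on `|y| ≤ a`, `|z| ≤ b`, so
`Ez = 0` for `|z| < b` and `Ey = 0` for `|y| < a` (uniqueness of the derivative), and on the closed sets
by continuity. `late`: `A k = 0`. The other items by linearity (see `SA` in `DP/MainP.lean`). -/
def SwOn : Prop := ∀ (a b T : ℝ) (n : ℕ), 0 < a → 0 < b → 0 < T → ∀ w wy wyy : ℝ → ℝ → ℝ,
  WF a (Ioi 0) w wy wyy → Drf a w → ∀ (P : ℕ → ℝ → ℝ) (c ct cy cyy : ℕ → ℝ → ℝ → ℝ),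
  (∀ i, MemLp (P i) 2 (volume.restrict (Icc (-a) a))) → PolyT a n w P c ct cy cyy →
  ∃ E Et Ey Eyy Ez Ezz : ℝ → ℝ → ℝ → ℝ, SwE a b T n w c E Et Ey Eyy Ez Ezz

/-- As `SteerU`, with a target `V` depending on all variables. -/
def SteerT (a b T : ℝ) (U : Sp 3 → Sp 3) (V : ℝ → Sp 3 → Sp 3) (G : ℝ → Sp 3)
    (u : ℝ → Sp 3 → Sp 3) (p : ℝ → Sp 3 → ℝ) : Prop :=
  ∃ (ut : ℝ → Sp 3 → Sp 3) (D DD : Fin 3 → ℝ → Sp 3 → Sp 3) (dp : ℝ → Sp 3 → Sp 3),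
    ContinuousOn (fun z : ℝ × Sp 3 => u z.1 z.2) (Ioi 0 ×ˢ box a b) ∧
    ContinuousOn (fun z : ℝ × Sp 3 => p z.1 z.2) (Ioi 0 ×ˢ box a b) ∧
    ContinuousOn (fun z : ℝ × Sp 3 => ut z.1 z.2) (Ioi 0 ×ˢ box a b) ∧
    (∀ i, ContinuousOn (fun z : ℝ × Sp 3 => D i z.1 z.2) (Ioi 0 ×ˢ box a b)) ∧
    (∀ i, ContinuousOn (fun z : ℝ × Sp 3 => DD i z.1 z.2) (Ioi 0 ×ˢ box a b)) ∧
    ContinuousOn (fun z : ℝ × Sp 3 => dp z.1 z.2) (Ioi 0 ×ˢ box a b) ∧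
    (∀ t, 0 < t → ∀ x ∈ obox a b, HasDerivAt (fun s => u s x) (ut t x) t) ∧
    (∀ t, 0 < t → ∀ x ∈ obox a b, ∀ i,
      HasLineDerivAt ℝ (u t) (D i t x) x (EuclideanSpace.single i 1)) ∧
    (∀ t, 0 < t → ∀ x ∈ obox a b, ∀ i,
      HasLineDerivAt ℝ (D i t) (DD i t x) x (EuclideanSpace.single i 1)) ∧
    (∀ t, 0 < t → ∀ x ∈ obox a b, ∀ i,
      HasLineDerivAt ℝ (p t) (dp t x i) x (EuclideanSpace.single i 1)) ∧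
    (∀ t, 0 < t → ∀ x ∈ box a b,
      ut t x + ∑ i, u t x i • D i t x - ∑ i, DD i t x + dp t x = 0) ∧
    (∀ t, 0 < t → ∀ x ∈ box a b, ∑ i, D i t x i = 0) ∧
    (∀ t, 0 < t → ∀ x ∈ box a b, |x 1| = a → u t x = V t x) ∧
    (∀ t, T ≤ t → ∀ x ∈ box a b, u t x = V t x) ∧
    (∀ t, 0 < t → ∀ x ∈ box a b, p t x = G t 0 * x 0 + G t 2 * x 2) ∧
    Tendsto (fun t => ∫⁻ x in box a b, ‖u t x - U x‖ₑ ^ 2) (𝓝[>] 0) (𝓝 0) ∧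
    ∀ T' : ℝ, ∫⁻ t in Ioc 0 T', ∫⁻ x in box a b, ∑ i, ‖D i t x‖ₑ ^ 2 < ⊤

/-- The theorem: from every initial velocity `(∑ zⁱ Pᵢ(y), 0, Q(y))` to every trajectory
`V = Vs + (∑ zⁱ cᵢ(t, y), 0, 0)`, `Vs` a shear trajectory. -/
def MainTr : Prop := ∀ a b T : ℝ, 0 < a → 0 < b → 0 < T → ∀ (n : ℕ) (P : ℕ → ℝ → ℝ) (Q : ℝ → ℝ),
  (∀ i, MemLp (P i) 2 (volume.restrict (Icc (-a) a))) →
  MemLp Q 2 (volume.restrict (Icc (-a) a)) →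
  ∀ (Vs : ℝ → ℝ → Sp 3) (G : ℝ → Sp 3), Shear a Vs G →
  ∀ (m : ℕ) (C : ℕ → ℝ → ℝ) (c ct cy cyy : ℕ → ℝ → ℝ → ℝ),
  (∀ i, MemLp (C i) 2 (volume.restrict (Icc (-a) a))) →
  PolyT a m (fun t y => Vs t y 2) C c ct cy cyy → ∃ u p,
    SteerT a b T (fun x => vec (∑ i ∈ Finset.range (n + 1), x 2 ^ i * P i (x 1)) (Q (x 1)))
      (fun t x => Vs t (x 1) + vec (∑ i ∈ Finset.range (m + 1), x 2 ^ i * c i t (x 1)) 0) G u p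

end Pool.Agent.H309.DP
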